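import Pool.Agent.Lib.MP_6d0ce9_ag.Sh

/-!
# Graded classes of objects and their closures
-/

set_option linter.unusedSectionVars false

universe w v u

open CategoryTheory Category Limits MonoidalCategory Pretriangulated Triangulated
  ObjectProperty

namespace Pool.Agent.Lib.MotT

section Closure

variable {T : Type u} [Category.{v} T] [Preadditive T] [HasZeroObject T] [HasShift T ℤ]
  [∀ n : ℤ, (shiftFunctor T n).Additive] [Pretriangulated T] {D : ℤ → ObjectProperty T}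

/-- Iterated extensions of objects of `D n`, for `n` satisfying `p`. -/
def Clo (D : ℤ → ObjectProperty T) (p : ℤ → Prop) : ObjectProperty T :=
  fun X => ∃ l : List ℤ, (∀ a ∈ l, p a) ∧ Sorting.E D l X

/-- Retracts of iterated extensions of objects of `D n`, for `n` satisfying `p`. -/
def RC (D : ℤ → ObjectProperty T) (p : ℤ → Prop) : ObjectProperty T :=
  (Clo D p).retractClosure

instance (p : ℤ → Prop) : (Clo D p).IsClosedUnderIsomorphisms where
  of_iso e h := by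
    obtain ⟨l, hl, hX⟩ := h
    exact ⟨l, hl, (Sorting.E D l).prop_of_iso e hX⟩

lemma RC_retract {p : ℤ → Prop} {X Y : T} (r : Retract X Y) (h : RC D p Y) : RC D p X := by
  obtain ⟨Z, hZ, ⟨r'⟩⟩ := h
  exact ⟨Z, hZ, ⟨r.trans r'⟩⟩

instance (p : ℤ → Prop) : (RC D p).IsClosedUnderIsomorphisms where
  of_iso e h := RC_retract (Retract.ofIso e.symm) h

lemma RC_of_isZero {p : ℤ → Prop} {X : T} (hX : IsZero X) : RC D p X :=
  ⟨X, ⟨[], by simp, hX⟩, ⟨Retract.refl X⟩⟩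

instance (p : ℤ → Prop) : (RC D p).ContainsZero where
  exists_zero := ⟨_, isZero_zero T, RC_of_isZero (isZero_zero T)⟩

lemma RC_mono {p q : ℤ → Prop} (h : ∀ n, p n → q n) {X : T} (hX : RC D p X) : RC D q X := by
  obtain ⟨Y, ⟨l, hl, hY⟩, hr⟩ := hX
  exact ⟨Y, ⟨l, fun a ha => h a (hl a ha), hY⟩, hr⟩

lemma RC_of [∀ n, (D n).IsClosedUnderIsomorphisms] (p : ℤ → Prop) (n : ℤ) (hn : p n) {X : T}
    (hX : D n X) : RC D p X := by
  refine ⟨X, ⟨[n], by simpa using hn, ?_⟩, ⟨Retract.refl X⟩⟩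
  rw [Sorting.E_single]
  exact hX

variable [IsTriangulated T]

lemma Clo_ext {p : ℤ → Prop} {A X B : T} {f : A ⟶ X} {g : X ⟶ B}
    {δ : B ⟶ A⟦(1 : ℤ)⟧} (hT : Triangle.mk f g δ ∈ distTriang T) (hA : Clo D p A)
    (hB : Clo D p B) : Clo D p X := by
  obtain ⟨l, hl, hA⟩ := hA
  obtain ⟨l', hl', hB⟩ := hB
  refine ⟨l ++ l', ?_, ?_⟩
  · intro a ha
    rcases List.mem_append.1 ha with h | h
    · exact hl a h
    · exact hl' a h
  · rw [Sorting.E_append]
    exact ⟨A, B, f, g, δ, hT, hA, hB⟩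

lemma RC_extClosed (p : ℤ → Prop) : Sorting.ExtClosed (RC D p) := by
  intro X hX
  have h1 := extensionProduct_retractClosure_retractClosure_le _ _ X hX
  refine monotone_retractClosure ?_ X h1
  rintro X ⟨A, B, f, g, δ, hT, hA, hB⟩
  exact Clo_ext hT hA hB

lemma RC_ext {p : ℤ → Prop} {A X B : T} {f : A ⟶ X} {g : X ⟶ B}
    {δ : B ⟶ A⟦(1 : ℤ)⟧} (hT : Triangle.mk f g δ ∈ distTriang T) (hA : RC D p A)
    (hB : RC D p B) : RC D p X :=
  RC_extClosed p X ⟨A, B, f, g, δ, hT, hA, hB⟩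

lemma RC_shift (hS : ∀ (n a : ℤ) (X : T), D n X → D (n - a) (X⟦a⟧)) {p q : ℤ → Prop}
    (a : ℤ) (hpq : ∀ n, p n → q (n - a)) {X : T} (hX : RC D p X) : RC D q (X⟦a⟧) := by
  obtain ⟨Y, ⟨l, hl, hY⟩, ⟨r⟩⟩ := hX
  refine ⟨Y⟦a⟧, ⟨l.map (· - a), ?_, Sorting.E_shift hS a l Y hY⟩, ⟨r.map (shiftFunctor T a)⟩⟩
  intro b hb
  obtain ⟨c, hc, rfl⟩ := List.mem_map.1 hb
  exact hpq c (hl c hc)

end Closure

section Tensor

variable {T : Type u} [Category.{v} T] [Preadditive T] [HasZeroObject T] [HasShift T ℤ]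
  [∀ n : ℤ, (shiftFunctor T n).Additive] [Pretriangulated T] [MonoidalCategory T]
  [SymmetricCategory T] [∀ X : T, (tensorLeft X).CommShift ℤ]
  [∀ X : T, (tensorLeft X).IsTriangulated]

lemma tri_right (X : T) {A B C : T} {f : A ⟶ B} {g : B ⟶ C} {h : C ⟶ A⟦(1 : ℤ)⟧}
    (hT : Triangle.mk f g h ∈ distTriang T) :
    ∃ δ : C ⊗ X ⟶ (A ⊗ X)⟦(1 : ℤ)⟧, Triangle.mk (f ▷ X) (g ▷ X) δ ∈ distTriang T := by
  obtain ⟨δ, hδ⟩ : ∃ δ : X ⊗ C ⟶ (X ⊗ A)⟦(1 : ℤ)⟧,
    Triangle.mk (X ◁ f) (X ◁ g) δ ∈ distTriang T := tri_left X _ hT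
  refine ⟨(β_ C X).hom ≫ δ ≫ (β_ A X).inv⟦(1 : ℤ)⟧', ?_⟩
  refine isomorphic_distinguished _ hδ _ (Triangle.isoMk _ _ (β_ A X) (β_ B X) (β_ C X)
    ?_ ?_ ?_)
  · exact BraidedCategory.braiding_naturality_left f X
  · exact BraidedCategory.braiding_naturality_left g X
  · change ((β_ C X).hom ≫ δ ≫ (β_ A X).inv⟦(1 : ℤ)⟧') ≫ (β_ A X).hom⟦(1 : ℤ)⟧' =
      (β_ C X).hom ≫ δ
    rw [assoc, assoc, ← Functor.map_comp, Iso.inv_hom_id, CategoryTheory.Functor.map_id,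
      comp_id]

variable {D : ℤ → ObjectProperty T} [IsTriangulated T]

lemma RC_tensor [∀ n, (D n).IsClosedUnderIsomorphisms]
    (hT : ∀ {a b c : ℤ} {X Y : T}, a + b = c → D a X → D b Y → D c (X ⊗ Y))
    {p : ℤ → Prop} {C X : T} (hC : D 0 C) (hX : RC D p X) : RC D p (C ⊗ X) := by
  obtain ⟨Y, ⟨l, hl, hY⟩, ⟨r⟩⟩ := hX
  refine ⟨C ⊗ Y, ⟨l, hl, ?_⟩, ⟨r.map (tensorLeft C)⟩⟩
  clear r hl
  induction l generalizing Y with
  | nil => exact isZero_tensor_left C hY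
  | cons a l ih =>
    obtain ⟨A, B, f, g, δ, hT', hA, hB⟩ := hY
    obtain ⟨δ', hT''⟩ := tri_left C _ hT'
    exact ⟨_, _, _, _, _, hT'', hT (zero_add a) hC hA, ih _ hB⟩

lemma RC_tensor₁ [∀ n, (D n).IsClosedUnderIsomorphisms]
    (hT : ∀ {a b c : ℤ} {X Y : T}, a + b = c → D a X → D b Y → D c (X ⊗ Y))
    {p : ℤ → Prop} (a : ℤ) (hp : ∀ b, p b → p (a + b)) {C X : T} (hC : D a C)
    (hX : RC D p X) : RC D p (C ⊗ X) := by
  obtain ⟨Y, ⟨l, hl, hY⟩, ⟨r⟩⟩ := hX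
  refine ⟨C ⊗ Y, ⟨l.map (a + ·), ?_, ?_⟩, ⟨r.map (tensorLeft C)⟩⟩
  · intro b hb
    obtain ⟨c, hc, rfl⟩ := List.mem_map.1 hb
    exact hp c (hl c hc)
  · clear r hl
    induction l generalizing Y with
    | nil => exact isZero_tensor_left C hY
    | cons b l ih =>
      obtain ⟨A, B, f, g, δ, hT', hA, hB⟩ := hY
      obtain ⟨δ', hT''⟩ := tri_left C _ hT'
      exact ⟨_, _, _, _, _, hT'', hT rfl hC hA, ih _ hB⟩

lemma isZero_tensor_right' {X : T} (hX : IsZero X) (Y : T) : IsZero (X ⊗ Y) :=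
  (isZero_tensor_left Y hX).of_iso (β_ X Y)

/-- Compatibility with tensor products when the condition on degrees is stable under sums. -/
lemma RC_tensor₂ [∀ n, (D n).IsClosedUnderIsomorphisms]
    (hT : ∀ {a b c : ℤ} {X Y : T}, a + b = c → D a X → D b Y → D c (X ⊗ Y))
    {p : ℤ → Prop} (hp : ∀ a b, p a → p b → p (a + b)) {X Y : T} (hX : RC D p X)
    (hY : RC D p Y) : RC D p (X ⊗ Y) := by
  obtain ⟨X', ⟨l, hl, hX'⟩, ⟨r⟩⟩ := hX
  have h1 : RC D p (X' ⊗ Y) := by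
    clear r
    induction l generalizing X' with
    | nil => exact RC_of_isZero (isZero_tensor_right' hX' Y)
    | cons a l ih =>
      obtain ⟨A, B, f, g, δ, hT', hA, hB⟩ := hX'
      obtain ⟨δ', hT''⟩ := tri_right Y hT'
      have h2 : RC D p (A ⊗ Y) :=
        RC_tensor₁ hT a (fun b hb => hp a b (hl a (by simp)) hb) hA hY
      exact RC_ext hT'' h2 (ih B (fun b hb => hl b (by simp [hb])) hB)
  exact RC_retract (r.map (tensorRight Y)) h1

end Tensor

namespace Realization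

variable {T : Type u} [Category.{v} T] [Preadditive T] [HasZeroObject T] [HasShift T ℤ]
  [∀ n : ℤ, (shiftFunctor T n).Additive] [Pretriangulated T] [MonoidalCategory T]
  [SymmetricCategory T] {F : Type w} [Field F]

/-- A graded class of objects whose cohomology is concentrated in the given degree, stable
under shifts, tensor products and duals, and for which the realisation is injective on
morphisms from the unit. -/
structure Adm (R : Realization T F) (D : ℤ → ObjectProperty T) : Prop where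
  iso : ∀ n, (D n).IsClosedUnderIsomorphisms
  pure : ∀ {n : ℤ} {X : T}, D n X → R.ConcentratedIn n X
  shift : ∀ (n a : ℤ) (X : T), D n X → D (n - a) (X⟦a⟧)
  tensor : ∀ {a b c : ℤ} {X Y : T}, a + b = c → D a X → D b Y → D c (X ⊗ Y)
  unit : D 0 (𝟙_ T)
  dual : ∀ {X : T}, D 0 X → ∃ Y, Nonempty (ExactPairing X Y) ∧ D 0 Y
  inj : ∀ {j : ℤ} {M : T}, 0 ≤ j → D j M → ∀ f : 𝟙_ T ⟶ M, R.H0.map f = 0 → f = 0

variable {R : Realization T F} {D : ℤ → ObjectProperty T}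

namespace Adm

lemma van (hD : Adm R D) {p : ℤ → Prop} {X : T} (hX : RC D p X) {i : ℤ} (hi : ¬ p i) :
    R.Van i X := by
  obtain ⟨Y, ⟨l, hl, hY⟩, ⟨r⟩⟩ := hX
  refine R.van_of_retract r ?_
  clear r
  induction l generalizing Y with
  | nil => exact R.van_of_isZero hY i
  | cons a l ih =>
    obtain ⟨A, B, f, g, δ, hT, hA, hB⟩ := hY
    refine R.van₂' hT (hD.pure hA i ?_) (ih B (fun b hb => hl b (by simp [hb])) hB)
    rintro rfl
    exact hi (hl _ (by simp))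

variable [∀ X : T, (tensorLeft X).CommShift ℤ] [∀ X : T, (tensorLeft X).IsTriangulated]

/-- Faithfulness, source in degree `0`. -/
lemma eq_zero₀ (hD : Adm R D) {X Y : T} {b : ℤ}
    (hb : 0 ≤ b) (hX : D 0 X) (hY : D b Y) (f : X ⟶ Y)
    (hf : R.mp 0 f = 0) : f = 0 := by
  obtain ⟨X', ⟨hXX'⟩, hX'⟩ := hD.dual hX
  have hYX : D b (Y ⊗ X') := hD.tensor (add_zero b) hY hX'
  have h1 : R.mp 0 (η_ X X' ≫ (f ▷ X')) = 0 := by
    ext c
    rw [mp_comp_apply]
    have h2 : ∀ z : R.Hm 0 (X ⊗ X'), R.mp 0 (f ▷ X') z = 0 := by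
      intro z
      have h3 := R.cup_span (zero_add 0) X X' (fun k hk => Or.inl (hD.pure hX k hk)) z
      induction h3 using Submodule.span_induction with
      | mem z hz =>
        obtain ⟨x, y, rfl⟩ := hz
        rw [cup_whiskerRight, hf]
        simp
      | zero => rw [map_zero]
      | add a b _ _ ha hb => rw [map_add, ha, hb, add_zero]
      | smul c a _ ha => rw [map_smul, ha, smul_zero]
    rw [h2]
    rfl
  have h2 := hD.inj hb hYX _ (map_eq_zero_of_mp _ h1)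
  have e1 := ExactPairing.evaluation_coevaluation X X'
  have h3 : ((η_ X X' ≫ (f ▷ X')) ▷ X) ≫ (α_ Y X' X).hom ≫ (Y ◁ ε_ X X') =
      (λ_ X).hom ≫ f ≫ (ρ_ Y).inv := by
    have h4 : (f ▷ X' ▷ X) ≫ (α_ Y X' X).hom ≫ (Y ◁ ε_ X X') =
        (α_ X X' X).hom ≫ (X ◁ ε_ X X') ≫ (f ▷ 𝟙_ T) := by
      rw [whisker_exchange, associator_naturality_left_assoc]
    rw [comp_whiskerRight, assoc, h4]
    have h5 := congrArg (fun z => z ≫ (f ▷ 𝟙_ T)) e1
    simp only [assoc] at h5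
    rw [h5, rightUnitor_inv_naturality]
  rw [h2, MonoidalPreadditive.zero_whiskerRight, zero_comp] at h3
  have h4 : f = (λ_ X).inv ≫ ((λ_ X).hom ≫ f ≫ (ρ_ Y).inv) ≫ (ρ_ Y).hom := by simp
  rw [h4, ← h3, zero_comp, comp_zero]

/-- Faithfulness. -/
lemma eq_zero (hD : Adm R D) {X Y : T} {a b : ℤ}
    (hab : a ≤ b) (hX : D a X) (hY : D b Y) (f : X ⟶ Y)
    (hf : R.mp a f = 0) : f = 0 := by
  have h1 : f⟦a⟧' = 0 := by
    have hX' : D 0 (X⟦a⟧) := by
      have := hD.shift a a X hX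
      rwa [sub_self] at this
    exact hD.eq_zero₀ (show 0 ≤ b - a by lia) hX' (hD.shift b a Y hY) _
      (mp_shift_eq_zero (add_zero a) f hf)
  exact (shiftFunctor T a).map_injective (by rw [h1, Functor.map_zero])

variable [IsTriangulated T]

lemma faithful_aux₁ (hD : Adm R D) {a b : ℤ} (hab : a ≤ b) {Y : T} (hY : D b Y)
    (l : List ℤ) (hl : ∀ c ∈ l, c ≤ a) {X : T} (hX : Sorting.E D l X) (f : X ⟶ Y)
    (hf : R.mp a f = 0) : f = 0 := by
  induction l generalizing X with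
  | nil => exact IsZero.eq_of_src hX _ _
  | cons c l ih =>
    obtain ⟨A, A', g, h, δ, hT, hA, hA'⟩ := hX
    have hca : c ≤ a := hl c (by simp)
    have h1 : g ≫ f = 0 := by
      refine hD.eq_zero (hca.trans hab) hA hY _ ?_
      rcases eq_or_lt_of_le (hca.trans hab) with h' | h'
      · obtain rfl : c = a := by lia
        ext x
        rw [mp_comp_apply, hf]
        rfl
      · ext x
        exact (hD.pure hY c (by lia)).elim _ _
    obtain ⟨k, hk⟩ : ∃ k : A' ⟶ Y, f = h ≫ k := Triangle.yoneda_exact₂ _ hT f h1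
    have h2 : R.mp a k = 0 := by
      ext x
      obtain ⟨y, rfl⟩ := R.surj_snd hT (hD.pure hA _ (by lia)) x
      rw [← mp_comp_apply, ← hk, hf]
      rfl
    rw [hk, ih (fun d hd => hl d (by simp [hd])) hA' k h2, comp_zero]

lemma faithful_aux₂ (hD : Adm R D) {a : ℤ} (l : List ℤ) (hl : ∀ c ∈ l, c ≤ a) {X : T}
    (hX : Sorting.E D l X) (l' : List ℤ) (hl' : ∀ c ∈ l', a ≤ c) {Y : T}
    (hY : Sorting.E D l' Y) (f : X ⟶ Y) (hf : R.mp a f = 0) : f = 0 := by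
  induction l' generalizing Y with
  | nil => exact IsZero.eq_of_tgt hY _ _
  | cons b l' ih =>
    obtain ⟨B, B', g, h, δ, hT, hB, hB'⟩ := hY
    have hb : a ≤ b := hl' b (by simp)
    have h1 : f ≫ h = 0 := by
      refine ih (fun c hc => hl' c (by simp [hc])) hB' _ ?_
      ext x
      rw [mp_comp_apply, hf]
      simp
    obtain ⟨k, hk⟩ : ∃ k : X ⟶ B, f = k ≫ g := Triangle.coyoneda_exact₂ _ hT f h1
    have hv : R.Van (a - 1) B' := by
      refine hD.van (p := fun n => a ≤ n)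
        ⟨B', ⟨l', fun c hc => hl' c (by simp [hc]), hB'⟩, ⟨Retract.refl _⟩⟩ (by lia)
    have h2 : R.mp a k = 0 := by
      ext x
      apply R.inj_fst hT hv
      rw [← mp_comp_apply, ← hk, hf]
      rfl
    rw [hk, faithful_aux₁ hD hb hB l hl hX k h2, zero_comp]

/-- Faithfulness for the closures. -/
lemma faithful (hD : Adm R D) (a : ℤ) {X Y : T} (hX : RC D (fun n => n ≤ a) X)
    (hY : RC D (fun n => a ≤ n) Y) (f : X ⟶ Y) (hf : R.mp a f = 0) : f = 0 := by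
  obtain ⟨X', ⟨l, hl, hX'⟩, ⟨r⟩⟩ := hX
  obtain ⟨Y', ⟨l', hl', hY'⟩, ⟨r'⟩⟩ := hY
  have h1 : r.r ≫ f ≫ r'.i = 0 := by
    refine faithful_aux₂ hD l hl hX' l' hl' hY' _ ?_
    ext x
    rw [mp_comp_apply, mp_comp_apply, hf]
    simp
  have h2 : f = r.i ≫ (r.r ≫ f ≫ r'.i) ≫ r'.r := by
    simp only [assoc]
    rw [r'.retract, comp_id, r.retract_assoc]
  rw [h2, h1, zero_comp, comp_zero]

/-- Orthogonality for the closures. -/
lemma orth (hD : Adm R D) {a b : ℤ} (hab : a < b) {X Y : T} (hX : RC D (fun n => n ≤ a) X)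
    (hY : RC D (fun n => b ≤ n) Y) (f : X ⟶ Y) : f = 0 := by
  refine hD.faithful a hX (RC_mono (fun n hn => by lia) hY) f ?_
  ext x
  exact (hD.van hY (show ¬ b ≤ a by lia)).elim _ _

end Adm

end Realization

end Pool.Agent.Lib.MotT
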