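import Mathlib

/-!
# Tensor powers and the vanishing of exterior powers: definitions
-/

universe v u

open CategoryTheory Category Limits MonoidalCategory

namespace Pool.Agent.Lib.MotT

section

variable {T : Type u} [Category.{v} T] [MonoidalCategory T]

/-- The `(n + 1)`-fold tensor power `X ⊗ ⋯ ⊗ X`, bracketed to the left. -/
def tpow (X : T) : ℕ → T
  | 0 => X
  | n + 1 => tpow X n ⊗ X

variable [BraidedCategory T]

/-- The braiding of the factors number `j` and `j + 1` of the `(n + 1)`-fold tensor power
(the factors are numbered from `0` to `n`). -/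
def swapAt (X : T) : (n : ℕ) → ℕ → (tpow X n ⟶ tpow X n)
  | 0, _ => 𝟙 _
  | 1, _ => (β_ X X).hom
  | n + 2, j =>
    if j = n + 1 then
      (α_ (tpow X n) X X).hom ≫ (tpow X n ◁ (β_ X X).hom) ≫ (α_ (tpow X n) X X).inv
    else swapAt X (n + 1) j ▷ X

/-- The action on the `(n + 1)`-fold tensor power of a word in adjacent transpositions. -/
def wordAct (X : T) (n : ℕ) : List (Fin n) → (tpow X n ⟶ tpow X n)
  | [] => 𝟙 _
  | j :: w => swapAt X n j ≫ wordAct X n w

/-- The permutation of `{0, …, n}` represented by a word in adjacent transpositions. -/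
def wordPerm {n : ℕ} (w : List (Fin n)) : Equiv.Perm (Fin (n + 1)) :=
  (w.map fun j => Equiv.swap j.castSucc j.succ).prod

/-- Given for each permutation `σ` of the `n + 1` factors a word `W σ` in adjacent
transpositions, the endomorphism `∑ sign(σ) W(σ)` of the `(n + 1)`-fold tensor power. If
`W σ` represents `σ` for each `σ`, this is the antisymmetriser multiplied by `(n + 1)!`. -/
noncomputable def antisym [Preadditive T] (X : T) (n : ℕ)
    (W : Equiv.Perm (Fin (n + 1)) → List (Fin n)) :
    tpow X n ⟶ tpow X n :=
  ∑ σ : Equiv.Perm (Fin (n + 1)), (Equiv.Perm.sign σ : ℤ) • wordAct X n (W σ)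

/-- The `(n + 1)`-st exterior power of `X` vanishes: the antisymmetriser of
the `(n + 1)`-fold tensor power of `X` is zero. -/
def ExtPowerVanishes [Preadditive T] (X : T) (n : ℕ) : Prop :=
  ∀ W : Equiv.Perm (Fin (n + 1)) → List (Fin n), (∀ σ, wordPerm (W σ) = σ) →
    antisym X n W = 0

end

end Pool.Agent.Lib.MotT
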