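import Pool.Agent.Lib.MP_6d0ce9_ag.Cons
import Pool.Agent.Lib.MP_6d0ce9_ag.ExtDefs

/-!
# Tensor powers, adjacent swaps and antisymmetrisers
-/

set_option linter.unusedSectionVars false

universe w v u

open CategoryTheory Category Limits MonoidalCategory Pretriangulated Triangulated

namespace Pool.Agent.Lib.MotT

lemma exists_word {n : ℕ} (σ : Equiv.Perm (Fin (n + 1))) :
    ∃ w : List (Fin n), wordPerm w = σ := by
  have h : σ ∈ Submonoid.closure
      (Set.range fun i : Fin n => Equiv.swap i.castSucc i.succ) := by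
    rw [Equiv.Perm.mclosure_swap_castSucc_succ]
    trivial
  induction h using Submonoid.closure_induction with
  | mem x hx =>
    obtain ⟨j, rfl⟩ := hx
    exact ⟨[j], by simp [wordPerm]⟩
  | one => exact ⟨[], by simp [wordPerm]⟩
  | mul x y _ _ hx hy =>
    obtain ⟨a, rfl⟩ := hx
    obtain ⟨b, rfl⟩ := hy
    exact ⟨a ++ b, by simp [wordPerm]⟩

lemma sign_wordPerm {n : ℕ} (w : List (Fin n)) :
    Equiv.Perm.sign (wordPerm w) = (-1) ^ w.length := by
  induction w with
  | nil => simp [wordPerm]
  | cons j w ih =>
    have h1 : wordPerm (j :: w) = Equiv.swap j.castSucc j.succ * wordPerm w := by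
      simp [wordPerm]
    rw [h1, Equiv.Perm.sign_mul, ih, Equiv.Perm.sign_swap (by
      intro h
      have := congrArg Fin.val h
      simp at this), List.length_cons, pow_succ']

namespace Realization

variable {T : Type u} [Category.{v} T] [Preadditive T] [HasZeroObject T] [HasShift T ℤ]
  [∀ n : ℤ, (shiftFunctor T n).Additive] [Pretriangulated T] [MonoidalCategory T]
  [SymmetricCategory T] {F : Type w} [Field F] (R : Realization T F)

/-- the degree `(n + 1) i`. -/
def dg (i : ℤ) : ℕ → ℤ
  | 0 => i
  | n + 1 => dg i n + i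

lemma dg_zero (n : ℕ) : dg 0 n = 0 := by
  induction n with
  | zero => rfl
  | succ n ih => simp [dg, ih]

/-- the `(n + 1)`-fold product as a multilinear map. -/
noncomputable def pw (i : ℤ) (X : T) : (n : ℕ) →
    MultilinearMap F (fun _ : Fin (n + 1) => R.Hm i X) (R.Hm (dg i n) (tpow X n))
  | 0 => MultilinearMap.ofSubsingleton F (R.Hm i X) (R.Hm i X) (0 : Fin 1) LinearMap.id
  | n + 1 => MultilinearMap.uncurryRight
      ((R.cup (rfl : dg i n + i = dg i (n + 1)) (tpow X n) X).compMultilinearMap
        (pw i X n))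

lemma pw_zero (i : ℤ) (X : T) (v : Fin 1 → R.Hm i X) : R.pw i X 0 v = v 0 := rfl

lemma pw_succ (i : ℤ) (X : T) (n : ℕ) (v : Fin (n + 2) → R.Hm i X) :
    R.pw i X (n + 1) v =
      R.cup (rfl : dg i n + i = dg i (n + 1)) (tpow X n) X
        (R.pw i X n (fun k => v k.castSucc)) (v (Fin.last (n + 1))) := rfl

lemma cup_nat {i j n : ℤ} (h : i + j = n) {X X' Y Y' : T} (f : X ⟶ X')
    (g : Y ⟶ Y') (x : R.Hm i X) (y : R.Hm j Y) :
    R.mp n (f ⊗ₘ g) (R.cup h X Y x y) = R.cup h X' Y' (R.mp i f x) (R.mp j g y) :=
  R.cup_natural h f g x y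

lemma cup_whiskerRight {i j n : ℤ} (h : i + j = n) {X X' Y : T} (f : X ⟶ X')
    (x : R.Hm i X) (y : R.Hm j Y) :
    R.mp n (f ▷ Y) (R.cup h X Y x y) = R.cup h X' Y (R.mp i f x) y := by
  rw [← tensorHom_id, cup_nat, mp_id]
  rfl

lemma cup_whiskerLeft {i j n : ℤ} (h : i + j = n) {X Y Y' : T} (g : Y ⟶ Y')
    (x : R.Hm i X) (y : R.Hm j Y) :
    R.mp n (X ◁ g) (R.cup h X Y x y) = R.cup h X Y' x (R.mp j g y) := by
  rw [← id_tensorHom, cup_nat, mp_id]
  rfl

lemma cup_assoc_inv {i j k a b n : ℤ} (hij : i + j = a) (hak : a + k = n) (hjk : j + k = b)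
    (hib : i + b = n) (X Y Z : T) (x : R.Hm i X) (y : R.Hm j Y) (z : R.Hm k Z) :
    R.mp n (α_ X Y Z).inv (R.cup hib X (Y ⊗ Z) x (R.cup hjk Y Z y z)) =
      R.cup hak (X ⊗ Y) Z (R.cup hij X Y x y) z := by
  rw [← R.cup_assoc hij hak hjk hib X Y Z x y z]
  change R.mp n (α_ X Y Z).inv (R.mp n (α_ X Y Z).hom _) = _
  rw [← mp_comp_apply, Iso.hom_inv_id, mp_id]
  rfl

/-- effect of the last adjacent swap. -/
lemma cup_swap_last {a b c i : ℤ} (h1 : a + i = b) (h2 : b + i = c) (P X : T)
    (p : R.Hm a P) (x y : R.Hm i X) :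
    R.mp c ((α_ P X X).hom ≫ (P ◁ (β_ X X).hom) ≫ (α_ P X X).inv)
      (R.cup h2 (P ⊗ X) X (R.cup h1 P X p x) y) =
      ((i * i).negOnePow : ℤ) • R.cup h2 (P ⊗ X) X (R.cup h1 P X p y) x := by
  have h3 : a + (i + i) = c := by rw [← h2, ← h1]; ring
  rw [mp_comp_apply, mp_comp_apply]
  have e1 : R.mp c (α_ P X X).hom (R.cup h2 (P ⊗ X) X (R.cup h1 P X p x) y) =
      R.cup h3 P (X ⊗ X) p (R.cup (rfl : i + i = i + i) X X x y) :=
    R.cup_assoc h1 h2 rfl h3 P X X p x y
  have e2 : R.mp (i + i) (β_ X X).hom (R.cup (rfl : i + i = i + i) X X x y) =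
      ((i * i).negOnePow : ℤ) • R.cup (rfl : i + i = i + i) X X y x :=
    R.cup_comm (rfl : i + i = i + i) rfl X X x y
  rw [e1, cup_whiskerLeft, e2, map_zsmul, map_zsmul, R.cup_assoc_inv h1 h2 rfl h3]

lemma swapAt_last (X : T) (n : ℕ) : swapAt X (n + 2) (n + 1) =
    (α_ (tpow X n) X X).hom ≫ (tpow X n ◁ (β_ X X).hom) ≫ (α_ (tpow X n) X X).inv :=
  if_pos rfl

lemma swapAt_lt (X : T) (n j : ℕ) (hj : j ≠ n + 1) :
    swapAt X (n + 2) j = swapAt X (n + 1) j ▷ X :=
  if_neg hj

/-- effect of an adjacent swap on a product. -/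
lemma swapAt_pw (i : ℤ) (X : T) (n : ℕ) (j : Fin n) (v : Fin (n + 1) → R.Hm i X) :
    R.mp (dg i n) (swapAt X n j) (R.pw i X n v) =
      ((i * i).negOnePow : ℤ) • R.pw i X n (v ∘ Equiv.swap j.castSucc j.succ) := by
  induction n with
  | zero => exact j.elim0
  | succ n ih =>
    cases n with
    | zero =>
      have hj : j = 0 := by ext; omega
      subst hj
      exact R.cup_comm (rfl : i + i = i + i) rfl X X (v 0) (v 1)
    | succ n =>
      by_cases hj : (j : ℕ) = n + 1
      · have hj' : j = Fin.last (n + 1) := by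
          ext; simpa using hj
        subst hj'
        refine (congrArg (fun f => R.mp (dg i (n + 2)) f (R.pw i X (n + 2) v))
          (swapAt_last X n)).trans ((R.cup_swap_last (rfl : dg i n + i = dg i (n + 1))
          (rfl : dg i (n + 1) + i = dg i (n + 2)) (tpow X n) X
          (R.pw i X n (fun k => v k.castSucc.castSucc)) (v (Fin.last (n + 1)).castSucc)
          (v (Fin.last (n + 2)))).trans ?_)
        congr 1
        have h5 : (v ∘ ⇑(Equiv.swap (Fin.last (n + 1)).castSucc (Fin.last (n + 1)).succ))
            (Fin.last (n + 1 + 1)) = v (Fin.last (n + 1)).castSucc := by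
          simp only [Function.comp]
          rw [show Fin.last (n + 1 + 1) = (Fin.last (n + 1)).succ from rfl,
            Equiv.swap_apply_right]
        have h6 : (v ∘ ⇑(Equiv.swap (Fin.last (n + 1)).castSucc (Fin.last (n + 1)).succ))
            (Fin.last (n + 1)).castSucc = v (Fin.last (n + 1 + 1)) := by
          simp only [Function.comp]
          rw [Equiv.swap_apply_left]
          rfl
        have h7 : (fun k : Fin (n + 1) => (v ∘ ⇑(Equiv.swap (Fin.last (n + 1)).castSucc
            (Fin.last (n + 1)).succ)) k.castSucc.castSucc) =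
            fun k => v k.castSucc.castSucc := by
          funext k
          simp only [Function.comp]
          rw [Equiv.swap_apply_of_ne_of_ne]
          · intro h
            have := congrArg Fin.val h
            simp at this
            omega
          · intro h
            have := congrArg Fin.val h
            simp at this
            omega
        rw [pw_succ, pw_succ, h5, h6, h7]
        rfl
      · have hj2 : (j : ℕ) < n + 1 := by have := j.2; omega
        obtain ⟨j', rfl⟩ : ∃ j' : Fin (n + 1), j = j'.castSucc := ⟨⟨j, hj2⟩, rfl⟩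
        refine (congrArg (fun f => R.mp (dg i (n + 2)) f (R.pw i X (n + 2) v))
          (swapAt_lt X n _ hj)).trans ((R.cup_whiskerRight
          (rfl : dg i (n + 1) + i = dg i (n + 2)) (swapAt X (n + 1) (j' : ℕ))
          (R.pw i X (n + 1) (fun k => v k.castSucc)) (v (Fin.last (n + 2)))).trans ?_)
        rw [ih j' (fun k => v k.castSucc), map_zsmul, LinearMap.smul_apply]
        congr 1
        have h5 : (v ∘ ⇑(Equiv.swap j'.castSucc.castSucc j'.castSucc.succ))
            (Fin.last (n + 1 + 1)) = v (Fin.last (n + 2)) := by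
          simp only [Function.comp]
          rw [Equiv.swap_apply_of_ne_of_ne]
          · intro h
            have := congrArg Fin.val h
            simp at this
            omega
          · intro h
            have := congrArg Fin.val h
            simp at this
            omega
        have h6 : (fun k : Fin (n + 2) => (v ∘ ⇑(Equiv.swap j'.castSucc.castSucc
            j'.castSucc.succ)) k.castSucc) =
            (fun k => v k.castSucc) ∘ ⇑(Equiv.swap j'.castSucc j'.succ) := by
          funext k
          simp only [Function.comp]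
          congr 1
          by_cases hk1 : k = j'.castSucc
          · subst hk1
            rw [Equiv.swap_apply_left, Equiv.swap_apply_left]
            rfl
          · by_cases hk2 : k = j'.succ
            · subst hk2
              rw [Equiv.swap_apply_right,
                show (j'.succ.castSucc : Fin (n + 3)) = j'.castSucc.succ from rfl,
                Equiv.swap_apply_right]
            · rw [Equiv.swap_apply_of_ne_of_ne hk1 hk2, Equiv.swap_apply_of_ne_of_ne]
              · intro h
                apply hk1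
                ext
                have := congrArg Fin.val h
                simpa using this
              · intro h
                apply hk2
                ext
                have := congrArg Fin.val h
                simpa using this
        refine Eq.trans ?_ (R.pw_succ i X (n + 1) _).symm
        rw [h5, h6]

/-- effect of a word in adjacent transpositions on a product. -/
lemma wordAct_pw (i : ℤ) (X : T) (n : ℕ) (w : List (Fin n)) (v : Fin (n + 1) → R.Hm i X) :
    R.mp (dg i n) (wordAct X n w) (R.pw i X n v) =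
      ((i * i).negOnePow : ℤ) ^ w.length • R.pw i X n (v ∘ wordPerm w) := by
  induction w generalizing v with
  | nil => simp [wordAct, wordPerm]
  | cons j w ih =>
    have h1 : wordAct X n (j :: w) = swapAt X n j ≫ wordAct X n w := rfl
    have h2 : wordPerm (j :: w) = Equiv.swap j.castSucc j.succ * wordPerm w := by
      simp [wordPerm]
    rw [h1, mp_comp_apply, swapAt_pw, map_zsmul, ih, h2, List.length_cons, pow_succ',
      mul_smul]
    rfl

/-- effect of the antisymmetriser on a product. -/
lemma antisym_pw (i : ℤ) (X : T) (n : ℕ) (W : Equiv.Perm (Fin (n + 1)) → List (Fin n))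
    (hW : ∀ σ, wordPerm (W σ) = σ) (v : Fin (n + 1) → R.Hm i X) :
    R.mp (dg i n) (antisym X n W) (R.pw i X n v) =
      ∑ σ : Equiv.Perm (Fin (n + 1)), ((Equiv.Perm.sign σ : ℤ) *
        ((i * i).negOnePow : ℤ) ^ (W σ).length) • R.pw i X n (v ∘ σ) := by
  rw [antisym, mp_sum, LinearMap.sum_apply]
  refine Finset.sum_congr rfl fun σ _ => ?_
  rw [mp_zsmul, LinearMap.smul_apply, wordAct_pw, hW, mul_smul]

lemma pw_const_ne_zero (i : ℤ) (X : T) (n : ℕ) {x : R.Hm i X} (hx : x ≠ 0) :
    R.pw i X n (fun _ => x) ≠ 0 := by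
  induction n with
  | zero => exact hx
  | succ n ih => exact R.cup_ne_zero _ ih hx

/-- If an exterior power of `X` vanishes then the odd cohomology of `X` vanishes for every
realisation. -/
theorem van_odd [CharZero F] {X : T} {n : ℕ} (h : ExtPowerVanishes X n) {i : ℤ} (hi : Odd i) :
    R.Van i X := by
  have h0 : ∀ x : R.Hm i X, x = 0 := by
    intro x
    by_contra hx
    choose W hW using fun σ : Equiv.Perm (Fin (n + 1)) => exists_word σ
    have h1 := R.antisym_pw i X n W hW (fun _ => x)
    rw [h W hW, mp_zero, LinearMap.zero_apply] at h1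
    have h2 : ∀ σ : Equiv.Perm (Fin (n + 1)), ((Equiv.Perm.sign σ : ℤ) *
        ((i * i).negOnePow : ℤ) ^ (W σ).length) = 1 := by
      intro σ
      have h3 : ((i * i).negOnePow : ℤ) = -1 := by
        rw [Int.negOnePow_odd _ (hi.mul hi)]; rfl
      have h4 : (Equiv.Perm.sign σ : ℤ) = (-1) ^ (W σ).length := by
        conv_lhs => rw [← hW σ, sign_wordPerm]
        push_cast
        rfl
      rw [h3, h4, ← mul_pow]
      simp
    have h5 : ∀ σ : Equiv.Perm (Fin (n + 1)), ((fun _ => x : Fin (n + 1) → R.Hm i X) ∘ σ) =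
      fun _ => x := fun σ => rfl
    simp only [h2, h5, one_smul, Finset.sum_const, Finset.card_univ] at h1
    have h6 : (Fintype.card (Equiv.Perm (Fin (n + 1)))) • R.pw i X n (fun _ => x) = 0 := h1.symm
    rw [← Nat.cast_smul_eq_nsmul F, smul_eq_zero] at h6
    rcases h6 with h6 | h6
    · have h7 : Fintype.card (Equiv.Perm (Fin (n + 1))) = 0 := by exact_mod_cast h6
      exact absurd h7 Fintype.card_ne_zero
    · exact R.pw_const_ne_zero i X n hx h6
  exact ⟨fun x y => (h0 x).trans (h0 y).symm⟩

/-! ### objects concentrated in one degree -/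

lemma conc_tpow {i : ℤ} {X : T} (hX : R.ConcentratedIn i X) (n : ℕ) :
    R.ConcentratedIn (dg i n) (tpow X n) := by
  induction n with
  | zero => exact hX
  | succ n ih =>
    intro j hj
    refine R.van_tensor j (tpow X n) X fun k => ?_
    by_cases hk : k = dg i n
    · right
      apply hX
      intro h
      apply hj
      simp only [dg]
      lia
    · left
      exact ih k hk

lemma span_pw {i : ℤ} {X : T} (hX : R.ConcentratedIn i X) (n : ℕ) :
    Submodule.span F (Set.range (R.pw i X n)) = ⊤ := by
  induction n with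
  | zero =>
    rw [eq_top_iff]
    intro x _
    exact Submodule.subset_span ⟨fun _ => x, rfl⟩
  | succ n ih =>
    rw [eq_top_iff]
    intro z _
    have h1 := R.cup_span (rfl : dg i n + i = dg i (n + 1)) (tpow X n) X (fun k hk =>
      Or.inl (R.conc_tpow hX n k hk)) z
    refine Submodule.span_le.2 ?_ h1
    rintro _ ⟨x, y, rfl⟩
    have h2 : x ∈ Submodule.span F (Set.range (R.pw i X n)) := by rw [ih]; trivial
    induction h2 using Submodule.span_induction with
    | mem a ha =>
      obtain ⟨v, rfl⟩ := ha
      refine Submodule.subset_span ⟨Fin.snoc (α := fun _ => R.Hm i X) v y, ?_⟩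
      rw [pw_succ]
      simp only [Fin.snoc_castSucc, Fin.snoc_last]
      try rfl
    | zero =>
      rw [map_zero, LinearMap.zero_apply]
      exact Submodule.zero_mem _
    | add a b _ _ ha hb =>
      rw [map_add, LinearMap.add_apply]
      exact Submodule.add_mem _ ha hb
    | smul c a _ ha =>
      rw [map_smul, LinearMap.smul_apply]
      exact Submodule.smul_mem _ c ha

/-- The antisymmetriser of `n + 1` factors kills the cohomology of the tensor power if the
cohomology of `X` is concentrated in degree `0` and of dimension `≤ n`. -/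
lemma mp_antisym_eq_zero {X : T} (hX : R.ConcentratedIn 0 X) (n : ℕ)
    (hn : Module.finrank F (R.Hm 0 X) ≤ n)
    (W : Equiv.Perm (Fin (n + 1)) → List (Fin n)) (hW : ∀ σ, wordPerm (W σ) = σ) :
    R.mp (dg 0 n) (antisym X n W) = 0 := by
  have hfin : Module.Finite F (R.Hm 0 X) := R.finite 0 X
  refine LinearMap.ext_on_range (R.span_pw hX n) fun v => ?_
  rw [antisym_pw R 0 X n W hW, LinearMap.zero_apply]
  have h1 : ∀ σ : Equiv.Perm (Fin (n + 1)), ((Equiv.Perm.sign σ : ℤ) *
        (((0 : ℤ) * 0).negOnePow : ℤ) ^ (W σ).length) = (Equiv.Perm.sign σ : ℤ) := by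
    intro σ
    simp
  simp only [h1]
  have h2 : (MultilinearMap.alternatization (R.pw 0 X n)) v = 0 := by
    apply AlternatingMap.map_linearDependent
    intro hli
    have := hli.fintype_card_le_finrank
    simp at this
    omega
  rw [MultilinearMap.alternatization_apply] at h2
  rw [← h2]
  refine Finset.sum_congr rfl fun σ _ => ?_
  rfl

end Realization

end Pool.Agent.Lib.MotT
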