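import Pool.Agent.Lib.MP_6d0ce9_ag.Inj

/-!
# Cohomology of shifts and cones
-/

set_option linter.unusedSectionVars false

universe w v u

open CategoryTheory Category Limits MonoidalCategory Pretriangulated Triangulated
  ObjectProperty

namespace Pool.Agent.Lib.MotT

namespace Realization

variable {T : Type u} [Category.{v} T] [Preadditive T] [HasZeroObject T] [HasShift T ℤ]
  [∀ n : ℤ, (shiftFunctor T n).Additive] [Pretriangulated T] [MonoidalCategory T]
  [SymmetricCategory T] {F : Type w} [Field F] {R : Realization T F}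

variable (R) in
/-- The identification of `H^i(X⟦a⟧)` with `H^{a + i}(X)`. -/
noncomputable def sh (a i : ℤ) (X : T) : R.Hm i (X⟦a⟧) →ₗ[F] R.Hm (a + i) X :=
  (R.H0.map ((shiftFunctorAdd T a i).inv.app X)).hom

lemma sh_injective (a i : ℤ) (X : T) : Function.Injective (R.sh a i X) := by
  intro x y hxy
  have h1 : ∀ x, (R.H0.map ((shiftFunctorAdd T a i).hom.app X)).hom (R.sh a i X x) = x := by
    intro x
    have h2 : R.H0.map ((shiftFunctorAdd T a i).inv.app X) ≫
        R.H0.map ((shiftFunctorAdd T a i).hom.app X) = 𝟙 _ := by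
      rw [← Functor.map_comp, Iso.inv_hom_id_app, CategoryTheory.Functor.map_id]
    exact congrArg (fun g => g.hom x) h2
  rw [← h1 x, ← h1 y, hxy]

lemma sh_surjective (a i : ℤ) (X : T) : Function.Surjective (R.sh a i X) := by
  intro x
  refine ⟨(R.H0.map ((shiftFunctorAdd T a i).hom.app X)).hom x, ?_⟩
  have h2 : R.H0.map ((shiftFunctorAdd T a i).hom.app X) ≫
      R.H0.map ((shiftFunctorAdd T a i).inv.app X) = 𝟙 _ := by
    rw [← Functor.map_comp, Iso.hom_inv_id_app, CategoryTheory.Functor.map_id]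
  exact congrArg (fun g => g.hom x) h2

lemma sh_natural (a i : ℤ) {X Y : T} (f : X ⟶ Y) (x : R.Hm i (X⟦a⟧)) :
    R.sh a i Y (R.mp i (f⟦a⟧') x) = R.mp (a + i) f (R.sh a i X x) := by
  have h1 := (shiftFunctorAdd T a i).inv.naturality f
  have h2 := congrArg (fun g => (R.H0.map g).hom x) h1
  simp only [Functor.map_comp] at h2
  exact h2

lemma mp_shift_eq_zero {a i j : ℤ} (h : a + i = j) {X Y : T} (f : X ⟶ Y)
    (hf : R.mp j f = 0) : R.mp i (f⟦a⟧') = 0 := by
  subst h
  ext x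
  apply sh_injective a i Y
  rw [sh_natural, hf, LinearMap.zero_apply, LinearMap.zero_apply, map_zero]

lemma mp_shift_surjective {a i j : ℤ} (h : a + i = j) {X Y : T} (f : X ⟶ Y)
    (hf : ∀ y : R.Hm j Y, ∃ x, R.mp j f x = y) (y : R.Hm i (Y⟦a⟧)) :
    ∃ x, R.mp i (f⟦a⟧') x = y := by
  subst h
  obtain ⟨x, hx⟩ := hf (R.sh a i Y y)
  obtain ⟨x', rfl⟩ := sh_surjective a i X x
  exact ⟨x', sh_injective a i Y (by rw [sh_natural, hx])⟩

lemma mp_shift_injective {a i j : ℤ} (h : a + i = j) {X Y : T} (f : X ⟶ Y)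
    (hf : ∀ x : R.Hm j X, R.mp j f x = 0 → x = 0) (x : R.Hm i (X⟦a⟧))
    (hx : R.mp i (f⟦a⟧') x = 0) : x = 0 := by
  subst h
  apply sh_injective a i X
  rw [map_zero]
  apply hf
  rw [← sh_natural, hx, map_zero]

/-- Vanishing of `H^i` of a cone. -/
lemma van_cone {X Y Z : T} {f : X ⟶ Y} {g : Y ⟶ Z} {h : Z ⟶ X⟦(1 : ℤ)⟧}
    (hT : Triangle.mk f g h ∈ distTriang T) (i : ℤ)
    (hs : ∀ y : R.Hm i Y, ∃ x, R.mp i f x = y)
    (hi : ∀ x : R.Hm (1 + i) X, R.mp (1 + i) f x = 0 → x = 0) : R.Van i Z := by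
  have h0 : ∀ z : R.Hm i Z, z = 0 := by
    intro z
    have h1 : R.mp i h z = 0 := by
      have h2 : h ≫ f⟦(1 : ℤ)⟧' = 0 := comp_distTriang_mor_zero₃₁ _ hT
      have h3 : R.mp i (f⟦(1 : ℤ)⟧') (R.mp i h z) = 0 := by
        rw [← mp_comp_apply, h2, mp_zero, LinearMap.zero_apply]
      exact mp_shift_injective rfl f hi _ h3
    obtain ⟨y, hy⟩ : ∃ y : R.Hm i Y, R.mp i g y = z := R.exact₃ hT i z h1
    obtain ⟨x, hx⟩ := hs y
    have h4 : f ≫ g = 0 := comp_distTriang_mor_zero₁₂ _ hT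
    rw [← hy, ← hx, ← mp_comp_apply, h4, mp_zero, LinearMap.zero_apply]
  exact ⟨fun x y => (h0 x).trans (h0 y).symm⟩

/-- A morphism inducing isomorphisms on cohomology is an isomorphism if the realisation is
conservative. -/
lemma isIso_of_bij (hcons : R.Conservative) {X Y : T} (f : X ⟶ Y)
    (hs : ∀ (i : ℤ) (y : R.Hm i Y), ∃ x, R.mp i f x = y)
    (hi : ∀ (i : ℤ) (x : R.Hm i X), R.mp i f x = 0 → x = 0) : IsIso f := by
  obtain ⟨Z, g, h, hT⟩ := distinguished_cocone_triangle f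
  have hZ : IsZero Z := hcons Z fun i => van_cone hT i (hs i) (hi _)
  exact (Triangle.isZero₃_iff_isIso₁ _ hT).1 hZ

/-- Tensoring with an object concentrated in degree `0` preserves surjectivity. -/
lemma surj_whiskerLeft {M X Y : T} (hM : R.ConcentratedIn 0 M) (f : X ⟶ Y) {i : ℤ}
    (hf : ∀ y : R.Hm i Y, ∃ x, R.mp i f x = y) (z : R.Hm i (M ⊗ Y)) :
    ∃ x, R.mp i (M ◁ f) x = z := by
  have h1 := R.cup_span (zero_add i) M Y (fun k hk => Or.inl (hM k hk)) z
  induction h1 using Submodule.span_induction with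
  | mem z hz =>
    obtain ⟨m, y, rfl⟩ := hz
    obtain ⟨x, rfl⟩ := hf y
    exact ⟨R.cup (zero_add i) M X m x, by rw [cup_whiskerLeft]⟩
  | zero => exact ⟨0, map_zero _⟩
  | add a b _ _ ha hb =>
    obtain ⟨x, hx⟩ := ha
    obtain ⟨y, hy⟩ := hb
    exact ⟨x + y, by rw [map_add, hx, hy]⟩
  | smul c a _ ha =>
    obtain ⟨x, hx⟩ := ha
    exact ⟨c • x, by rw [map_smul, hx]⟩

/-- Tensoring with an object concentrated in degree `0` preserves injectivity. -/
lemma inj_whiskerLeft {M X Y : T} (hM : R.ConcentratedIn 0 M) (f : X ⟶ Y) {i : ℤ}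
    (hf : ∀ x : R.Hm i X, R.mp i f x = 0 → x = 0) (z : R.Hm i (M ⊗ X))
    (hz : R.mp i (M ◁ f) z = 0) : z = 0 := by
  obtain ⟨a, rfl⟩ := (R.kunneth_bij (zero_add i) (Y := X) hM).2 z
  have h1 : ∀ a, R.mp i (M ◁ f) (TensorProduct.lift (R.cup (zero_add i) M X) a) =
      TensorProduct.lift (R.cup (zero_add i) M Y) ((R.mp i f).lTensor _ a) := by
    intro a
    induction a using TensorProduct.induction_on with
    | zero => rw [map_zero, map_zero, map_zero, map_zero]
    | add a b ha hb => rw [map_add, map_add, map_add, map_add, ha, hb]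
    | tmul x y =>
      rw [TensorProduct.lift.tmul, LinearMap.lTensor_tmul, TensorProduct.lift.tmul,
        cup_whiskerLeft]
  rw [h1] at hz
  have h2 : (R.mp i f).lTensor (R.Hm 0 M) a = 0 :=
    (R.kunneth_bij (zero_add i) (Y := Y) hM).1 (hz.trans (map_zero _).symm)
  have h3 : Function.Injective (R.mp i f) := by
    intro x y hxy
    rw [← sub_eq_zero]
    apply hf
    rw [map_sub, hxy, sub_self]
  have h4 := Module.Flat.lTensor_preserves_injective_linearMap (M := R.Hm 0 M) (R.mp i f) h3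
  have h5 : a = 0 := h4 (h2.trans (map_zero _).symm)
  rw [h5, map_zero]

/-- A morphism is zero on cohomology if it is zero after tensoring. -/
lemma mp_whiskerLeft_eq_zero {M X Y : T} (hM : R.ConcentratedIn 0 M) (f : X ⟶ Y) {i : ℤ}
    (hf : R.mp i f = 0) : R.mp i (M ◁ f) = 0 := by
  ext z
  rw [LinearMap.zero_apply]
  have h1 := R.cup_span (zero_add i) M X (fun k hk => Or.inl (hM k hk)) z
  induction h1 using Submodule.span_induction with
  | mem z hz =>
    obtain ⟨m, y, rfl⟩ := hz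
    rw [cup_whiskerLeft, hf, LinearMap.zero_apply, map_zero]
  | zero => rw [map_zero]
  | add a b _ _ ha hb => rw [map_add, ha, hb, add_zero]
  | smul c a _ ha => rw [map_smul, ha, smul_zero]

end Realization

end Pool.Agent.Lib.MotT
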