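import Pool.Agent.Lib.MP_6d0ce9_ag.LefDefs
import Pool.Agent.Lib.MP_6d0ce9_ag.Sh

/-!
# The Künneth projectors from the hard Lefschetz property and a t-structure
-/

set_option linter.unusedSectionVars false

universe w v u

open CategoryTheory Category Limits MonoidalCategory Pretriangulated Triangulated
  ObjectProperty
open scoped ZeroObject

namespace Pool.Agent.Lib.MotT

/-- the complement of a retract -/
lemma exists_compl {T : Type u} [Category.{v} T] [Preadditive T] [IsIdempotentComplete T]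
    {X B : T} (i : X ⟶ B) (r : B ⟶ X) (h : i ≫ r = 𝟙 X) :
    ∃ (B₁ : T) (q : B₁ ⟶ B) (p : B ⟶ B₁), q ≫ p = 𝟙 B₁ ∧ r ≫ i + p ≫ q = 𝟙 B := by
  have hid : (𝟙 B - r ≫ i) ≫ (𝟙 B - r ≫ i) = 𝟙 B - r ≫ i := by
    have h1 : (r ≫ i) ≫ (r ≫ i) = r ≫ i := by rw [assoc, reassoc_of% h]
    rw [Preadditive.sub_comp, Preadditive.comp_sub, id_comp, id_comp, Preadditive.comp_sub,
      comp_id, h1, sub_self, sub_zero]
  obtain ⟨B₁, q, p, h1, h2⟩ := IsIdempotentComplete.idempotents_split B _ hid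
  exact ⟨B₁, q, p, h1, by rw [h2]; abel⟩

namespace Realization

variable {T : Type u} [Category.{v} T] [Preadditive T] [HasZeroObject T] [HasShift T ℤ]
  [∀ n : ℤ, (shiftFunctor T n).Additive] [Pretriangulated T] [MonoidalCategory T]
  [SymmetricCategory T] {F : Type w} [Field F] {R : Realization T F}

/-- a morphism factoring through an object without `H^j` is zero on `H^j` -/
lemma mp_comp_zero {j : ℤ} {X Y Z : T} (f : X ⟶ Y) (g : Y ⟶ Z) (h : R.Van j Y) :
    R.mp j (f ≫ g) = 0 := by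
  ext x
  rw [mp_comp_apply, show R.mp j f x = 0 from h.elim _ _, map_zero, LinearMap.zero_apply]

variable (R) in
/-- `e : X ⟶ X` induces the identity on `H^j`. -/
def IdOn (j : ℤ) {X : T} (e : X ⟶ X) : Prop := R.mp j e = LinearMap.id

lemma IdOn.whiskerRight {a b n : ℤ} (h : a + b = n) {X Λ : T} (hΛ : R.ConcentratedIn b Λ)
    {e : X ⟶ X} (he : R.IdOn a e) : R.IdOn n (e ▷ Λ) := by
  unfold IdOn at he ⊢
  ext z
  rw [LinearMap.id_apply]
  have h1 := R.cup_span h X Λ (fun k hk => Or.inr (hΛ _ (by lia))) z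
  induction h1 using Submodule.span_induction with
  | mem z hz =>
    obtain ⟨x, y, rfl⟩ := hz
    rw [cup_whiskerRight, he, LinearMap.id_apply]
  | zero => rw [map_zero]
  | add a b _ _ ha hb => rw [map_add, ha, hb]
  | smul c a _ ha => rw [map_smul, ha]

/-- tensoring with a concentrated object preserves surjectivity -/
lemma surj_whiskerRight {a b n : ℤ} (h : a + b = n) {X Y Λ : T} (hΛ : R.ConcentratedIn b Λ)
    (f : X ⟶ Y) (hf : ∀ y : R.Hm a Y, ∃ x, R.mp a f x = y) (z : R.Hm n (Y ⊗ Λ)) :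
    ∃ x, R.mp n (f ▷ Λ) x = z := by
  have h1 := R.cup_span h Y Λ (fun k hk => Or.inr (hΛ _ (by lia))) z
  induction h1 using Submodule.span_induction with
  | mem z hz =>
    obtain ⟨y, l, rfl⟩ := hz
    obtain ⟨x, rfl⟩ := hf y
    exact ⟨R.cup h X Λ x l, by rw [cup_whiskerRight]⟩
  | zero => exact ⟨0, map_zero _⟩
  | add a b _ _ ha hb =>
    obtain ⟨x, hx⟩ := ha
    obtain ⟨y, hy⟩ := hb
    exact ⟨x + y, by rw [map_add, hx, hy]⟩
  | smul c a _ ha =>
    obtain ⟨x, hx⟩ := ha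
    exact ⟨c • x, by rw [map_smul, hx]⟩

/-- an invertible object concentrated in degree `a` has its inverse in degree `-a` -/
lemma conc_inverse {a : ℤ} {Λ Λ' : T} (e : Λ ⊗ Λ' ≅ 𝟙_ T) (hΛ : R.ConcentratedIn a Λ) :
    R.ConcentratedIn (-a) Λ' := by
  intro j hj
  have h1 : ∀ y : R.Hm j Λ', y = 0 := by
    intro y
    by_contra hy
    have h2 : ∃ x : R.Hm a Λ, x ≠ 0 := by
      by_contra h3
      push Not at h3
      obtain ⟨c, hc⟩ := R.nontrivial_unit
      have h4 : R.Van 0 (Λ ⊗ Λ') := by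
        refine R.van_tensor 0 Λ Λ' fun k => Or.inl ?_
        by_cases hk : k = a
        · subst hk
          exact ⟨fun x y => (h3 x).trans (h3 y).symm⟩
        · exact hΛ k hk
      exact hc ((R.van_of_iso e h4).elim _ _)
    obtain ⟨x, hx⟩ := h2
    have h3 := R.cup_ne_zero (rfl : a + j = a + j) hx hy
    have h4 : R.Van (a + j) (Λ ⊗ Λ') := R.van_of_iso e.symm (R.unit_conc (a + j) (by lia))
    exact h3 (h4.elim _ _)
  exact ⟨fun x y => (h1 x).trans (h1 y).symm⟩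

variable (R) in
/-- `A` has a Künneth projector in degree `n` -/
def KP (n : ℤ) (A : T) : Prop :=
  ∃ (W : T) (u : A ⟶ W) (v : W ⟶ A), R.ConcentratedIn n W ∧ R.IdOn n (u ≫ v)

lemma KP.of_retract {n : ℤ} {A B : T} (r : Retract A B) (h : R.KP n B) : R.KP n A := by
  obtain ⟨W, u, v, hW, huv⟩ := h
  refine ⟨W, r.i ≫ u, v ≫ r.r, hW, ?_⟩
  unfold IdOn at huv ⊢
  have h1 : (r.i ≫ u) ≫ v ≫ r.r = r.i ≫ (u ≫ v) ≫ r.r := by simp only [assoc]
  ext x
  rw [h1, mp_comp_apply, mp_comp_apply, huv, LinearMap.id_apply, ← mp_comp_apply, r.retract,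
    mp_id]

lemma KP.of_van {n : ℤ} {A : T} (h : R.Van n A) : R.KP n A := by
  refine ⟨_, (0 : A ⟶ (0 : T)), 0, fun i _ => R.van_of_isZero (isZero_zero T) i, ?_⟩
  unfold IdOn
  ext x
  exact h.elim _ _

/-- Künneth projectors of an object from those of a direct summand, in the degrees in which
the complement has no cohomology. -/
lemma KP.of_idOn {n : ℤ} {A B : T} (p : B ⟶ A) (q : A ⟶ B) (hpq : R.IdOn n (p ≫ q))
    (h : R.KP n A) : R.KP n B := by
  obtain ⟨W, u, v, hW, huv⟩ := h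
  refine ⟨W, p ≫ u, v ≫ q, hW, ?_⟩
  unfold IdOn at hpq huv ⊢
  have h1 : (p ≫ u) ≫ v ≫ q = p ≫ (u ≫ v) ≫ q := by simp only [assoc]
  ext x
  rw [h1, mp_comp_apply, mp_comp_apply, huv, LinearMap.id_apply, ← mp_comp_apply, hpq]

variable (R) in
/-- the Lefschetz property in degree `i` with respect to the centre `d` -/
def LefAt (d : ℤ) (i : ℕ) (B : T) : Prop :=
  ∃ (Λ Λ' : T) (L : B ⟶ B ⊗ Λ), Nonempty (Λ ⊗ Λ' ≅ 𝟙_ T) ∧
    R.ConcentratedIn (-2 * (i : ℤ)) Λ ∧ Function.Bijective (R.mp (d - (i : ℤ)) L)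

/-- The Lefschetz property passes to direct summands whose complement has no cohomology
in the relevant degrees. -/
lemma LefAt.of_summand {d : ℤ} {i : ℕ} {A B : T} (q : A ⟶ B) (p : B ⟶ A) (hqp : q ≫ p = 𝟙 A)
    (h1 : R.IdOn (d - i) (p ≫ q)) (h2 : R.IdOn (d + i) (p ≫ q)) (h : R.LefAt d i B) :
    R.LefAt d i A := by
  obtain ⟨Λ, Λ', L, he, hΛ, hL⟩ := h
  have h3 : R.IdOn (d - i) ((p ≫ q) ▷ Λ) := h2.whiskerRight (by ring) hΛ
  have h4 : (q ▷ Λ) ≫ (p ▷ Λ) = 𝟙 _ := by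
    rw [← comp_whiskerRight, hqp, id_whiskerRight]
  unfold IdOn at h1 h3
  refine ⟨Λ, Λ', q ≫ L ≫ (p ▷ Λ), he, hΛ, ?_, ?_⟩
  · rw [injective_iff_map_eq_zero]
    intro x hx
    have h5 : R.mp (d - i) L (R.mp (d - i) q x) = 0 := by
      have h6 := congrArg (R.mp (d - i) (q ▷ Λ)) hx
      rw [map_zero, ← mp_comp_apply, assoc, assoc, ← comp_whiskerRight, mp_comp_apply,
        mp_comp_apply, h3, LinearMap.id_apply] at h6
      exact h6
    have h6 : R.mp (d - i) q x = 0 := hL.1 (by rw [h5, map_zero])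
    have h7 := congrArg (R.mp (d - i) p) h6
    rwa [map_zero, ← mp_comp_apply, hqp, mp_id, LinearMap.id_apply] at h7
  · intro z
    obtain ⟨y, hy⟩ := hL.2 (R.mp (d - i) (q ▷ Λ) z)
    refine ⟨R.mp (d - i) p y, ?_⟩
    rw [← mp_comp_apply, ← assoc, mp_comp_apply, h1, LinearMap.id_apply, mp_comp_apply, hy,
      ← mp_comp_apply, h4, mp_id, LinearMap.id_apply]

end Realization

end Pool.Agent.Lib.MotT
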