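import Pool.Agent.Lib.MP_6d0ce9_ag.KC

/-!
# The fibre of a morphism between objects of degree `0`
-/

set_option linter.unusedSectionVars false

universe w v u

open CategoryTheory Category Limits MonoidalCategory Pretriangulated Triangulated
  ObjectProperty

namespace Pool.Agent.Lib.MotT

namespace Realization

variable {T : Type u} [Category.{v} T] [Preadditive T] [HasZeroObject T] [HasShift T ℤ]
  [∀ n : ℤ, (shiftFunctor T n).Additive] [Pretriangulated T] [MonoidalCategory T]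
  [SymmetricCategory T] {F : Type w} [Field F] {R : Realization T F}
  {D : ℤ → ObjectProperty T}
  [∀ X : T, (tensorLeft X).CommShift ℤ] [∀ X : T, (tensorLeft X).IsTriangulated]
  [IsTriangulated T]

lemma Adm.tpair (hD : Adm R D) : TPair (RC D fun n => n ≤ 0) (RC D fun n => 1 ≤ n) where
  orth := fun hX hY f => hD.orth (show (0 : ℤ) < 1 by lia) hX hY f
  lzero := fun h => RC_of_isZero h
  gzero := fun h => RC_of_isZero h
  gretract := fun r h => RC_retract r h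
  lext := fun hT hA hB => RC_ext hT hA hB
  gext := fun hT hA hB => RC_ext hT hA hB
  gshift := fun hY => RC_shift hD.shift (-1) (fun n hn => by lia) hY

lemma RC_unitPow (hD : Adm R D) {N : T} (hN : RC D (fun n => n ≤ 0) N) (n : ℕ) :
    RC D (fun n => n ≤ 0) (unitPow N n) := by
  have := hD.iso
  induction n with
  | zero => exact RC_of (fun n => n ≤ 0) 0 le_rfl hD.unit
  | succ n ih => exact RC_tensor₂ hD.tensor (fun a b ha hb => by lia) ih hN

/-- The nilpotence property which is used. -/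
def NilHyp (R : Realization T F) (D : ℤ → ObjectProperty T) : Prop :=
  ∀ (M N : T) (s : M ⟶ 𝟙_ T) (δ : 𝟙_ T ⟶ N) (ω : N ⟶ M⟦(1 : ℤ)⟧), D 0 M →
    R.mp 0 s ≠ 0 → Triangle.mk s δ ω ∈ distTriang T → TensorNilpotent δ

/-- The truncation of the fibre. -/
theorem KC_fibre_core [IsIdempotentComplete T] (hD : Adm R D)
    (hnil : NilHyp R D) {K₁ K₂ Fb : T} (h₁ : R.KC D 0 K₁) (h₂ : R.KC D 0 K₂)
    {f : K₁ ⟶ K₂} {p : Fb ⟶ K₁} {γ : K₂ ⟶ Fb⟦(1 : ℤ)⟧}
    (hF : Triangle.mk p f γ ∈ distTriang T) :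
    ∃ (K C : T) (k : K ⟶ Fb) (c : Fb ⟶ C) (d : C ⟶ K⟦(1 : ℤ)⟧),
      Triangle.mk k c d ∈ distTriang T ∧ R.KC D 0 K ∧
      RC D (fun m => 1 ≤ m) C ∧ R.ConcentratedIn 1 C ∧
      ∃ (B : T) (v : K₂ ⟶ B), D 0 B ∧ f ≫ v = 0 ∧
        ∀ x : R.Hm 0 K₂, R.mp 0 v x = 0 → ∃ y, R.mp 0 f y = x := by
  have hDi := hD.iso
  have P := hD.tpair
  obtain ⟨M, s, u, g, hM, hs, hu, hg⟩ := KC_regular hD h₁ h₂ f
  obtain ⟨E, ⟨hME⟩, hE⟩ := hD.dual hM
  let _ : ExactPairing E M := BraidedCategory.exactPairing_swap M E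
  obtain ⟨N, δ, ω, hN⟩ := distinguished_cocone_triangle s
  have hMc : R.ConcentratedIn 0 M := hD.pure hM
  obtain ⟨m, hm⟩ : ∃ m : R.Hm 0 M, R.mp 0 s m ≠ 0 := by
    by_contra hcon
    push Not at hcon
    exact hs (LinearMap.ext hcon)
  have hNle : RC D (fun n => n ≤ 0) N := by
    refine RC_ext (rot_of_distTriang _ hN) (RC_of (fun n => n ≤ 0) 0 le_rfl hD.unit) ?_
    exact RC_of (fun n => n ≤ 0) (0 - 1) (by lia) (hD.shift 0 1 M hM)
  obtain ⟨n, hn⟩ := hnil M N s δ ω hM hs hN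
  have hMA : RC D (fun n => n ≤ 0) (M ⊗ K₁) := RC_tensor hD.tensor hM h₁.le
  have hK₂s : RC D (fun n => 1 ≤ n) (K₂⟦(-1 : ℤ)⟧) :=
    RC_shift hD.shift (-1) (fun n hn => by lia) h₂.ge
  obtain ⟨K, F', X, C, k, q, r₁, r₂, c, d, hX, happ, hk, hC, hCg, hlift⟩ :=
    exists_core P hN u g hu hg (fun Y hY => RC_tensor hD.tensor hE hY) hMA
      (fun n => RC_tensor₂ hD.tensor (fun a b ha hb => by lia) (RC_unitPow hD hNle n) hMA)
      hF hK₂s n hn
  obtain ⟨B', i', δ', hT', hB'⟩ := happ.fib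
  have hB'v : ∀ i : ℤ, i < 1 → R.Van i B' := fun i hi => hD.van hB' (by lia)
  have hK : R.ConcentratedIn 0 K := by
    intro i hi
    rcases lt_or_gt_of_ne hi with h | h
    · exact R.van_of_retract r₁ (R.van₂' hT' (hB'v i (by lia)) (h₁.conc i hi))
    · exact R.van_of_retract r₂ (hD.van hX (by lia))
  have hpinj : ∀ x : R.Hm 0 Fb, R.mp 0 p x = 0 → x = 0 := fun x hx =>
    R.inj_fst hF (h₂.conc (0 - 1) (by lia)) hx
  have hkinj : ∀ x : R.Hm 0 K, R.mp 0 k x = 0 → x = 0 := by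
    intro x hx
    have h3 : R.mp 0 (q ≫ p) (R.mp 0 r₁.i x) = 0 := by
      rw [← mp_comp_apply, ← assoc, hk, mp_comp_apply, hx, map_zero]
    have h4 : R.mp 0 r₁.i x = 0 := R.inj_snd hT' (hB'v 0 (by lia)) h3
    have h5 : R.mp 0 (r₁.i ≫ r₁.r) x = 0 := by rw [mp_comp_apply, h4, map_zero]
    rwa [r₁.retract, mp_id] at h5
  obtain ⟨b0, hb0⟩ : ∃ b0 : M ⊗ K₁ ⟶ Fb, u = b0 ≫ p :=
    Triangle.coyoneda_exact₂ _ hF u hu
  obtain ⟨z', hz'⟩ := hlift _ b0 hMA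
  have hbsurj : ∀ y : R.Hm 0 Fb, ∃ x, R.mp 0 b0 x = y := by
    intro y
    obtain ⟨y', hy'⟩ := R.surj_unit hm Fb y
    have hfp : R.mp 0 f (R.mp 0 p y') = 0 := by
      have h4 : p ≫ f = 0 := comp_distTriang_mor_zero₁₂ _ hF
      rw [← mp_comp_apply, h4, mp_zero, LinearMap.zero_apply]
    let z : R.Hm 0 (M ⊗ K₁) := R.cup (zero_add 0) M K₁ m (R.mp 0 p y')
    have h6 : R.mp 0 ((s ▷ K₁) ≫ (λ_ K₁).hom) z = R.mp 0 p y := by
      change R.mp 0 _ (R.cup (zero_add 0) M K₁ m (R.mp 0 p y')) = _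
      rw [mp_comp_apply, cup_whiskerRight, ← hy', unit_mul_natural]
    have h7 : R.mp 0 ((M ◁ f) ≫ g) z = 0 := by
      change R.mp 0 _ (R.cup (zero_add 0) M K₁ m (R.mp 0 p y')) = _
      rw [mp_comp_apply, cup_whiskerLeft, hfp, map_zero, map_zero]
    have h8 : R.mp 0 u z = R.mp 0 p y := by
      have h9 : u = (s ▷ K₁) ≫ (λ_ K₁).hom + -((M ◁ f) ≫ g) := by
        rw [← hg]
        abel
      rw [h9, mp_add, mp_neg, LinearMap.add_apply, LinearMap.neg_apply, h6, h7, neg_zero,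
        add_zero]
    refine ⟨z, ?_⟩
    rw [← sub_eq_zero]
    apply hpinj
    rw [map_sub, ← mp_comp_apply, ← hb0, h8, sub_self]
  have hz'surj : ∀ y : R.Hm 0 K, ∃ x, R.mp 0 z' x = y := by
    intro y
    obtain ⟨x, hx⟩ := hbsurj (R.mp 0 k y)
    refine ⟨x, ?_⟩
    rw [← sub_eq_zero]
    apply hkinj
    rw [map_sub, ← mp_comp_apply, hz', hx, sub_self]
  have hksurj : ∀ y : R.Hm 0 Fb, ∃ x, R.mp 0 k x = y := by
    intro y
    obtain ⟨x, hx⟩ := hbsurj y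
    exact ⟨R.mp 0 z' x, by rw [← mp_comp_apply, hz', hx]⟩
  have hCc : R.ConcentratedIn 1 C := by
    intro i hi
    refine van_cone hC i ?_ ?_
    · intro y
      by_cases h : i = 0
      · subst h
        exact hksurj y
      · have h7 : R.Van i Fb := R.van₁' hF (h₁.conc i h) (h₂.conc (i - 1) (by lia))
        exact ⟨0, h7.elim _ _⟩
    · intro x hx
      by_cases h : i = -1
      · subst h
        exact hkinj x hx
      · exact (hK (1 + i) (by lia)).elim _ _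
  refine ⟨K, C, k, c, d, hC, ⟨hK, RC_retract r₂ hX, ?_, ?_, ?_⟩, hCg, hCc,
    exists_coker_embedding hD hE h₂ hm hu hg⟩
  · refine RC_retract r₁ (RC_ext hT' (RC_mono (fun n hn => by lia) hB') h₁.ge)
  · obtain ⟨A, π, hA, hπ⟩ := h₁.quot
    refine ⟨M ⊗ A, (M ◁ π) ≫ z', hD.tensor (add_zero 0) hM hA, fun y => ?_⟩
    obtain ⟨x, rfl⟩ := hz'surj y
    obtain ⟨x', rfl⟩ := surj_whiskerLeft hMc π hπ x
    exact ⟨x', by rw [mp_comp_apply]⟩
  · obtain ⟨B, ι, hB, hι⟩ := h₁.sub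
    refine ⟨B, k ≫ p ≫ ι, hB, fun x hx => ?_⟩
    rw [mp_comp_apply, mp_comp_apply] at hx
    exact hkinj _ (hpinj _ (hι _ hx))

/-- The fibre of a morphism between objects of `KC 0` is an extension of an object of `KC 1`
by an object of `KC 0`. -/
theorem KC_fibre [IsIdempotentComplete T] (hD : Adm R D)
    (hnil : NilHyp R D) {K₁ K₂ Fb : T} (h₁ : R.KC D 0 K₁) (h₂ : R.KC D 0 K₂)
    {f : K₁ ⟶ K₂} {p : Fb ⟶ K₁} {γ : K₂ ⟶ Fb⟦(1 : ℤ)⟧}
    (hF : Triangle.mk p f γ ∈ distTriang T) :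
    extensionProduct (R.KC D 0) (R.KC D 1) Fb := by
  have hDi := hD.iso
  obtain ⟨K, C, k, c, d, hC, hK, hCg, hCc, B, v, hB, hfv, hv⟩ :=
    KC_fibre_core hD hnil h₁ h₂ hF
  refine ⟨K, C, k, c, d, hC, hK, ?_⟩
  have hF' : Triangle.mk f γ (-p⟦(1 : ℤ)⟧') ∈ distTriang T := rot_of_distTriang _ hF
  have hC' : Triangle.mk (-k⟦(1 : ℤ)⟧') (-c⟦(1 : ℤ)⟧') (-d⟦(1 : ℤ)⟧') ∈ distTriang T :=
    rot_of_distTriang _ (rot_of_distTriang _ (rot_of_distTriang _ hC))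
  obtain ⟨ν, hν⟩ : ∃ ν : Fb⟦(1 : ℤ)⟧ ⟶ B, v = γ ≫ ν := Triangle.yoneda_exact₂ _ hF' v hfv
  have hK1 : RC D (fun n => n ≤ -1) (K⟦(1 : ℤ)⟧) :=
    RC_shift hD.shift 1 (fun n hn => by lia) hK.le
  have h3 : (-k⟦(1 : ℤ)⟧') ≫ ν = 0 :=
    hD.orth (show (-1 : ℤ) < 0 by lia) hK1 (RC_of (fun n => 0 ≤ n) 0 le_rfl hB) _
  obtain ⟨ι, hι⟩ : ∃ ι : C⟦(1 : ℤ)⟧ ⟶ B, ν = (-c⟦(1 : ℤ)⟧') ≫ ι :=
    Triangle.yoneda_exact₂ _ hC' ν h3
  have hFb : RC D (fun n => n ≤ 1) Fb := by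
    refine RC_ext (inv_rot_of_distTriang _ hF) ?_ (RC_mono (fun n hn => by lia) h₁.le)
    exact RC_shift hD.shift (-1) (fun n hn => by lia) h₂.le
  have hCl : RC D (fun n => n ≤ 1) C :=
    RC_ext (rot_of_distTriang _ hC) hFb (RC_mono (fun n hn => by lia) hK1)
  have hstep : ∀ x : R.Hm 0 (C⟦(1 : ℤ)⟧), ∃ (z : R.Hm 0 K₂),
      R.mp 0 (-c⟦(1 : ℤ)⟧') (R.mp 0 γ z) = x := by
    intro x
    obtain ⟨y, hy⟩ := R.surj_snd hC' (show R.Van (0 + 1) (K⟦(1 : ℤ)⟧) from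
      hD.van hK1 (by lia)) x
    obtain ⟨z, hz⟩ := R.surj_snd hF' (h₁.conc (0 + 1) (by lia)) y
    exact ⟨z, by rw [hz, hy]⟩
  have hQ : R.KC D 0 (C⟦(1 : ℤ)⟧) := by
    refine ⟨hCc.shift 1, RC_shift hD.shift 1 (fun n hn => by lia) hCl,
      RC_shift hD.shift 1 (fun n hn => by lia) hCg, ?_, ?_⟩
    · obtain ⟨A, π, hA, hπ⟩ := h₂.quot
      refine ⟨A, π ≫ γ ≫ (-c⟦(1 : ℤ)⟧'), hA, fun x => ?_⟩
      obtain ⟨z, hz⟩ := hstep x
      obtain ⟨a, rfl⟩ := hπ z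
      exact ⟨a, by rw [mp_comp_apply, mp_comp_apply, hz]⟩
    · refine ⟨B, ι, hB, fun x hx => ?_⟩
      obtain ⟨z, rfl⟩ := hstep x
      have h4 : R.mp 0 v z = 0 := by
        rw [hν, hι, mp_comp_apply, mp_comp_apply]
        exact hx
      obtain ⟨w, rfl⟩ := hv z h4
      have h5 : f ≫ γ = 0 := comp_distTriang_mor_zero₁₂ _ hF'
      have h6 : R.mp 0 γ (R.mp 0 f w) = 0 := by
        rw [← mp_comp_apply, h5, mp_zero, LinearMap.zero_apply]
      rw [h6, map_zero]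
  have h6 := KC_shift hD 0 (-1) _ hQ
  exact prop_of_iso (R.KC D 1) (shiftShiftNeg C (1 : ℤ)) h6

lemma KC_ext_of_shift (hD : Adm R D) (n m s : ℤ) (X : T)
    (h : extensionProduct (R.KC D (n - s)) (R.KC D (m - s)) (X⟦s⟧)) :
    extensionProduct (R.KC D n) (R.KC D m) X := by
  obtain ⟨A, B, f, g, δ, hT, hA, hB⟩ := h
  have e : X⟦s⟧⟦-s⟧ ≅ X := shiftShiftNeg X s
  refine (extensionProduct (R.KC D n) (R.KC D m)).prop_of_iso e
    ⟨_, _, _, _, _, Triangle.shift_distinguished _ hT (-s), ?_, ?_⟩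
  · have := KC_shift hD (n - s) (-s) A hA
    rwa [show n - s - -s = n by ring] at this
  · have := KC_shift hD (m - s) (-s) B hB
    rwa [show m - s - -s = m by ring] at this

lemma KC_swap [IsIdempotentComplete T] (hD : Adm R D)
    (hnil : NilHyp R D) (a b : ℤ) (h : b < a) :
    extensionProduct (R.KC D a) (R.KC D b) ≤ extensionProduct (R.KC D b) (R.KC D a) := by
  rintro X ⟨A, B, f, g, δ, hT, hA, hB⟩
  by_cases hab : a = b + 1
  · subst hab
    apply KC_ext_of_shift hD b (b + 1) b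
    have h1 := Triangle.shift_distinguished _ (rot_of_distTriang _ hT) b
    have hB' : R.KC D 0 (B⟦b⟧) := by simpa using KC_shift hD b b B hB
    have hA' : R.KC D 0 (A⟦(1 : ℤ)⟧⟦b⟧) := by
      have := KC_shift hD (b + 1 - 1) b _ (KC_shift hD (b + 1) 1 A hA)
      rwa [show b + 1 - 1 - b = 0 by ring] at this
    have h2 := KC_fibre hD hnil hB' hA' h1
    rwa [show b - b = 0 by ring, show b + 1 - b = 1 by ring]
  · have hδ : δ = 0 := by
      have h3 := KC_shift hD a 1 A hA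
      exact hD.orth (show b < a - 1 by lia) hB.le h3.ge δ
    obtain ⟨e, -⟩ := exists_iso_binaryBiproduct_of_distTriang _ hT hδ
    have h3 := binaryBiproductTriangle_distinguished B A
    refine (extensionProduct (R.KC D b) (R.KC D a)).prop_of_iso
      (?_ : B ⊞ A ≅ X) ⟨_, _, _, _, _, h3, hB, hA⟩
    exact (biprod.braiding B A) ≪≫ e.symm

/-- Decompositions pass to retracts. -/
lemma decomp_retract [IsIdempotentComplete T] {p q : ObjectProperty T}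
    (hp : ∀ {X Y : T}, Retract X Y → p Y → p X) (hq : ∀ {X Y : T}, Retract X Y → q Y → q X)
    {X Y P Q : T} (r : Retract X Y) {a : P ⟶ Y}
    {b : Y ⟶ Q} {c : Q ⟶ P⟦(1 : ℤ)⟧} (hT : Triangle.mk a b c ∈ distTriang T)
    (h₁ : ∀ f : P ⟶ Q, f = 0) (h₂ : ∀ f : P ⟶ Q⟦(-1 : ℤ)⟧, f = 0)
    (hP : p P) (hQ : q Q) :
    ∃ (A B : T) (f : A ⟶ X) (g : X ⟶ B) (h : B ⟶ A⟦(1 : ℤ)⟧),
      Triangle.mk f g h ∈ distTriang T ∧ p A ∧ q B := by
  have huniq : ∀ f : P ⟶ P, f ≫ a = 0 → f = 0 := by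
    intro f hf
    obtain ⟨k, hk⟩ := Triangle.coyoneda_exact₂ _ (inv_rot_of_distTriang _ hT) f hf
    have hk0 : k = 0 := h₂ k
    rw [hk0] at hk
    exact hk.trans Limits.zero_comp
  obtain ⟨e, he⟩ : ∃ e : P ⟶ P, a ≫ r.r ≫ r.i = e ≫ a :=
    Triangle.coyoneda_exact₂ _ hT (a ≫ r.r ≫ r.i) (h₁ _)
  have hee : e ≫ e = e := by
    rw [← sub_eq_zero]
    apply huniq
    have h3 : (e ≫ e) ≫ a = e ≫ a := by
      rw [assoc, ← he, ← assoc, ← he]
      simp only [assoc]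
      rw [r.retract_assoc]
    rw [Preadditive.sub_comp, h3, sub_self]
  obtain ⟨A, iA, rA, hA1, hA2⟩ := IsIdempotentComplete.idempotents_split P e hee
  obtain ⟨B, g, h, hB⟩ := distinguished_cocone_triangle (iA ≫ a ≫ r.r)
  have h4 : rA ≫ iA ≫ a ≫ r.r = a ≫ r.r := by
    rw [← assoc, hA2, ← assoc, ← he]
    simp only [assoc]
    rw [r.retract, comp_id]
  have h6 : iA ≫ a = (iA ≫ a ≫ r.r) ≫ r.i := by
    have h7 : iA ≫ e = iA := by rw [← hA2, ← assoc, hA1, id_comp]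
    calc iA ≫ a = (iA ≫ e) ≫ a := by rw [h7]
      _ = iA ≫ a ≫ r.r ≫ r.i := by rw [assoc, he]
      _ = (iA ≫ a ≫ r.r) ≫ r.i := by simp only [assoc]
  obtain ⟨x, hx1, hx2⟩ : ∃ x : B ⟶ Q, g ≫ x = r.i ≫ b ∧ h ≫ iA⟦(1 : ℤ)⟧' = x ≫ c :=
    complete_distinguished_triangle_morphism _ _ hB hT iA r.i h6.symm
  obtain ⟨y, hy1, hy2⟩ : ∃ y : Q ⟶ B, b ≫ y = r.r ≫ g ∧ c ≫ rA⟦(1 : ℤ)⟧' = y ≫ h :=
    complete_distinguished_triangle_morphism _ _ hT hB rA r.r h4.symm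
  let φ : Triangle.mk (iA ≫ a ≫ r.r) g h ⟶ Triangle.mk (iA ≫ a ≫ r.r) g h :=
    Triangle.homMk _ _ (𝟙 A) (𝟙 X) (x ≫ y)
      (show (iA ≫ a ≫ r.r) ≫ 𝟙 X = 𝟙 A ≫ iA ≫ a ≫ r.r by rw [comp_id, id_comp])
      (show g ≫ x ≫ y = 𝟙 X ≫ g by
        rw [← assoc, hx1, assoc, hy1, ← assoc, r.retract])
      (show h ≫ (𝟙 A)⟦(1 : ℤ)⟧' = (x ≫ y) ≫ h by
        rw [assoc, ← hy2, ← assoc, ← hx2, assoc, ← Functor.map_comp, hA1])
  have hφ : IsIso (x ≫ y) := isIso₃_of_isIso₁₂ φ hB hB (IsIso.id _) (IsIso.id _)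
  exact ⟨A, B, iA ≫ a ≫ r.r, g, h, hB, hp ⟨iA, rA, hA1⟩ hP,
    hq ⟨x, y ≫ inv (x ≫ y), by rw [← assoc, IsIso.hom_inv_id]⟩ hQ⟩

/-- Decompositions exist. -/
theorem decomp_of_adm [IsIdempotentComplete T] (hD : Adm R D)
    (hnil : NilHyp R D)
    (hgen : (Sorting.anyOf D).IsClassicalTriangulatedGenerator) (X : T) :
    ∃ (A B : T) (f : A ⟶ X) (g : X ⟶ B) (h : B ⟶ A⟦(1 : ℤ)⟧),
      Triangle.mk f g h ∈ distTriang T ∧ RC D (fun n => n ≤ 0) A ∧
      RC D (fun n => 1 ≤ n) B := by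
  have hX : (Sorting.anyOf (R.KC D)).triangEnvelope X := by
    have h1 : (Sorting.anyOf D).triangEnvelope X := by
      rw [isClassicalTriangulatedGenerator_iff] at hgen
      rw [hgen]
      trivial
    refine monotone_triangEnvelope ?_ X h1
    rintro G ⟨n, hn⟩
    exact ⟨n, KC_of hD hn⟩
  obtain ⟨Y, r, hY⟩ := Sorting.exists_retract (KC_shift hD) (KC_swap hD hnil) hX
  obtain ⟨P, Q, a, b, c, hT, hP, hQ⟩ := hY (RC D fun n => n ≤ 0) (RC D fun n => 1 ≤ n)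
    (RC_extClosed _) (RC_extClosed _) 0
    (fun a ha Z hZ => RC_mono (fun n hn => by lia) hZ.le)
    (fun a ha Z hZ => RC_mono (fun n hn => by lia) hZ.ge)
  exact decomp_retract (p := RC D fun n => n ≤ 0) (q := RC D fun n => 1 ≤ n)
    (fun r h => RC_retract r h) (fun r h => RC_retract r h) r hT
    (fun f => hD.tpair.orth hP hQ f) (fun f => hD.tpair.orth hP (hD.tpair.gshift hQ) f) hP hQ

/-- The t-structure. -/
def tOfAdm [IsIdempotentComplete T] (hD : Adm R D) (hnil : NilHyp R D)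
    (hgen : (Sorting.anyOf D).IsClassicalTriangulatedGenerator) : TStructure T where
  le n := RC D fun m => m ≤ n
  ge n := RC D fun m => n ≤ m
  le_isClosedUnderIsomorphisms n := inferInstance
  ge_isClosedUnderIsomorphisms n := inferInstance
  le_shift n a n' h X hX := RC_shift hD.shift a (fun m hm => by lia) hX
  ge_shift n a n' h X hX := RC_shift hD.shift a (fun m hm => by lia) hX
  zero' X Y f hX hY := hD.orth (show (0 : ℤ) < 1 by lia) hX hY f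
  le_zero_le := fun X hX => RC_mono (fun m hm => by lia) hX
  ge_one_le := fun X hX => RC_mono (fun m hm => by lia) hX
  exists_triangle_zero_one X := by
    obtain ⟨A, B, f, g, h, hT, hA, hB⟩ := decomp_of_adm hD hnil hgen X
    exact ⟨A, B, hA, hB, f, g, h, hT⟩

/-- Every object is bounded for the closures. -/
lemma bounded_of_gen (hD : Adm R D)
    (hgen : (Sorting.anyOf D).IsClassicalTriangulatedGenerator) (X : T) :
    ∃ b : ℤ, RC D (fun n => n ≤ b) X ∧ RC D (fun n => -b ≤ n) X := by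
  have hDi := hD.iso
  have h1 : (Sorting.anyOf D).triangEnvelope X := by
    rw [isClassicalTriangulatedGenerator_iff] at hgen
    rw [hgen]
    trivial
  have h2 := Sorting.U_retract_isTriangulated D hD.shift
  have h3 : (Sorting.anyOf D).triangEnvelope ≤ (Sorting.U D).retractClosure := by
    rw [triangEnvelope_le_iff]
    rintro G ⟨n, hn⟩
    refine le_retractClosure _ _ ⟨[n], ?_⟩
    rw [Sorting.E_single]
    exact hn
  obtain ⟨Y, ⟨l, hl⟩, hr⟩ := h3 X h1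
  obtain ⟨b, hb⟩ : ∃ b : ℤ, ∀ a ∈ l, |a| ≤ b := by
    clear hl hr
    induction l with
    | nil => exact ⟨0, by simp⟩
    | cons a l ih =>
      obtain ⟨b, hb⟩ := ih
      refine ⟨max |a| b, fun c hc => ?_⟩
      rcases List.mem_cons.1 hc with rfl | hc
      · exact le_max_left _ _
      · exact (hb c hc).trans (le_max_right _ _)
  refine ⟨b, ⟨Y, ⟨l, fun a ha => ?_, hl⟩, hr⟩, ⟨Y, ⟨l, fun a ha => ?_, hl⟩, hr⟩⟩
  · exact (le_abs_self a).trans (hb a ha)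
  · have := hb a ha
    have := neg_abs_le a
    lia

lemma tOfAdm_nondegenerate [IsIdempotentComplete T] (hD : Adm R D) (hnil : NilHyp R D)
    (hgen : (Sorting.anyOf D).IsClassicalTriangulatedGenerator) :
    Nondegenerate (tOfAdm hD hnil hgen) := by
  constructor
  · intro X hX
    obtain ⟨b, hb, hb'⟩ := bounded_of_gen hD hgen X
    rw [IsZero.iff_id_eq_zero]
    exact hD.orth (show -b - 1 < -b by lia) (hX (-b - 1)) hb' _
  · intro X hX
    obtain ⟨b, hb, hb'⟩ := bounded_of_gen hD hgen X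
    rw [IsZero.iff_id_eq_zero]
    exact hD.orth (show b < b + 1 by lia) hb (hX (b + 1)) _

lemma tOfAdm_tensor [IsIdempotentComplete T] (hD : Adm R D) (hnil : NilHyp R D)
    (hgen : (Sorting.anyOf D).IsClassicalTriangulatedGenerator) :
    TensorCompatible (tOfAdm hD hnil hgen) := by
  have hDi := hD.iso
  constructor
  · intro X Y hX hY
    exact RC_tensor₂ hD.tensor (fun a b ha hb => by lia) hX hY
  · intro X Y hX hY
    exact RC_tensor₂ hD.tensor (fun a b ha hb => by lia) hX hY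

lemma tOfAdm_exact [IsIdempotentComplete T] (hD : Adm R D) (hnil : NilHyp R D)
    (hgen : (Sorting.anyOf D).IsClassicalTriangulatedGenerator) :
    R.TExact (tOfAdm hD hnil hgen) :=
  ⟨fun _ hX _ hi => hD.van hX (by lia), fun _ hX _ hi => hD.van hX (by lia)⟩

end Realization

end Pool.Agent.Lib.MotT
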