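import Pool.Agent.Lib.MP_6d0ce9_ag.LefConv

/-!
# From the conjectures of Murre and Beilinson to a t-structure
-/

set_option linter.unusedSectionVars false

universe w v u

open CategoryTheory Category Limits MonoidalCategory Pretriangulated Triangulated
  ObjectProperty

namespace Pool.Agent.Lib.MotT

lemma tr'_injective {T : Type u} [Category.{v} T] [MonoidalCategory T] [Preadditive T]
    [MonoidalPreadditive T] {A A' : T} [ExactPairing A A'] (h : A' ⟶ 𝟙_ T)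
    (h0 : (tr' h : 𝟙_ T ⟶ A) = 0) : h = 0 := by
  have h1 : tensorLeftHomEquiv (𝟙_ T) A A' (𝟙_ T) ((ρ_ A').hom ≫ h) = 0 := by
    have h2 : tensorLeftHomEquiv (𝟙_ T) A A' (𝟙_ T) ((ρ_ A').hom ≫ h) =
        tr' h ≫ (ρ_ A).inv := by
      simp [tensorLeftHomEquiv, tr', unitors_equal]
      rw [unitors_inv_equal, Iso.inv_hom_id_assoc]
    rw [h2, h0, zero_comp]
  have h2 : (ρ_ A').hom ≫ h = 0 := by
    rw [← (tensorLeftHomEquiv (𝟙_ T) A A' (𝟙_ T)).symm_apply_apply ((ρ_ A').hom ≫ h), h1]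
    simp [tensorLeftHomEquiv]
  rw [← cancel_epi (ρ_ A').hom, h2, comp_zero]

variable {T : Type u} [Category.{v} T] [Preadditive T] [HasZeroObject T] [HasShift T ℤ]
  [∀ n : ℤ, (shiftFunctor T n).Additive] [Pretriangulated T] [MonoidalCategory T]
  [SymmetricCategory T] {F : Type w} [Field F] {R : Realization T F}
  [∀ X : T, (tensorLeft X).CommShift ℤ] [∀ X : T, (tensorLeft X).IsTriangulated]
  {S : ObjectProperty T}

variable (R S) in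
/-- the shifts of objects of `S` which are concentrated in degree `0` -/
def PS : ObjectProperty T := fun X =>
  R.ConcentratedIn 0 X ∧ ∃ (A : T) (n : ℤ), S A ∧ Nonempty (X ≅ A⟦n⟧)

lemma PS_unit (hS : IsChowClass S) : PS R S (𝟙_ T) :=
  ⟨R.unit_conc, 𝟙_ T, 0, hS.unit, ⟨((shiftFunctorZero T ℤ).app _).symm⟩⟩

lemma PS_tensor (hS : IsChowClass S) (A B : T) (hA : PS R S A) (hB : PS R S B) :
    PS R S (A ⊗ B) := by
  obtain ⟨hA0, A₁, n, hA₁, ⟨e⟩⟩ := hA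
  obtain ⟨hB0, B₁, m, hB₁, ⟨e'⟩⟩ := hB
  exact ⟨R.conc_tensor (by ring) hA0 hB0, A₁ ⊗ B₁, n + m, hS.tensor _ _ hA₁ hB₁,
    ⟨(e ⊗ᵢ e') ≪≫ shiftRight _ _ m ≪≫ (shiftFunctor T m).mapIso (shiftLeft A₁ B₁ n) ≪≫
      ((shiftFunctorAdd' T n m (n + m) (by lia)).app _).symm⟩⟩

variable [IsTriangulated T]

lemma PS_dual (hrig : IsRigid T) (hS : IsChowClass S) {A A' : T} [ExactPairing A A']
    (hA : PS R S A) : PS R S A' := by
  obtain ⟨hA0, A₁, n, hA₁, ⟨e⟩⟩ := hA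
  obtain ⟨A₁', hA₁', ⟨h⟩⟩ := hS.dual A₁ hA₁
  let _ : ExactPairing (A₁⟦n⟧) A' := exactPairingCongrLeft e.symm
  obtain ⟨e'⟩ : Nonempty (A' ≅ A₁'⟦-n⟧) := dual_shift hrig (A := A₁) n
  exact ⟨by simpa using R.conc_dual hA0, A₁', -n, hA₁', ⟨e'⟩⟩

/-- the condition `RatEqNumUpTo` for `PS` -/
lemma PS_key (hnum : RatEqNumUpTo R S) {C : T} (hC : PS R S C) {n : ℤ} (hn : n ≤ 0)
    (f : 𝟙_ T ⟶ C⟦n⟧) (hf : f ≠ 0) : ∃ g : C⟦n⟧ ⟶ 𝟙_ T, f ≫ g ≠ 0 := by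
  obtain ⟨hC0, A, m, hA, ⟨e⟩⟩ := hC
  have hAm : R.ConcentratedIn m A := by
    have h1 := Realization.ConcentratedIn.of_iso (hC0.shift (-m))
      ((shiftFunctor T (-m)).mapIso e ≪≫ shiftShiftNeg A m)
    simpa using h1
  let e' : C⟦n⟧ ≅ A⟦m + n⟧ :=
    (shiftFunctor T n).mapIso e ≪≫ ((shiftFunctorAdd' T m n (m + n) rfl).app A).symm
  obtain ⟨g, hg⟩ := hnum A hA m (m + n) hAm (by lia) (f ≫ e'.hom) (fun h => hf (by
    rw [← cancel_mono e'.hom, h, zero_comp]))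
  exact ⟨e'.hom ≫ g, by rwa [← assoc]⟩

lemma PS_key₀ (hnum : RatEqNumUpTo R S) {C : T} (hC : PS R S C)
    (f : 𝟙_ T ⟶ C) (hf : f ≠ 0) : ∃ g : C ⟶ 𝟙_ T, f ≫ g ≠ 0 := by
  obtain ⟨g, hg⟩ := PS_key hnum hC le_rfl (f ≫ ((shiftFunctorZero T ℤ).app C).inv) (fun h =>
    hf (by rw [← cancel_mono ((shiftFunctorZero T ℤ).app C).inv, h, zero_comp]))
  exact ⟨((shiftFunctorZero T ℤ).app C).inv ≫ g, by rwa [← assoc]⟩

lemma PS_cones (hrig : IsRigid T) (hS : IsChowClass S) (hnum : RatEqNumUpTo R S) :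
    ConesNilpotent (PS R S) := by
  rintro A B B' hA hB ⟨hBB⟩ N s δ ω hN hs
  have hC : PS R S (A ⊗ B') := PS_tensor hS _ _ hA (PS_dual hrig hS hB)
  obtain ⟨C', ⟨hCC⟩⟩ := hrig (A ⊗ B')
  have hC' : PS R S C' := PS_dual hrig hS hC
  let _ : ExactPairing C' (A ⊗ B') := BraidedCategory.exactPairing_swap (A ⊗ B') C'
  obtain ⟨g, hg⟩ := PS_key₀ hnum hC' (tr' s) (fun h => hs (tr'_injective s h))
  rw [← tr_comp] at hg
  have hiso := hS.field _ hg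
  have h1 : s ≫ δ = 0 := comp_distTriang_mor_zero₁₂ _ hN
  have h2 : δ = 0 := by
    rw [← cancel_epi ((tr g : 𝟙_ T ⟶ 𝟙_ T ⊗ (A ⊗ B')) ≫ (λ_ (A ⊗ B')).hom ≫ s), comp_zero,
      assoc, assoc, h1, comp_zero, comp_zero]
  refine ⟨1, ?_⟩
  change 𝟙 _ ≫ (ρ_ (𝟙_ T)).inv ≫ (𝟙_ T ◁ δ) = 0
  rw [h2, MonoidalPreadditive.whiskerLeft_zero, comp_zero, comp_zero]

lemma PS_neg (hrig : IsRigid T) (hS : IsChowClass S) (hnum : RatEqNumUpTo R S) :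
    NegVanishing (PS R S) := by
  intro A B hA hB n hn f
  by_contra hf
  obtain ⟨A', ⟨hAA⟩⟩ := hrig A
  have hC : PS R S (B ⊗ A') := PS_tensor hS _ _ hB (PS_dual hrig hS hA)
  obtain ⟨g, hg⟩ := PS_key hnum hC hn.le ((tr f : 𝟙_ T ⟶ B⟦n⟧ ⊗ A') ≫ (shiftLeft B A' n).hom)
    (fun h => hf (tr_injective (A' := A') f (by
      rw [← cancel_mono (shiftLeft B A' n).hom, h, zero_comp])))
  have hiso := hS.field _ hg
  obtain ⟨c₀, hc₀⟩ := R.nontrivial_unit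
  have h1 : R.mp 0 (((tr f : 𝟙_ T ⟶ B⟦n⟧ ⊗ A') ≫ (shiftLeft B A' n).hom) ≫ g) = 0 :=
    Realization.mp_comp_zero _ _ (hC.1.shift n 0 (by lia))
  apply hc₀
  have h3 : R.mp 0 ((((tr f : 𝟙_ T ⟶ B⟦n⟧ ⊗ A') ≫ (shiftLeft B A' n).hom) ≫ g) ≫
      inv (((tr f : 𝟙_ T ⟶ B⟦n⟧ ⊗ A') ≫ (shiftLeft B A' n).hom) ≫ g)) c₀ = c₀ := by
    rw [IsIso.hom_inv_id, R.mp_id, LinearMap.id_apply]
  rw [← h3, R.mp_comp_apply, h1, LinearMap.zero_apply, map_zero]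

lemma PS_gen (hS : IsChowClass S) (hCK : ChowKunneth R S) :
    ObjectProperty.IsClassicalTriangulatedGenerator fun G : T =>
      ∃ A B B' : T, PS R S A ∧ PS R S B ∧
        Nonempty (ExactPairing B B') ∧ Nonempty (G ≅ A ⊗ B') := by
  obtain ⟨Q, hQ⟩ : ∃ Q : ObjectProperty T, Q = fun G : T =>
      ∃ A B B' : T, PS R S A ∧ PS R S B ∧
        Nonempty (ExactPairing B B') ∧ Nonempty (G ≅ A ⊗ B') := ⟨_, rfl⟩
  rw [← hQ]
  have hu : ∀ G, PS R S G → Q G := by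
    intro G hG
    rw [hQ]
    exact ⟨G, 𝟙_ T, 𝟙_ T, hG, PS_unit hS, ⟨exactPairingUnit⟩, ⟨(ρ_ _).symm⟩⟩
  have hne : Q.Nonempty := ⟨𝟙_ T, hu _ (PS_unit hS)⟩
  have h := hS.generates
  rw [isClassicalTriangulatedGenerator_iff, eq_top_iff] at h ⊢
  refine h.trans ((triangEnvelope_le_iff _).2 ?_)
  intro G hG
  obtain ⟨n, B, hB, ⟨e⟩⟩ := hCK G hG
  refine Q.triangEnvelope.prop_of_iso ((biproduct.isoProduct B).symm ≪≫ e.symm : ∏ᶜ B ≅ G)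
    (prop_product _ fun j => ?_)
  obtain ⟨h1, d, h2⟩ := hB j
  have h3 : PS R S ((B j)⟦d⟧) := ⟨by simpa using h2.shift d, B j, d, h1, ⟨Iso.refl _⟩⟩
  have h4 := Q.triangEnvelope.le_shift (-d) _ (Q.le_triangEnvelope _ (hu _ h3))
  exact Q.triangEnvelope.prop_of_iso (shiftShiftNeg (B j) d) h4

/-- Existence of the t-structure. -/
theorem exists_t_of_chowKunneth [IsIdempotentComplete T] [CharZero F] (hrig : IsRigid T)
    (hconn : ConnectedUnit T) (hcom : R.CommonGen R) (hS : IsChowClass S)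
    (hCK : ChowKunneth R S) (hnum : RatEqNumUpTo R S) :
    ∃ t : TStructure T, Nondegenerate t ∧ TensorCompatible t ∧ R.TExact t := by
  have h := (criterion hrig hconn (fun _ : Unit => R) () (PS R S) (PS_unit hS)
    (PS_tensor hS) (fun _ h => h.1) (PS_gen hS hCK)).out 2 0
  obtain ⟨t, h1, h2, h3⟩ := h.1 ⟨PS_cones hrig hS hnum, PS_neg hrig hS hnum, fun _ => hcom⟩
  exact ⟨t, h1, h2, h3 ()⟩

end Pool.Agent.Lib.MotT
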