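import Pool.Agent.Lib.MP_6d0ce9_ag.Sort

/-!
# Exterior powers of subobjects and quotients in the heart
-/

set_option linter.unusedSectionVars false

universe w v u

open CategoryTheory Category Limits MonoidalCategory Pretriangulated Triangulated

namespace Pool.Agent.Lib.MotT

section

variable {T : Type u} [Category.{v} T] [MonoidalCategory T]

/-- functoriality of the tensor power. -/
def tpowMap {X Y : T} (f : X ⟶ Y) : (n : ℕ) → (tpow X n ⟶ tpow Y n)
  | 0 => f
  | n + 1 => tpowMap f n ⊗ₘ f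

variable [BraidedCategory T]

lemma last_swap_natural {P Q X Y : T} (p : P ⟶ Q) (f : X ⟶ Y) :
    ((p ⊗ₘ f) ⊗ₘ f) ≫ (α_ Q Y Y).hom ≫ (Q ◁ (β_ Y Y).hom) ≫ (α_ Q Y Y).inv =
      ((α_ P X X).hom ≫ (P ◁ (β_ X X).hom) ≫ (α_ P X X).inv) ≫ ((p ⊗ₘ f) ⊗ₘ f) := by
  rw [associator_naturality_assoc]
  simp only [assoc]
  rw [← associator_inv_naturality]
  congr 1
  rw [← id_tensorHom, ← id_tensorHom, tensorHom_comp_tensorHom_assoc,
    tensorHom_comp_tensorHom_assoc, comp_id, id_comp,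
    BraidedCategory.braiding_naturality]

lemma swapAt_natural {X Y : T} (f : X ⟶ Y) (n j : ℕ) :
    tpowMap f n ≫ swapAt Y n j = swapAt X n j ≫ tpowMap f n := by
  induction n with
  | zero =>
    change f ≫ 𝟙 Y = 𝟙 X ≫ f
    rw [comp_id, id_comp]
  | succ n ih =>
    cases n with
    | zero => exact BraidedCategory.braiding_naturality f f
    | succ n =>
      by_cases hj : j = n + 1
      · subst hj
        have h1 : swapAt X (n + 2) (n + 1) =
            (α_ (tpow X n) X X).hom ≫ (tpow X n ◁ (β_ X X).hom) ≫ (α_ (tpow X n) X X).inv :=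
          if_pos rfl
        have h2 : swapAt Y (n + 2) (n + 1) =
            (α_ (tpow Y n) Y Y).hom ≫ (tpow Y n ◁ (β_ Y Y).hom) ≫ (α_ (tpow Y n) Y Y).inv :=
          if_pos rfl
        exact (congrArg (fun g => tpowMap f (n + 2) ≫ g) h2).trans
          ((last_swap_natural (tpowMap f n) f).trans
            (congrArg (fun g => g ≫ tpowMap f (n + 2)) h1).symm)
      · have h1 : swapAt X (n + 2) j = swapAt X (n + 1) j ▷ X := if_neg hj
        have h2 : swapAt Y (n + 2) j = swapAt Y (n + 1) j ▷ Y := if_neg hj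
        refine (congrArg (fun g => tpowMap f (n + 2) ≫ g) h2).trans
          (Eq.trans ?_ (congrArg (fun g => g ≫ tpowMap f (n + 2)) h1).symm)
        change (tpowMap f (n + 1) ⊗ₘ f) ≫ (swapAt Y (n + 1) j ▷ Y) =
          (swapAt X (n + 1) j ▷ X) ≫ (tpowMap f (n + 1) ⊗ₘ f)
        rw [← tensorHom_id, ← tensorHom_id, tensorHom_comp_tensorHom,
          tensorHom_comp_tensorHom, ih, comp_id, id_comp]

lemma wordAct_natural {X Y : T} (f : X ⟶ Y) (n : ℕ) (w : List (Fin n)) :
    tpowMap f n ≫ wordAct Y n w = wordAct X n w ≫ tpowMap f n := by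
  induction w with
  | nil =>
    change tpowMap f n ≫ 𝟙 _ = 𝟙 _ ≫ tpowMap f n
    rw [comp_id, id_comp]
  | cons j w ih =>
    change tpowMap f n ≫ (swapAt Y n j ≫ wordAct Y n w) = (swapAt X n j ≫ wordAct X n w) ≫ _
    rw [← assoc, swapAt_natural, assoc, ih, assoc]

lemma antisym_natural [Preadditive T] {X Y : T} (f : X ⟶ Y) (n : ℕ)
    (W : Equiv.Perm (Fin (n + 1)) → List (Fin n)) :
    tpowMap f n ≫ antisym Y n W = antisym X n W ≫ tpowMap f n := by
  rw [antisym, antisym, Preadditive.comp_sum, Preadditive.sum_comp]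
  refine Finset.sum_congr rfl fun σ _ => ?_
  rw [Preadditive.comp_zsmul, Preadditive.zsmul_comp, wordAct_natural]

end

section

variable {T : Type u} [Category.{v} T] [Preadditive T] [HasZeroObject T] [HasShift T ℤ]
  [∀ n : ℤ, (shiftFunctor T n).Additive] [Pretriangulated T]

/-- the cone of `f` lies in `D^{≥ 0}`: for morphisms in the heart this means that `f` is a
monomorphism of the heart. -/
def MonoCone (t : TStructure T) {X Y : T} (f : X ⟶ Y) : Prop :=
  ∃ (C : T) (v : Y ⟶ C) (w : C ⟶ X⟦(1 : ℤ)⟧), Triangle.mk f v w ∈ distTriang T ∧ t.IsGE C 0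

/-- the cone of `f` lies in `D^{≤ -1}`: for morphisms in the heart this means that `f` is an
epimorphism of the heart. -/
def EpiCone (t : TStructure T) {X Y : T} (f : X ⟶ Y) : Prop :=
  ∃ (C : T) (v : Y ⟶ C) (w : C ⟶ X⟦(1 : ℤ)⟧), Triangle.mk f v w ∈ distTriang T ∧
    t.IsLE C (-1)

lemma MonoCone.eq_zero {t : TStructure T} {X Y : T} {f : X ⟶ Y} (hf : MonoCone t f) {Z : T}
    (hZ : t.IsLE Z 0) (g : Z ⟶ X) (hg : g ≫ f = 0) : g = 0 := by
  obtain ⟨C, v, w, hT, hC⟩ := hf
  obtain ⟨s, hs⟩ := Triangle.coyoneda_exact₂ _ (inv_rot_of_distTriang _ hT) g hg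
  have h1 : s = 0 := by
    have := t.isGE_shift C 0 (-1) 1 (by lia)
    exact t.zero_of_isLE_of_isGE s 0 1 (by lia) hZ this
  rw [hs, h1, zero_comp]
  rfl

lemma EpiCone.eq_zero {t : TStructure T} {X Y : T} {f : X ⟶ Y} (hf : EpiCone t f) {Z : T}
    (hZ : t.IsGE Z 0) (g : Y ⟶ Z) (hg : f ≫ g = 0) : g = 0 := by
  obtain ⟨C, v, w, hT, hC⟩ := hf
  obtain ⟨s, hs⟩ := Triangle.yoneda_exact₂ _ hT g hg
  have h1 : s = 0 := t.zero_of_isLE_of_isGE s (-1) 0 (by lia) hC hZ
  rw [hs, h1, comp_zero]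
  rfl

lemma MonoCone.comp [IsTriangulated T] {t : TStructure T} {X Y Z : T} {f : X ⟶ Y} {g : Y ⟶ Z}
    (hf : MonoCone t f) (hg : MonoCone t g) : MonoCone t (f ≫ g) := by
  obtain ⟨C, v, w, hT, hC⟩ := hf
  obtain ⟨C', v', w', hT', hC'⟩ := hg
  obtain ⟨C'', v'', w'', hT''⟩ := distinguished_cocone_triangle (f ≫ g)
  have o := someOctahedron rfl hT hT' hT''
  exact ⟨C'', v'', w'', hT'', isGE_ext t o.mem 0 hC hC'⟩

lemma EpiCone.comp [IsTriangulated T] {t : TStructure T} {X Y Z : T} {f : X ⟶ Y} {g : Y ⟶ Z}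
    (hf : EpiCone t f) (hg : EpiCone t g) : EpiCone t (f ≫ g) := by
  obtain ⟨C, v, w, hT, hC⟩ := hf
  obtain ⟨C', v', w', hT', hC'⟩ := hg
  obtain ⟨C'', v'', w'', hT''⟩ := distinguished_cocone_triangle (f ≫ g)
  have o := someOctahedron rfl hT hT' hT''
  exact ⟨C'', v'', w'', hT'', isLE_ext t o.mem (-1) hC hC'⟩

end

section Tens

variable {T : Type u} [Category.{v} T] [Preadditive T] [HasZeroObject T] [HasShift T ℤ]
  [∀ n : ℤ, (shiftFunctor T n).Additive] [Pretriangulated T] [MonoidalCategory T]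
  [SymmetricCategory T] [∀ X : T, (tensorLeft X).CommShift ℤ]
  [∀ X : T, (tensorLeft X).IsTriangulated]

lemma MonoCone.whiskerLeft {t : TStructure T} (ht : TensorCompatible t) {X Y : T}
    {f : X ⟶ Y} (hf : MonoCone t f) {W : T} (hW : t.IsGE W 0) : MonoCone t (W ◁ f) := by
  obtain ⟨C, v, w, hT, hC⟩ := hf
  obtain ⟨δ, hT'⟩ := tri_left W _ hT
  refine ⟨_, _, _, hT', ?_⟩
  change t.IsGE (W ⊗ C) 0
  simpa using ge_tensor ht hW hC

lemma EpiCone.whiskerLeft {t : TStructure T} (ht : TensorCompatible t) {X Y : T}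
    {f : X ⟶ Y} (hf : EpiCone t f) {W : T} (hW : t.IsLE W 0) : EpiCone t (W ◁ f) := by
  obtain ⟨C, v, w, hT, hC⟩ := hf
  obtain ⟨δ, hT'⟩ := tri_left W _ hT
  refine ⟨_, _, _, hT', ?_⟩
  change t.IsLE (W ⊗ C) (-1)
  simpa using le_tensor ht hW hC

set_option backward.defeqAttrib.useBackward true in
set_option backward.isDefEq.respectTransparency false in
omit [MonoidalCategory T] [SymmetricCategory T] [∀ X : T, (tensorLeft X).CommShift ℤ]
  [∀ X : T, (tensorLeft X).IsTriangulated] in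
lemma MonoCone.of_arrow {t : TStructure T} {X Y X' Y' : T} {f : X ⟶ Y} {f' : X' ⟶ Y'}
    (hf : MonoCone t f) (e : X' ≅ X) (e' : Y' ≅ Y) (h : f' ≫ e'.hom = e.hom ≫ f) :
    MonoCone t f' := by
  obtain ⟨C, v, w, hT, hC⟩ := hf
  refine ⟨C, e'.hom ≫ v, w ≫ e.inv⟦(1 : ℤ)⟧', ?_, hC⟩
  refine isomorphic_distinguished _ hT _ (Triangle.isoMk _ _ e e' (Iso.refl _) h ?_ ?_)
  · dsimp
    simp
  · dsimp
    rw [assoc, ← Functor.map_comp, e.inv_hom_id, CategoryTheory.Functor.map_id, comp_id,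
      id_comp]

set_option backward.defeqAttrib.useBackward true in
set_option backward.isDefEq.respectTransparency false in
omit [MonoidalCategory T] [SymmetricCategory T] [∀ X : T, (tensorLeft X).CommShift ℤ]
  [∀ X : T, (tensorLeft X).IsTriangulated] in
lemma EpiCone.of_arrow {t : TStructure T} {X Y X' Y' : T} {f : X ⟶ Y} {f' : X' ⟶ Y'}
    (hf : EpiCone t f) (e : X' ≅ X) (e' : Y' ≅ Y) (h : f' ≫ e'.hom = e.hom ≫ f) :
    EpiCone t f' := by
  obtain ⟨C, v, w, hT, hC⟩ := hf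
  refine ⟨C, e'.hom ≫ v, w ≫ e.inv⟦(1 : ℤ)⟧', ?_, hC⟩
  refine isomorphic_distinguished _ hT _ (Triangle.isoMk _ _ e e' (Iso.refl _) h ?_ ?_)
  · dsimp
    simp
  · dsimp
    rw [assoc, ← Functor.map_comp, e.inv_hom_id, CategoryTheory.Functor.map_id, comp_id,
      id_comp]

lemma MonoCone.whiskerRight {t : TStructure T} (ht : TensorCompatible t) {X Y : T}
    {f : X ⟶ Y} (hf : MonoCone t f) {W : T} (hW : t.IsGE W 0) : MonoCone t (f ▷ W) :=
  (hf.whiskerLeft ht hW).of_arrow (β_ X W) (β_ Y W) (by simp)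

lemma EpiCone.whiskerRight {t : TStructure T} (ht : TensorCompatible t) {X Y : T}
    {f : X ⟶ Y} (hf : EpiCone t f) {W : T} (hW : t.IsLE W 0) : EpiCone t (f ▷ W) :=
  (hf.whiskerLeft ht hW).of_arrow (β_ X W) (β_ Y W) (by simp)

lemma tpow_heart {t : TStructure T} (ht : TensorCompatible t) {X : T} (hX : t.heart X)
    (n : ℕ) : t.heart (tpow X n) := by
  induction n with
  | zero => exact hX
  | succ n ih =>
    obtain ⟨h1, h2⟩ := (heart_iff t _).1 hX
    obtain ⟨h3, h4⟩ := (heart_iff t _).1 ih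
    refine (heart_iff t _).2 ⟨?_, ?_⟩
    · change t.IsLE (tpow X n ⊗ X) 0
      simpa using le_tensor ht h3 h1
    · change t.IsGE (tpow X n ⊗ X) 0
      simpa using ge_tensor ht h4 h2

variable [IsTriangulated T]

lemma tpowMap_mono {t : TStructure T} (ht : TensorCompatible t) {X Y : T} (hX : t.heart X)
    (hY : t.heart Y) {f : X ⟶ Y} (hf : MonoCone t f) (n : ℕ) :
    MonoCone t (tpowMap f n) := by
  induction n with
  | zero => exact hf
  | succ n ih =>
    change MonoCone t (tpowMap f n ⊗ₘ f)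
    rw [MonoidalCategory.tensorHom_def]
    have h1 := ((heart_iff t _).1 hX).2
    have h2 := ((heart_iff t _).1 (tpow_heart ht hY n)).2
    exact (ih.whiskerRight ht h1).comp (hf.whiskerLeft ht h2)

lemma tpowMap_epi {t : TStructure T} (ht : TensorCompatible t) {X Y : T} (hX : t.heart X)
    (hY : t.heart Y) {f : X ⟶ Y} (hf : EpiCone t f) (n : ℕ) :
    EpiCone t (tpowMap f n) := by
  induction n with
  | zero => exact hf
  | succ n ih =>
    change EpiCone t (tpowMap f n ⊗ₘ f)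
    rw [MonoidalCategory.tensorHom_def]
    have h1 := ((heart_iff t _).1 hX).1
    have h2 := ((heart_iff t _).1 (tpow_heart ht hY n)).1
    exact (ih.whiskerRight ht h1).comp (hf.whiskerLeft ht h2)

/-- subobjects of an object with vanishing exterior power. -/
lemma extPower_of_mono {t : TStructure T} (ht : TensorCompatible t) {X Y : T}
    (hX : t.heart X) (hY : t.heart Y) {f : X ⟶ Y} (hf : MonoCone t f) {n : ℕ}
    (h : ExtPowerVanishes Y n) : ExtPowerVanishes X n := by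
  intro W hW
  refine (tpowMap_mono ht hX hY hf n).eq_zero ((heart_iff t _).1 (tpow_heart ht hX n)).1 _ ?_
  rw [← antisym_natural, h W hW, comp_zero]

/-- quotients of an object with vanishing exterior power. -/
lemma extPower_of_epi {t : TStructure T} (ht : TensorCompatible t) {X Y : T}
    (hX : t.heart X) (hY : t.heart Y) {f : X ⟶ Y} (hf : EpiCone t f) {n : ℕ}
    (h : ExtPowerVanishes X n) : ExtPowerVanishes Y n := by
  intro W hW
  refine (tpowMap_epi ht hX hY hf n).eq_zero ((heart_iff t _).1 (tpow_heart ht hY n)).2 _ ?_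
  rw [antisym_natural, h W hW, zero_comp]

end Tens

end Pool.Agent.Lib.MotT
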