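import Pool.Agent.Lib.MP_6d0ce9_ag.Alt

/-!
# Sorting iterated extensions
-/

set_option linter.unusedSectionVars false

universe w v u

open CategoryTheory Category Limits Pretriangulated Triangulated ObjectProperty

namespace Pool.Agent.Lib.MotT

namespace Sorting

variable {T : Type u} [Category.{v} T] [Preadditive T] [HasZeroObject T] [HasShift T ℤ]
  [∀ n : ℤ, (shiftFunctor T n).Additive] [Pretriangulated T]

/-- the property of being a zero object -/
def zeroP : ObjectProperty T := fun X => IsZero X

instance : (zeroP (T := T)).IsClosedUnderIsomorphisms where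
  of_iso e h := IsZero.of_iso h e.symm

instance : (zeroP (T := T)).ContainsZero where
  exists_zero := ⟨_, isZero_zero T, isZero_zero T⟩

lemma ext_zero_left (P : ObjectProperty T) [P.IsClosedUnderIsomorphisms] :
    extensionProduct zeroP P = P := by
  apply le_antisymm
  · rintro X ⟨A, B, f, g, h, hT, hA, hB⟩
    have : IsIso g := (Triangle.isZero₁_iff_isIso₂ _ hT).1 hA
    exact P.prop_of_iso (asIso g).symm hB
  · exact le_extensionProduct_right _

lemma ext_zero_right (P : ObjectProperty T) [P.IsClosedUnderIsomorphisms] :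
    extensionProduct P zeroP = P := by
  apply le_antisymm
  · rintro X ⟨A, B, f, g, h, hT, hA, hB⟩
    have : IsIso f := (Triangle.isZero₃_iff_isIso₁ _ hT).1 hB
    exact P.prop_of_iso (asIso f) hA
  · exact le_extensionProduct_left _

/-- iterated extensions along a list of degrees. -/
def E (D : ℤ → ObjectProperty T) : List ℤ → ObjectProperty T
  | [] => zeroP
  | a :: l => extensionProduct (D a) (E D l)

instance (D : ℤ → ObjectProperty T) (l : List ℤ) : (E D l).IsClosedUnderIsomorphisms := by
  cases l with
  | nil => exact inferInstanceAs (zeroP (T := T)).IsClosedUnderIsomorphisms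
  | cons a l => exact inferInstanceAs (extensionProduct (D a) (E D l)).IsClosedUnderIsomorphisms

lemma E_single (D : ℤ → ObjectProperty T) [∀ n, (D n).IsClosedUnderIsomorphisms] (a : ℤ) :
    E D [a] = D a := ext_zero_right _

variable [IsTriangulated T]

lemma E_append (D : ℤ → ObjectProperty T) (l l' : List ℤ) :
    E D (l ++ l') = extensionProduct (E D l) (E D l') := by
  induction l with
  | nil => exact (ext_zero_left _).symm
  | cons a l ih =>
    change extensionProduct (D a) (E D (l ++ l')) = _
    rw [ih]
    exact (extensionProduct_assoc _ _ _).symm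

lemma E_swap {D : ℤ → ObjectProperty T}
    (hD : ∀ a b, b < a → extensionProduct (D a) (D b) ≤ extensionProduct (D b) (D a))
    (a b : ℤ) (h : b < a) (l : List ℤ) : E D (a :: b :: l) ≤ E D (b :: a :: l) := by
  change extensionProduct (D a) (extensionProduct (D b) (E D l)) ≤
    extensionProduct (D b) (extensionProduct (D a) (E D l))
  rw [← extensionProduct_assoc, ← extensionProduct_assoc]
  exact monotone_extensionProduct_left _ (hD a b h)

lemma E_orderedInsert {D : ℤ → ObjectProperty T}
    (hD : ∀ a b, b < a → extensionProduct (D a) (D b) ≤ extensionProduct (D b) (D a))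
    (a : ℤ) (l : List ℤ) : E D (a :: l) ≤ E D (l.orderedInsert (· ≤ ·) a) := by
  induction l with
  | nil => exact le_rfl
  | cons b l ih =>
    by_cases h : a ≤ b
    · rw [List.orderedInsert_cons, if_pos h]
    · rw [List.orderedInsert_cons, if_neg h]
      refine (E_swap hD a b (lt_of_not_ge h) l).trans ?_
      exact monotone_extensionProduct_right _ ih

lemma E_sort {D : ℤ → ObjectProperty T}
    (hD : ∀ a b, b < a → extensionProduct (D a) (D b) ≤ extensionProduct (D b) (D a))
    (l : List ℤ) : E D l ≤ E D (l.insertionSort (· ≤ ·)) := by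
  induction l with
  | nil => exact le_rfl
  | cons a l ih =>
    rw [List.insertionSort_cons]
    exact (monotone_extensionProduct_right (D a) ih).trans (E_orderedInsert hD a _)

/-- closure of a property under extensions -/
def ExtClosed (P : ObjectProperty T) : Prop := extensionProduct P P ≤ P

lemma E_le {D : ℤ → ObjectProperty T} {P : ObjectProperty T} [P.IsClosedUnderIsomorphisms]
    [P.ContainsZero] (hP : ExtClosed P) {l : List ℤ} (h : ∀ a ∈ l, D a ≤ P) : E D l ≤ P := by
  induction l with
  | nil =>
    intro X hX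
    exact P.prop_of_isZero hX
  | cons a l ih =>
    refine le_trans ?_ hP
    refine (monotone_extensionProduct_left _ (h a (by simp))).trans
      (monotone_extensionProduct_right _ (ih fun b hb => h b (by simp [hb])))

lemma E_sorted_le {D : ℤ → ObjectProperty T} {L G : ObjectProperty T}
    [L.IsClosedUnderIsomorphisms] [L.ContainsZero] [G.IsClosedUnderIsomorphisms]
    [G.ContainsZero] (hL : ExtClosed L) (hG : ExtClosed G) (n : ℤ)
    (hDL : ∀ a ≤ n, D a ≤ L) (hDG : ∀ a > n, D a ≤ G) {l : List ℤ}
    (hl : l.Pairwise (· ≤ ·)) : E D l ≤ extensionProduct L G := by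
  induction l with
  | nil =>
    have h1 : E D [] ≤ G := E_le hG (by simp)
    exact h1.trans (le_extensionProduct_right _)
  | cons a l ih =>
    rw [List.pairwise_cons] at hl
    by_cases ha : a ≤ n
    · have h1 : E D (a :: l) ≤ extensionProduct L (extensionProduct L G) :=
        (monotone_extensionProduct_left _ (hDL a ha)).trans
          (monotone_extensionProduct_right _ (ih hl.2))
      rw [← extensionProduct_assoc] at h1
      exact h1.trans (monotone_extensionProduct_left _ hL)
    · have h1 : E D (a :: l) ≤ G := by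
        apply E_le hG
        intro b hb
        apply hDG
        rcases List.mem_cons.1 hb with rfl | hb
        · lia
        · have := hl.1 b hb
          lia
      exact h1.trans (le_extensionProduct_right _)

/-- union over all lists -/
def U (D : ℤ → ObjectProperty T) : ObjectProperty T := fun X => ∃ l, E D l X

instance (D : ℤ → ObjectProperty T) : (U D).IsClosedUnderIsomorphisms where
  of_iso e := fun ⟨l, hl⟩ => ⟨l, (E D l).prop_of_iso e hl⟩

instance (D : ℤ → ObjectProperty T) : (U D).ContainsZero where
  exists_zero := ⟨_, isZero_zero T, [], isZero_zero T⟩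

lemma U_ext (D : ℤ → ObjectProperty T) : ExtClosed (U D) := by
  rintro X ⟨A, B, f, g, h, hT, ⟨l, hl⟩, ⟨l', hl'⟩⟩
  refine ⟨l ++ l', ?_⟩
  rw [E_append]
  exact ⟨A, B, f, g, h, hT, hl, hl'⟩

lemma E_shift {D : ℤ → ObjectProperty T}
    (hS : ∀ (n a : ℤ) (X : T), D n X → D (n - a) (X⟦a⟧)) (a : ℤ) (l : List ℤ) (X : T)
    (hX : E D l X) : E D (l.map (· - a)) (X⟦a⟧) := by
  induction l generalizing X with
  | nil => exact (shiftFunctor T a).map_isZero hX
  | cons b l ih =>
    obtain ⟨A, B, f, g, h, hT, hA, hB⟩ := hX
    exact ⟨_, _, _, _, _, Triangle.shift_distinguished _ hT a, hS _ _ _ hA, ih _ hB⟩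

/-- objects belonging to one of the properties `D n`. -/
def anyOf (D : ℤ → ObjectProperty T) : ObjectProperty T := fun G => ∃ n, D n G

theorem U_retract_isTriangulated (D : ℤ → ObjectProperty T)
    (hS : ∀ (n a : ℤ) (X : T), D n X → D (n - a) (X⟦a⟧)) :
    (U D).retractClosure.IsTriangulated where
  exists_zero := ⟨_, isZero_zero T, _, ⟨[], isZero_zero T⟩, ⟨Retract.refl _⟩⟩
  isStableUnderShiftBy a := ⟨fun X hX => by
    obtain ⟨Y, ⟨l, hl⟩, ⟨r⟩⟩ := hX
    exact ⟨Y⟦a⟧, ⟨_, E_shift hS a l Y hl⟩, ⟨r.map (shiftFunctor T a)⟩⟩⟩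
  ext₂' Tr hT h₁ h₃ := by
    apply le_isoClosure
    have h1 : extensionProduct (U D).retractClosure (U D).retractClosure Tr.obj₂ :=
      ⟨_, _, _, _, _, hT, h₁, h₃⟩
    have h2 := extensionProduct_retractClosure_retractClosure_le _ _ _ h1
    exact monotone_retractClosure (U_ext D) _ h2

/-- Main sorting statement. -/
theorem exists_retract {D : ℤ → ObjectProperty T}
    [∀ n, (D n).IsClosedUnderIsomorphisms]
    (hS : ∀ (n a : ℤ) (X : T), D n X → D (n - a) (X⟦a⟧))
    (hD : ∀ a b, b < a → extensionProduct (D a) (D b) ≤ extensionProduct (D b) (D a))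
    {X : T} (hX : (anyOf D).triangEnvelope X) :
    ∃ (Y : T) (_ : Retract X Y), ∀ (L G : ObjectProperty T)
      [L.IsClosedUnderIsomorphisms] [L.ContainsZero] [G.IsClosedUnderIsomorphisms]
      [G.ContainsZero] (_ : ExtClosed L) (_ : ExtClosed G) (n : ℤ)
      (_ : ∀ a ≤ n, D a ≤ L) (_ : ∀ a > n, D a ≤ G), extensionProduct L G Y := by
  have h1 := U_retract_isTriangulated D hS
  have h2 : (anyOf D).triangEnvelope ≤
      (U D).retractClosure := by
    rw [triangEnvelope_le_iff]
    rintro G ⟨n, hn⟩
    refine le_retractClosure _ _ ⟨[n], ?_⟩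
    rw [E_single]
    exact hn
  obtain ⟨Y, ⟨l, hl⟩, ⟨r⟩⟩ := h2 X hX
  refine ⟨Y, r, ?_⟩
  intro L G _ _ _ _ hL hG n hDL hDG
  exact E_sorted_le hL hG n hDL hDG (List.pairwise_insertionSort _ l) _ (E_sort hD l _ hl)

end Sorting

end Pool.Agent.Lib.MotT
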