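import Mathlib

/-!
# Tensor nilpotence: definitions
-/

universe v u

open CategoryTheory MonoidalCategory

namespace Pool.Agent.Lib.MotT

section

variable {T : Type u} [Category.{v} T] [MonoidalCategory T]

/-- The `n`-fold tensor power `((𝟙 ⊗ N) ⊗ ⋯) ⊗ N` of `N`. -/
def unitPow (N : T) : ℕ → T
  | 0 => 𝟙_ T
  | n + 1 => unitPow N n ⊗ N

/-- The `n`-fold tensor power of a morphism `δ : 𝟙 ⟶ N`, as a morphism from `𝟙` to the
`n`-fold tensor power of `N`. -/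
def homPow {N : T} (δ : 𝟙_ T ⟶ N) : (n : ℕ) → (𝟙_ T ⟶ unitPow N n)
  | 0 => 𝟙 _
  | n + 1 => homPow δ n ≫ (ρ_ (unitPow N n)).inv ≫ (unitPow N n ◁ δ)

/-- Some tensor power of `δ : 𝟙 ⟶ N` is zero. -/
def TensorNilpotent [Preadditive T] {N : T} (δ : 𝟙_ T ⟶ N) : Prop :=
  ∃ n : ℕ, homPow δ n = 0

end

end Pool.Agent.Lib.MotT
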