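import Pool.Agent.Lib.MP_6d0ce9_ag.Defs
import Pool.Agent.Lib.MP_6d0ce9_ag.NilDefs

/-!
# The conditions in the criterion
-/

universe w w' v u

open CategoryTheory Category Limits MonoidalCategory Pretriangulated Triangulated

namespace Pool.Agent.Lib.MotT

section

variable {T : Type u} [Category.{v} T] [Preadditive T] [HasZeroObject T] [HasShift T ℤ]
  [∀ n : ℤ, (shiftFunctor T n).Additive] [Pretriangulated T] (P : ObjectProperty T)

/-- For `A` and `B` in `P` and `n < 0` there are no nonzero morphisms `A ⟶ B[n]`. -/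
def NegVanishing : Prop :=
  ∀ A B : T, P A → P B → ∀ n : ℤ, n < 0 → ∀ f : A ⟶ B⟦n⟧, f = 0

/-- If `A` and `B` are in `P`, `B'` is dual to `B` and `s : A ⊗ B' ⟶ 𝟙` is a nonzero morphism,
then the morphism `δ : 𝟙 ⟶ N` to the cone of `s` is tensor nilpotent. -/
def ConesNilpotent [MonoidalCategory T] : Prop :=
  ∀ A B B' : T, P A → P B → Nonempty (ExactPairing B B') →
    ∀ (N : T) (s : A ⊗ B' ⟶ 𝟙_ T) (δ : 𝟙_ T ⟶ N) (ω : N ⟶ (A ⊗ B')⟦(1 : ℤ)⟧),
      Triangle.mk s δ ω ∈ distTriang T → s ≠ 0 → TensorNilpotent δ

end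

namespace Realization

variable {T : Type u} [Category.{v} T] [Preadditive T] [HasZeroObject T] [HasShift T ℤ]
  [∀ n : ℤ, (shiftFunctor T n).Additive] [Pretriangulated T] [MonoidalCategory T]
  [BraidedCategory T] {F : Type w} [Field F] (R : Realization T F)

/-- The functor `H^0` of the realisation is injective on the morphisms between objects
of `P`. -/
def FaithfulOn (P : ObjectProperty T) : Prop :=
  ∀ A B : T, P A → P B → ∀ f : A ⟶ B, R.H0.map f = 0 → f = 0

/-- The objects which are concentrated in one and the same degree for the realisations `R` and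
`R'` generate `T` as a thick triangulated subcategory. -/
def CommonGen {F' : Type w'} [Field F'] (R' : Realization T F') : Prop :=
  ObjectProperty.IsClassicalTriangulatedGenerator
    (fun G : T => ∃ n : ℤ, R.ConcentratedIn n G ∧ R'.ConcentratedIn n G)

end Realization

end Pool.Agent.Lib.MotT
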