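import Pool.Agent.Lib.MP_6d0ce9_ag.Defs

/-!
# Smooth projective motives over a finite field: definitions

Example to keep in mind: `T` is the category of constructible motives over a finite field with
`q` elements, `S` is the class of the motives `h(X)(n)[2n]` for `X` smooth and projective of
pure dimension and `n` an integer (`h(X)` is the dual of `M(X)`, and `h(X)(n)[2n]` is isomorphic to
`M(X)(n - d)[2n - 2d]` if `X` has dimension `d`), and the Frobenius endomorphisms of
`𝔽_q`-schemes, or rather their inverses, give a natural endomorphism of the identity functor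
of `T`. We have `Hom(𝟙, h(X)(n)[2n + m]) = CH^n(X, -m)` (Voevodsky), with rational coefficients.

The facts about this example behind the definitions are theorems, none of them is formalised
here:

* smooth projective motives generate (by de Jong's alterations, the coefficients being rational)
  and are stable under duality and tensor products;
* `CH^n(X, r) = 0` for `r < 0`, and `End(𝟙) = CH^0(Spec 𝔽_q) = ℚ`;
* the Frobenius endomorphisms are central in the category of finite correspondences, and
  invertible on motives: Soulé, Geisser, Kahn;
* on `H^i` of a smooth projective variety the Frobenius endomorphism is annihilated by a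
  polynomial with integer coefficients whose complex roots have absolute value `q^{i/2}`:
  Deligne (Weil I).
-/

universe w v u

open CategoryTheory Category Limits MonoidalCategory Pretriangulated Triangulated

namespace Pool.Agent.Lib.MotT

section

variable {T : Type u} [Category.{v} T] [Preadditive T] [HasZeroObject T] [HasShift T ℤ]
  [∀ n : ℤ, (shiftFunctor T n).Additive] [Pretriangulated T] [MonoidalCategory T]

/-- The properties of the class of the motives `M(X)(n)[2n]` of smooth projective varieties
which are used: the nonzero endomorphisms of the unit object are invertible, the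
class contains the unit object, it is stable under tensor products and duals, it
generates `T` as a thick triangulated subcategory, and there are no nonzero morphisms
`𝟙 ⟶ A[n]` for `A` in the class and `n > 0` (that is, the higher Chow groups `CH^m(X, r)`
vanish for `r < 0`). -/
structure IsChowClass (S : ObjectProperty T) : Prop where
  field : ∀ a : 𝟙_ T ⟶ 𝟙_ T, a ≠ 0 → IsIso a
  unit : S (𝟙_ T)
  tensor : ∀ A B : T, S A → S B → S (A ⊗ B)
  dual : ∀ A : T, S A → ∃ A' : T, S A' ∧ Nonempty (ExactPairing A A')
  generates : S.IsClassicalTriangulatedGenerator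
  pos : ∀ A : T, S A → ∀ n : ℤ, 0 < n → ∀ f : 𝟙_ T ⟶ A⟦n⟧, f = 0

/-- There are no nonzero morphisms `𝟙 ⟶ A[n]` for `A` in `S` and `n < 0`. In the example this
is Parshin's conjecture: the rational higher Chow groups `CH^m(X, r)` of smooth projective
varieties `X` over the finite field vanish for `r > 0`. -/
def Parshin (S : ObjectProperty T) : Prop :=
  ∀ A : T, S A → ∀ n : ℤ, n < 0 → ∀ f : 𝟙_ T ⟶ A⟦n⟧, f = 0

/-- For `A` in `S` and every nonzero `f : 𝟙 ⟶ A` there is `g : A ⟶ 𝟙` with `f ≫ g ≠ 0`. In the
example this says that rational and numerical equivalence agree, with rational coefficients, for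
the cycles on smooth projective varieties over the finite field. -/
def RatEqNum (S : ObjectProperty T) : Prop :=
  ∀ A : T, S A → ∀ f : 𝟙_ T ⟶ A, f ≠ 0 → ∃ g : A ⟶ 𝟙_ T, f ≫ g ≠ 0

end

/-- The polynomial `Q` is nonzero and all its complex roots have absolute value `q^{i/2}`. -/
def IsWeil (q : ℝ) (i : ℤ) (Q : Polynomial ℤ) : Prop :=
  Q ≠ 0 ∧ ∀ z : ℂ, Polynomial.aeval z Q = 0 → ‖z‖ ^ 2 = q ^ i

/-- The polynomial `Q` with integer coefficients annihilates the endomorphism `l`, that is
`Q(l) = 0`. -/
def Annihilates {F : Type w} [Field F] {V : Type v} [AddCommGroup V] [Module F V]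
    (Q : Polynomial ℤ) (l : V →ₗ[F] V) : Prop :=
  Polynomial.aeval (show Module.End F V from l) (Q.map (Int.castRingHom F)) = 0

section

variable {T : Type u} [Category.{v} T] [Preadditive T] [HasZeroObject T] [HasShift T ℤ]
  [∀ n : ℤ, (shiftFunctor T n).Additive] [Pretriangulated T] [MonoidalCategory T]
  [BraidedCategory T] {F : Type w} [Field F]

/-- The linear map `H^i(X) → H^i(X)` induced by an endomorphism of `X`. -/
def Realization.onH (R : Realization T F) (i : ℤ) {X : T} (f : X ⟶ X) :
    R.H0.obj (X⟦i⟧) →ₗ[F] R.H0.obj (X⟦i⟧) :=
  (R.H0.map (f⟦i⟧')).hom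

/-- A Frobenius endomorphism: a natural endomorphism of the identity functor of `T` commuting
with the shifts, which for some fixed `q > 1` on `H^i(A)`, for `A` in `S` and every `i`, is
annihilated by a nonzero polynomial with integer coefficients all of whose complex roots have
absolute value `q^{i/2}`. -/
structure Frobenius (R : Realization T F) (S : ObjectProperty T) where
  /-- the number of elements of the finite field -/
  q : ℝ
  one_lt : 1 < q
  /-- the endomorphism of `X` -/
  φ : ∀ X : T, X ⟶ X
  natural : ∀ {X Y : T} (f : X ⟶ Y), φ X ≫ f = f ≫ φ Y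
  shift : ∀ (X : T) (n : ℤ), φ (X⟦n⟧) = (φ X)⟦n⟧'
  weights : ∀ A : T, S A → ∀ i : ℤ, ∃ Q : Polynomial ℤ, IsWeil q i Q ∧
    Annihilates Q (R.onH i (φ A))

end

end Pool.Agent.Lib.MotT
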