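import Pool.Agent.Lib.MP_6d0ce9_ag.KCfib

/-!
# The existence criterion
-/

set_option linter.unusedSectionVars false

universe w v u

open CategoryTheory Category Limits MonoidalCategory Pretriangulated Triangulated
  ObjectProperty

namespace Pool.Agent.Lib.MotT

namespace Realization

variable {T : Type u} [Category.{v} T] [Preadditive T] [HasZeroObject T] [HasShift T ℤ]
  [∀ n : ℤ, (shiftFunctor T n).Additive] [Pretriangulated T] [MonoidalCategory T]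
  [SymmetricCategory T] {F : Type w} [Field F] {R : Realization T F}
  {D : ℤ → ObjectProperty T}
  [∀ X : T, (tensorLeft X).CommShift ℤ] [∀ X : T, (tensorLeft X).IsTriangulated]
  [IsTriangulated T]

/-- Existence of the t-structure for a graded class. -/
theorem exists_t_of_adm [IsIdempotentComplete T] (hD : Adm R D)
    (hnil : NilHyp R D)
    (hgen : (Sorting.anyOf D).IsClassicalTriangulatedGenerator) :
    ∃ t : TStructure T, Nondegenerate t ∧ TensorCompatible t ∧ R.TExact t :=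
  ⟨tOfAdm hD hnil hgen, tOfAdm_nondegenerate hD hnil hgen,
    tOfAdm_tensor hD hnil hgen, tOfAdm_exact hD hnil hgen⟩

/-- The cone of a nonzero morphism `M ⟶ 𝟙` with `M` in degree `0` is in degree `-1`. -/
lemma conc_cone_unit {M N : T} {s : M ⟶ 𝟙_ T} {δ : 𝟙_ T ⟶ N} {ω : N ⟶ M⟦(1 : ℤ)⟧}
    (hM : R.ConcentratedIn 0 M) (hs : R.mp 0 s ≠ 0)
    (hN : Triangle.mk s δ ω ∈ distTriang T) : R.ConcentratedIn (-1) N := by
  have hfin1 : Module.Finite F (R.Hm 0 (𝟙_ T)) := R.finite 0 _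
  obtain ⟨m, hm⟩ : ∃ m : R.Hm 0 M, R.mp 0 s m ≠ 0 := by
    by_contra hcon
    push Not at hcon
    exact hs (LinearMap.ext hcon)
  have hsurj : ∀ y : R.Hm 0 (𝟙_ T), ∃ x, R.mp 0 s x = y := by
    intro y
    obtain ⟨r, hr⟩ := (finrank_eq_one_iff_of_nonzero' _ hm).1 R.finrank_unit y
    exact ⟨r • m, by rw [map_smul, hr]⟩
  intro i hi
  by_cases h : i = 0
  · subst h
    exact van_cone hN 0 hsurj fun x _ => (hM (1 + 0) (by lia)).elim _ _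
  · exact R.van₃' hN (hM (i + 1) (by lia)) (R.unit_conc i h)

/-- Conservativity implies the nilpotence property. -/
lemma nilHyp_of_conservative [CharZero F] (hD : Adm R D) (hcons : R.Conservative) :
    NilHyp R D := fun _ _ _ δ _ hM hs hN =>
  tensorNilpotent_of_odd hcons (conc_cone_unit (hD.pure hM) hs hN) δ

/-- The graded class of shifts of the objects `A ⊗ B'` with `A`, `B` in `P` and `B'` dual
to `B`. -/
def D₀ (P : ObjectProperty T) (n : ℤ) : ObjectProperty T := fun X =>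
  ∃ A B B' : T, P A ∧ P B ∧ Nonempty (ExactPairing B B') ∧ Nonempty (X ≅ (A ⊗ B')⟦-n⟧)

/-- `(A ⊗ B) ⊗ (C ⊗ D) ≅ (A ⊗ C) ⊗ (B ⊗ D)` -/
def tensorμIso (X₁ X₂ Y₁ Y₂ : T) : (X₁ ⊗ X₂) ⊗ (Y₁ ⊗ Y₂) ≅ (X₁ ⊗ Y₁) ⊗ (X₂ ⊗ Y₂) where
  hom := tensorμ X₁ X₂ Y₁ Y₂
  inv := tensorδ X₁ X₂ Y₁ Y₂
  hom_inv_id := tensorμ_tensorδ X₁ X₂ Y₁ Y₂
  inv_hom_id := tensorδ_tensorμ X₁ X₂ Y₁ Y₂

lemma adm_D₀ (hrig : IsRigid T) {P : ObjectProperty T} (hP1 : P (𝟙_ T))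
    (hPt : ∀ X Y : T, P X → P Y → P (X ⊗ Y)) (hP0 : ∀ X : T, P X → R.ConcentratedIn 0 X)
    (h2 : ∀ X Y : T, P X → P Y → ∀ n : ℤ, n ≤ 0 → ∀ f : X ⟶ Y⟦n⟧,
      R.H0.map f = 0 → f = 0) :
    Adm R (D₀ P) where
  iso n := ⟨fun {X Y} e h => by
    obtain ⟨A, B, B', hA, hB, hBB, ⟨i⟩⟩ := h
    exact ⟨A, B, B', hA, hB, hBB, ⟨e.symm ≪≫ i⟩⟩⟩
  pure {n X} h := by
    obtain ⟨A, B, B', hA, hB, ⟨hBB⟩, ⟨i⟩⟩ := h
    have h1 : R.ConcentratedIn 0 B' := by simpa using R.conc_dual (hP0 B hB)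
    have h2 : R.ConcentratedIn 0 (A ⊗ B') := R.conc_tensor (by ring) (hP0 A hA) h1
    have h3 := ConcentratedIn.of_iso (h2.shift (-n)) i.symm
    rwa [show 0 - -n = n by ring] at h3
  shift n a X h := by
    obtain ⟨A, B, B', hA, hB, hBB, ⟨i⟩⟩ := h
    refine ⟨A, B, B', hA, hB, hBB, ⟨(shiftFunctor T a).mapIso i ≪≫ ?_⟩⟩
    exact ((shiftFunctorAdd' T (-n) a (-(n - a)) (by ring)).app (A ⊗ B')).symm
  tensor {a b c X Y} hc hX hY := by
    obtain ⟨A₁, B₁, B₁', hA₁, hB₁, ⟨hBB₁⟩, ⟨i₁⟩⟩ := hX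
    obtain ⟨A₂, B₂, B₂', hA₂, hB₂, ⟨hBB₂⟩, ⟨i₂⟩⟩ := hY
    refine ⟨A₂ ⊗ A₁, B₁ ⊗ B₂, B₂' ⊗ B₁', hPt _ _ hA₂ hA₁, hPt _ _ hB₁ hB₂,
      ⟨ExactPairing.tensor⟩, ⟨?_⟩⟩
    refine (i₁ ⊗ᵢ i₂) ≪≫ shiftRight _ _ (-b) ≪≫ (shiftFunctor T (-b)).mapIso
      (β_ _ _ ≪≫ shiftRight _ _ (-a)) ≪≫ ?_
    refine ((shiftFunctorAdd' T (-a) (-b) (-c) (by lia)).app _).symm ≪≫
      (shiftFunctor T (-c)).mapIso (tensorμIso _ _ _ _)
  unit := ⟨𝟙_ T, 𝟙_ T, 𝟙_ T, hP1, hP1, ⟨exactPairingUnit⟩,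
    ⟨(λ_ (𝟙_ T)).symm ≪≫ ((shiftFunctorZero' T (-0 : ℤ) (by simp)).app _).symm⟩⟩
  dual {X} h := by
    obtain ⟨A, B, B', hA, hB, ⟨hBB⟩, ⟨i⟩⟩ := h
    obtain ⟨A', ⟨hAA⟩⟩ := hrig A
    let j : X ≅ A ⊗ B' := i ≪≫ (shiftFunctorZero' T (-0 : ℤ) (by simp)).app _
    let _ : ExactPairing B' B := BraidedCategory.exactPairing_swap B B'
    let _ : ExactPairing (A ⊗ B') (B ⊗ A') := ExactPairing.tensor
    exact ⟨B ⊗ A', ⟨exactPairingCongrLeft j⟩, B, A, A', hB, hA, ⟨hAA⟩,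
      ⟨((shiftFunctorZero' T (-0 : ℤ) (by simp)).app _).symm⟩⟩
  inj {j M} hj hM f hf := by
    obtain ⟨A, B, B', hA, hB, ⟨hBB⟩, ⟨i⟩⟩ := hM
    let _ : ExactPairing B' B := BraidedCategory.exactPairing_swap B B'
    let e : M ≅ B' ⊗ (A⟦-j⟧) :=
      i ≪≫ (shiftFunctor T (-j)).mapIso (β_ A B') ≪≫ (shiftRight B' A (-j)).symm
    let g : B ⊗ 𝟙_ T ⟶ A⟦-j⟧ := (tensorLeftHomEquiv (𝟙_ T) B' B (A⟦-j⟧)).symm (f ≫ e.hom)
    have hg : g = (B ◁ (f ≫ e.hom)) ≫ (α_ B B' (A⟦-j⟧)).inv ≫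
        (ε_ B' B ▷ (A⟦-j⟧)) ≫ (λ_ _).hom := rfl
    have hg0 : R.mp 0 g = 0 := by
      rw [hg, mp_comp, mp_whiskerLeft_eq_zero (hP0 B hB), LinearMap.comp_zero]
      rw [mp_comp, mp_eq_zero_of_map f hf, LinearMap.comp_zero]
    have hg1 : g = 0 := by
      have h1 : (ρ_ B).inv ≫ g = 0 := by
        apply h2 B A hB hA (-j) (by lia)
        apply map_eq_zero_of_mp
        rw [mp_comp, hg0, LinearMap.zero_comp]
      rw [← cancel_epi (ρ_ B).inv, h1, comp_zero]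
    have h3 : f ≫ e.hom = 0 := by
      have h4 := congrArg (tensorLeftHomEquiv (𝟙_ T) B' B (A⟦-j⟧)) hg1
      rw [Equiv.apply_symm_apply] at h4
      rw [h4]
      simp [tensorLeftHomEquiv]
    rw [← cancel_mono e.hom, h3, zero_comp]

/-- Existence of the t-structure. -/
theorem exists_t_of_class [IsIdempotentComplete T] (hrig : IsRigid T)
    {P : ObjectProperty T} (hP1 : P (𝟙_ T))
    (hPt : ∀ X Y : T, P X → P Y → P (X ⊗ Y)) (hP0 : ∀ X : T, P X → R.ConcentratedIn 0 X)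
    (hgen : IsClassicalTriangulatedGenerator fun G : T =>
      ∃ A B B' : T, P A ∧ P B ∧ Nonempty (ExactPairing B B') ∧ Nonempty (G ≅ A ⊗ B'))
    (hnil : ∀ A B B' : T, P A → P B → Nonempty (ExactPairing B B') →
      ∀ (N : T) (s : A ⊗ B' ⟶ 𝟙_ T) (δ : 𝟙_ T ⟶ N) (ω : N ⟶ (A ⊗ B')⟦(1 : ℤ)⟧),
        Triangle.mk s δ ω ∈ distTriang T → R.H0.map s ≠ 0 → TensorNilpotent δ)
    (h2 : ∀ X Y : T, P X → P Y → ∀ n : ℤ, n ≤ 0 → ∀ f : X ⟶ Y⟦n⟧,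
      R.H0.map f = 0 → f = 0) :
    ∃ t : TStructure T, Nondegenerate t ∧ TensorCompatible t ∧ R.TExact t := by
  refine exists_t_of_adm (adm_D₀ hrig hP1 hPt hP0 h2) ?_ ?_
  · rintro M N s δ ω ⟨A, B, B', hA, hB, hBB, ⟨i⟩⟩ hs hN
    let j : M ≅ A ⊗ B' := i ≪≫ (shiftFunctorZero' T (-0 : ℤ) (by simp)).app _
    refine hnil A B B' hA hB hBB N (j.inv ≫ s) δ (ω ≫ j.hom⟦(1 : ℤ)⟧') ?_ ?_
    · refine isomorphic_distinguished _ hN _ (Triangle.isoMk _ _ j.symm (Iso.refl _)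
        (Iso.refl _) ?_ ?_ ?_)
      · change (j.inv ≫ s) ≫ 𝟙 _ = j.inv ≫ s
        rw [comp_id]
      · change δ ≫ 𝟙 _ = 𝟙 _ ≫ δ
        rw [comp_id, id_comp]
      · change (ω ≫ j.hom⟦(1 : ℤ)⟧') ≫ j.inv⟦(1 : ℤ)⟧' = 𝟙 _ ≫ ω
        rw [assoc, ← Functor.map_comp, j.hom_inv_id, CategoryTheory.Functor.map_id, comp_id,
          id_comp]
    · intro h0
      apply hs
      have h1 : R.mp 0 (j.inv ≫ s) = 0 := mp_eq_zero_of_map _ h0
      have h2 : s = j.hom ≫ j.inv ≫ s := by rw [j.hom_inv_id_assoc]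
      rw [h2, mp_comp, h1, LinearMap.zero_comp]
  · rw [isClassicalTriangulatedGenerator_iff, eq_top_iff] at hgen ⊢
    refine hgen.trans (monotone_triangEnvelope ?_)
    rintro G ⟨A, B, B', hA, hB, hBB, ⟨i⟩⟩
    exact ⟨0, A, B, B', hA, hB, hBB,
      ⟨i ≪≫ ((shiftFunctorZero' T (-0 : ℤ) (by simp)).app _).symm⟩⟩

/-- Conservativity implies nilpotence for the class. -/
lemma nil_of_conservative [CharZero F] (hcons : R.Conservative) {A B B' : T}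
    (hA : R.ConcentratedIn 0 A) (hB : R.ConcentratedIn 0 B) (hBB : Nonempty (ExactPairing B B'))
    {N : T} {s : A ⊗ B' ⟶ 𝟙_ T} {δ : 𝟙_ T ⟶ N} {ω : N ⟶ (A ⊗ B')⟦(1 : ℤ)⟧}
    (hN : Triangle.mk s δ ω ∈ distTriang T) (hs : R.H0.map s ≠ 0) : TensorNilpotent δ := by
  obtain ⟨hBB⟩ := hBB
  have h1 : R.ConcentratedIn 0 B' := by simpa using R.conc_dual hB
  have h2 : R.ConcentratedIn 0 (A ⊗ B') := R.conc_tensor (by ring) hA h1
  exact tensorNilpotent_of_odd hcons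
    (conc_cone_unit h2 (fun h0 => hs (map_eq_zero_of_mp _ h0)) hN) δ

/-- Objects concentrated in degree `0` belong to the heart. -/
lemma heart_of_conc {t : TStructure T} (hR : R.TExact t) (hcons : R.Conservative) {X : T}
    (hX : R.ConcentratedIn 0 X) : t.heart X :=
  (heart_iff t X).2 ⟨isLE_of_van hR hcons fun i hi => hX i (by lia),
    isGE_of_van hR hcons fun i hi => hX i (by lia)⟩

/-- Vanishing of negative extension groups and faithfulness. -/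
lemma eq_zero_of_exact {t : TStructure T} (hnd : Nondegenerate t) (ht : TensorCompatible t)
    (hrig : IsRigid T) (hconn : ConnectedUnit T) (hR : R.TExact t) {X Y : T}
    (hX : R.ConcentratedIn 0 X) (hY : R.ConcentratedIn 0 Y) {n : ℤ} (hn : n ≤ 0)
    (f : X ⟶ Y⟦n⟧) (hf : R.H0.map f = 0) : f = 0 := by
  have hcons := conservative_of_exact hnd ht hrig hconn hR
  have hX' := heart_of_conc hR hcons hX
  rcases eq_or_lt_of_le hn with rfl | hn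
  · have hY' : t.heart (Y⟦(0 : ℤ)⟧) := heart_of_conc hR hcons (by simpa using hY.shift 0)
    exact eq_zero_of_heart hnd ht hrig hconn hR hX' hY' f (mp_eq_zero_of_map f hf)
  · have h1 := ((heart_iff t X).1 hX').1
    have h2 := ((heart_iff t Y).1 (heart_of_conc hR hcons hY)).2
    exact t.zero_of_isLE_of_isGE f 0 (-n) (by lia) h1 (t.isGE_shift Y 0 n (-n) (by lia))

end Realization

end Pool.Agent.Lib.MotT
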