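import Pool.Agent.Lib.MP_6d0ce9_ag.Inj
import Pool.Agent.Lib.MP_6d0ce9_ag.Final

/-!
# Endomorphisms which are zero on cohomology are nilpotent
-/

set_option linter.unusedSectionVars false

universe w v u

open CategoryTheory Category Limits MonoidalCategory Pretriangulated Triangulated
  ObjectProperty

namespace Pool.Agent.Lib.MotT

lemma comp_pow {T : Type u} [Category.{v} T] {X Y : T} (f : X ⟶ Y) (a : End X) (b : End Y)
    (h : f ≫ b = a ≫ f) (m : ℕ) : f ≫ (b ^ m : End Y) = (a ^ m : End X) ≫ f := by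
  induction m with
  | zero =>
    rw [pow_zero, pow_zero]
    exact (comp_id f).trans (id_comp f).symm
  | succ m ih =>
    rw [pow_succ, pow_succ]
    change f ≫ (b ≫ (b ^ m : End Y)) = (a ≫ (a ^ m : End X)) ≫ f
    rw [← assoc, h, assoc, ih, assoc]

namespace Realization

variable {T : Type u} [Category.{v} T] [Preadditive T] [HasZeroObject T] [HasShift T ℤ]
  [∀ n : ℤ, (shiftFunctor T n).Additive] [Pretriangulated T] [MonoidalCategory T]
  [SymmetricCategory T] {F : Type w} [Field F] {R : Realization T F} {t : TStructure T}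
  [∀ X : T, (tensorLeft X).CommShift ℤ]
  [∀ X : T, (tensorLeft X).IsTriangulated] [IsTriangulated T]

/-- An endomorphism which is zero on cohomology is nilpotent; bounded case. -/
lemma nilpotent_of_bounded (hnd : Nondegenerate t) (ht : TensorCompatible t)
    (hrig : IsRigid T) (hconn : ConnectedUnit T) (hR : R.TExact t) (a : ℤ) (k : ℕ) (X : T)
    (h1 : t.IsGE X a) (h2 : t.IsLE X (a + k)) (g : End X) (hg : ∀ i, R.mp i g = 0) :
    ∃ N : ℕ, g ^ N = 0 := by
  have key : ∀ (Y : T) (n : ℤ), t.IsLE Y n → t.IsGE Y n → ∀ g : End Y,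
      (∀ i, R.mp i g = 0) → g = 0 := by
    intro Y n hY1 hY2 g hg
    have h3 : t.heart (Y⟦n⟧) := (heart_iff t _).2
      ⟨t.isLE_shift Y n n 0 (by lia), t.isGE_shift Y n n 0 (by lia)⟩
    have h4 : R.H0.map ((g : Y ⟶ Y)⟦n⟧') = 0 := by
      ext x
      exact congrArg (fun l => l x) (hg n)
    have h5 : (g : Y ⟶ Y)⟦n⟧' = 0 :=
      eq_zero_of_heart hnd ht hrig hconn hR h3 h3 _ (mp_eq_zero_of_map _ h4)
    exact (shiftFunctor T n).map_injective (by rw [h5, Functor.map_zero])
  induction k generalizing X with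
  | zero => exact ⟨1, by rw [pow_one]; exact key X a (by simpa using h2) h1 g hg⟩
  | succ k ih =>
    obtain ⟨A, B, u, v, δ, hT, hA, hB⟩ := exists_trunc t X (a + k) (a + k + 1) rfl
    have hA2 : t.IsGE A a :=
      isGE₁ t hT a h1 (t.isGE_of_ge B (a - 1) (a + k + 1) (by lia))
    have hB2 : t.IsLE B (a + k + 1) := by
      refine isLE₃ t hT (a + k + 1) (t.isLE_of_le A (a + k) _ (by lia)) ?_
      have : a + ((k + 1 : ℕ) : ℤ) = a + k + 1 := by push_cast; ring
      rwa [this] at h2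
    have huv : u ≫ v = 0 := comp_distTriang_mor_zero₁₂ _ hT
    obtain ⟨gA, hgA⟩ : ∃ gA : A ⟶ A, u ≫ (g : X ⟶ X) = gA ≫ u :=
      Triangle.coyoneda_exact₂ _ hT (u ≫ (g : X ⟶ X))
        (t.zero_of_isLE_of_isGE _ (a + k) (a + k + 1) (by lia) hA hB)
    obtain ⟨gB, hgB⟩ : ∃ gB : B ⟶ B, (g : X ⟶ X) ≫ v = v ≫ gB :=
      Triangle.yoneda_exact₂ _ hT ((g : X ⟶ X) ≫ v)
        (t.zero_of_isLE_of_isGE _ (a + k) (a + k + 1) (by lia) hA hB)
    have hA0 : ∀ i, R.mp i gA = 0 := by
      intro i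
      ext x
      rw [LinearMap.zero_apply]
      rcases lt_or_ge (a + k) i with hi | hi
      · exact (van_of_le hR hA hi).elim _ _
      · apply R.inj_fst hT (van_of_ge hR hB (by lia))
        rw [← R.mp_comp_apply, ← hgA, R.mp_comp_apply, hg, LinearMap.zero_apply]
    have hB0 : ∀ i, R.mp i gB = 0 := by
      intro i
      ext x
      rw [LinearMap.zero_apply]
      rcases lt_or_ge i (a + k + 1) with hi | hi
      · exact (van_of_ge hR hB hi).elim _ _
      · obtain ⟨y, rfl⟩ := R.surj_snd hT (van_of_le hR hA (by lia)) x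
        rw [← R.mp_comp_apply, ← hgB, R.mp_comp_apply, hg, LinearMap.zero_apply, map_zero]
    obtain ⟨N, hN⟩ := ih A hA2 hA gA hA0
    have hB1 : gB = 0 := key B _ hB2 hB gB hB0
    obtain ⟨h, hh⟩ : ∃ h : X ⟶ A, (g : X ⟶ X) = h ≫ u := by
      refine Triangle.coyoneda_exact₂ _ hT (g : X ⟶ X) ?_
      change (g : X ⟶ X) ≫ v = 0
      rw [hgB, hB1, comp_zero]
    refine ⟨N + 1, ?_⟩
    rw [pow_succ]
    change (g : X ⟶ X) ≫ (g ^ N : End X) = 0
    rw [hh, assoc]
    have h5 := comp_pow u gA g hgA N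
    rw [hh] at h5
    rw [h5, hN]
    exact (congrArg (h ≫ ·) zero_comp).trans comp_zero

/-- An endomorphism which is zero on cohomology is nilpotent. -/
theorem nilpotent_of_exact (hnd : Nondegenerate t) (ht : TensorCompatible t)
    (hrig : IsRigid T) (hconn : ConnectedUnit T) (hR : R.TExact t) (X : T)
    (g : End X) (hg : ∀ i, R.mp i g = 0) : ∃ N : ℕ, g ^ N = 0 := by
  have hcons := conservative_of_exact hnd ht hrig hconn hR
  obtain ⟨b, hb⟩ := R.bounded X
  have h1 : t.IsLE X |b| := isLE_of_van hR hcons fun i hi =>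
    hb i (lt_of_le_of_lt (le_abs_self b) (lt_of_lt_of_le hi (le_abs_self i)))
  have h2 : t.IsGE X (-|b|) := isGE_of_van hR hcons fun i hi =>
    hb i (lt_of_le_of_lt (le_abs_self b) (by
      have := neg_abs_le i
      have := neg_le_abs i
      lia))
  refine nilpotent_of_bounded hnd ht hrig hconn hR (-|b|) (2 * b.natAbs) X h2 ?_ g hg
  rw [show -|b| + ((2 * b.natAbs : ℕ) : ℤ) = |b| by push_cast; ring]
  exact h1

end Realization

end Pool.Agent.Lib.MotT
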