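import Pool.Agent.Lib.MP_6d0ce9_ag.Bezout
import Pool.Agent.Lib.MP_6d0ce9_ag.FrobDefs
import Pool.Agent.Lib.MP_6d0ce9_ag.NilEnd

/-!
# The part of weight zero
-/

set_option linter.unusedSectionVars false

universe w v u

open CategoryTheory Category Limits MonoidalCategory Pretriangulated Triangulated
  ObjectProperty Polynomial

namespace Pool.Agent.Lib.MotT

section

variable {A B : Type*} [Ring A] [Ring B]

/-- Evaluation of integer polynomials in a ring. -/
noncomputable def pe (x : A) : ℤ[X] →+* A := (aeval x : ℤ[X] →ₐ[ℤ] A).toRingHom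

lemma pe_map (f : A →+* B) (x : A) (Q : ℤ[X]) : pe (f x) Q = f (pe x Q) :=
  Polynomial.aeval_algHom_apply f.toIntAlgHom x Q

lemma pe_C (x : A) (m : ℤ) : pe x (C m) = (m : A) := by
  change aeval x (C m) = (m : A)
  rw [aeval_C, algebraMap_int_eq, eq_intCast]

lemma pe_monomial (x : A) (n : ℕ) (r : ℤ) : pe x (monomial n r) = (r : A) * x ^ n := by
  change aeval x (monomial n r) = (r : A) * x ^ n
  rw [aeval_monomial, algebraMap_int_eq, eq_intCast]

lemma pe_eq_zero {F V : Type*} [Field F] [AddCommGroup V] [Module F V] {Q : ℤ[X]}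
    {l : V →ₗ[F] V} (h : Annihilates Q l) : pe (show Module.End F V from l) Q = 0 := by
  have h1 : pe (show Module.End F V from l) Q =
      aeval (show Module.End F V from l) (Q.map (Int.castRingHom F)) := by
    induction Q using Polynomial.induction_on' with
    | add P Q hP hQ =>
      have h2 : ∀ P : ℤ[X], pe (show Module.End F V from l) P =
          aeval (show Module.End F V from l) (P.map (Int.castRingHom F)) := by
        intro P
        induction P using Polynomial.induction_on' with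
        | add P Q hP hQ => rw [map_add, hP, hQ, Polynomial.map_add, map_add]
        | monomial n r =>
          rw [pe_monomial, map_monomial, aeval_monomial]
          simp
      exact h2 _
    | monomial n r =>
      rw [pe_monomial, map_monomial, aeval_monomial]
      simp
  rw [h1]
  exact h

end

section

variable {T : Type u} [Category.{v} T] [Preadditive T]

lemma int_mul_eq {X : T} (r : ℤ) (x : End X) : (r : End X) * x = r • x := by
  rw [zsmul_eq_mul]

lemma comp_pe {X Y : T} (f : X ⟶ Y) (a : End X) (b : End Y) (h : f ≫ b = a ≫ f)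
    (Q : ℤ[X]) : f ≫ (pe b Q : End Y) = (pe a Q : End X) ≫ f := by
  induction Q using Polynomial.induction_on' with
  | add P Q hP hQ =>
    rw [map_add, map_add]
    exact (Preadditive.comp_add _ _ _ _ _ _).trans ((congrArg₂ (· + ·) hP hQ).trans
      (Preadditive.add_comp _ _ _ _ _ _).symm)
  | monomial n r =>
    rw [pe_monomial, pe_monomial, int_mul_eq, int_mul_eq]
    have h2 := comp_pow f a b h n
    exact (Preadditive.comp_zsmul _ _ _).trans ((congrArg (r • ·) h2).trans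
      (Preadditive.zsmul_comp _ _ _).symm)

variable [HasShift T ℤ] [∀ n : ℤ, (shiftFunctor T n).Additive]

/-- The shift as a homomorphism of endomorphism rings. -/
noncomputable def shiftEnd (n : ℤ) (X : T) : End X →+* End (X⟦n⟧) where
  toFun g := (show X ⟶ X from g)⟦n⟧'
  map_one' := (shiftFunctor T n).map_id X
  map_mul' f g := (shiftFunctor T n).map_comp g f
  map_zero' := (shiftFunctor T n).map_zero X X
  map_add' f g := (shiftFunctor T n).map_add

lemma shift_pe (n : ℤ) {X : T} (g : End X) (Q : ℤ[X]) :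
    (show X ⟶ X from (pe g Q : End X))⟦n⟧' = (pe (shiftEnd n X g) Q : End (X⟦n⟧)) :=
  (pe_map (shiftEnd n X) g Q).symm

end

namespace Realization

variable {T : Type u} [Category.{v} T] [Preadditive T] [HasZeroObject T] [HasShift T ℤ]
  [∀ n : ℤ, (shiftFunctor T n).Additive] [Pretriangulated T] [MonoidalCategory T]
  [SymmetricCategory T] {F : Type w} [Field F] {R : Realization T F}

variable (R) in
/-- The action on cohomology as a homomorphism of rings. -/
noncomputable def mpHom (i : ℤ) (X : T) : End X →+* Module.End F (R.Hm i X) where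
  toFun g := R.mp i g
  map_one' := R.mp_id i X
  map_mul' f g := R.mp_comp i g f
  map_zero' := R.mp_zero i X X
  map_add' f g := R.mp_add i f g

lemma mp_pe (i : ℤ) {X : T} (g : End X) (Q : ℤ[X]) :
    R.mp i (pe g Q : End X) = pe (R.mp i g : Module.End F (R.Hm i X)) Q :=
  (pe_map (R.mpHom i X) g Q).symm

lemma mp_mul (i : ℤ) {X : T} (f g : End X) :
    R.mp i (f * g : End X) = (R.mp i f).comp (R.mp i g) :=
  R.mp_comp i g f

variable [∀ X : T, (tensorLeft X).CommShift ℤ]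
  [∀ X : T, (tensorLeft X).IsTriangulated]

/-- If the realisation is conservative over a field of characteristic zero, nonzero integers
are invertible. -/
lemma isIso_zsmul [CharZero F] (hcons : R.Conservative) (X : T) (m : ℤ) (hm : m ≠ 0) :
    IsIso (m • 𝟙 X) := by
  have hmF : (m : F) ≠ 0 := by exact_mod_cast hm
  obtain ⟨C, v, w, hT⟩ := distinguished_cocone_triangle (m • 𝟙 X)
  refine (Triangle.isZero₃_iff_isIso₁ _ hT).1 ?_
  apply hcons
  intro i
  have hbij : ∀ y : R.Hm i X, R.mp i (m • 𝟙 X) ((m : F)⁻¹ • y) = y := by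
    intro y
    rw [mp_zsmul, mp_id, LinearMap.smul_apply, ← Int.cast_smul_eq_zsmul F,
      LinearMap.id_apply, smul_smul, mul_inv_cancel₀ hmF, one_smul]
  refine van_cone hT i (fun y => ⟨_, hbij y⟩) fun x hx => ?_
  rw [mp_zsmul, mp_id, LinearMap.smul_apply, LinearMap.id_apply,
    ← Int.cast_smul_eq_zsmul F, smul_eq_zero] at hx
  exact hx.resolve_left hmF

/-- The direct summand of weight zero. -/
theorem exists_weight_zero [IsIdempotentComplete T] [CharZero F] {S : ObjectProperty T}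
    (hcons : R.Conservative) (hinj : R.InjectiveOnPure)
    (hnil : ∀ (X : T) (g : End X), (∀ i, R.mp i g = 0) → ∃ N : ℕ, g ^ N = 0)
    (Fr : Frobenius R S) (h1 : S (𝟙_ T)) {A : T} (hA : S A) :
    ∃ (H : T) (i : H ⟶ A) (p : A ⟶ H), i ≫ p = 𝟙 H ∧ R.ConcentratedIn 0 H ∧
      ∀ (n : ℤ) (f : 𝟙_ T ⟶ A⟦n⟧), f ≫ (p⟦n⟧' ≫ i⟦n⟧') = f := by
  choose Q hQ1 hQ2 using Fr.weights A hA
  have hq := Fr.one_lt
  obtain ⟨b, hb⟩ := R.bounded A
  obtain ⟨s, hs⟩ : ∃ s : Finset ℤ, ∀ j, j ∈ s ↔ j ≠ 0 ∧ |j| ≤ |b| := by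
    refine ⟨(Finset.Icc (-|b|) |b|).erase 0, fun j => ?_⟩
    rw [Finset.mem_erase, Finset.mem_Icc, abs_le]
  set Q' : ℤ[X] := ∏ j ∈ s, Q j with hQ'
  have hroot : ∀ z : ℂ, aeval z Q' = 0 → ‖z‖ ^ 2 ≠ 1 := by
    intro z hz h
    rw [hQ', map_prod, Finset.prod_eq_zero_iff] at hz
    obtain ⟨j, hj, hz⟩ := hz
    have h2 := (hQ1 j).2 z hz
    rw [h] at h2
    have h3 := ((hs j).1 hj).1
    rcases lt_or_gt_of_ne h3 with h4 | h4
    · exact absurd h2 (zpow_lt_one_of_neg₀ hq h4).ne'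
    · exact absurd h2 (one_lt_zpow₀ hq h4).ne
  have hroot0 : ∀ z : ℂ, aeval z (Q 0) = 0 → ‖z‖ ^ 2 = 1 := by
    intro z hz
    rw [(hQ1 0).2 z hz, zpow_zero]
  let φ : End A := Fr.φ A
  have hQ3 : ∀ i, pe (R.mp i φ : Module.End F (R.Hm i A)) (Q i) = 0 := fun i => pe_eq_zero (hQ2 i)
  have hdvd : ∀ i, i ≠ 0 → ∀ P : ℤ[X], Q' ∣ P →
      pe (R.mp i φ : Module.End F (R.Hm i A)) P = 0 := by
    intro i hi P hP
    by_cases hi2 : |i| ≤ |b|
    · obtain ⟨c, rfl⟩ := (Finset.dvd_prod_of_mem Q ((hs i).2 ⟨hi, hi2⟩)).trans hP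
      rw [map_mul, hQ3, zero_mul]
    · have h2 : Subsingleton (R.Hm i A) :=
        hb i (lt_of_le_of_lt (le_abs_self b) (not_le.1 hi2))
      ext x
      exact h2.elim _ _
  have hz : ∀ i, R.mp i (pe φ (Q 0 * Q') : End A) = 0 := by
    intro i
    rw [mp_pe]
    by_cases hi : i = 0
    · subst hi
      rw [map_mul, hQ3, zero_mul]
    · exact hdvd i hi _ (dvd_mul_left _ _)
  obtain ⟨N, hN⟩ := hnil A _ hz
  have hN' : (pe φ (Q 0 ^ (N + 1) * Q' ^ (N + 1)) : End A) = 0 := by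
    rw [← mul_pow, map_pow, pow_succ, hN, zero_mul]
  obtain ⟨a, b', m, hm, hab⟩ := exists_bezout (Q 0 ^ (N + 1)) (Q' ^ (N + 1)) (by
    intro z hz1 hz2
    rw [map_pow] at hz1 hz2
    exact hroot z (pow_eq_zero_iff (Nat.succ_ne_zero N) |>.1 hz2)
      (hroot0 z (pow_eq_zero_iff (Nat.succ_ne_zero N) |>.1 hz1)))
  have hiso := isIso_zsmul hcons A m hm
  obtain ⟨μ, hμ1, hμ2⟩ : ∃ μ : End A, (m : End A) * μ = 1 ∧ μ * (m : End A) = 1 := by
    refine ⟨inv (m • 𝟙 A), ?_, ?_⟩
    · rw [← zsmul_one]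
      exact IsIso.inv_hom_id (m • 𝟙 A)
    · rw [← zsmul_one]
      exact IsIso.hom_inv_id (m • 𝟙 A)
  set e₁ : End A := pe φ (b' * Q' ^ (N + 1)) with he₁
  set e₂ : End A := pe φ (a * Q 0 ^ (N + 1)) with he₂
  have h12 : e₂ + e₁ = (m : End A) := by
    rw [he₁, he₂, ← map_add, hab, pe_C]
  have h120 : e₁ * e₂ = 0 := by
    rw [he₁, he₂, ← map_mul, show b' * Q' ^ (N + 1) * (a * Q 0 ^ (N + 1)) =
      (b' * a) * (Q 0 ^ (N + 1) * Q' ^ (N + 1)) by ring, map_mul, hN', mul_zero]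
  have hcomm : ∀ x : End A, μ * x = x * μ := by
    intro x
    have h2 : (m : End A) * x = x * (m : End A) := (Int.cast_commute m x)
    calc μ * x = μ * x * ((m : End A) * μ) := by rw [hμ1, mul_one]
      _ = μ * (x * (m : End A)) * μ := by noncomm_ring
      _ = μ * ((m : End A) * x) * μ := by rw [h2]
      _ = (μ * (m : End A)) * x * μ := by noncomm_ring
      _ = x * μ := by rw [hμ2, one_mul]
  have hsq : e₁ * e₁ = e₁ * (m : End A) := by
    rw [← h12, mul_add, h120, zero_add]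
  have hidem : (e₁ * μ) * (e₁ * μ) = e₁ * μ := by
    calc (e₁ * μ) * (e₁ * μ) = e₁ * (μ * e₁) * μ := by noncomm_ring
      _ = (e₁ * e₁) * μ * μ := by rw [hcomm]; noncomm_ring
      _ = e₁ * ((m : End A) * μ) * μ := by rw [hsq]; noncomm_ring
      _ = e₁ * μ := by rw [hμ1, mul_one]
  obtain ⟨H, i, p, hip, hpi⟩ := IsIdempotentComplete.idempotents_split A (e₁ * μ : End A) hidem
  refine ⟨H, i, p, hip, ?_, ?_⟩
  · intro j hj
    have h2 : R.mp j (e₁ * μ : End A) = 0 := by
      rw [mp_mul, he₁, mp_pe, hdvd j hj _ (Dvd.dvd.mul_left (dvd_pow_self _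
        (Nat.succ_ne_zero N)) _)]
      rfl
    have h3 : ∀ x : R.Hm j H, x = 0 := by
      intro x
      have h4 : R.mp j (i ≫ (p ≫ i) ≫ p) x = x := by
        rw [show i ≫ (p ≫ i) ≫ p = (i ≫ p) ≫ (i ≫ p) by simp only [assoc], hip, comp_id, mp_id,
          LinearMap.id_apply]
      rw [← h4, mp_comp_apply, hpi, mp_comp_apply, h2, LinearMap.zero_apply, map_zero]
    exact ⟨fun x y => (h3 x).trans (h3 y).symm⟩
  · intro n f
    have hφn : shiftEnd n A φ = Fr.φ (A⟦n⟧) := (Fr.shift A n).symm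
    -- the unit object
    obtain ⟨P, hP1, hP2⟩ := Fr.weights _ h1 0
    have hP3 : (pe (show End (𝟙_ T) from Fr.φ (𝟙_ T)) P : End (𝟙_ T)) = 0 := by
      refine hinj 0 (𝟙_ T) le_rfl R.unit_conc _ (map_eq_zero_of_mp _ ?_)
      rw [mp_pe]
      exact pe_eq_zero hP2
    obtain ⟨a', b'', m', hm', hab'⟩ := exists_bezout P (Q' ^ (N + 1)) (by
      intro z hz1 hz2
      rw [map_pow] at hz2
      apply hroot z (pow_eq_zero_iff (Nat.succ_ne_zero N) |>.1 hz2)
      rw [hP1.2 z hz1, zpow_zero])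
    obtain ⟨f', hf'⟩ : ∃ f' : 𝟙_ T ⟶ A⟦n⟧, f' = f ≫ (show A ⟶ A from e₂)⟦n⟧' := ⟨_, rfl⟩
    have hmul : ∀ (g : 𝟙_ T ⟶ A⟦n⟧) (x y : End (A⟦n⟧)), g ≫ (x * y : End (A⟦n⟧)) =
        (g ≫ y) ≫ x := fun g x y => (assoc g y x).symm
    have hk1 : f' ≫ (pe (show End (A⟦n⟧) from Fr.φ (A⟦n⟧)) (Q' ^ (N + 1)) :
        End (A⟦n⟧)) = 0 := by
      rw [hf', he₂, shift_pe, hφn, ← hmul, ← map_mul]
      have h4 : (pe (show End (A⟦n⟧) from Fr.φ (A⟦n⟧))
          (Q' ^ (N + 1) * (a * Q 0 ^ (N + 1))) : End (A⟦n⟧)) = 0 := by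
        rw [← hφn, ← shift_pe, show Q' ^ (N + 1) * (a * Q 0 ^ (N + 1)) =
          a * (Q 0 ^ (N + 1) * Q' ^ (N + 1)) by ring, map_mul, hN', mul_zero]
        exact (shiftFunctor T n).map_zero _ _
      rw [h4]
      exact comp_zero
    have hk2 : f' ≫ (pe (show End (A⟦n⟧) from Fr.φ (A⟦n⟧)) P : End (A⟦n⟧)) = 0 := by
      rw [comp_pe f' (show End (𝟙_ T) from Fr.φ (𝟙_ T)) _ (Fr.natural f').symm, hP3]
      exact Limits.zero_comp
    have hk3 : m' • f' = 0 := by
      have h4 : f' ≫ (pe (show End (A⟦n⟧) from Fr.φ (A⟦n⟧)) (C m') : End (A⟦n⟧)) =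
          m' • f' := by
        rw [pe_C, ← zsmul_one]
        exact (Preadditive.comp_zsmul _ _ _).trans (congrArg (m' • ·) (comp_id f'))
      rw [← h4, ← hab', map_add, map_mul, map_mul]
      refine (Preadditive.comp_add _ _ _ _ _ _).trans ?_
      rw [hmul, hmul, hk1, hk2, Limits.zero_comp, Limits.zero_comp, add_zero]
    have hk4 : f' = 0 := eq_zero_of_nsmul hcons f' m' hm' hk3
    have h5 : (1 : End A) - e₁ * μ = μ * e₂ := by
      rw [hcomm, ← hμ1, ← h12]
      noncomm_ring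
    have h6 : (show A ⟶ A from (1 - e₁ * μ : End A)) =
        (show A ⟶ A from e₂) ≫ (show A ⟶ A from μ) := h5
    have h7 : f ≫ (show A ⟶ A from (1 - e₁ * μ : End A))⟦n⟧' = 0 := by
      rw [h6, Functor.map_comp, ← assoc, ← hf', hk4, Limits.zero_comp]
    have h8 : (show A ⟶ A from (1 - e₁ * μ : End A)) = 𝟙 A - p ≫ i := by
      rw [hpi]
      rfl
    rw [h8, Functor.map_sub, CategoryTheory.Functor.map_id, Functor.map_comp,
      Preadditive.comp_sub, comp_id, sub_eq_zero] at h7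
    exact h7.symm

end Realization

end Pool.Agent.Lib.MotT
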