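import Pool.Agent.Lib.MP_6d0ce9_ag.Adm
import Pool.Agent.Lib.MP_6d0ce9_ag.NilDefs

/-!
# Approximations of a fibre and a descent argument

`TL` and `TG` are classes of objects with `Hom(TL, TG) = 0`. Given `f : A ⟶ B` with fibre `Fb`,
we look for a morphism `K ⟶ Fb` through which all morphisms from objects of `TL` factor.
-/

set_option linter.unusedSectionVars false

universe w v u

open CategoryTheory Category Limits MonoidalCategory Pretriangulated Triangulated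
  ObjectProperty
open scoped ZeroObject

namespace Pool.Agent.Lib.MotT

section

variable {T : Type u} [Category.{v} T] [Preadditive T] [HasZeroObject T] [HasShift T ℤ]
  [∀ n : ℤ, (shiftFunctor T n).Additive] [Pretriangulated T] (TL TG : ObjectProperty T)

/-- The closure properties of the two classes which are used. -/
structure TPair : Prop where
  orth : ∀ {X Y : T}, TL X → TG Y → ∀ f : X ⟶ Y, f = 0
  lzero : ∀ {X : T}, IsZero X → TL X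
  gzero : ∀ {X : T}, IsZero X → TG X
  gretract : ∀ {X Y : T}, Retract X Y → TG Y → TG X
  lext : ∀ {A X B : T} {f : A ⟶ X} {g : X ⟶ B} {δ : B ⟶ A⟦(1 : ℤ)⟧},
    Triangle.mk f g δ ∈ distTriang T → TL A → TL B → TL X
  gext : ∀ {A X B : T} {f : A ⟶ X} {g : X ⟶ B} {δ : B ⟶ A⟦(1 : ℤ)⟧},
    Triangle.mk f g δ ∈ distTriang T → TG A → TG B → TG X
  gshift : ∀ {Y : T}, TG Y → TG (Y⟦(-1 : ℤ)⟧)

/-- `p : F' ⟶ A` approximates the kernel of `f : A ⟶ B`. -/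
structure Appr {A B F' : T} (f : A ⟶ B) (p : F' ⟶ A) : Prop where
  comp : p ≫ f = 0
  fib : ∃ (B' : T) (i : B' ⟶ F') (δ : A ⟶ B'⟦(1 : ℤ)⟧),
    Triangle.mk i p δ ∈ distTriang T ∧ TG B'
  lift : ∀ (X : T) (x : X ⟶ A), TL X → x ≫ f = 0 → ∃ x' : X ⟶ F', x' ≫ p = x

variable {TL TG}

lemma Appr.uniq (P : TPair TL TG) {A B F' : T} {f : A ⟶ B} {p : F' ⟶ A}
    (h : Appr TL TG f p) {X : T} (hX : TL X) {a b : X ⟶ F'} (hab : a ≫ p = b ≫ p) : a = b := by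
  obtain ⟨B', i, δ, hT, hB'⟩ := h.fib
  have h1 : (a - b) ≫ p = 0 := by rw [Preadditive.sub_comp, hab, sub_self]
  obtain ⟨k, hk⟩ : ∃ k : X ⟶ B', a - b = k ≫ i := Triangle.coyoneda_exact₂ _ hT (a - b) h1
  rw [P.orth hX hB' k, zero_comp] at hk
  exact sub_eq_zero.1 hk

lemma Appr.refine [IsTriangulated T] (P : TPair TL TG) {A B F' : T} {f : A ⟶ B} {p : F' ⟶ A}
    (h : Appr TL TG f p) {Y : T} (hY : TG Y) (t : F' ⟶ Y) :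
    ∃ (F'' : T) (q : F'' ⟶ F') (w : Y ⟶ F''⟦(1 : ℤ)⟧), Triangle.mk q t w ∈ distTriang T ∧
      Appr TL TG f (q ≫ p) := by
  obtain ⟨F'', q, w, hq⟩ := distinguished_cocone_triangle₁ t
  refine ⟨F'', q, w, hq, ?_, ?_, ?_⟩
  · rw [assoc, h.comp, comp_zero]
  · obtain ⟨B', i, δ, hT, hB'⟩ := h.fib
    obtain ⟨C, c, d, hC⟩ := distinguished_cocone_triangle₁ (q ≫ p)
    have o := someOctahedron' rfl (inv_rot_of_distTriang _ hq) hT hC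
    exact ⟨C, c, d, hC, P.gext o.mem (P.gshift hY) hB'⟩
  · intro X x hX hx
    obtain ⟨x', hx'⟩ := h.lift X x hX hx
    obtain ⟨x'', hx''⟩ : ∃ x'' : X ⟶ F'', x' = x'' ≫ q :=
      Triangle.coyoneda_exact₂ _ hq x' (P.orth hX hY _)
    exact ⟨x'', by rw [← assoc, ← hx'', hx']⟩

/-- The fibre of `f` itself is an approximation. -/
lemma Appr.fibre {A B Fb : T} {f : A ⟶ B} {p : Fb ⟶ A}
    {γ : B ⟶ Fb⟦(1 : ℤ)⟧} (hF : Triangle.mk p f γ ∈ distTriang T)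
    (hB : TG (B⟦(-1 : ℤ)⟧)) : Appr TL TG f p where
  comp := comp_distTriang_mor_zero₁₂ _ hF
  fib := ⟨_, _, _, inv_rot_of_distTriang _ hF, hB⟩
  lift X x _ hx := by
    obtain ⟨x', hx'⟩ : ∃ x' : X ⟶ Fb, x = x' ≫ p := Triangle.coyoneda_exact₂ _ hF x hx
    exact ⟨x', hx'.symm⟩

end

section Tens

variable {T : Type u} [Category.{v} T] [Preadditive T] [HasZeroObject T] [HasShift T ℤ]
  [∀ n : ℤ, (shiftFunctor T n).Additive] [Pretriangulated T] [MonoidalCategory T]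
  [SymmetricCategory T] [∀ X : T, (tensorLeft X).CommShift ℤ]
  [∀ X : T, (tensorLeft X).IsTriangulated] [IsTriangulated T] {TL TG : ObjectProperty T}

/-- Tensoring with `M ⟶ 𝟙` factors through `TL` after refining the approximation. -/
lemma Appr.step (P : TPair TL TG) {A B F' M E : T} [ExactPairing E M] (s : M ⟶ 𝟙_ T)
    {f : A ⟶ B} (u : M ⊗ A ⟶ A) (g : M ⊗ B ⟶ A) (hu : u ≫ f = 0)
    (hg : (s ▷ A) ≫ (λ_ A).hom - u = (M ◁ f) ≫ g) (hE : ∀ Y, TG Y → TG (E ⊗ Y))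
    (hMA : TL (M ⊗ A)) {p : F' ⟶ A} (h : Appr TL TG f p) :
    ∃ (F'' Y : T) (q : F'' ⟶ F') (t : F' ⟶ Y) (w : Y ⟶ F''⟦(1 : ℤ)⟧),
      Triangle.mk q t w ∈ distTriang T ∧ TG Y ∧ Appr TL TG f (q ≫ p) ∧ ∃ b : M ⊗ A ⟶ F',
      (s ▷ F'') ≫ (λ_ F'').hom ≫ q = (M ◁ (q ≫ p)) ≫ b := by
  obtain ⟨b, hb⟩ := h.lift _ u hMA hu
  let κ : M ⊗ F' ⟶ F' := (s ▷ F') ≫ (λ_ F').hom - (M ◁ p) ≫ b
  have hκ : κ ≫ p = 0 := by
    have h1 : (s ▷ F') ≫ (λ_ F').hom ≫ p = (M ◁ p) ≫ (s ▷ A) ≫ (λ_ A).hom := by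
      rw [← leftUnitor_naturality, whisker_exchange_assoc]
    change ((s ▷ F') ≫ (λ_ F').hom - (M ◁ p) ≫ b) ≫ p = 0
    rw [Preadditive.sub_comp, assoc, assoc, hb, h1, ← Preadditive.comp_sub, hg,
      ← MonoidalCategory.whiskerLeft_comp_assoc, h.comp, MonoidalPreadditive.whiskerLeft_zero,
      zero_comp]
  obtain ⟨B', i, δ, hT, hB'⟩ := h.fib
  obtain ⟨κ', hκ'⟩ : ∃ κ' : M ⊗ F' ⟶ B', κ = κ' ≫ i :=
    Triangle.coyoneda_exact₂ _ hT κ hκ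
  let t : F' ⟶ E ⊗ B' := tensorLeftHomEquiv F' E M B' κ'
  obtain ⟨F'', q, w, hqw, happ⟩ := h.refine P (hE B' hB') t
  have hq : q ≫ t = 0 := comp_distTriang_mor_zero₁₂ _ hqw
  refine ⟨F'', _, q, t, w, hqw, hE B' hB', happ, b, ?_⟩
  have h2 : (M ◁ q) ≫ κ' = 0 := by
    have h3 : (tensorLeftHomEquiv F'' E M B').symm (q ≫ t) = (M ◁ q) ≫ κ' := by
      rw [tensorLeftHomEquiv_symm_naturality]
      simp [t]
    rw [← h3, hq]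
    simp [tensorLeftHomEquiv]
  have h4 : (M ◁ q) ≫ κ = 0 := by rw [hκ', ← assoc, h2, zero_comp]
  have h5 : (M ◁ q) ≫ ((s ▷ F') ≫ (λ_ F').hom) = (M ◁ q) ≫ (M ◁ p) ≫ b := by
    rw [← sub_eq_zero, ← Preadditive.comp_sub]
    exact h4
  rw [MonoidalCategory.whiskerLeft_comp, assoc, ← h5, ← leftUnitor_naturality,
    whisker_exchange_assoc]

/-- The statement proved by induction in the descent argument. -/
def Stage (TL TG : ObjectProperty T) {A B Fb N : T} (δ : 𝟙_ T ⟶ N) (f : A ⟶ B) (p : Fb ⟶ A)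
    (n : ℕ) : Prop :=
  ∃ (F' : T) (q : F' ⟶ Fb), Appr TL TG f (q ≫ p) ∧
    (∃ (Y : T) (t : Fb ⟶ Y) (w : Y ⟶ F'⟦(1 : ℤ)⟧), Triangle.mk q t w ∈ distTriang T ∧ TG Y) ∧
    ∃ (X G : T) (x : X ⟶ Fb) (γ : Fb ⟶ G) (δ' : G ⟶ X⟦(1 : ℤ)⟧),
      Triangle.mk x γ δ' ∈ distTriang T ∧ TL X ∧
      ∃ ψ : unitPow N n ⊗ F' ⟶ G, q ≫ γ = (λ_ F').inv ≫ (homPow δ n ▷ F') ≫ ψ

lemma stage_zero (P : TPair TL TG) {A B Fb N : T} (δ : 𝟙_ T ⟶ N) {f : A ⟶ B} {p : Fb ⟶ A}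
    (h : Appr TL TG f p) : Stage TL TG δ f p 0 := by
  refine ⟨Fb, 𝟙 Fb, by rwa [id_comp],
    ⟨0, 0, 0, contractible_distinguished Fb, P.gzero (isZero_zero T)⟩,
    0, Fb, 0, 𝟙 Fb, 0, contractible_distinguished₁ Fb,
    P.lzero (isZero_zero T), (λ_ Fb).hom, ?_⟩
  change 𝟙 Fb ≫ 𝟙 Fb = (λ_ Fb).inv ≫ (𝟙 (𝟙_ T) ▷ Fb) ≫ (λ_ Fb).hom
  simp

lemma stage_succ (P : TPair TL TG) {A B Fb M E N : T} [ExactPairing E M] {s : M ⟶ 𝟙_ T}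
    {δ : 𝟙_ T ⟶ N} {ω : N ⟶ M⟦(1 : ℤ)⟧} (hN : Triangle.mk s δ ω ∈ distTriang T)
    {f : A ⟶ B} (u : M ⊗ A ⟶ A) (g : M ⊗ B ⟶ A) (hu : u ≫ f = 0)
    (hg : (s ▷ A) ≫ (λ_ A).hom - u = (M ◁ f) ≫ g) (hE : ∀ Y, TG Y → TG (E ⊗ Y))
    (hMA : TL (M ⊗ A)) {p : Fb ⟶ A} (n : ℕ) (hW : TL (unitPow N n ⊗ (M ⊗ A)))
    (hS : Stage TL TG δ f p n) : Stage TL TG δ f p (n + 1) := by
  obtain ⟨F', q, happ, ⟨Y, t, w₀, hq, hY⟩, X, G, x, γ, δ', hT, hX, ψ, hψ⟩ := hS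
  obtain ⟨F'', Y', q', t', w₁, hq', hY', happ', b, hb⟩ := happ.step P s u g hu hg hE hMA
  obtain ⟨Y'', t'', w₂, hq''⟩ := distinguished_cocone_triangle (q' ≫ q)
  have oo := someOctahedron rfl hq' hq hq''
  let y : unitPow N n ⊗ (M ⊗ A) ⟶ G := (unitPow N n ◁ b) ≫ ψ
  obtain ⟨G', g', w, hG'⟩ := distinguished_cocone_triangle y
  obtain ⟨X', x', w', hX'⟩ := distinguished_cocone_triangle₁ (γ ≫ g')
  have o := someOctahedron' rfl hT hG' hX'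
  -- the composition vanishes after tensoring with `M`
  have h0 : (unitPow N n ◁ ((s ▷ F'') ≫ (λ_ F'').hom)) ≫ (unitPow N n ◁ q') ≫ ψ ≫ g' = 0 := by
    have h1 : (unitPow N n ◁ ((s ▷ F'') ≫ (λ_ F'').hom)) ≫ (unitPow N n ◁ q') =
        (unitPow N n ◁ (M ◁ (q' ≫ q ≫ p))) ≫ (unitPow N n ◁ b) := by
      rw [← MonoidalCategory.whiskerLeft_comp, ← MonoidalCategory.whiskerLeft_comp, ← hb,
        assoc]
    have h2 : y ≫ g' = 0 := comp_distTriang_mor_zero₁₂ _ hG'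
    have h3 : (unitPow N n ◁ b) ≫ ψ ≫ g' = 0 := by rw [← assoc]; exact h2
    rw [← assoc, h1, assoc, h3, comp_zero]
  -- the triangle `M ⊗ F'' ⟶ F'' ⟶ N ⊗ F''` tensored with `unitPow N n`
  obtain ⟨δ₁, hT₁⟩ := tri_right F'' hN
  have hT₂ : Triangle.mk ((s ▷ F'') ≫ (λ_ F'').hom) ((λ_ F'').inv ≫ (δ ▷ F'')) δ₁ ∈
      distTriang T := by
    refine isomorphic_distinguished _ hT₁ _ (Triangle.isoMk _ _ (Iso.refl _) (λ_ F'').symm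
      (Iso.refl _) ?_ ?_ ?_)
    · change ((s ▷ F'') ≫ (λ_ F'').hom) ≫ (λ_ F'').inv = 𝟙 _ ≫ (s ▷ F'')
      rw [assoc, Iso.hom_inv_id, comp_id, id_comp]
    · change ((λ_ F'').inv ≫ (δ ▷ F'')) ≫ 𝟙 _ = (λ_ F'').inv ≫ (δ ▷ F'')
      rw [comp_id]
    · change δ₁ ≫ (𝟙 _)⟦(1 : ℤ)⟧' = 𝟙 _ ≫ δ₁
      rw [CategoryTheory.Functor.map_id, comp_id, id_comp]
  obtain ⟨δ₂, hT₃⟩ := tri_left (unitPow N n) _ hT₂
  obtain ⟨ψ', hψ'⟩ : ∃ ψ' : unitPow N n ⊗ (N ⊗ F'') ⟶ G',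
      (unitPow N n ◁ q') ≫ ψ ≫ g' = (unitPow N n ◁ ((λ_ F'').inv ≫ (δ ▷ F''))) ≫ ψ' :=
    Triangle.yoneda_exact₂ _ hT₃ _ h0
  refine ⟨F'', q' ≫ q, by rwa [assoc], ⟨Y'', t'', w₂, hq'', P.gext oo.mem hY' hY⟩,
    X', G', x', γ ≫ g', w', hX', P.lext o.mem hX hW,
    (α_ _ _ _).hom ≫ ψ', ?_⟩
  have h4 : (q' ≫ q) ≫ γ ≫ g' = (λ_ F'').inv ≫ (homPow δ n ▷ F'') ≫ (unitPow N n ◁ q') ≫ ψ ≫ g' := by
    have h5 : (q' ≫ q) ≫ γ ≫ g' = q' ≫ (q ≫ γ) ≫ g' := by simp only [assoc]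
    rw [h5, hψ]
    simp only [assoc]
    rw [leftUnitor_inv_naturality_assoc, whisker_exchange_assoc]
  rw [h4, hψ']
  change _ = (λ_ F'').inv ≫ ((homPow δ n ≫ (ρ_ (unitPow N n)).inv ≫ (unitPow N n ◁ δ)) ▷ F'') ≫
    (α_ (unitPow N n) N F'').hom ≫ ψ'
  simp only [comp_whiskerRight, assoc, MonoidalCategory.whiskerLeft_comp]
  rw [associator_naturality_middle_assoc, ← triangle_assoc_comp_right_inv_assoc]

lemma stage_all (P : TPair TL TG) {A B Fb M E N : T} [ExactPairing E M] {s : M ⟶ 𝟙_ T}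
    {δ : 𝟙_ T ⟶ N} {ω : N ⟶ M⟦(1 : ℤ)⟧} (hN : Triangle.mk s δ ω ∈ distTriang T)
    {f : A ⟶ B} (u : M ⊗ A ⟶ A) (g : M ⊗ B ⟶ A) (hu : u ≫ f = 0)
    (hg : (s ▷ A) ≫ (λ_ A).hom - u = (M ◁ f) ≫ g) (hE : ∀ Y, TG Y → TG (E ⊗ Y))
    (hMA : TL (M ⊗ A)) {p : Fb ⟶ A} (hW : ∀ n, TL (unitPow N n ⊗ (M ⊗ A)))
    (h : Appr TL TG f p) (n : ℕ) : Stage TL TG δ f p n := by
  induction n with
  | zero => exact stage_zero P δ h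
  | succ n ih => exact stage_succ P hN u g hu hg hE hMA n (hW n) ih

/-- If `k` is a retract of `q` then the cone of `k` is a retract of the cone of `q`. -/
lemma cone_retract {K F' Fb C G : T} (r : Retract K F') {q : F' ⟶ Fb} {k : K ⟶ Fb}
    (h1 : r.i ≫ q = k) (h2 : r.r ≫ k = q) {c : Fb ⟶ C} {d : C ⟶ K⟦(1 : ℤ)⟧}
    (hk : Triangle.mk k c d ∈ distTriang T) {c' : Fb ⟶ G} {d' : G ⟶ F'⟦(1 : ℤ)⟧}
    (hq : Triangle.mk q c' d' ∈ distTriang T) : Nonempty (Retract C G) := by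
  obtain ⟨a, ha1, ha2⟩ : ∃ a : C ⟶ G, c ≫ a = 𝟙 Fb ≫ c' ∧ d ≫ r.i⟦(1 : ℤ)⟧' = a ≫ d' :=
    complete_distinguished_triangle_morphism _ _ hk hq r.i (𝟙 Fb)
      (show k ≫ 𝟙 Fb = r.i ≫ q by rw [comp_id, h1])
  obtain ⟨b, hb1, hb2⟩ : ∃ b : G ⟶ C, c' ≫ b = 𝟙 Fb ≫ c ∧ d' ≫ r.r⟦(1 : ℤ)⟧' = b ≫ d :=
    complete_distinguished_triangle_morphism _ _ hq hk r.r (𝟙 Fb)
      (show q ≫ 𝟙 Fb = r.r ≫ k by rw [comp_id, h2])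
  let φ : Triangle.mk k c d ⟶ Triangle.mk k c d :=
    Triangle.homMk _ _ (𝟙 K) (𝟙 Fb) (a ≫ b)
      (show k ≫ 𝟙 Fb = 𝟙 K ≫ k by rw [comp_id, id_comp])
      (show c ≫ a ≫ b = 𝟙 Fb ≫ c by rw [← assoc, ha1, assoc, hb1, id_comp])
      (show d ≫ (𝟙 K)⟦(1 : ℤ)⟧' = (a ≫ b) ≫ d by
        rw [assoc, ← hb2, ← assoc, ← ha2, assoc, ← Functor.map_comp, r.retract])
  have hφ : IsIso (a ≫ b) := isIso₃_of_isIso₁₂ φ hk hk (IsIso.id _) (IsIso.id _)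
  exact ⟨⟨a, b ≫ inv (a ≫ b), by rw [← assoc, IsIso.hom_inv_id]⟩⟩

/-- The descent argument: existence of the truncation of the fibre. -/
theorem exists_core [IsIdempotentComplete T] (P : TPair TL TG) {A B Fb M E N : T}
    [ExactPairing E M] {s : M ⟶ 𝟙_ T}
    {δ : 𝟙_ T ⟶ N} {ω : N ⟶ M⟦(1 : ℤ)⟧} (hN : Triangle.mk s δ ω ∈ distTriang T)
    {f : A ⟶ B} (u : M ⊗ A ⟶ A) (g : M ⊗ B ⟶ A) (hu : u ≫ f = 0)
    (hg : (s ▷ A) ≫ (λ_ A).hom - u = (M ◁ f) ≫ g) (hE : ∀ Y, TG Y → TG (E ⊗ Y))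
    (hMA : TL (M ⊗ A)) {p : Fb ⟶ A} (hW : ∀ n, TL (unitPow N n ⊗ (M ⊗ A)))
    {γ : B ⟶ Fb⟦(1 : ℤ)⟧} (hF : Triangle.mk p f γ ∈ distTriang T)
    (hB : TG (B⟦(-1 : ℤ)⟧)) (n : ℕ) (hn : homPow δ n = 0) :
    ∃ (K F' X C : T) (k : K ⟶ Fb) (q : F' ⟶ Fb) (r₁ : Retract K F') (_ : Retract K X)
      (c : Fb ⟶ C) (d : C ⟶ K⟦(1 : ℤ)⟧),
      TL X ∧ Appr TL TG f (q ≫ p) ∧ r₁.i ≫ q = k ∧ Triangle.mk k c d ∈ distTriang T ∧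
      TG C ∧ ∀ (Z : T) (z : Z ⟶ Fb), TL Z → ∃ z' : Z ⟶ K, z' ≫ k = z := by
  have happ0 : Appr TL TG f p := Appr.fibre hF hB
  obtain ⟨F', q, happ, ⟨Y, t, w₀, hq, hY⟩, X, G, x, γ', δ', hT, hX, ψ, hψ⟩ :=
    stage_all P hN u g hu hg hE hMA hW happ0 n
  rw [hn, MonoidalPreadditive.zero_whiskerRight, zero_comp, comp_zero] at hψ
  obtain ⟨θ, hθ⟩ : ∃ θ : F' ⟶ X, q = θ ≫ x := Triangle.coyoneda_exact₂ _ hT q hψ
  -- lifts through `F'`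
  have lift : ∀ (Z : T) (z : Z ⟶ Fb), TL Z → ∃ z' : Z ⟶ F', z' ≫ q = z := by
    intro Z z hZ
    obtain ⟨z', hz'⟩ := happ.lift Z (z ≫ p) hZ (by rw [assoc, happ0.comp, comp_zero])
    refine ⟨z', happ0.uniq P hZ ?_⟩
    rw [assoc, hz']
  obtain ⟨x', hx'⟩ := lift X x hX
  have h1 : x' ≫ θ ≫ x = x := by rw [← hθ, hx']
  have h2 : x' ≫ θ ≫ x' = x' := by
    refine happ.uniq P hX ?_
    have e1 : (x' ≫ θ ≫ x') ≫ q ≫ p = (x' ≫ θ ≫ (x' ≫ q)) ≫ p := by simp only [assoc]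
    rw [e1, hx', h1, ← hx', assoc]
  have hidem : (x' ≫ θ) ≫ (x' ≫ θ) = x' ≫ θ := by
    have e1 : (x' ≫ θ) ≫ (x' ≫ θ) = (x' ≫ θ ≫ x') ≫ θ := by simp only [assoc]
    rw [e1, h2]
  obtain ⟨K, i, e, hie, hei⟩ := IsIdempotentComplete.idempotents_split X (x' ≫ θ) hidem
  let r₁ : Retract K F' := ⟨i ≫ x', θ ≫ e, by
    have e1 : (i ≫ x') ≫ θ ≫ e = i ≫ (x' ≫ θ) ≫ e := by simp only [assoc]
    rw [e1, ← hei]
    have e2 : i ≫ (e ≫ i) ≫ e = (i ≫ e) ≫ (i ≫ e) := by simp only [assoc]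
    rw [e2, hie, id_comp]⟩
  have hr1 : r₁.i ≫ q = i ≫ x := by
    change (i ≫ x') ≫ q = i ≫ x
    rw [assoc, hx']
  have hr2 : r₁.r ≫ i ≫ x = q := by
    change (θ ≫ e) ≫ i ≫ x = q
    have e1 : (θ ≫ e) ≫ i ≫ x = θ ≫ (e ≫ i) ≫ x := by simp only [assoc]
    rw [e1, hei]
    have e2 : θ ≫ (x' ≫ θ) ≫ x = θ ≫ (x' ≫ θ ≫ x) := by simp only [assoc]
    rw [e2, h1, ← hθ]
  obtain ⟨C, c, d, hC⟩ := distinguished_cocone_triangle (i ≫ x)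
  obtain ⟨rC⟩ := cone_retract r₁ hr1 hr2 hC hq
  refine ⟨K, F', X, C, i ≫ x, q, r₁, ⟨i, e, hie⟩, c, d, hX, happ, hr1, hC,
    P.gretract rC hY, ?_⟩
  intro Z z hZ
  obtain ⟨z', hz'⟩ := lift Z z hZ
  refine ⟨z' ≫ θ ≫ e, ?_⟩
  have e1 : (z' ≫ θ ≫ e) ≫ i ≫ x = z' ≫ θ ≫ (e ≫ i) ≫ x := by simp only [assoc]
  rw [e1, hei]
  have e2 : z' ≫ θ ≫ (x' ≫ θ) ≫ x = z' ≫ θ ≫ (x' ≫ θ ≫ x) := by simp only [assoc]
  rw [e2, h1, ← hθ, hz']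

end Tens

end Pool.Agent.Lib.MotT
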