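import Pool.Agent.Lib.MP_6d0ce9_ag.Main

/-!
# Conservativity and boundedness for an exact realisation
-/

set_option linter.unusedSectionVars false

universe w v u

open CategoryTheory Category Limits MonoidalCategory Pretriangulated Triangulated
  ObjectProperty
open scoped ZeroObject

namespace Pool.Agent.Lib.MotT

section

variable {T : Type u} [Category.{v} T] [Preadditive T] [HasZeroObject T] [HasShift T ℤ]
  [∀ n : ℤ, (shiftFunctor T n).Additive] [Pretriangulated T] [IsTriangulated T]

/-- A bounded object belongs to the thick subcategory generated by the heart. -/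
lemma mem_envelope_of_bounded (t : TStructure T) {P : ObjectProperty T}
    (hP : ∀ X, t.heart X → P X) (a : ℤ) (k : ℕ) (X : T) (h1 : t.IsGE X a)
    (h2 : t.IsLE X (a + k)) : P.triangEnvelope X := by
  have hne : P.Nonempty := ⟨0, hP 0 ((heart_iff t _).2
      ⟨t.isLE_of_isZero (isZero_zero T) 0, t.isGE_of_isZero (isZero_zero T) 0⟩)⟩
  have key : ∀ (Y : T) (n : ℤ), t.IsLE Y n → t.IsGE Y n → P.triangEnvelope Y := by
    intro Y n hY1 hY2
    have h3 : t.heart (Y⟦n⟧) := (heart_iff t _).2
      ⟨t.isLE_shift Y n n 0 (by lia), t.isGE_shift Y n n 0 (by lia)⟩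
    have h4 : P.triangEnvelope (Y⟦n⟧) := P.le_triangEnvelope _ (hP _ h3)
    have h5 : P.triangEnvelope (Y⟦n⟧⟦-n⟧) := P.triangEnvelope.le_shift (-n) _ h4
    exact P.triangEnvelope.prop_of_iso (shiftShiftNeg Y n) h5
  induction k generalizing X with
  | zero => exact key X a (by simpa using h2) h1
  | succ k ih =>
    obtain ⟨A, B, f, g, δ, hT, hA, hB⟩ := exists_trunc t X (a + k) (a + k + 1) rfl
    have hA2 : t.IsGE A a :=
      isGE₁ t hT a h1 (t.isGE_of_ge B (a - 1) (a + k + 1) (by lia))
    have hB2 : t.IsLE B (a + k + 1) := by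
      refine isLE₃ t hT (a + k + 1) (t.isLE_of_le A (a + k) _ (by lia)) ?_
      have : a + ((k + 1 : ℕ) : ℤ) = a + k + 1 := by push_cast; ring
      rwa [this] at h2
    exact P.triangEnvelope.ext_of_isTriangulatedClosed₂ _ hT (ih A hA2 hA) (key B _ hB2 hB)

end

namespace Realization

variable {T : Type u} [Category.{v} T] [Preadditive T] [HasZeroObject T] [HasShift T ℤ]
  [∀ n : ℤ, (shiftFunctor T n).Additive] [Pretriangulated T] [MonoidalCategory T]
  [SymmetricCategory T] {F : Type w} [Field F] {R : Realization T F} {t : TStructure T}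
  [∀ X : T, (tensorLeft X).CommShift ℤ]
  [∀ X : T, (tensorLeft X).IsTriangulated] [IsTriangulated T]

lemma van_trunc (hR : R.TExact t) {X A B : T} {f : A ⟶ X} {g : X ⟶ B}
    {δ : B ⟶ A⟦(1 : ℤ)⟧} (hT : Triangle.mk f g δ ∈ distTriang T) {n m : ℤ} (hnm : n + 1 = m)
    (hA : t.IsLE A n) (hB : t.IsGE B m) (i : ℤ) (hX : R.Van i X) : R.Van i A ∧ R.Van i B := by
  constructor
  · rcases lt_or_ge n i with h | h
    · exact van_of_le hR hA h
    · exact R.van₁' hT hX (van_of_ge hR hB (by lia))
  · rcases lt_or_ge i m with h | h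
    · exact van_of_ge hR hB h
    · exact R.van₃' hT (van_of_le hR hA (by lia)) hX

/-- An exact realisation is conservative. -/
theorem conservative_of_exact (hnd : Nondegenerate t) (ht : TensorCompatible t)
    (hrig : IsRigid T) (hconn : ConnectedUnit T) (hR : R.TExact t) : R.Conservative := by
  have step : ∀ (n : ℤ) (X : T), (∀ i, R.Van i X) → t.IsLE X n → t.IsLE X (n - 1) := by
    intro n X hX hn
    obtain ⟨A, B, f, g, δ, hT, hA, hB⟩ := exists_trunc t X (n - 1) n (by lia)
    have hB1 : t.IsLE B n := isLE₃ t hT n (t.isLE_of_le A (n - 1) _ (by lia)) hn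
    have hB2 : ∀ i, R.Van i B := fun i =>
      (van_trunc hR hT (by lia) hA hB i (hX i)).2
    have hB3 : IsZero (B⟦n⟧) := by
      refine isZero_of_heart hnd ht hrig hconn hR ((heart_iff t _).2
        ⟨t.isLE_shift B n n 0 (by lia), t.isGE_shift B n n 0 (by lia)⟩) fun i => ?_
      rw [van_shift]
      exact hB2 _
    have hB4 : IsZero B := by
      have h1 : IsZero (B⟦n⟧⟦-n⟧) := (shiftFunctor T (-n)).map_isZero hB3
      exact h1.of_iso (shiftShiftNeg B n).symm
    have : IsIso f := (Triangle.isZero₃_iff_isIso₁ _ hT).1 hB4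
    exact t.isLE_of_iso (asIso f) (n - 1)
  have all : ∀ (n : ℤ) (X : T), (∀ i, R.Van i X) → t.IsLE X n → IsZero X := by
    intro n X hX hn
    have h1 : ∀ k : ℕ, t.IsLE X (n - k) := by
      intro k
      induction k with
      | zero => simpa using hn
      | succ k ih =>
        have := step _ X hX ih
        rwa [show n - (k : ℤ) - 1 = n - ((k + 1 : ℕ) : ℤ) by push_cast; ring] at this
    apply hnd.1
    intro m
    have h2 := h1 (n - m).toNat
    have h3 := t.isLE_of_le X (n - ((n - m).toNat : ℤ)) m (by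
      have := Int.self_le_toNat (n - m)
      lia)
    exact h3.le
  intro X hX
  apply hnd.2
  intro n
  obtain ⟨A, B, f, g, δ, hT, hA, hB⟩ := exists_trunc t X (n - 1) n (by lia)
  have hA0 : IsZero A := all _ A (fun i =>
      (van_trunc hR hT (by lia) hA hB i (hX i)).1) hA
  have : IsIso g := (Triangle.isZero₁_iff_isIso₂ _ hT).1 hA0
  exact (t.isGE_of_iso (asIso g).symm n).ge

/-- The cohomology of `R` detects upper bounds. -/
lemma isLE_of_van (hR : R.TExact t) (hcons : R.Conservative) {X : T} {n : ℤ}
    (hX : ∀ i, n < i → R.Van i X) : t.IsLE X n := by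
  obtain ⟨A, B, f, g, δ, hT, hA, hB⟩ := exists_trunc t X n (n + 1) rfl
  have hB0 : IsZero B := by
    apply hcons
    intro i
    rcases lt_or_ge n i with h | h
    · exact (van_trunc hR hT rfl hA hB i (hX i h)).2
    · exact van_of_ge hR hB (by lia)
  have : IsIso f := (Triangle.isZero₃_iff_isIso₁ _ hT).1 hB0
  exact t.isLE_of_iso (asIso f) n

/-- The cohomology of `R` detects lower bounds. -/
lemma isGE_of_van (hR : R.TExact t) (hcons : R.Conservative) {X : T} {n : ℤ}
    (hX : ∀ i, i < n → R.Van i X) : t.IsGE X n := by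
  obtain ⟨A, B, f, g, δ, hT, hA, hB⟩ := exists_trunc t X (n - 1) n (by lia)
  have hA0 : IsZero A := by
    apply hcons
    intro i
    rcases lt_or_ge i n with h | h
    · exact (van_trunc hR hT (by lia) hA hB i (hX i h)).1
    · exact van_of_le hR hA (by lia)
  have : IsIso g := (Triangle.isZero₁_iff_isIso₂ _ hT).1 hA0
  exact t.isGE_of_iso (asIso g).symm n

/-- If there is an exact realisation then the heart generates. -/
theorem generates_of_exact (hnd : Nondegenerate t) (ht : TensorCompatible t)
    (hrig : IsRigid T) (hconn : ConnectedUnit T) (hR : R.TExact t) {P : ObjectProperty T}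
    (hP : ∀ X, t.heart X → P X) : P.IsClassicalTriangulatedGenerator := by
  have hcons := conservative_of_exact hnd ht hrig hconn hR
  rw [isClassicalTriangulatedGenerator_iff, eq_top_iff]
  intro X _
  obtain ⟨b, hb⟩ := R.bounded X
  have h1 : t.IsLE X |b| := isLE_of_van hR hcons fun i hi =>
    hb i (lt_of_le_of_lt (le_abs_self b) (lt_of_lt_of_le hi (le_abs_self i)))
  have h2 : t.IsGE X (-|b|) := isGE_of_van hR hcons fun i hi =>
    hb i (lt_of_le_of_lt (le_abs_self b) (by
      have := neg_abs_le i
      have := neg_le_abs i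
      lia))
  refine mem_envelope_of_bounded t hP (-|b|) (2 * b.natAbs) X h2 ?_
  rw [show -|b| + ((2 * b.natAbs : ℕ) : ℤ) = |b| by push_cast; ring]
  exact h1

/-- Objects of the heart have a vanishing exterior power if there is an exact realisation. -/
theorem extPower_of_heart (hnd : Nondegenerate t) (ht : TensorCompatible t)
    (hrig : IsRigid T) (hconn : ConnectedUnit T) (hR : R.TExact t) {X : T}
    (hX : t.heart X) : ∃ n, ExtPowerVanishes X n := by
  refine ⟨Module.finrank F (R.Hm 0 X), fun W hW => ?_⟩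
  have h1 := tpow_heart ht hX (Module.finrank F (R.Hm 0 X))
  refine eq_zero_of_heart hnd ht hrig hconn hR h1 h1 _ ?_
  have h2 := R.mp_antisym_eq_zero (X := X) (fun i hi => van_heart hR hX hi)
    (Module.finrank F (R.Hm 0 X)) le_rfl W hW
  rw [dg_zero] at h2
  exact h2

end Realization

end Pool.Agent.Lib.MotT
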