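import Mathlib

/-!
# Integer polynomials without common complex roots
-/

open Polynomial

namespace Pool.Agent.Lib.MotT

/-- Two nonzero integer polynomials without common complex roots generate an ideal which contains
a nonzero integer. -/
lemma exists_bezout (P Q : ℤ[X])
    (h : ∀ z : ℂ, aeval z P = 0 → aeval z Q = 0 → False) :
    ∃ (a b : ℤ[X]) (m : ℤ), m ≠ 0 ∧ a * P + b * Q = C m := by
  have hq : ∀ (z : ℂ) (A : ℤ[X]), aeval z (A.map (algebraMap ℤ ℚ)) = aeval z A := by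
    intro z A
    rw [aeval_map_algebraMap]
  have h1 : IsCoprime (P.map (algebraMap ℤ ℚ)) (Q.map (algebraMap ℤ ℚ)) := by
    refine (Polynomial.isCoprime_iff_aeval_ne_zero_of_isAlgClosed (k := ℚ) ℂ _ _).2 ?_
    intro z
    rw [hq, hq]
    by_contra hcon
    push Not at hcon
    exact h z hcon.1 hcon.2
  obtain ⟨a, b, hab⟩ := h1
  obtain ⟨m₁, hm₁, h₁⟩ := IsLocalization.integerNormalization_spec (nonZeroDivisors ℤ) a
  obtain ⟨m₂, hm₂, h₂⟩ := IsLocalization.integerNormalization_spec (nonZeroDivisors ℤ) b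
  refine ⟨C m₂ * IsLocalization.integerNormalization (nonZeroDivisors ℤ) a,
    C m₁ * IsLocalization.integerNormalization (nonZeroDivisors ℤ) b, m₁ * m₂,
    mul_ne_zero (nonZeroDivisors.ne_zero hm₁) (nonZeroDivisors.ne_zero hm₂), ?_⟩
  apply Polynomial.map_injective (algebraMap ℤ ℚ) (algebraMap ℤ ℚ).injective_int
  rw [Polynomial.map_add, Polynomial.map_mul, Polynomial.map_mul, Polynomial.map_mul,
    Polynomial.map_mul, h₁, h₂, map_C, map_C, map_C, map_mul, C_mul]
  have e1 : (m₁ • a : ℚ[X]) = C (algebraMap ℤ ℚ m₁) * a := by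
    rw [← algebraMap_smul ℚ m₁ a, Polynomial.smul_eq_C_mul]
  have e2 : (m₂ • b : ℚ[X]) = C (algebraMap ℤ ℚ m₂) * b := by
    rw [← algebraMap_smul ℚ m₂ b, Polynomial.smul_eq_C_mul]
  rw [e1, e2]
  linear_combination (C (algebraMap ℤ ℚ m₁) * C (algebraMap ℤ ℚ m₂)) * hab

end Pool.Agent.Lib.MotT
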