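import Pool.Agent.Lib.MP_6d0ce9_ag.Real

/-!
# Exact realisations are conservative and faithful on the heart
-/

set_option linter.unusedSectionVars false

universe w v u

open CategoryTheory Category Limits MonoidalCategory Pretriangulated Triangulated

namespace Pool.Agent.Lib.MotT

section

variable {T : Type u} [Category.{v} T] [Preadditive T] [HasZeroObject T] [HasShift T ℤ]
  [∀ n : ℤ, (shiftFunctor T n).Additive] [Pretriangulated T]

set_option backward.defeqAttrib.useBackward true in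
set_option backward.isDefEq.respectTransparency false in
/-- a morphism `f : X ⟶ Y` of the heart: there are `K`, `I`, `C` in the heart and
distinguished triangles `K ⟶ X ⟶ I` and `I ⟶ Y ⟶ C` with `f` the composition
`X ⟶ I ⟶ Y`. -/
lemma heart_factor [IsTriangulated T] (t : TStructure T) {X Y : T} (f : X ⟶ Y)
    (hX : t.heart X) (hY : t.heart Y) :
    ∃ (K I C : T) (k : K ⟶ X) (p : X ⟶ I) (a : I ⟶ K⟦(1 : ℤ)⟧) (i : I ⟶ Y) (q : Y ⟶ C)
      (b : C ⟶ I⟦(1 : ℤ)⟧), t.heart K ∧ t.heart I ∧ t.heart C ∧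
      Triangle.mk k p a ∈ distTriang T ∧ Triangle.mk i q b ∈ distTriang T ∧ p ≫ i = f ∧
      ∃ (Z : T) (v : Y ⟶ Z) (w : Z ⟶ X⟦(1 : ℤ)⟧) (_ : Triangle.mk f v w ∈ distTriang T)
        (κ : K⟦(1 : ℤ)⟧ ⟶ Z) (c : Z ⟶ C) (δ : C ⟶ (K⟦(1 : ℤ)⟧)⟦(1 : ℤ)⟧),
        Triangle.mk κ c δ ∈ distTriang T ∧ v ≫ c = q := by
  obtain ⟨hX1, hX2⟩ := (heart_iff t X).1 hX
  obtain ⟨hY1, hY2⟩ := (heart_iff t Y).1 hY
  obtain ⟨Z, v, w, hZ⟩ := distinguished_cocone_triangle f
  have hZ1 : t.IsLE Z 0 := isLE₃ t hZ 0 (t.isLE_of_le X 0 (0 + 1) (by lia)) hY1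
  have hZ2 : t.IsGE Z (-1) :=
    isGE_ext t (rot_of_distTriang _ hZ) (-1) (t.isGE_of_ge Y (-1) 0 (by lia))
      (t.isGE_shift X 0 1 (-1) (by lia))
  obtain ⟨K', C, k', c, δ, hK, hK1, hC2⟩ := exists_trunc t Z (-1) 0 (by lia)
  have hC1 : t.IsLE C 0 := isLE₃ t hK 0 (t.isLE_of_le K' (-1) (0 + 1) (by lia)) hZ1
  have hK2 : t.IsGE K' (-1) := isGE₁ t hK (-1) hZ2 (t.isGE_of_ge C (-1 - 1) 0 (by lia))
  obtain ⟨I, i, d, hI⟩ := distinguished_cocone_triangle₁ (v ≫ c)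
  have o := someOctahedron' rfl hZ hK hI
  have hI1 : t.IsLE I 0 := isLE_ext t o.mem 0 hX1 (t.isLE_of_le K' (-1) 0 (by lia))
  have hI2 : t.IsGE I 0 := isGE₁ t hI 0 hY2 (t.isGE_of_ge C (0 - 1) 0 (by lia))
  have hKs1 : t.IsLE (K'⟦(-1 : ℤ)⟧) 0 := t.isLE_shift K' (-1) (-1) 0 (by lia)
  have hKs2 : t.IsGE (K'⟦(-1 : ℤ)⟧) 0 := t.isGE_shift K' (-1) (-1) 0 (by lia)
  have e : (K'⟦(-1 : ℤ)⟧)⟦(1 : ℤ)⟧ ≅ K' := shiftNegShift K' 1
  refine ⟨K'⟦(-1 : ℤ)⟧, I, C, _, o.m₁, _, i, v ≫ c, d, (heart_iff t _).2 ⟨hKs1, hKs2⟩,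
    (heart_iff t _).2 ⟨hI1, hI2⟩, (heart_iff t _).2 ⟨hC1, hC2⟩,
    inv_rot_of_distTriang _ o.mem, hI, o.comm₁, Z, v, w, hZ, e.hom ≫ k', c,
    δ ≫ e.inv⟦(1 : ℤ)⟧', ?_, rfl⟩
  refine isomorphic_distinguished _ hK _ ?_
  refine Triangle.isoMk _ _ e (Iso.refl _) (Iso.refl _) ?_ ?_ ?_
  · dsimp
    simp
  · dsimp
    simp
  · dsimp
    rw [assoc, ← Functor.map_comp, e.inv_hom_id, CategoryTheory.Functor.map_id, comp_id, id_comp]

end

namespace Realization

variable {T : Type u} [Category.{v} T] [Preadditive T] [HasZeroObject T] [HasShift T ℤ]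
  [∀ n : ℤ, (shiftFunctor T n).Additive] [Pretriangulated T] [MonoidalCategory T]
  [SymmetricCategory T] {F : Type w} [Field F] (R : Realization T F) {t : TStructure T}

variable {R} in
lemma van_of_le (hR : R.TExact t) {X : T} {n : ℤ} (hX : t.IsLE X n) {i : ℤ} (hi : n < i) :
    R.Van i X := by
  have h1 := t.isLE_shift X n n 0 (by lia)
  have h2 := hR.1 _ h1.le (i - n) (by lia)
  rw [van_shift] at h2
  rwa [show n + (i - n) = i by ring] at h2

variable {R} in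
lemma van_of_ge (hR : R.TExact t) {X : T} {n : ℤ} (hX : t.IsGE X n) {i : ℤ} (hi : i < n) :
    R.Van i X := by
  have h1 := t.isGE_shift X n n 0 (by lia)
  have h2 := hR.2 _ h1.ge (i - n) (by lia)
  rw [van_shift] at h2
  rwa [show n + (i - n) = i by ring] at h2

variable {R} in
lemma van_heart (hR : R.TExact t) {X : T} (hX : t.heart X) {i : ℤ} (hi : i ≠ 0) :
    R.Van i X := by
  obtain ⟨h1, h2⟩ := (heart_iff t X).1 hX
  rcases lt_or_gt_of_ne hi with h | h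
  · exact van_of_ge hR h2 h
  · exact van_of_le hR h1 h

variable [∀ X : T, (tensorLeft X).CommShift ℤ]
  [∀ X : T, (tensorLeft X).IsTriangulated] [IsTriangulated T]

variable {R} in
/-- An exact realisation is conservative on the heart. -/
lemma isZero_of_heart (hnd : Nondegenerate t) (ht : TensorCompatible t) (hrig : IsRigid T)
    (hconn : ConnectedUnit T) (hR : R.TExact t) {X : T} (hX : t.heart X)
    (h : ∀ i, R.Van i X) : IsZero X := by
  by_contra hX0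
  obtain ⟨Y, ⟨hXY⟩⟩ := hrig X
  obtain ⟨Z, v, w, hZ⟩ := distinguished_cocone_triangle (ε_ X Y)
  have h1 := cone_ev_le hnd ht hrig hconn hX hX0 hZ
  have h2 : R.Van 0 Z := van_of_le hR h1 (by lia)
  have h3 : R.Van 0 (Y ⊗ X) := R.van_tensor 0 Y X (fun i => Or.inr (h _))
  have h4 : R.Van 0 (𝟙_ T) := R.van₂ hZ 0 h3 h2
  have h5 := R.unit
  exact not_subsingleton _ h4

variable {R} in
/-- An exact realisation is faithful on the heart. -/
lemma eq_zero_of_heart (hnd : Nondegenerate t) (ht : TensorCompatible t) (hrig : IsRigid T)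
    (hconn : ConnectedUnit T) (hR : R.TExact t) {X Y : T} (hX : t.heart X) (hY : t.heart Y)
    (f : X ⟶ Y) (hf : R.mp 0 f = 0) : f = 0 := by
  obtain ⟨K, I, C, k, p, a, i, q, b, hK, hI, hC, hT₁, hT₂, hpi, -⟩ := heart_factor t f hX hY
  have hI0 : IsZero I := by
    apply isZero_of_heart hnd ht hrig hconn hR hI
    intro j
    by_cases hj : j = 0
    · subst hj
      have h1 : ∀ x : R.Hm 0 I, x = 0 := by
        intro x
        obtain ⟨y, hy⟩ := R.surj_snd hT₁ (van_heart hR hK (by lia)) x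
        apply R.inj_fst hT₂ (van_heart hR hC (by lia))
        rw [← hy, ← mp_comp_apply, hpi, hf]
        rfl
      exact ⟨fun x y => (h1 x).trans (h1 y).symm⟩
    · exact van_heart hR hI hj
  rw [← hpi, hI0.eq_of_tgt p 0, zero_comp]

end Realization

end Pool.Agent.Lib.MotT
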