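import Mathlib

/-!
# Linear algebra: Cramer's rule for alternating maps
-/

open Module

namespace Pool.Agent.Lib.MotT

section

variable {F : Type*} [Field F] {V U U' : Type*} [AddCommGroup V] [Module F V]
  [AddCommGroup U] [Module F U] [AddCommGroup U'] [Module F U']

/-- Cramer's rule for the determinant of a family with respect to a basis. -/
lemma cramer_basis {n : ℕ} (e : Basis (Fin n) F V) (b : Fin n → V) (y : V) :
    ∑ j, e.det (Function.update b j y) • b j = e.det b • y := by
  have h1 : (e.toMatrix b).mulVec (Matrix.cramer (e.toMatrix b) (e.repr y)) =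
      (e.toMatrix b).det • ⇑(e.repr y) := Matrix.mulVec_cramer _ _
  apply e.repr.injective
  ext i
  have h2 := congrFun h1 i
  simp only [Matrix.mulVec, dotProduct, Pi.smul_apply, smul_eq_mul] at h2
  rw [map_sum, map_smul]
  simp only [map_smul, Finsupp.coe_finsetSum, Finset.sum_apply, Finsupp.smul_apply,
    smul_eq_mul]
  rw [show e.det b = (e.toMatrix b).det from rfl, ← h2]
  refine Finset.sum_congr rfl fun j _ => ?_
  rw [Matrix.cramer_apply, ← Basis.toMatrix_update]
  rw [mul_comm]
  rfl

/-- A vector valued alternating map on a space whose dimension is the number of variables. -/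
lemma alt_eq_det {n : ℕ} (e : Basis (Fin n) F V) (f : V [⋀^Fin n]→ₗ[F] U) (b : Fin n → V) :
    f b = e.det b • f e := by
  rw [← sub_eq_zero, ← Module.forall_dual_apply_eq_zero_iff F]
  intro ψ
  have h1 := AlternatingMap.eq_smul_basis_det e (ψ.compAlternatingMap f)
  have h2 := congrArg (fun g => g b) h1
  simp only [LinearMap.compAlternatingMap_apply, AlternatingMap.smul_apply, smul_eq_mul] at h2
  rw [map_sub, map_smul, h2, smul_eq_mul, mul_comm, sub_self]

/-- Cramer's rule for a vector valued alternating map. -/
lemma cramer_alt {n : ℕ} (V' : Submodule F V) (hV' : finrank F V' = n)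
    [FiniteDimensional F V'] (f : V [⋀^Fin n]→ₗ[F] U) (c : U →ₗ[F] V →ₗ[F] U')
    (b : Fin n → V) (hb : ∀ i, b i ∈ V') (y : V) (hy : y ∈ V') :
    ∑ j, c (f (Function.update b j y)) (b j) = c (f b) y := by
  let e : Basis (Fin n) F V' := finBasisOfFinrankEq F V' hV'
  let f' : V' [⋀^Fin n]→ₗ[F] U := f.compLinearMap V'.subtype
  let b' : Fin n → V' := fun i => ⟨b i, hb i⟩
  let y' : V' := ⟨y, hy⟩
  have h1 : ∀ j, f (Function.update b j y) = e.det (Function.update b' j y') • f' e := by
    intro j
    have h2 : f (Function.update b j y) = f' (Function.update b' j y') := by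
      change _ = f (fun i => V'.subtype (Function.update b' j y' i))
      congr 1
      ext i
      by_cases hi : i = j
      · subst hi
        simp [y']
      · simp [Function.update_of_ne hi, b']
    rw [h2]
    exact alt_eq_det e f' _
  have h3 : f b = e.det b' • f' e := by
    have h2 : f b = f' b' := rfl
    rw [h2]
    exact alt_eq_det e f' _
  simp only [h1, h3, map_smul, LinearMap.smul_apply]
  have h4 := congrArg (fun z => c (f' e) (V'.subtype z)) (cramer_basis e b' y')
  simp only [map_sum, map_smul] at h4
  exact h4

lemma exists_dual_family {n : ℕ} {b : Fin n → V} (hb : LinearIndependent F b) :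
    ∃ β : Fin n → (V →ₗ[F] F), ∀ i j, β i (b j) = if i = j then 1 else 0 := by
  obtain ⟨L, hL⟩ := LinearMap.exists_leftInverse_of_injective
    (Fintype.linearCombination F b) (by
      rw [LinearMap.ker_eq_bot]
      exact linearIndependent_iff_injective_fintypeLinearCombination.1 hb)
  refine ⟨fun i => (LinearMap.proj i).comp L, fun i j => ?_⟩
  have h1 : L (b j) = Pi.single j 1 := by
    have h2 := congrArg (fun g => g (Pi.single j (1 : F))) hL
    simpa [Fintype.linearCombination_apply, Pi.single_apply] using h2
  rw [LinearMap.comp_apply, h1, LinearMap.proj_apply, Pi.single_apply]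

end

end Pool.Agent.Lib.MotT
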