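import Pool.Agent.Lib.MP_6d0ce9_ag.Nilp
import Pool.Agent.Lib.MP_6d0ce9_ag.Lin

/-!
# Cramer's rule in a tensor triangulated category with a realisation
-/

set_option linter.unusedSectionVars false

universe w v u

open CategoryTheory Category Limits MonoidalCategory Pretriangulated Triangulated
  ObjectProperty

namespace Pool.Agent.Lib.MotT

section

variable {T : Type u} [Category.{v} T] [MonoidalCategory T] [BraidedCategory T]

/-- Moving the last factor into the tensor power on which `f` acts. -/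
lemma swap_last_factor {A B : T} (f : A ⟶ B) (n : ℕ) :
    ∃ τ : tpow A n ⊗ B ⟶ tpow B n ⊗ A,
      swapAt A (n + 1) n ≫ (tpowMap f n ▷ A) = (tpow A n ◁ f) ≫ τ := by
  cases n with
  | zero => exact ⟨(β_ A B).hom, (BraidedCategory.braiding_naturality_right A f).symm⟩
  | succ n =>
    refine ⟨(α_ (tpow A n) A B).hom ≫ (tpow A n ◁ (β_ A B).hom) ≫ (α_ (tpow A n) B A).inv ≫
      ((tpowMap f n ▷ B) ▷ A), ?_⟩
    have h1 : swapAt A (n + 2) (n + 1) =
        (α_ (tpow A n) A A).hom ≫ (tpow A n ◁ (β_ A A).hom) ≫ (α_ (tpow A n) A A).inv :=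
      if_pos rfl
    refine (congrArg (fun g => g ≫ (tpowMap f (n + 1) ▷ A)) h1).trans ?_
    change ((α_ (tpow A n) A A).hom ≫ (tpow A n ◁ (β_ A A).hom) ≫ (α_ (tpow A n) A A).inv) ≫
      ((tpowMap f n ⊗ₘ f) ▷ A) = ((tpow A n ⊗ A) ◁ f) ≫ _
    rw [MonoidalCategory.tensorHom_def', comp_whiskerRight]
    simp only [assoc]
    have h2 : (α_ (tpow A n) A A).inv ≫ ((tpow A n ◁ f) ▷ A) =
        (tpow A n ◁ (f ▷ A)) ≫ (α_ (tpow A n) B A).inv := by
      rw [← associator_inv_naturality_middle]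
    rw [reassoc_of% h2, ← MonoidalCategory.whiskerLeft_comp_assoc,
      ← BraidedCategory.braiding_naturality_right, MonoidalCategory.whiskerLeft_comp_assoc,
      ← associator_naturality_right_assoc]
    rfl

end

namespace Realization

variable {T : Type u} [Category.{v} T] [Preadditive T] [HasZeroObject T] [HasShift T ℤ]
  [∀ n : ℤ, (shiftFunctor T n).Additive] [Pretriangulated T] [MonoidalCategory T]
  [SymmetricCategory T] {F : Type w} [Field F] (R : Realization T F)

lemma tpowMap_pw (i : ℤ) {X Y : T} (f : X ⟶ Y) (n : ℕ) (v : Fin (n + 1) → R.Hm i X) :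
    R.mp (dg i n) (tpowMap f n) (R.pw i X n v) = R.pw i Y n (fun k => R.mp i f (v k)) := by
  induction n with
  | zero => rfl
  | succ n ih =>
    refine (R.cup_nat (rfl : dg i n + i = dg i (n + 1)) (tpowMap f n) f
      (R.pw i X n (fun k => v k.castSucc)) (v (Fin.last (n + 1)))).trans ?_
    rw [ih]
    rfl

/-- the antisymmetrised product -/
noncomputable def altPw (X : T) (n : ℕ) :
    (R.Hm 0 X) [⋀^Fin (n + 1)]→ₗ[F] (R.Hm (dg 0 n) (tpow X n)) :=
  MultilinearMap.alternatization (R.pw 0 X n)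

lemma antisym_altPw (X : T) (n : ℕ) (W : Equiv.Perm (Fin (n + 1)) → List (Fin n))
    (hW : ∀ σ, wordPerm (W σ) = σ) (v : Fin (n + 1) → R.Hm 0 X) :
    R.mp (dg 0 n) (antisym X n W) (R.pw 0 X n v) = R.altPw X n v := by
  rw [antisym_pw R 0 X n W hW, altPw, MultilinearMap.alternatization_apply]
  refine Finset.sum_congr rfl fun σ _ => ?_
  simp
  rfl

lemma kunneth_left_inv {n i j : ℤ} (h : i + j = n) (X Y : T) :
    ∃ L : R.Hm n (X ⊗ Y) →ₗ[F] TensorProduct F (R.Hm i X) (R.Hm j Y),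
      ∀ (p : R.Hm i X) (q : R.Hm j Y), L (R.cup h X Y p q) = p ⊗ₜ q := by
  have h1 := R.kunneth_of n i j h X Y
  obtain ⟨L, hL⟩ := LinearMap.exists_leftInverse_of_injective _ (LinearMap.ker_eq_bot.2 h1)
  refine ⟨L, fun p q => ?_⟩
  have h3 := LinearMap.congr_fun hL (p ⊗ₜ[F] q)
  rw [LinearMap.comp_apply, TensorProduct.lift.tmul] at h3
  exact h3

lemma exists_functional (i : ℤ) (X : T) (n : ℕ) (β : Fin (n + 1) → (R.Hm i X →ₗ[F] F)) :
    ∃ ℓ : R.Hm (dg i n) (tpow X n) →ₗ[F] F, ∀ v, ℓ (R.pw i X n v) = ∏ k, β k (v k) := by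
  induction n with
  | zero =>
    refine ⟨β 0, fun v => ?_⟩
    rw [pw_zero]
    exact (Fin.prod_univ_one (fun k : Fin 1 => β k (v k))).symm
  | succ n ih =>
    obtain ⟨ℓ, hℓ⟩ := ih (fun k => β k.castSucc)
    obtain ⟨L, hL⟩ := R.kunneth_left_inv (rfl : dg i n + i = dg i (n + 1)) (tpow X n) X
    refine ⟨(TensorProduct.lid F F).toLinearMap.comp
      ((TensorProduct.map ℓ (β (Fin.last (n + 1)))).comp L), fun v => ?_⟩
    have h2 := hL (R.pw i X n (fun k => v k.castSucc)) (v (Fin.last (n + 1)))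
    have h3 : (TensorProduct.lid F F).toLinearMap ((TensorProduct.map ℓ (β (Fin.last (n + 1))))
        ((R.pw i X n (fun k => v k.castSucc)) ⊗ₜ (v (Fin.last (n + 1))))) =
        ∏ k, β k (v k) := by
      rw [TensorProduct.map_tmul, hℓ, Fin.prod_univ_castSucc (fun k => β k (v k))]
      rfl
    rw [← h3, ← h2]
    rfl

lemma altPw_ne_zero (X : T) (n : ℕ) {b : Fin (n + 1) → R.Hm 0 X}
    (hb : LinearIndependent F b) : R.altPw X n b ≠ 0 := by
  obtain ⟨β, hβ⟩ := exists_dual_family hb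
  obtain ⟨ℓ, hℓ⟩ := R.exists_functional 0 X n β
  intro h0
  have h1 : ℓ (R.altPw X n b) = 0 := by rw [h0, map_zero]
  rw [altPw, MultilinearMap.alternatization_apply, map_sum] at h1
  have h2 : ∀ σ : Equiv.Perm (Fin (n + 1)),
      ℓ (Equiv.Perm.sign σ • (R.pw 0 X n).domDomCongr σ b) =
        if σ = 1 then 1 else 0 := by
    intro σ
    have h3 : ℓ ((R.pw 0 X n).domDomCongr σ b) = ∏ k, β k (b (σ k)) := hℓ _
    have h4 : ℓ (Equiv.Perm.sign σ • (R.pw 0 X n).domDomCongr σ b) =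
        (Equiv.Perm.sign σ : ℤ) • ℓ ((R.pw 0 X n).domDomCongr σ b) := by
      rw [← map_zsmul]
      rfl
    rw [h4, h3]
    by_cases hσ : σ = 1
    · subst hσ
      simp [hβ]
    · obtain ⟨k, hk⟩ : ∃ k, σ k ≠ k := by
        by_contra hcon
        push Not at hcon
        exact hσ (Equiv.ext hcon)
      rw [Finset.prod_eq_zero (Finset.mem_univ k) (by rw [hβ, if_neg (Ne.symm hk)]),
        smul_zero, if_neg hσ]
  simp only [h2] at h1
  simp at h1

end Realization

end Pool.Agent.Lib.MotT
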