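import Pool.Agent.Lib.MP_6d0ce9_ag.Final
import Pool.Agent.Lib.MP_6d0ce9_ag.CritDefs

/-!
# The criterion
-/

set_option linter.unusedSectionVars false

universe w w' v u

open CategoryTheory Category Limits MonoidalCategory Pretriangulated Triangulated
  ObjectProperty

namespace Pool.Agent.Lib.MotT

namespace Realization

section

variable {T : Type u} [Category.{v} T] [Preadditive T] [HasZeroObject T] [HasShift T ℤ]
  [∀ n : ℤ, (shiftFunctor T n).Additive] [Pretriangulated T] [MonoidalCategory T]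
  [SymmetricCategory T] {F : Type w} [Field F] {R : Realization T F}

/-- If `s : M ⟶ 𝟙` is zero on `H^0` then the morphism from `𝟙` to its cone is not tensor
nilpotent. -/
lemma not_tensorNilpotent {M N : T} {s : M ⟶ 𝟙_ T} {δ : 𝟙_ T ⟶ N} {ω : N ⟶ M⟦(1 : ℤ)⟧}
    (hN : Triangle.mk s δ ω ∈ distTriang T) (hs : R.mp 0 s = 0) : ¬ TensorNilpotent δ := by
  obtain ⟨c, hc⟩ := R.nontrivial_unit
  have hδ : R.mp 0 δ c ≠ 0 := by
    intro h0
    obtain ⟨y, hy⟩ := R.exact₂' hN 0 c h0
    rw [hs, LinearMap.zero_apply] at hy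
    exact hc hy.symm
  have key : ∀ n : ℕ, R.mp 0 (homPow δ n) c ≠ 0 := by
    intro n
    induction n with
    | zero =>
      change R.mp 0 (𝟙 _) c ≠ 0
      rwa [mp_id]
    | succ n ih =>
      intro h0
      have h1 : R.mp 0 ((ρ_ (unitPow N n)).inv ≫ (unitPow N n ◁ δ))
          (R.mp 0 (homPow δ n) c) = 0 := by
        rw [← mp_comp_apply]
        exact h0
      obtain ⟨y', hy'⟩ := R.surj_unit' hc (unitPow N n) (R.mp 0 (homPow δ n) c)
      have hy0 : y' ≠ 0 := by
        rintro rfl
        rw [map_zero, LinearMap.zero_apply, map_zero] at hy'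
        exact ih hy'.symm
      have h2 : R.mp 0 (unitPow N n ◁ δ) (R.cup (add_zero 0) (unitPow N n) (𝟙_ T) y' c) = 0 := by
        have h3 : unitPow N n ◁ δ =
            (ρ_ (unitPow N n)).hom ≫ (ρ_ (unitPow N n)).inv ≫ (unitPow N n ◁ δ) := by
          rw [Iso.hom_inv_id_assoc]
        rw [h3, mp_comp_apply, hy']
        exact h1
      rw [cup_whiskerLeft] at h2
      exact R.cup_ne_zero (add_zero 0) hy0 hδ h2
  rintro ⟨n, hn⟩
  apply key n
  rw [hn, mp_zero, LinearMap.zero_apply]

end

variable {T : Type u} [Category.{v} T] [Preadditive T] [HasZeroObject T] [HasShift T ℤ]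
  [∀ n : ℤ, (shiftFunctor T n).Additive] [Pretriangulated T] [MonoidalCategory T]
  [SymmetricCategory T] {F : Type w} [Field F] {R : Realization T F}
  [∀ X : T, (tensorLeft X).CommShift ℤ] [∀ X : T, (tensorLeft X).IsTriangulated]
  {P : ObjectProperty T}

/-- The nilpotence condition implies faithfulness. -/
lemma faithfulOn_of_conesNilpotent (hrig : IsRigid T)
    (hP0 : ∀ A : T, P A → R.ConcentratedIn 0 A) (h : ConesNilpotent P) : R.FaithfulOn P := by
  intro A B hA hB f hf
  obtain ⟨B', ⟨hBB⟩⟩ := hrig B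
  let _ : ExactPairing B' B := BraidedCategory.exactPairing_swap B B'
  have hB' : R.ConcentratedIn 0 B' := by simpa using R.conc_dual (hP0 B hB)
  by_contra hne
  let g : A ⟶ 𝟙_ T ⊗ B := f ≫ (λ_ B).inv
  let s : A ⊗ B' ⟶ 𝟙_ T := (tensorRightHomEquiv A B' B (𝟙_ T)).symm g
  have hs : s = (g ▷ B') ≫ (α_ (𝟙_ T) B B').hom ≫ ((𝟙_ T) ◁ ε_ B' B) ≫ (ρ_ (𝟙_ T)).hom := rfl
  have hs0 : s ≠ 0 := by
    intro h0
    apply hne
    have h1 : g = 0 := by
      have h2 := congrArg (tensorRightHomEquiv A B' B (𝟙_ T)) h0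
      rw [Equiv.apply_symm_apply] at h2
      rw [h2]
      simp [tensorRightHomEquiv]
    rw [← cancel_mono (λ_ B).inv, zero_comp]
    exact h1
  have hms : R.mp 0 s = 0 := by
    rw [hs, mp_comp]
    have h1 : R.mp 0 (g ▷ B') = 0 := by
      ext z
      rw [LinearMap.zero_apply]
      have h2 : R.mp 0 g = 0 := by
        rw [mp_comp, mp_eq_zero_of_map f hf, LinearMap.comp_zero]
      have h3 := R.cup_span (zero_add 0) A B' (fun k hk => Or.inl (hP0 A hA k hk)) z
      induction h3 using Submodule.span_induction with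
      | mem z hz =>
        obtain ⟨x, y, rfl⟩ := hz
        rw [cup_whiskerRight, h2, LinearMap.zero_apply, map_zero, LinearMap.zero_apply]
      | zero => rw [map_zero]
      | add a b _ _ ha hb => rw [map_add, ha, hb, add_zero]
      | smul c a _ ha => rw [map_smul, ha, smul_zero]
    rw [h1, LinearMap.comp_zero]
  obtain ⟨N, δ, ω, hN⟩ := distinguished_cocone_triangle s
  exact not_tensorNilpotent hN hms (h A B B' hA hB ⟨hBB⟩ N s δ ω hN hs0)

lemma injective_of_faithfulOn (hvan : NegVanishing P) (hf : R.FaithfulOn P) :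
    ∀ A B : T, P A → P B → ∀ n : ℤ, n ≤ 0 → ∀ f : A ⟶ B⟦n⟧, R.H0.map f = 0 → f = 0 := by
  intro A B hA hB n hn f h0
  rcases eq_or_lt_of_le hn with rfl | hn
  · have h1 : f ≫ ((shiftFunctorZero T ℤ).app B).hom = 0 := by
      apply hf A B hA hB
      rw [Functor.map_comp, h0, zero_comp]
    rw [← cancel_mono ((shiftFunctorZero T ℤ).app B).hom, h1, zero_comp]
  · exact hvan A B hA hB n hn f

variable [IsTriangulated T]

/-- The nilpotence condition holds if there is an exact realisation. -/
lemma conesNilpotent_of_exact [CharZero F] {t : TStructure T} (hnd : Nondegenerate t)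
    (ht : TensorCompatible t) (hrig : IsRigid T) (hconn : ConnectedUnit T) (hR : R.TExact t)
    (hP0 : ∀ A : T, P A → R.ConcentratedIn 0 A) : ConesNilpotent P := by
  rintro A B B' hA hB ⟨hBB⟩ N s δ ω hN hs
  have hcons := conservative_of_exact hnd ht hrig hconn hR
  have h1 : R.ConcentratedIn 0 B' := by simpa using R.conc_dual (hP0 B hB)
  have h2 : R.ConcentratedIn 0 (A ⊗ B') := R.conc_tensor (by ring) (hP0 A hA) h1
  refine tensorNilpotent_of_odd hcons (conc_cone_unit h2 (fun h0 => hs ?_) hN) δ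
  exact eq_zero_of_heart hnd ht hrig hconn hR (heart_of_conc hR hcons h2)
    (heart_of_conc hR hcons R.unit_conc) s h0

end Realization

/-- The t-structure is exact for a whole family of realisations. -/
theorem exists_t_family {T : Type u} [Category.{v} T] [Preadditive T] [HasZeroObject T]
    [HasShift T ℤ] [∀ n : ℤ, (shiftFunctor T n).Additive] [Pretriangulated T]
    [IsTriangulated T] [MonoidalCategory T] [SymmetricCategory T]
    [∀ X : T, (tensorLeft X).CommShift ℤ] [∀ X : T, (tensorLeft X).IsTriangulated]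
    [IsIdempotentComplete T] (hrig : IsRigid T) (hconn : ConnectedUnit T)
    {I : Type w'} {F : I → Type w} [∀ i, Field (F i)] [∀ i, CharZero (F i)]
    (R : ∀ i, Realization T (F i)) (o : I) (P : ObjectProperty T) (hP1 : P (𝟙_ T))
    (hPt : ∀ A B : T, P A → P B → P (A ⊗ B))
    (hP0 : ∀ A : T, P A → (R o).ConcentratedIn 0 A)
    (hgen : ObjectProperty.IsClassicalTriangulatedGenerator fun G : T =>
      ∃ A B B' : T, P A ∧ P B ∧ Nonempty (ExactPairing B B') ∧ Nonempty (G ≅ A ⊗ B'))
    (hnil : ∀ A B B' : T, P A → P B → Nonempty (ExactPairing B B') →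
      ∀ (N : T) (s : A ⊗ B' ⟶ 𝟙_ T) (δ : 𝟙_ T ⟶ N) (ω : N ⟶ (A ⊗ B')⟦(1 : ℤ)⟧),
        Triangle.mk s δ ω ∈ distTriang T → (R o).H0.map s ≠ 0 → TensorNilpotent δ)
    (hvan : NegVanishing P) (hf : (R o).FaithfulOn P)
    (hcom : ∀ i, (R o).CommonGen (R i)) :
    ∃ t : TStructure T, Nondegenerate t ∧ TensorCompatible t ∧ ∀ i, (R i).TExact t := by
  obtain ⟨t, hnd, ht, hRo⟩ :=
    Realization.exists_t_of_class hrig hP1 hPt hP0 hgen hnil
      (Realization.injective_of_faithfulOn hvan hf)
  have hcons := Realization.conservative_of_exact hnd ht hrig hconn hRo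
  refine ⟨t, hnd, ht, fun i => (R i).texact_of_gen ht ?_⟩
  have hle : (fun G : T => ∃ n : ℤ, (R o).ConcentratedIn n G ∧ (R i).ConcentratedIn n G) ≤
      Sorting.anyOf ((R i).DD t) := by
    rintro G ⟨n, h1, h2⟩
    have h3 : t.IsLE G n := Realization.isLE_of_van hRo hcons fun j hj => h1 j (by lia)
    have h4 : t.IsGE G n := Realization.isGE_of_van hRo hcons fun j hj => h1 j (by lia)
    have h5 : t.heart (G⟦n⟧) := (heart_iff t _).2
      ⟨t.isLE_shift G n n 0 (by lia), t.isGE_shift G n n 0 (by lia)⟩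
    exact ⟨n, h3, h4, h2, Realization.extPower_of_heart hnd ht hrig hconn hRo h5⟩
  have h6 := hcom i
  rw [Realization.CommonGen] at h6
  rw [ObjectProperty.isClassicalTriangulatedGenerator_iff, eq_top_iff] at h6 ⊢
  exact h6.trans (ObjectProperty.monotone_triangEnvelope hle)

/-- The criterion. -/
theorem criterion {T : Type u} [Category.{v} T] [Preadditive T] [HasZeroObject T]
    [HasShift T ℤ] [∀ n : ℤ, (shiftFunctor T n).Additive] [Pretriangulated T]
    [IsTriangulated T] [MonoidalCategory T] [SymmetricCategory T]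
    [∀ X : T, (tensorLeft X).CommShift ℤ] [∀ X : T, (tensorLeft X).IsTriangulated]
    [IsIdempotentComplete T] (hrig : IsRigid T) (hconn : ConnectedUnit T)
    {I : Type w'} {F : I → Type w} [∀ i, Field (F i)] [∀ i, CharZero (F i)]
    (R : ∀ i, Realization T (F i)) (o : I) (P : ObjectProperty T) (hP1 : P (𝟙_ T))
    (hPt : ∀ A B : T, P A → P B → P (A ⊗ B))
    (hP0 : ∀ A : T, P A → (R o).ConcentratedIn 0 A)
    (hgen : ObjectProperty.IsClassicalTriangulatedGenerator fun G : T =>
      ∃ A B B' : T, P A ∧ P B ∧ Nonempty (ExactPairing B B') ∧ Nonempty (G ≅ A ⊗ B')) :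
    List.TFAE [
      ∃ t : TStructure T, Nondegenerate t ∧ TensorCompatible t ∧ ∀ i, (R i).TExact t,
      (R o).Conservative ∧ NegVanishing P ∧ (R o).FaithfulOn P ∧ ∀ i, (R o).CommonGen (R i),
      ConesNilpotent P ∧ NegVanishing P ∧ ∀ i, (R o).CommonGen (R i)] := by
  have hgen1 : (∃ t : TStructure T, Nondegenerate t ∧ TensorCompatible t ∧
      ∀ i, (R i).TExact t) → NegVanishing P ∧ ∀ i, (R o).CommonGen (R i) := by
    rintro ⟨t, hnd, ht, hR⟩
    have hcons := Realization.conservative_of_exact hnd ht hrig hconn (hR o)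
    refine ⟨fun A B hA hB n hn f => ?_, fun i => ?_⟩
    · refine Realization.eq_zero_of_exact hnd ht hrig hconn (hR o) (hP0 A hA) (hP0 B hB)
        hn.le f (Realization.map_eq_zero_of_mp _ ?_)
      ext x
      have := (hP0 B hB).shift n
      exact (this 0 (by lia)).elim _ _
    · exact Realization.generates_of_exact hnd ht hrig hconn (hR o) fun X hX =>
        ⟨0, fun j hj => Realization.van_heart (hR o) hX hj,
          fun j hj => Realization.van_heart (hR i) hX hj⟩
  tfae_have 1 → 2 := by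
    rintro ⟨t, hnd, ht, hR⟩
    obtain ⟨h1, h2⟩ := hgen1 ⟨t, hnd, ht, hR⟩
    have hcons := Realization.conservative_of_exact hnd ht hrig hconn (hR o)
    refine ⟨hcons, h1, fun A B hA hB f hf => ?_, h2⟩
    exact Realization.eq_zero_of_heart hnd ht hrig hconn (hR o)
      (Realization.heart_of_conc (hR o) hcons (hP0 A hA))
      (Realization.heart_of_conc (hR o) hcons (hP0 B hB)) f
      (Realization.mp_eq_zero_of_map f hf)
  tfae_have 2 → 1 := by
    rintro ⟨hcons, h1, h2, h3⟩
    exact exists_t_family hrig hconn R o P hP1 hPt hP0 hgen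
      (fun A B B' hA hB hBB N s δ ω hN hs =>
        Realization.nil_of_conservative hcons (hP0 A hA) (hP0 B hB) hBB hN hs) h1 h2 h3
  tfae_have 1 → 3 := by
    rintro ⟨t, hnd, ht, hR⟩
    exact ⟨Realization.conesNilpotent_of_exact hnd ht hrig hconn (hR o) hP0,
      hgen1 ⟨t, hnd, ht, hR⟩⟩
  tfae_have 3 → 1 := by
    rintro ⟨hnil, h1, h3⟩
    have h2 := Realization.faithfulOn_of_conesNilpotent (R := R o) hrig hP0 hnil
    refine exists_t_family hrig hconn R o P hP1 hPt hP0 hgen
      (fun A B B' hA hB hBB N s δ ω hN hs => hnil A B B' hA hB hBB N s δ ω hN ?_) h1 h2 h3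
    rintro rfl
    have := (R o).additive
    exact hs (Functor.map_zero _ _ _)
  tfae_finish

end Pool.Agent.Lib.MotT
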