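import Mathlib

/-!
# Tensor triangulated categories with realisations: the definitions used in the statements

Throughout, `T` is a triangulated category with a symmetric monoidal structure whose tensor
product is exact in each variable. The example to keep in mind is the category of
constructible Voevodsky motives over a field with rational coefficients.
-/

universe w v u

open CategoryTheory Category Limits MonoidalCategory Pretriangulated Triangulated

namespace Pool.Agent.Lib.MotT

section Setup

variable {T : Type u} [Category.{v} T] [Preadditive T] [HasZeroObject T] [HasShift T ℤ]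
  [∀ n : ℤ, (shiftFunctor T n).Additive] [Pretriangulated T]

/-- A t-structure is non-degenerate if `0` is the only object lying in `D^{≤ n}` for all `n`
and `0` is the only object lying in `D^{≥ n}` for all `n`. -/
def Nondegenerate (t : TStructure T) : Prop :=
  (∀ X : T, (∀ n : ℤ, t.le n X) → IsZero X) ∧ (∀ X : T, (∀ n : ℤ, t.ge n X) → IsZero X)

/-- A t-structure is compatible with the tensor product if the tensor product of two objects
of `D^{≤ 0}` lies in `D^{≤ 0}` and the tensor product of two objects of `D^{≥ 0}` lies in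
`D^{≥ 0}`. -/
def TensorCompatible [MonoidalCategory T] (t : TStructure T) : Prop :=
  (∀ X Y : T, t.le 0 X → t.le 0 Y → t.le 0 (X ⊗ Y)) ∧
    (∀ X Y : T, t.ge 0 X → t.ge 0 Y → t.ge 0 (X ⊗ Y))

end Setup

section Rigid

variable (T : Type u) [Category.{v} T] [MonoidalCategory T]

/-- Every object has a (strong) dual. -/
def IsRigid : Prop := ∀ X : T, ∃ Y : T, Nonempty (ExactPairing X Y)

/-- The unit object is indecomposable in the sense that its only idempotent endomorphisms
are `0` and the identity; for instance this holds if its endomorphism ring is a field. -/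
def ConnectedUnit [Preadditive T] : Prop :=
  ∀ e : 𝟙_ T ⟶ 𝟙_ T, e ≫ e = e → e = 0 ∨ e = 𝟙 _

end Rigid

/-- A realisation of the tensor triangulated category `T` over a field `F`: a homological
functor `H0` from `T` to finite dimensional `F`-vector spaces such that, writing
`H^i(X) = H0(X[i])`, for every `X` only finitely many `H^i(X)` are nonzero, together with
products `H^i(X) × H^j(Y) → H^{i+j}(X ⊗ Y)` which are natural, associative, commutative with
the Koszul sign `(-1)^{ij}`, satisfy the Künneth formula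
`⊕_{i + j = n} H^i(X) ⊗ H^j(Y) ≃ H^n(X ⊗ Y)`, and such that `H^0` of the unit object is
nonzero. A symmetric monoidal exact functor from `T` to the bounded derived category of
finite dimensional `F`-vector spaces gives such a structure by taking cohomology. -/
structure Realization (T : Type u) [Category.{v} T] [Preadditive T] [HasZeroObject T]
    [HasShift T ℤ] [∀ n : ℤ, (shiftFunctor T n).Additive] [Pretriangulated T]
    [MonoidalCategory T] [BraidedCategory T] (F : Type w) [Field F] where
  /-- the functor `H^0` -/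
  H0 : T ⥤ ModuleCat.{w} F
  homological : H0.IsHomological
  finite : ∀ (i : ℤ) (X : T), Module.Finite F (H0.obj (X⟦i⟧))
  bounded : ∀ X : T, ∃ b : ℤ, ∀ i : ℤ, b < |i| → Subsingleton (H0.obj (X⟦i⟧))
  /-- the product `H^i(X) × H^j(Y) → H^n(X ⊗ Y)` for `n = i + j` -/
  cup : ∀ {i j n : ℤ} (_ : i + j = n) (X Y : T),
    H0.obj (X⟦i⟧) →ₗ[F] H0.obj (Y⟦j⟧) →ₗ[F] H0.obj ((X ⊗ Y)⟦n⟧)
  cup_natural : ∀ {i j n : ℤ} (h : i + j = n) {X X' Y Y' : T} (f : X ⟶ X') (g : Y ⟶ Y')
    (x : H0.obj (X⟦i⟧)) (y : H0.obj (Y⟦j⟧)),
    (H0.map ((f ⊗ₘ g)⟦n⟧')).hom (cup h X Y x y) =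
      cup h X' Y' ((H0.map (f⟦i⟧')).hom x) ((H0.map (g⟦j⟧')).hom y)
  cup_assoc : ∀ {i j k a b n : ℤ} (hij : i + j = a) (hak : a + k = n) (hjk : j + k = b)
    (hib : i + b = n) (X Y Z : T) (x : H0.obj (X⟦i⟧)) (y : H0.obj (Y⟦j⟧))
    (z : H0.obj (Z⟦k⟧)),
    (H0.map ((α_ X Y Z).hom⟦n⟧')).hom (cup hak (X ⊗ Y) Z (cup hij X Y x y) z) =
      cup hib X (Y ⊗ Z) x (cup hjk Y Z y z)
  cup_comm : ∀ {i j n : ℤ} (h : i + j = n) (h' : j + i = n) (X Y : T)
    (x : H0.obj (X⟦i⟧)) (y : H0.obj (Y⟦j⟧)),
    (H0.map ((β_ X Y).hom⟦n⟧')).hom (cup h X Y x y) =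
      ((i * j).negOnePow : ℤ) • cup h' Y X y x
  kunneth : ∀ (n : ℤ) (X Y : T), Function.Bijective
    (DirectSum.toModule F ℤ (H0.obj ((X ⊗ Y)⟦n⟧))
      (fun i => TensorProduct.lift (cup (add_sub_cancel i n) X Y)))
  unit : Nontrivial (H0.obj ((𝟙_ T)⟦(0 : ℤ)⟧))

namespace Realization

variable {T : Type u} [Category.{v} T] [Preadditive T] [HasZeroObject T] [HasShift T ℤ]
  [∀ n : ℤ, (shiftFunctor T n).Additive] [Pretriangulated T] [MonoidalCategory T]
  [BraidedCategory T] {F : Type w} [Field F] (R : Realization T F)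

/-- The cohomology group `H^i(X) = H0(X[i])` vanishes. -/
def Van (i : ℤ) (X : T) : Prop := Subsingleton (R.H0.obj (X⟦i⟧))

/-- All cohomology groups of `X` other than `H^n(X)` vanish. -/
def ConcentratedIn (n : ℤ) (X : T) : Prop := ∀ i : ℤ, i ≠ n → R.Van i X

/-- The realisation is t-exact for the t-structure `t`: it maps `D^{≤ 0}` to complexes with
cohomology in degrees `≤ 0`, and `D^{≥ 0}` to complexes with cohomology in degrees `≥ 0`. -/
def TExact (t : TStructure T) : Prop :=
  (∀ X : T, t.le 0 X → ∀ i : ℤ, 0 < i → R.Van i X) ∧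
    (∀ X : T, t.ge 0 X → ∀ i : ℤ, i < 0 → R.Van i X)

/-- The realisation is conservative: an object all of whose cohomology groups vanish is
zero. -/
def Conservative : Prop := ∀ X : T, (∀ i : ℤ, R.Van i X) → IsZero X

end Realization

end Pool.Agent.Lib.MotT
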