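import Pool.Agent.Lib.MP_6d0ce9_ag.CritDefs

/-!
# Comparison of two categories with realisations: definitions

Example to keep in mind: `T` and `T'` are the categories of constructible motives over two
fields `k` and `K` of the same characteristic, `C` is the category of constructible motives over
a finitely generated subfield of `k` which embeds into `K`, and the functors are base change.
-/

universe w v u

open CategoryTheory Category Limits MonoidalCategory Pretriangulated Triangulated

namespace Pool.Agent.Lib.MotT

variable {T : Type u} [Category.{v} T] [Preadditive T] [HasZeroObject T] [HasShift T ℤ]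
  [∀ n : ℤ, (shiftFunctor T n).Additive] [Pretriangulated T] [MonoidalCategory T]
  [BraidedCategory T]
  {T' : Type u} [Category.{v} T'] [Preadditive T'] [HasZeroObject T'] [HasShift T' ℤ]
  [∀ n : ℤ, (shiftFunctor T' n).Additive] [Pretriangulated T'] [MonoidalCategory T']
  [BraidedCategory T'] {F : Type w} [Field F]

/-- A bridge from the category `T` with realisation `R` to the category `T'` with realisation
`R'`: a category `C` with shifts, functors `toT : C ⥤ T` and `toT' : C ⥤ T'` commuting with the
shifts and preserving zero morphisms, such that `toT'` is faithful and `R` and `R'` have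
isomorphic restrictions to `C`. No tensor or triangulated structure on `C` is needed. -/
structure Bridge (R : Realization T F) (R' : Realization T' F) where
  /-- the category `C` -/
  C : Type u
  [cat : Category.{v} C]
  [zero : HasZeroMorphisms C]
  [shift : HasShift C ℤ]
  /-- the functor to `T` -/
  toT : C ⥤ T
  /-- the functor to `T'` -/
  toT' : C ⥤ T'
  [comm : toT.CommShift ℤ]
  [comm' : toT'.CommShift ℤ]
  preservesZero : toT.PreservesZeroMorphisms
  preservesZero' : toT'.PreservesZeroMorphisms
  faithful : toT'.Faithful
  /-- the restrictions of the two realisations to `C` are isomorphic -/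
  iso : toT ⋙ R.H0 ≅ toT' ⋙ R'.H0

/-- Every morphism of `T` is isomorphic to the image of a morphism of the category `C` of some
bridge from `T` to `T'`. -/
def Covered (R : Realization T F) (R' : Realization T' F) : Prop :=
  ∀ (X Y : T) (f : X ⟶ Y), ∃ b : Bridge R R', letI := b.cat
    ∃ (X₀ Y₀ : b.C) (f₀ : X₀ ⟶ Y₀) (e : b.toT.obj X₀ ≅ X) (e' : b.toT.obj Y₀ ≅ Y),
      b.toT.map f₀ ≫ e'.hom = e.hom ≫ f

end Pool.Agent.Lib.MotT
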