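import Pool.Agent.Lib.MP_6d0ce9_ag.Crit
import Pool.Agent.Lib.MP_6d0ce9_ag.DescDefs

/-!
# Transfer of the criterion along bridges
-/

set_option linter.unusedSectionVars false

universe w v u

open CategoryTheory Category Limits MonoidalCategory Pretriangulated Triangulated
  ObjectProperty

namespace Pool.Agent.Lib.MotT

section

variable {T : Type u} [Category.{v} T] [Preadditive T] [HasZeroObject T] [HasShift T ℤ]
  [∀ n : ℤ, (shiftFunctor T n).Additive] [Pretriangulated T] [MonoidalCategory T]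
  [SymmetricCategory T]
  {T' : Type u} [Category.{v} T'] [Preadditive T'] [HasZeroObject T'] [HasShift T' ℤ]
  [∀ n : ℤ, (shiftFunctor T' n).Additive] [Pretriangulated T'] [MonoidalCategory T']
  [SymmetricCategory T'] {F : Type w} [Field F] {R : Realization T F}
  {R' : Realization T' F}

namespace Bridge

variable (b : Bridge R R')

instance : Category.{v} b.C := b.cat
instance : HasZeroMorphisms b.C := b.zero
instance : HasShift b.C ℤ := b.shift
instance : b.toT.CommShift ℤ := b.comm
instance : b.toT'.CommShift ℤ := b.comm'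
instance : b.toT.PreservesZeroMorphisms := b.preservesZero
instance : b.toT'.PreservesZeroMorphisms := b.preservesZero'
instance : b.toT'.Faithful := b.faithful

lemma van_iff (i : ℤ) (X : b.C) :
    R.Van i (b.toT.obj X) ↔ R'.Van i (b.toT'.obj X) := by
  rw [Realization.van_iff_isZero, Realization.van_iff_isZero]
  refine Iso.isZero_iff ?_
  exact R.H0.mapIso ((b.toT.commShiftIso i).app X).symm ≪≫ b.iso.app (X⟦i⟧) ≪≫
    R'.H0.mapIso ((b.toT'.commShiftIso i).app X)

lemma kills {X Y : b.C} (f : X ⟶ Y) (h : R.H0.map (b.toT.map f) = 0) :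
    R'.H0.map (b.toT'.map f) = 0 := by
  have h1 : R.H0.map (b.toT.map f) ≫ b.iso.hom.app Y =
      b.iso.hom.app X ≫ R'.H0.map (b.toT'.map f) := b.iso.hom.naturality f
  rw [h, zero_comp] at h1
  rw [← cancel_epi (b.iso.hom.app X), ← h1, comp_zero]

lemma map_eq_zero {X Y : b.C} (f : X ⟶ Y) (h : b.toT'.map f = 0) : b.toT.map f = 0 := by
  have h1 : f = 0 := b.toT'.map_injective (by rw [h, Functor.map_zero])
  rw [h1, Functor.map_zero]

end Bridge

variable [∀ X : T, (tensorLeft X).CommShift ℤ] [∀ X : T, (tensorLeft X).IsTriangulated]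
  [IsTriangulated T] [∀ X : T', (tensorLeft X).CommShift ℤ]
  [∀ X : T', (tensorLeft X).IsTriangulated] [IsTriangulated T']

lemma conservative_of_covered (hcov : Covered R R') (hcons : R'.Conservative) :
    R.Conservative := by
  intro X hX
  obtain ⟨b, X₀, Y₀, f₀, e, e', h⟩ := hcov X X (𝟙 X)
  have h1 : IsZero (b.toT'.obj X₀) := hcons _ fun i =>
    (b.van_iff i X₀).1 (R.van_of_iso e.symm (hX i))
  have h2 : b.toT.map f₀ = 0 := b.map_eq_zero f₀ (h1.eq_of_src _ _)
  have h3 : e.hom ≫ 𝟙 X = 0 := by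
    rw [← h, h2, zero_comp]
  rw [IsZero.iff_id_eq_zero, ← cancel_epi e.hom, h3, comp_zero]

lemma injectiveOn_of_covered (hcov : Covered R R') {t : TStructure T'}
    (hnd : Nondegenerate t) (ht : TensorCompatible t)
    (hrig : IsRigid T') (hconn : ConnectedUnit T') (hR : R'.TExact t) {P : ObjectProperty T}
    (hP : ∀ A, P A → R.ConcentratedIn 0 A) :
    ∀ A B : T, P A → P B → ∀ n : ℤ, n ≤ 0 → ∀ f : A ⟶ B⟦n⟧, R.H0.map f = 0 → f = 0 := by
  intro A B hA hB n hn f hf
  have hcons := Realization.conservative_of_exact hnd ht hrig hconn hR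
  obtain ⟨b, X₀, Y₀, f₀, e, e', h⟩ := hcov A (B⟦n⟧) f
  have hX : R'.ConcentratedIn 0 (b.toT'.obj X₀) := fun i hi =>
    (b.van_iff i X₀).1 (R.van_of_iso e.symm (hP A hA i hi))
  have hY : R'.ConcentratedIn (0 - n) (b.toT'.obj Y₀) := fun i hi =>
    (b.van_iff i Y₀).1 (R.van_of_iso e'.symm ((hP B hB).shift n i hi))
  have hk : R'.H0.map (b.toT'.map f₀) = 0 := by
    apply b.kills
    have h1 : b.toT.map f₀ = e.hom ≫ f ≫ e'.inv := by
      rw [← assoc, ← h, assoc, Iso.hom_inv_id, comp_id]
    rw [h1, Functor.map_comp, Functor.map_comp, show R.H0.map f = 0 from hf, zero_comp,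
      comp_zero]
  have hX1 : t.IsLE (b.toT'.obj X₀) 0 :=
    Realization.isLE_of_van hR hcons fun i hi => hX i (by lia)
  have hX2 : t.IsGE (b.toT'.obj X₀) 0 :=
    Realization.isGE_of_van hR hcons fun i hi => hX i (by lia)
  have hY1 : t.IsLE (b.toT'.obj Y₀) (-n) :=
    Realization.isLE_of_van hR hcons fun i hi => hY i (by lia)
  have hY2 : t.IsGE (b.toT'.obj Y₀) (-n) :=
    Realization.isGE_of_van hR hcons fun i hi => hY i (by lia)
  have h2 : b.toT'.map f₀ = 0 := by
    rcases eq_or_lt_of_le hn with rfl | hn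
    · exact Realization.eq_zero_of_heart hnd ht hrig hconn hR ((heart_iff t _).2 ⟨hX1, hX2⟩)
        ((heart_iff t _).2 ⟨by simpa using hY1, by simpa using hY2⟩) _
        (Realization.mp_eq_zero_of_map _ hk)
    · exact t.zero_of_isLE_of_isGE _ 0 (-n) (by lia) hX1 hY2
  have h3 : f = e.inv ≫ b.toT.map f₀ ≫ e'.hom := by rw [h, Iso.inv_hom_id_assoc]
  rw [h3, b.map_eq_zero f₀ h2, zero_comp, comp_zero]

lemma negVanishing_of_covered (hcov : Covered R R') {t : TStructure T'}
    (hnd : Nondegenerate t) (ht : TensorCompatible t)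
    (hrig : IsRigid T') (hconn : ConnectedUnit T') (hR : R'.TExact t) {P : ObjectProperty T}
    (hP : ∀ A, P A → R.ConcentratedIn 0 A) : NegVanishing P := by
  intro A B hA hB n hn f
  refine injectiveOn_of_covered hcov hnd ht hrig hconn hR hP A B hA hB n hn.le f
    (Realization.map_eq_zero_of_mp _ ?_)
  ext x
  have := (hP B hB).shift n
  exact (this 0 (by lia)).elim _ _

lemma faithfulOn_of_covered (hcov : Covered R R') {t : TStructure T'}
    (hnd : Nondegenerate t) (ht : TensorCompatible t)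
    (hrig : IsRigid T') (hconn : ConnectedUnit T') (hR : R'.TExact t) {P : ObjectProperty T}
    (hP : ∀ A, P A → R.ConcentratedIn 0 A) : R.FaithfulOn P := by
  intro A B hA hB f hf
  have h1 : f ≫ ((shiftFunctorZero T ℤ).app B).inv = 0 := by
    apply injectiveOn_of_covered hcov hnd ht hrig hconn hR hP A B hA hB 0 le_rfl
    rw [Functor.map_comp, hf, zero_comp]
  rw [← cancel_mono ((shiftFunctorZero T ℤ).app B).inv, h1, zero_comp]

end

end Pool.Agent.Lib.MotT
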