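import Pool.Agent.Lib.MP_6d0ce9_ag.Tensor

/-!
# Duals and the heart; evaluation maps are epimorphisms in the heart
-/

set_option linter.unusedSectionVars false

universe w v u

open CategoryTheory Category Limits MonoidalCategory Pretriangulated Triangulated

namespace Pool.Agent.Lib.MotT

section TS

variable {T : Type u} [Category.{v} T] [Preadditive T] [HasZeroObject T] [HasShift T ℤ]
  [∀ n : ℤ, (shiftFunctor T n).Additive] [Pretriangulated T] (t : TStructure T)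

lemma isGE_of_orth (X : T) (n : ℤ)
    (h : ∀ (A : T) (_ : t.IsLE A (n - 1)) (f : A ⟶ X), f = 0) : t.IsGE X n := by
  obtain ⟨A, B, f, g, δ, hT', hA, hB⟩ := exists_trunc t X (n - 1) n (by lia)
  have hf : f = 0 := h A hA f
  have hA0 : IsZero A := by
    obtain ⟨s, hs⟩ := Triangle.coyoneda_exact₂ _ (inv_rot_of_distTriang _ hT') (𝟙 A) (by
      change 𝟙 A ≫ f = 0
      rw [hf, comp_zero])
    rw [IsZero.iff_id_eq_zero, hs]
    have h2 : s = 0 := by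
      have := t.isGE_shift B n (-1) (n + 1) (by lia)
      exact t.zero_of_isLE_of_isGE s (n - 1) (n + 1) (by lia) hA this
    rw [h2, zero_comp]
    rfl
  have : IsIso g := (Triangle.isZero₁_iff_isIso₂ _ hT').1 hA0
  exact t.isGE_of_iso (asIso g).symm n

lemma isLE_of_orth (X : T) (n : ℤ)
    (h : ∀ (B : T) (_ : t.IsGE B (n + 1)) (f : X ⟶ B), f = 0) : t.IsLE X n := by
  obtain ⟨A, B, f, g, δ, hT', hA, hB⟩ := exists_trunc t X n (n + 1) rfl
  have hg : g = 0 := h B hB g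
  have hB0 : IsZero B := by
    obtain ⟨s, hs⟩ := Triangle.yoneda_exact₃ _ hT' (𝟙 B) (by
        change g ≫ 𝟙 _ = 0
        rw [hg, zero_comp])
    rw [IsZero.iff_id_eq_zero, hs]
    have h2 : s = 0 := by
      have := t.isLE_shift A n 1 (n - 1) (by lia)
      exact t.zero_of_isLE_of_isGE _ (n - 1) (n + 1) (by lia) this hB
    rw [h2, comp_zero]
    rfl
  have : IsIso f := (Triangle.isZero₃_iff_isIso₁ _ hT').1 hB0
  exact t.isLE_of_iso (asIso f) n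

end TS

section Tens

variable {T : Type u} [Category.{v} T] [Preadditive T] [HasZeroObject T] [HasShift T ℤ]
  [∀ n : ℤ, (shiftFunctor T n).Additive] [Pretriangulated T] [MonoidalCategory T]
  [SymmetricCategory T] [∀ X : T, (tensorLeft X).CommShift ℤ]
  [∀ X : T, (tensorLeft X).IsTriangulated]

lemma dual_ge {t : TStructure T} (hnd : Nondegenerate t) (ht : TensorCompatible t)
    {X Y : T} [ExactPairing X Y] (hX : t.IsLE X 0) : t.IsGE Y 0 := by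
  apply isGE_of_orth
  intro A hA f
  let e := tensorRightHomEquiv A X Y (𝟙_ T)
  have h1 : ∀ g : A ⊗ X ⟶ 𝟙_ T, g = 0 := fun g => by
    have h2 := le_tensor ht hA hX
    exact t.zero_of_isLE_of_isGE _ (0 - 1 + 0) 0 (by lia) h2 (unit_mem hnd ht).2
  have h3 : ∀ g g' : A ⟶ 𝟙_ T ⊗ Y, g = g' := fun g g' => by
    apply e.symm.injective
    rw [h1 (e.symm g), h1 (e.symm g')]
  have h4 : f ≫ (λ_ Y).inv = 0 ≫ (λ_ Y).inv := h3 _ _
  exact (cancel_mono _).1 h4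

lemma dual_le {t : TStructure T} (hnd : Nondegenerate t) (ht : TensorCompatible t)
    {X Y : T} [ExactPairing X Y] (hX : t.IsGE X 0) : t.IsLE Y 0 := by
  apply isLE_of_orth
  intro B hB f
  let e := tensorLeftHomEquiv (𝟙_ T) X Y B
  have h1 : ∀ g : 𝟙_ T ⟶ X ⊗ B, g = 0 := fun g => by
    have h2 := ge_tensor ht hX hB
    exact t.zero_of_isLE_of_isGE _ 0 (0 + (0 + 1)) (by lia) (unit_mem hnd ht).1 h2
  have h3 : ∀ g g' : Y ⊗ 𝟙_ T ⟶ B, g = g' := fun g g' => by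
    apply e.injective
    rw [h1 (e g), h1 (e g')]
  have h4 : (ρ_ Y).hom ≫ f = (ρ_ Y).hom ≫ 0 := h3 _ _
  exact (cancel_epi _).1 h4

/-- `D ⊗ I = 0` if `C ⊗ I = 0` and `D` is dual to `C`. -/
lemma isZero_dual_tensor {C D I : T} [ExactPairing D C] (h : IsZero (C ⊗ I)) :
    IsZero (D ⊗ I) := by
  have h1 : IsZero ((D ⊗ (C ⊗ D)) ⊗ I) := by
    have h2 : IsZero (D ⊗ (D ⊗ (C ⊗ I))) := isZero_tensor_left _ (isZero_tensor_left _ h)
    refine h2.of_iso (α_ _ _ _ ≪≫ whiskerLeftIso D ?_)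
    exact whiskerRightIso (β_ C D) I ≪≫ α_ _ _ _
  have h3 : 𝟙 (D ⊗ I) = 0 := by
    have e1 := ExactPairing.evaluation_coevaluation D C
    have e2 : 𝟙 D = (λ_ D).inv ≫ (η_ D C ▷ D) ≫ (α_ D C D).hom ≫ (D ◁ ε_ D C) ≫ (ρ_ D).hom := by
      have := congrArg (fun z => (λ_ D).inv ≫ z ≫ (ρ_ D).hom) e1
      simp only [assoc] at this
      rw [this]
      simp
    rw [← id_whiskerRight, e2]
    simp only [comp_whiskerRight]
    have h5 : (α_ D C D).hom ▷ I = 0 := h1.eq_of_tgt _ _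
    rw [h5]
    simp
  exact (IsZero.iff_id_eq_zero _).2 h3

variable [IsTriangulated T]

/-- In a rigid tensor triangulated category with connected unit and a non-degenerate tensor
compatible t-structure, the evaluation map of a nonzero object of the heart is an
epimorphism of the heart: its cone lies in `D^{≤ -1}`. -/
lemma cone_ev_le {t : TStructure T} (hnd : Nondegenerate t) (ht : TensorCompatible t)
    (hrig : IsRigid T) (hconn : ConnectedUnit T) {X Y : T} [ExactPairing X Y]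
    (hX : t.heart X) (hX0 : ¬ IsZero X) {Z : T} {v : 𝟙_ T ⟶ Z} {w : Z ⟶ (Y ⊗ X)⟦(1 : ℤ)⟧}
    (hZ : Triangle.mk (ε_ X Y) v w ∈ distTriang T) : t.IsLE Z (-1) := by
  obtain ⟨hX1, hX2⟩ := (heart_iff t X).1 hX
  have hY1 : t.IsLE Y 0 := dual_le hnd ht hX2
  have hY2 : t.IsGE Y 0 := dual_ge hnd ht hX1
  have hu := unit_mem hnd ht
  have hP1 : t.IsLE (Y ⊗ X) 0 := by simpa using le_tensor ht hY1 hX1
  have hP2 : t.IsGE (Y ⊗ X) 0 := by simpa using ge_tensor ht hY2 hX2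
  have hZ1 : t.IsLE Z 0 := isLE₃ t hZ 0 (t.isLE_of_le (Y ⊗ X) 0 (0 + 1) (by lia)) hu.1
  obtain ⟨K, C, k, c, δ, hK, hK1, hC2⟩ := exists_trunc t Z (-1) 0 (by lia)
  have hC1 : t.IsLE C 0 := isLE₃ t hK 0 (t.isLE_of_le K (-1) (0 + 1) (by lia)) hZ1
  obtain ⟨I, i, d, hI⟩ := distinguished_cocone_triangle₁ (v ≫ c)
  have o := someOctahedron' rfl hZ hK hI
  have hI1 : t.IsLE I 0 := isLE_ext t o.mem 0 hP1 (t.isLE_of_le K (-1) 0 (by lia))
  -- `X ◁ ε` is a split epimorphism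
  have hsplit : ((ρ_ X).hom ≫ (λ_ X).inv ≫ (η_ X Y ▷ X) ≫ (α_ X Y X).hom) ≫ (X ◁ ε_ X Y) =
      𝟙 (X ⊗ 𝟙_ T) := by
    have e1 := ExactPairing.evaluation_coevaluation X Y
    simp only [assoc]
    rw [e1]
    simp
  obtain ⟨δX, hTX⟩ := tri_left X _ hZ
  have hv : X ◁ v = 0 := by
    have h1 : (X ◁ ε_ X Y) ≫ (X ◁ v) = 0 := comp_distTriang_mor_zero₁₂ _ hTX
    rw [← id_comp (X ◁ v), ← hsplit, assoc, h1, comp_zero]
  have hXC : IsZero (X ⊗ C) := by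
    obtain ⟨δ', hT'⟩ := tri_left X _ hI
    have h1 : X ◁ (v ≫ c) = 0 := by rw [MonoidalCategory.whiskerLeft_comp, hv, zero_comp]
    obtain ⟨s, hs⟩ := Triangle.yoneda_exact₃ _ hT' (𝟙 (X ⊗ C)) (by
      change X ◁ (v ≫ c) ≫ 𝟙 _ = 0
      rw [h1, zero_comp])
    rw [IsZero.iff_id_eq_zero, hs]
    have h2 : s = 0 := by
      have h3 : t.IsLE (X ⊗ I) 0 := by simpa using le_tensor ht hX1 hI1
      have h4 : t.IsGE (X ⊗ C) 0 := by simpa using ge_tensor ht hX2 hC2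
      have h5 := t.isLE_shift (X ⊗ I) 0 1 (-1) (by lia)
      exact t.zero_of_isLE_of_isGE s (-1) 0 (by lia) h5 h4
    rw [h2, comp_zero]
    rfl
  have hCP : IsZero (C ⊗ (Y ⊗ X)) := by
    have h1 : IsZero (Y ⊗ (X ⊗ C)) := isZero_tensor_left Y hXC
    exact h1.of_iso (β_ _ _ ≪≫ α_ _ _ _)
  obtain ⟨δ₁, hT₁⟩ := tri_left C _ hZ
  have hiso : IsIso (C ◁ v) := (Triangle.isZero₁_iff_isIso₂ _ hT₁).1 hCP
  have hCZ : t.IsGE (C ⊗ Z) 0 := t.isGE_of_iso ((ρ_ C).symm ≪≫ asIso (C ◁ v)) 0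
  have hCK : IsZero (C ⊗ K) := by
    obtain ⟨δ₂, hT₂⟩ := tri_left C _ hK
    have h1 : t.IsLE (C ⊗ K) (-1) := by simpa using le_tensor ht hC1 hK1
    have h2 : t.IsGE (C ⊗ C) 0 := by simpa using ge_tensor ht hC2 hC2
    have h3 : C ◁ k = 0 := t.zero_of_isLE_of_isGE _ (-1) 0 (by lia) h1 hCZ
    obtain ⟨s, hs⟩ := Triangle.coyoneda_exact₂ _ (inv_rot_of_distTriang _ hT₂) (𝟙 (C ⊗ K)) (by
      change 𝟙 _ ≫ C ◁ k = 0
      rw [h3, comp_zero])
    rw [IsZero.iff_id_eq_zero, hs]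
    have h4 : s = 0 := by
      have := t.isGE_shift (C ⊗ C) 0 (-1) 1 (by lia)
      exact t.zero_of_isLE_of_isGE s (-1) 1 (by lia) h1 this
    rw [h4, zero_comp]
    rfl
  have hCI : IsZero (C ⊗ I) := by
    obtain ⟨δ₃, hT₃⟩ := tri_left C _ o.mem
    have h1 : C ◁ o.m₁ = 0 := hCP.eq_of_src _ _
    have h2 : C ◁ o.m₃ = 0 := hCK.eq_of_tgt _ _
    obtain ⟨s, hs⟩ := Triangle.coyoneda_exact₂ _ hT₃ (𝟙 (C ⊗ I)) (by
      change 𝟙 _ ≫ C ◁ o.m₃ = 0
      rw [h2, comp_zero])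
    rw [IsZero.iff_id_eq_zero, hs]
    have h3 : s = 0 := hCP.eq_of_tgt _ _
    rw [h3, zero_comp]
    rfl
  have hd : d = 0 := by
    obtain ⟨D, ⟨hD⟩⟩ := hrig C
    let : ExactPairing D C := BraidedCategory.exactPairing_swap C D
    have h1 : IsZero (D ⊗ I) := isZero_dual_tensor hCI
    have h2 : IsZero (D ⊗ (I⟦(1 : ℤ)⟧)) :=
      ((shiftFunctor T (1 : ℤ)).map_isZero h1).of_iso (shiftRight D I 1)
    let e := tensorLeftHomEquiv (𝟙_ T) D C (I⟦(1 : ℤ)⟧)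
    have h3 : ∀ g g' : C ⊗ 𝟙_ T ⟶ I⟦(1 : ℤ)⟧, g = g' := fun g g' => by
      apply e.injective
      exact h2.eq_of_tgt _ _
    have h4 : (ρ_ C).hom ≫ d = (ρ_ C).hom ≫ 0 := h3 _ _
    exact (cancel_epi _).1 h4
  obtain ⟨s, hs⟩ : ∃ s : C ⟶ 𝟙_ T, 𝟙 C = s ≫ (v ≫ c) :=
    Triangle.coyoneda_exact₃ _ hI (𝟙 C) (by
      change 𝟙 C ≫ d = 0
      rw [hd, comp_zero])
  rcases hconn ((v ≫ c) ≫ s) (by
    calc ((v ≫ c) ≫ s) ≫ (v ≫ c) ≫ s = (v ≫ c) ≫ (s ≫ (v ≫ c)) ≫ s := by simp only [assoc]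
      _ = (v ≫ c) ≫ s := by rw [← hs, id_comp]) with h0 | h1
  · have hC0 : IsZero C := by
      rw [IsZero.iff_id_eq_zero]
      calc 𝟙 C = (s ≫ (v ≫ c)) ≫ (s ≫ (v ≫ c)) := by rw [← hs, id_comp]
        _ = s ≫ ((v ≫ c) ≫ s) ≫ (v ≫ c) := by simp only [assoc]
        _ = 0 := by rw [h0, zero_comp, comp_zero]
    have : IsIso k := (Triangle.isZero₃_iff_isIso₁ _ hK).1 hC0
    exact t.isLE_of_iso (asIso k) (-1)
  · exfalso
    apply hX0
    let e : 𝟙_ T ≅ C := ⟨v ≫ c, s, h1, hs.symm⟩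
    exact hXC.of_iso ((ρ_ X).symm ≪≫ whiskerLeftIso X e)

end Tens

end Pool.Agent.Lib.MotT
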