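import Pool.Agent.Lib.MP_6d0ce9_ag.Defs

/-!
# The injectivity condition
-/

universe w v u

open CategoryTheory Category Limits MonoidalCategory Pretriangulated Triangulated

namespace Pool.Agent.Lib.MotT

namespace Realization

variable {T : Type u} [Category.{v} T] [Preadditive T] [HasZeroObject T] [HasShift T ℤ]
  [∀ n : ℤ, (shiftFunctor T n).Additive] [Pretriangulated T] [MonoidalCategory T]
  [BraidedCategory T] {F : Type w} [Field F] (R : Realization T F)

/-- For every `j ≥ 0` and every object `M` whose cohomology is concentrated in degree `j`, a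
morphism `𝟙 ⟶ M` is zero as soon as it induces zero on `H^0`. For `j > 0` this says that there
is no nonzero morphism `𝟙 ⟶ M`; for `j = 0` it says that `Hom(𝟙, M) → Hom(H^0(𝟙), H^0(M))` is
injective. -/
def InjectiveOnPure : Prop :=
  ∀ (j : ℤ) (M : T), 0 ≤ j → R.ConcentratedIn j M →
    ∀ f : 𝟙_ T ⟶ M, R.H0.map f = 0 → f = 0

/-- For every object `M` whose cohomology vanishes in negative degrees, a morphism `𝟙 ⟶ M` is
zero as soon as it induces zero on `H^0`. -/
def InjectiveOnCoconnective : Prop :=
  ∀ M : T, (∀ i : ℤ, i < 0 → R.Van i M) → ∀ f : 𝟙_ T ⟶ M, R.H0.map f = 0 → f = 0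

end Realization

end Pool.Agent.Lib.MotT
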