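import Pool.Agent.Lib.MP_6d0ce9_ag.Unit
import Pool.Agent.Lib.MP_6d0ce9_ag.InjDefs

/-!
# Consequences of the injectivity condition
-/

set_option linter.unusedSectionVars false

universe w v u

open CategoryTheory Category Limits MonoidalCategory Pretriangulated Triangulated
  ObjectProperty

namespace Pool.Agent.Lib.MotT

section Additive

variable {T : Type u} [Category.{v} T] [Preadditive T] [HasZeroObject T] [HasShift T ℤ]
  [∀ n : ℤ, (shiftFunctor T n).Additive] [Pretriangulated T] [MonoidalCategory T]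
  [SymmetricCategory T] [∀ X : T, (tensorLeft X).CommShift ℤ]
  [∀ X : T, (tensorLeft X).IsTriangulated]

lemma whiskerRight_eq {X Y : T} (f : X ⟶ Y) (Z : T) :
    f ▷ Z = (β_ X Z).hom ≫ (Z ◁ f) ≫ (β_ Y Z).inv := by
  rw [BraidedCategory.braiding_inv_naturality_right, Iso.hom_inv_id_assoc]

/-- the tensor product is additive in each variable -/
instance monPre : MonoidalPreadditive T where
  whiskerLeft_zero := by
    intro X Y Z
    exact (tensorLeft X).map_zero Y Z
  whiskerLeft_add := by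
    intro X Y Z f g
    exact (tensorLeft X).map_add
  zero_whiskerRight := by
    intro X Y Z
    have h : X ◁ (0 : Y ⟶ Z) = 0 := (tensorLeft X).map_zero Y Z
    rw [whiskerRight_eq, h, zero_comp, comp_zero]
  add_whiskerRight := by
    intro X Y Z f g
    have h : X ◁ (f + g) = X ◁ f + X ◁ g := (tensorLeft X).map_add
    rw [whiskerRight_eq, h, Preadditive.add_comp, Preadditive.comp_add, whiskerRight_eq f,
      whiskerRight_eq g]

end Additive

namespace Realization

variable {T : Type u} [Category.{v} T] [Preadditive T] [HasZeroObject T] [HasShift T ℤ]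
  [∀ n : ℤ, (shiftFunctor T n).Additive] [Pretriangulated T] [MonoidalCategory T]
  [SymmetricCategory T] {F : Type w} [Field F] {R : Realization T F}
  [∀ X : T, (tensorLeft X).CommShift ℤ] [∀ X : T, (tensorLeft X).IsTriangulated]

lemma map_eq_zero_of_mp {X Y : T} (f : X ⟶ Y) (h : R.mp 0 f = 0) : R.H0.map f = 0 := by
  have h1 : R.H0.map (f⟦(0 : ℤ)⟧') = 0 := by
    ext x
    exact congrArg (fun g => g x) h
  have h2 : f = ((shiftFunctorZero T ℤ).app X).inv ≫ f⟦(0 : ℤ)⟧' ≫
      ((shiftFunctorZero T ℤ).app Y).hom := by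
    have := (shiftFunctorZero T ℤ).hom.naturality f
    simp only [Functor.id_map] at this
    simp [this]
  rw [h2, Functor.map_comp, Functor.map_comp, h1, zero_comp, comp_zero]

lemma mp_eq_zero_of_map {X Y : T} (f : X ⟶ Y) (h : R.H0.map f = 0) : R.mp 0 f = 0 := by
  have h2 : f⟦(0 : ℤ)⟧' = ((shiftFunctorZero T ℤ).app X).hom ≫ f ≫
      ((shiftFunctorZero T ℤ).app Y).inv := by
    have := (shiftFunctorZero T ℤ).hom.naturality f
    simp only [Functor.id_map] at this
    simp [← reassoc_of% this]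
  rw [mp, h2, Functor.map_comp, Functor.map_comp, h, zero_comp, comp_zero]
  rfl

/-- Injectivity for morphisms between concentrated objects. -/
lemma eq_zero_of_pure (hrig : IsRigid T) (hinj : R.InjectiveOnPure) {X Y : T} {a b : ℤ}
    (hab : a ≤ b) (hX : R.ConcentratedIn a X) (hY : R.ConcentratedIn b Y) (f : X ⟶ Y)
    (hf : R.mp a f = 0) : f = 0 := by
  obtain ⟨X', ⟨hXX'⟩⟩ := hrig X
  have hX' : R.ConcentratedIn (-a) X' := R.conc_dual hX
  have hYX : R.ConcentratedIn (b - a) (Y ⊗ X') := R.conc_tensor (by ring) hY hX'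
  have h1 : R.mp 0 (η_ X X' ≫ (f ▷ X')) = 0 := by
    ext c
    rw [mp_comp_apply]
    have h2 : ∀ z : R.Hm 0 (X ⊗ X'), R.mp 0 (f ▷ X') z = 0 := by
      intro z
      have h3 := R.cup_span (show a + -a = 0 by ring) X X' (fun k hk => Or.inl (hX k hk)) z
      induction h3 using Submodule.span_induction with
      | mem z hz =>
        obtain ⟨x, y, rfl⟩ := hz
        rw [cup_whiskerRight, hf]
        simp
      | zero => rw [map_zero]
      | add a b _ _ ha hb => rw [map_add, ha, hb, add_zero]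
      | smul c a _ ha => rw [map_smul, ha, smul_zero]
    rw [h2]
    rfl
  have h2 := hinj (b - a) (Y ⊗ X') (by lia) hYX _ (map_eq_zero_of_mp _ h1)
  have e1 := ExactPairing.evaluation_coevaluation X X'
  have h3 : ((η_ X X' ≫ (f ▷ X')) ▷ X) ≫ (α_ Y X' X).hom ≫ (Y ◁ ε_ X X') =
      (λ_ X).hom ≫ f ≫ (ρ_ Y).inv := by
    have h4 : (f ▷ X' ▷ X) ≫ (α_ Y X' X).hom ≫ (Y ◁ ε_ X X') =
        (α_ X X' X).hom ≫ (X ◁ ε_ X X') ≫ (f ▷ 𝟙_ T) := by
      rw [whisker_exchange, associator_naturality_left_assoc]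
    rw [comp_whiskerRight, assoc, h4]
    have h5 := congrArg (fun z => z ≫ (f ▷ 𝟙_ T)) e1
    simp only [assoc] at h5
    rw [h5, rightUnitor_inv_naturality]
  rw [h2, MonoidalPreadditive.zero_whiskerRight, zero_comp] at h3
  have h4 : f = (λ_ X).inv ≫ ((λ_ X).hom ≫ f ≫ (ρ_ Y).inv) ≫ (ρ_ Y).hom := by simp
  rw [h4, ← h3, zero_comp, comp_zero]

/-- Injectivity implies conservativity. -/
lemma conservative_of_inj (hrig : IsRigid T) (hinj : R.InjectiveOnPure) :
    R.Conservative := by
  intro X hX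
  obtain ⟨X', ⟨hXX'⟩⟩ := hrig X
  have h1 : ∀ i, R.Van i (X ⊗ X') := fun i => R.van_tensor i X X' fun k => Or.inl (hX k)
  have h2 : η_ X X' = 0 := by
    refine hinj 1 (X ⊗ X') (by lia) (fun i _ => h1 i) _ (map_eq_zero_of_mp _ ?_)
    ext c
    exact (h1 0).elim _ _
  have e1 := ExactPairing.evaluation_coevaluation X X'
  rw [h2, MonoidalPreadditive.zero_whiskerRight, zero_comp] at e1
  rw [IsZero.iff_id_eq_zero]
  have h3 : 𝟙 X = (λ_ X).inv ≫ ((λ_ X).hom ≫ (ρ_ X).inv) ≫ (ρ_ X).hom := by simp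
  rw [h3, ← e1, zero_comp, comp_zero]

/-- If the realisation is conservative over a field of characteristic zero, the groups of
morphisms are torsion free. -/
lemma eq_zero_of_nsmul [CharZero F] (hcons : R.Conservative) {X Y : T} (f : X ⟶ Y) (m : ℤ)
    (hm : m ≠ 0) (h : m • f = 0) : f = 0 := by
  have hmF : (m : F) ≠ 0 := by exact_mod_cast hm
  obtain ⟨C, v, w, hT⟩ := distinguished_cocone_triangle (m • 𝟙 X)
  have hC : IsZero C := by
    apply hcons
    intro i
    have h0 : ∀ x : R.Hm i C, x = 0 := by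
      intro x
      have h1 : R.mp i w x = 0 := by
        have h2 : w ≫ (m • 𝟙 X)⟦(1 : ℤ)⟧' = 0 := comp_distTriang_mor_zero₃₁ _ hT
        have h3 : m • w = 0 := by
          have : (m • 𝟙 X)⟦(1 : ℤ)⟧' = m • 𝟙 (X⟦(1 : ℤ)⟧) := by
            rw [Functor.map_zsmul, CategoryTheory.Functor.map_id]
          rwa [this, Preadditive.comp_zsmul, comp_id] at h2
        have h4 : m • R.mp i w x = 0 := by
          rw [← LinearMap.smul_apply, ← mp_zsmul, h3, mp_zero, LinearMap.zero_apply]
        rw [← Int.cast_smul_eq_zsmul F, smul_eq_zero] at h4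
        exact h4.resolve_left hmF
      obtain ⟨y, hy⟩ : ∃ y : R.Hm i X, R.mp i v y = x := R.exact₃ hT i x h1
      have h5 : R.mp i (m • 𝟙 X) ((m : F)⁻¹ • y) = y := by
        rw [mp_zsmul, mp_id, LinearMap.smul_apply, ← Int.cast_smul_eq_zsmul F,
          LinearMap.id_apply, smul_smul, mul_inv_cancel₀ hmF, one_smul]
      have h6 : (m • 𝟙 X) ≫ v = 0 := comp_distTriang_mor_zero₁₂ _ hT
      rw [← hy, ← h5, ← mp_comp_apply, h6, mp_zero, LinearMap.zero_apply]
    exact ⟨fun x y => (h0 x).trans (h0 y).symm⟩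
  have hiso : IsIso (m • 𝟙 X) := (Triangle.isZero₃_iff_isIso₁ _ hT).1 hC
  rw [← cancel_epi (m • 𝟙 X), comp_zero, Preadditive.zsmul_comp, id_comp, h]

end Realization

end Pool.Agent.Lib.MotT
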