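import Pool.Agent.Lib.MP_6d0ce9_ag.Regular

/-!
# Kernels and cokernels of morphisms between objects of degree `0`
-/

set_option linter.unusedSectionVars false

universe w v u

open CategoryTheory Category Limits MonoidalCategory Pretriangulated Triangulated
  ObjectProperty

namespace Pool.Agent.Lib.MotT

namespace Realization

variable {T : Type u} [Category.{v} T] [Preadditive T] [HasZeroObject T] [HasShift T ℤ]
  [∀ n : ℤ, (shiftFunctor T n).Additive] [Pretriangulated T] [MonoidalCategory T]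
  [SymmetricCategory T] {F : Type w} [Field F]

/-- Objects concentrated in degree `n` which are a quotient and a subobject of an object
of `D n` and which belong to the closures in degrees `≤ n` and `≥ n`. -/
structure KC (R : Realization T F) (D : ℤ → ObjectProperty T) (n : ℤ) (X : T) : Prop where
  conc : R.ConcentratedIn n X
  le : RC D (fun m => m ≤ n) X
  ge : RC D (fun m => n ≤ m) X
  quot : ∃ (A : T) (π : A ⟶ X), D n A ∧ ∀ x : R.Hm n X, ∃ a, R.mp n π a = x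
  sub : ∃ (B : T) (ι : X ⟶ B), D n B ∧ ∀ x : R.Hm n X, R.mp n ι x = 0 → x = 0

variable {R : Realization T F} {D : ℤ → ObjectProperty T}

instance (n : ℤ) : ObjectProperty.IsClosedUnderIsomorphisms (R.KC D n) where
  of_iso {X Y} e h := by
    obtain ⟨A, π, hA, hπ⟩ := h.quot
    obtain ⟨B, ι, hB, hι⟩ := h.sub
    refine ⟨h.conc.of_iso e, (RC D _).prop_of_iso e h.le, (RC D _).prop_of_iso e h.ge,
      ⟨A, π ≫ e.hom, hA, fun y => ?_⟩, ⟨B, e.inv ≫ ι, hB, fun y hy => ?_⟩⟩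
    · obtain ⟨a, ha⟩ := hπ (R.mp n e.inv y)
      refine ⟨a, ?_⟩
      rw [mp_comp_apply, ha, ← mp_comp_apply, e.inv_hom_id, mp_id]
      rfl
    · have h1 : R.mp n e.inv y = 0 := hι _ (by rw [← mp_comp_apply, hy])
      have h2 : R.mp n (e.inv ≫ e.hom) y = 0 := by rw [mp_comp_apply, h1, map_zero]
      rwa [e.inv_hom_id, mp_id] at h2

lemma KC_of (hD : Adm R D) {n : ℤ} {X : T} (hX : D n X) : R.KC D n X := by
  have := hD.iso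
  exact ⟨hD.pure hX, RC_of (fun m => m ≤ n) n le_rfl hX, RC_of (fun m => n ≤ m) n le_rfl hX,
    ⟨X, 𝟙 X, hX, fun x => ⟨x, by rw [mp_id]; rfl⟩⟩,
    ⟨X, 𝟙 X, hX, fun x hx => by rwa [mp_id] at hx⟩⟩

lemma KC_shift [IsTriangulated T] (hD : Adm R D) (n a : ℤ) (X : T) (hX : R.KC D n X) :
    R.KC D (n - a) (X⟦a⟧) := by
  obtain ⟨A, π, hA, hπ⟩ := hX.quot
  obtain ⟨B, ι, hB, hι⟩ := hX.sub
  exact ⟨hX.conc.shift a, RC_shift hD.shift a (fun m hm => by lia) hX.le,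
    RC_shift hD.shift a (fun m hm => by lia) hX.ge,
    ⟨A⟦a⟧, π⟦a⟧', hD.shift n a A hA, mp_shift_surjective (by lia) π hπ⟩,
    ⟨B⟦a⟧, ι⟦a⟧', hD.shift n a B hB, mp_shift_injective (by lia) ι hι⟩⟩

variable [∀ X : T, (tensorLeft X).CommShift ℤ] [∀ X : T, (tensorLeft X).IsTriangulated]
  [IsTriangulated T]

/-- Regularity for morphisms between objects of `KC 0`. -/
lemma KC_regular (hD : Adm R D) {K₁ K₂ : T} (h₁ : R.KC D 0 K₁) (h₂ : R.KC D 0 K₂)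
    (f : K₁ ⟶ K₂) :
    ∃ (M : T) (s : M ⟶ 𝟙_ T) (u : M ⊗ K₁ ⟶ K₁) (g : M ⊗ K₂ ⟶ K₁),
      D 0 M ∧ R.mp 0 s ≠ 0 ∧ u ≫ f = 0 ∧
      (s ▷ K₁) ≫ (λ_ K₁).hom - u = (M ◁ f) ≫ g := by
  have hDi := hD.iso
  obtain ⟨A, π, hA, hπ⟩ := h₁.quot
  obtain ⟨B, ι, hB, hι⟩ := h₂.sub
  obtain ⟨M, s, u₁, g₁, hM, hs, hu₁, hg₁⟩ := exists_regular hD hA hB (π ≫ f ≫ ι)
  let g : M ⊗ K₂ ⟶ K₁ := (M ◁ ι) ≫ g₁ ≫ π
  let u : M ⊗ K₁ ⟶ K₁ := (s ▷ K₁) ≫ (λ_ K₁).hom - (M ◁ f) ≫ g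
  have hMπ : (M ◁ π) ≫ u = u₁ ≫ π := by
    change (M ◁ π) ≫ ((s ▷ K₁) ≫ (λ_ K₁).hom - (M ◁ f) ≫ (M ◁ ι) ≫ g₁ ≫ π) = u₁ ≫ π
    have e1 : (M ◁ π) ≫ (s ▷ K₁) ≫ (λ_ K₁).hom = ((s ▷ A) ≫ (λ_ A).hom) ≫ π := by
      rw [whisker_exchange_assoc, leftUnitor_naturality, assoc]
    have e2 : (M ◁ π) ≫ (M ◁ f) ≫ (M ◁ ι) ≫ g₁ ≫ π = ((M ◁ (π ≫ f ≫ ι)) ≫ g₁) ≫ π := by
      simp only [MonoidalCategory.whiskerLeft_comp, assoc]
    rw [Preadditive.comp_sub, e1, e2, ← Preadditive.sub_comp, ← hg₁, sub_sub_cancel]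
  have hu : u ≫ f = 0 := by
    have hle : RC D (fun m => m ≤ 0) (M ⊗ K₁) := RC_tensor hD.tensor hM h₁.le
    refine hD.faithful 0 hle h₂.ge _ ?_
    ext z
    rw [LinearMap.zero_apply]
    apply hι
    obtain ⟨z', rfl⟩ := surj_whiskerLeft (hD.pure hM) π hπ z
    rw [← mp_comp_apply, ← mp_comp_apply]
    have e3 : (M ◁ π) ≫ (u ≫ f) ≫ ι = 0 := by
      have e4 : (M ◁ π) ≫ (u ≫ f) ≫ ι = ((M ◁ π) ≫ u) ≫ f ≫ ι := by simp only [assoc]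
      rw [e4, hMπ]
      simpa only [assoc] using hu₁
    rw [e3, mp_zero, LinearMap.zero_apply]
  refine ⟨M, s, u, g, hM, hs, hu, ?_⟩
  change (s ▷ K₁) ≫ (λ_ K₁).hom - ((s ▷ K₁) ≫ (λ_ K₁).hom - (M ◁ f) ≫ g) = (M ◁ f) ≫ g
  rw [sub_sub_cancel]

lemma unit_mul_inj {c : R.Hm 0 (𝟙_ T)} (hc : c ≠ 0) {j : ℤ} (Y : T) (y : R.Hm j Y)
    (h : R.mp j (λ_ Y).hom (R.cup (zero_add j) (𝟙_ T) Y c y) = 0) : y = 0 := by
  by_contra hy
  apply R.cup_ne_zero (zero_add j) hc hy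
  have h1 := congrArg (R.mp j (λ_ Y).inv) h
  rwa [← mp_comp_apply, Iso.hom_inv_id, mp_id, map_zero] at h1

lemma unit_mul_natural (c : R.Hm 0 (𝟙_ T)) {j : ℤ} {X Y : T} (f : X ⟶ Y) (x : R.Hm j X) :
    R.mp j f (R.mp j (λ_ X).hom (R.cup (zero_add j) (𝟙_ T) X c x)) =
      R.mp j (λ_ Y).hom (R.cup (zero_add j) (𝟙_ T) Y c (R.mp j f x)) := by
  have h1 : R.cup (zero_add j) (𝟙_ T) Y c (R.mp j f x) =
      R.mp j ((𝟙_ T) ◁ f) (R.cup (zero_add j) (𝟙_ T) X c x) := by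
    rw [cup_whiskerLeft]
  rw [h1, ← mp_comp_apply, ← mp_comp_apply, leftUnitor_naturality]

/-- A morphism which detects the image of `f` on cohomology. -/
lemma exists_coker_embedding (hD : Adm R D) {K₁ K₂ M E : T} [ExactPairing E M]
    (hE : D 0 E) (h₂ : R.KC D 0 K₂) {f : K₁ ⟶ K₂} {s : M ⟶ 𝟙_ T} {m : R.Hm 0 M}
    (hm : R.mp 0 s m ≠ 0) {u : M ⊗ K₁ ⟶ K₁} {g : M ⊗ K₂ ⟶ K₁} (hu : u ≫ f = 0)
    (hg : (s ▷ K₁) ≫ (λ_ K₁).hom - u = (M ◁ f) ≫ g) :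
    ∃ (B : T) (v : K₂ ⟶ B), D 0 B ∧ f ≫ v = 0 ∧
      ∀ x : R.Hm 0 K₂, R.mp 0 v x = 0 → ∃ y, R.mp 0 f y = x := by
  obtain ⟨B, ι, hB, hι⟩ := h₂.sub
  let w : M ⊗ K₂ ⟶ K₂ := (s ▷ K₂) ≫ (λ_ K₂).hom - g ≫ f
  have hw : (M ◁ f) ≫ w = 0 := by
    change (M ◁ f) ≫ ((s ▷ K₂) ≫ (λ_ K₂).hom - g ≫ f) = 0
    have e1 : (M ◁ f) ≫ (s ▷ K₂) ≫ (λ_ K₂).hom = ((s ▷ K₁) ≫ (λ_ K₁).hom) ≫ f := by
      rw [whisker_exchange_assoc, leftUnitor_naturality, assoc]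
    rw [Preadditive.comp_sub, e1, ← assoc (M ◁ f), ← hg, Preadditive.sub_comp, hu, sub_zero,
      sub_self]
  let v : K₂ ⟶ E ⊗ K₂ := tensorLeftHomEquiv K₂ E M K₂ w
  have hwv : (tensorLeftHomEquiv K₂ E M K₂).symm v = w := Equiv.symm_apply_apply _ _
  have hv : f ≫ v = 0 := by
    have e2 : (tensorLeftHomEquiv K₁ E M K₂).symm (f ≫ v) = (M ◁ f) ≫ w := by
      rw [tensorLeftHomEquiv_symm_naturality, hwv]
    rw [hw] at e2
    have e3 := congrArg (tensorLeftHomEquiv K₁ E M K₂) e2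
    rw [Equiv.apply_symm_apply] at e3
    rw [e3]
    simp [tensorLeftHomEquiv]
  refine ⟨E ⊗ B, v ≫ (E ◁ ι), hD.tensor (add_zero 0) hE hB, ?_, ?_⟩
  · rw [← assoc, hv, zero_comp]
  · intro x hx
    rw [mp_comp_apply] at hx
    have hvx : R.mp 0 v x = 0 := inj_whiskerLeft (hD.pure hE) ι hι _ hx
    -- `w` kills `m ⊗ x`
    have hwx : R.mp 0 w (R.cup (zero_add 0) M K₂ m x) = 0 := by
      have e4 : w = (M ◁ v) ≫ (α_ M E K₂).inv ≫ (ε_ E M ▷ K₂) ≫ (λ_ K₂).hom := hwv.symm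
      rw [e4, mp_comp_apply, cup_whiskerLeft, hvx, map_zero, map_zero]
    have e5 : R.mp 0 w (R.cup (zero_add 0) M K₂ m x) =
        R.mp 0 (λ_ K₂).hom (R.cup (zero_add 0) (𝟙_ T) K₂ (R.mp 0 s m) x) -
        R.mp 0 f (R.mp 0 g (R.cup (zero_add 0) M K₂ m x)) := by
      change R.mp 0 ((s ▷ K₂) ≫ (λ_ K₂).hom - g ≫ f) _ = _
      rw [sub_eq_add_neg, mp_add, mp_neg, LinearMap.add_apply, LinearMap.neg_apply,
        mp_comp_apply, cup_whiskerRight, mp_comp_apply, sub_eq_add_neg]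
    rw [hwx] at e5
    obtain ⟨y, hy⟩ := R.surj_unit hm K₁ (R.mp 0 g (R.cup (zero_add 0) M K₂ m x))
    refine ⟨y, ?_⟩
    rw [← sub_eq_zero]
    apply unit_mul_inj hm
    rw [map_sub, map_sub, ← unit_mul_natural, hy, ← neg_sub, neg_eq_zero]
    exact e5.symm

end Realization

end Pool.Agent.Lib.MotT
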