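import Pool.Agent.Lib.MP_6d0ce9_ag.Inj
import Pool.Agent.Lib.MP_6d0ce9_ag.NilDefs

/-!
# Splitting from tensor nilpotence and vanishing of positive extensions
-/

set_option linter.unusedSectionVars false

universe w v u

open CategoryTheory Category Limits MonoidalCategory Pretriangulated Triangulated
  ObjectProperty

namespace Pool.Agent.Lib.MotT

variable {T : Type u} [Category.{v} T] [Preadditive T] [HasZeroObject T] [HasShift T ℤ]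
  [∀ n : ℤ, (shiftFunctor T n).Additive] [Pretriangulated T] [MonoidalCategory T]
  [SymmetricCategory T] [∀ X : T, (tensorLeft X).CommShift ℤ]
  [∀ X : T, (tensorLeft X).IsTriangulated]

/-- all morphisms `𝟙 ⟶ X[j]`, `j > 0`, vanish -/
def PosVan (X : T) : Prop := ∀ j : ℤ, 0 < j → ∀ f : 𝟙_ T ⟶ X⟦j⟧, f = 0

lemma PosVan.of_iso {X Y : T} (e : X ≅ Y) (h : PosVan X) : PosVan Y := by
  intro j hj f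
  have h1 := h j hj (f ≫ e.inv⟦j⟧')
  rw [← cancel_mono (e.inv⟦j⟧'), h1, zero_comp]

/-- extension property -/
lemma PosVan.of_cone {Tr : Triangle T} (hT : Tr ∈ distTriang T) (h1 : PosVan Tr.obj₁)
    (h2 : PosVan Tr.obj₂) : PosVan Tr.obj₃ := by
  intro j hj f
  obtain ⟨u', v', w', hT'⟩ : ∃ (u' : Tr.obj₁⟦j⟧ ⟶ Tr.obj₂⟦j⟧) (v' : Tr.obj₂⟦j⟧ ⟶ Tr.obj₃⟦j⟧)
      (w' : Tr.obj₃⟦j⟧ ⟶ Tr.obj₁⟦j⟧⟦(1 : ℤ)⟧), Triangle.mk u' v' w' ∈ distTriang T :=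
    ⟨_, _, _, Triangle.shift_distinguished Tr hT j⟩
  have h3 : f ≫ w' = 0 := by
    have e : Tr.obj₁⟦j⟧⟦(1 : ℤ)⟧ ≅ Tr.obj₁⟦j + 1⟧ := ((shiftFunctorAdd T j 1).app _).symm
    have h4 := h1 (j + 1) (by lia) ((f ≫ w') ≫ e.hom)
    rw [← cancel_mono e.hom, h4, zero_comp]
  obtain ⟨g, hg⟩ : ∃ g : 𝟙_ T ⟶ Tr.obj₂⟦j⟧, f = g ≫ v' := Triangle.coyoneda_exact₃ _ hT' f h3
  rw [hg, h2 j hj g, zero_comp]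

/-- a morphism to the cone lifts to the second object -/
lemma PosVan.lift {Tr : Triangle T} (hT : Tr ∈ distTriang T) (h1 : PosVan Tr.obj₁)
    (f : 𝟙_ T ⟶ Tr.obj₃) : ∃ g : 𝟙_ T ⟶ Tr.obj₂, f = g ≫ Tr.mor₂ :=
  Triangle.coyoneda_exact₃ _ hT f (h1 1 one_pos _)

variable {Q : ObjectProperty T} {M N : T} {s : M ⟶ 𝟙_ T} {δ : 𝟙_ T ⟶ N}
  {ω : N ⟶ M⟦(1 : ℤ)⟧}

/-- the triangle `Z ⊗ (M ⊗ B) ⟶ Z ⊗ (𝟙 ⊗ B) ⟶ Z ⊗ (N ⊗ B)` -/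
lemma tri_both (hN : Triangle.mk s δ ω ∈ distTriang T) (Z B : T) :
    ∃ d : Z ⊗ (N ⊗ B) ⟶ (Z ⊗ (M ⊗ B))⟦(1 : ℤ)⟧,
      Triangle.mk (Z ◁ (s ▷ B)) (Z ◁ (δ ▷ B)) d ∈ distTriang T := by
  obtain ⟨d₁, h₁⟩ : ∃ d₁ : B ⊗ N ⟶ (B ⊗ M)⟦(1 : ℤ)⟧,
      Triangle.mk (B ◁ s) (B ◁ δ) d₁ ∈ distTriang T := tri_left B _ hN
  have h₂ : Triangle.mk (s ▷ B) (δ ▷ B) ((β_ N B).hom ≫ d₁ ≫ ((β_ M B).inv)⟦(1 : ℤ)⟧') ∈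
      distTriang T := by
    refine isomorphic_distinguished _ h₁ _ (Triangle.isoMk _ _ (β_ M B) (β_ (𝟙_ T) B)
      (β_ N B) ?_ ?_ ?_)
    · exact BraidedCategory.braiding_naturality_left s B
    · exact BraidedCategory.braiding_naturality_left δ B
    · change ((β_ N B).hom ≫ d₁ ≫ ((β_ M B).inv)⟦(1 : ℤ)⟧') ≫ ((β_ M B).hom)⟦(1 : ℤ)⟧' =
        (β_ N B).hom ≫ d₁
      rw [assoc, assoc, ← Functor.map_comp, Iso.inv_hom_id, CategoryTheory.Functor.map_id,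
        comp_id]
  obtain ⟨d, h⟩ := tri_left Z _ h₂
  exact ⟨d, h⟩

lemma pow_aux {Z B : T} (h : 𝟙_ T ⟶ Z) (δ : 𝟙_ T ⟶ N) (b : 𝟙_ T ⟶ B) :
    (b ≫ (λ_ B).inv ≫ (h ▷ B) ≫ (Z ◁ (λ_ B).inv)) ≫ (Z ◁ (δ ▷ B)) ≫ (α_ Z N B).inv =
      b ≫ (λ_ B).inv ≫ ((h ≫ (ρ_ Z).inv ≫ (Z ◁ δ)) ▷ B) := by
  monoidal

lemma pow_aux' {Z : T} (h : 𝟙_ T ⟶ Z) (s : M ⟶ 𝟙_ T) (b : 𝟙_ T ⟶ M) :
    (b ≫ (λ_ M).inv ≫ (h ▷ M)) ≫ (Z ◁ s) = (b ≫ s) ≫ (λ_ (𝟙_ T)).inv ≫ (h ▷ 𝟙_ T) := by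
  rw [assoc, assoc, assoc, ← whisker_exchange, ← leftUnitor_inv_naturality_assoc s]

/-- Vanishing for the tensor powers of the cone. -/
lemma posVan_pow (hN : Triangle.mk s δ ω ∈ distTriang T) (hQ : ∀ B, Q B → PosVan B)
    (hM : ∀ B, Q B → Q (M ⊗ B)) (n : ℕ) :
    ∀ B, Q B → PosVan (unitPow N n ⊗ B) := by
  induction n with
  | zero =>
    intro B hB
    exact (hQ B hB).of_iso (λ_ B).symm
  | succ n ih =>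
    intro B hB
    obtain ⟨d, hd⟩ := tri_both hN (unitPow N n) B
    have h1 : PosVan (unitPow N n ⊗ (𝟙_ T ⊗ B)) :=
      (ih B hB).of_iso (whiskerLeftIso (unitPow N n) (λ_ B).symm)
    exact (PosVan.of_cone hd (ih _ (hM B hB)) h1).of_iso (α_ (unitPow N n) N B).symm

/-- The induction step for the next lemma. -/
lemma exists_pow_aux (hN : Triangle.mk s δ ω ∈ distTriang T) {Z B : T} {h : 𝟙_ T ⟶ Z}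
    (h1 : PosVan (Z ⊗ (M ⊗ B)))
    (h2 : ∀ x : 𝟙_ T ⟶ Z ⊗ B, ∃ b : 𝟙_ T ⟶ B, x = b ≫ (λ_ B).inv ≫ (h ▷ B))
    (x : 𝟙_ T ⟶ (Z ⊗ N) ⊗ B) : ∃ b : 𝟙_ T ⟶ B,
      x = b ≫ (λ_ B).inv ≫ ((h ≫ (ρ_ Z).inv ≫ (Z ◁ δ)) ▷ B) := by
  obtain ⟨d, hd⟩ := tri_both hN Z B
  obtain ⟨g, hg⟩ : ∃ g : 𝟙_ T ⟶ Z ⊗ (𝟙_ T ⊗ B),
      x ≫ (α_ Z N B).hom = g ≫ (Z ◁ (δ ▷ B)) :=
    PosVan.lift hd h1 (x ≫ (α_ Z N B).hom)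
  obtain ⟨b, hb⟩ := h2 (g ≫ (Z ◁ (λ_ B).hom))
  refine ⟨b, ?_⟩
  have h3 : g = b ≫ (λ_ B).inv ≫ (h ▷ B) ≫ (Z ◁ (λ_ B).inv) := by
    have h4 : g = (g ≫ (Z ◁ (λ_ B).hom)) ≫ (Z ◁ (λ_ B).inv) := by
      rw [assoc, whiskerLeft_hom_inv, comp_id]
    rw [h4, hb]
    simp only [assoc]
  have h4 : x = g ≫ (Z ◁ (δ ▷ B)) ≫ (α_ Z N B).inv := by
    rw [← assoc, ← hg, assoc, Iso.hom_inv_id, comp_id]
  rw [h4, h3, pow_aux]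

/-- Morphisms from the unit to the tensor powers of the cone. -/
lemma exists_pow (hN : Triangle.mk s δ ω ∈ distTriang T) (hQ : ∀ B, Q B → PosVan B)
    (hM : ∀ B, Q B → Q (M ⊗ B)) (n : ℕ) :
    ∀ B, Q B → ∀ x : 𝟙_ T ⟶ unitPow N n ⊗ B, ∃ b : 𝟙_ T ⟶ B,
      x = b ≫ (λ_ B).inv ≫ (homPow δ n ▷ B) := by
  induction n with
  | zero =>
    intro B hB x
    change 𝟙_ T ⟶ 𝟙_ T ⊗ B at x
    refine ⟨x ≫ (λ_ B).hom, ?_⟩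
    change x = (x ≫ (λ_ B).hom) ≫ (λ_ B).inv ≫ (𝟙 (𝟙_ T) ▷ B)
    rw [id_whiskerRight, comp_id, assoc, Iso.hom_inv_id, comp_id]
  | succ n ih =>
    intro B hB x
    exact exists_pow_aux hN (posVan_pow hN hQ hM n _ (hM B hB)) (ih B hB) x

/-- The induction step for the next theorem. -/
lemma eq_zero_aux (hN : Triangle.mk s δ ω ∈ distTriang T) (hcon : ∀ a : 𝟙_ T ⟶ M, a ≫ s = 0)
    {Z : T} {h : 𝟙_ T ⟶ Z}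
    (h2 : ∀ x : 𝟙_ T ⟶ Z ⊗ M, ∃ b : 𝟙_ T ⟶ M, x = b ≫ (λ_ M).inv ≫ (h ▷ M))
    (h0 : h ≫ (ρ_ Z).inv ≫ (Z ◁ δ) = 0) : h = 0 := by
  obtain ⟨d, hd⟩ : ∃ d : Z ⊗ N ⟶ (Z ⊗ M)⟦(1 : ℤ)⟧,
      Triangle.mk (Z ◁ s) (Z ◁ δ) d ∈ distTriang T := tri_left Z _ hN
  obtain ⟨x, hx⟩ : ∃ x : 𝟙_ T ⟶ Z ⊗ M, h ≫ (ρ_ Z).inv = x ≫ (Z ◁ s) :=
    Triangle.coyoneda_exact₂ _ hd (h ≫ (ρ_ Z).inv) (by
      change (h ≫ (ρ_ Z).inv) ≫ (Z ◁ δ) = 0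
      rw [assoc, h0])
  obtain ⟨b, hb⟩ := h2 x
  rw [← cancel_mono (ρ_ Z).inv, hx, hb, pow_aux', hcon, zero_comp, zero_comp]

/-- If `δ` is tensor nilpotent then `s` has a nonzero composition with some morphism
`𝟙 ⟶ M`. -/
theorem exists_section (hN : Triangle.mk s δ ω ∈ distTriang T) (hQ : ∀ B, Q B → PosVan B)
    (hM : ∀ B, Q B → Q (M ⊗ B)) (hMQ : Q M) (h1 : (𝟙 (𝟙_ T) : 𝟙_ T ⟶ 𝟙_ T) ≠ 0)
    (hnil : TensorNilpotent δ) : ∃ a : 𝟙_ T ⟶ M, a ≫ s ≠ 0 := by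
  by_contra hcon
  push Not at hcon
  obtain ⟨n, hn⟩ := hnil
  have key : ∀ n : ℕ, homPow δ n ≠ 0 := by
    intro n
    induction n with
    | zero => exact h1
    | succ n ih => exact fun h0 => ih (eq_zero_aux hN hcon (exists_pow hN hQ hM n M hMQ) h0)
  exact key n hn

end Pool.Agent.Lib.MotT
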