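import Pool.Agent.Lib.MP_6d0ce9_ag.CritDefs

/-!
# Spreading out: definitions

Example to keep in mind: `T` is the category of constructible motives over a field `K`, and `T'`
the one over a subfield `k` of `K`, for instance the prime field. For a smooth integral
`k`-scheme `U` (more precisely, a scheme smooth over the perfect closure of `k`) whose function
field embeds into `K`, let `π` be the structure morphism of `U`. Then `C` is the category of
constructible motives over `U`, `pull = π^*`, `push = π_*`, and `toT` is the restriction to the
generic point followed by the base change to `K`.

The facts about constructible motives with rational coefficients behind the definitions are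
theorems, none of them is formalised here:

* the functors `π^*` and `π_*`, their adjunction, and the constructibility of `π_* M`: Ayoub (Les
  six opérations de Grothendieck), Cisinski and Déglise (Triangulated categories of mixed motives);
* the étale realisation commutes with `π^*` and `π_*`: Ayoub (La réalisation étale et les opérations
  de Grothendieck), Cisinski and Déglise (Étale motives);
* every object and every morphism over `K` comes from some `U` (continuity): Cisinski and Déglise
  (Triangulated categories of mixed motives); Ivorra;
* the cohomology sheaves of the realisation of `M` are constructible, hence lisse after shrinking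
  `U`: SGA 4 1/2 (Th. finitude);
* the base change from `k` to `K` is faithful: by continuity and transfers for finite extensions of
  fields, the coefficients being rational;
* purely inseparable extensions of fields change neither the categories nor the realisations.
-/

universe w v u

open CategoryTheory Category Limits MonoidalCategory Pretriangulated Triangulated

namespace Pool.Agent.Lib.MotT

section

variable (T : Type u) [Category.{v} T] [Preadditive T] [MonoidalCategory T]
  (T' : Type u) [Category.{v} T'] [Preadditive T'] [MonoidalCategory T']

/-- A model over a base: a category `C` with a functor `pull : T' ⥤ C`, its right adjoint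
`push : C ⥤ T'` and a functor `toT : C ⥤ T` such that the composition
`pull ⋙ toT : T' ⥤ T` preserves zero morphisms and maps the unit object to the unit object. -/
structure Model where
  /-- the category `C` -/
  C : Type u
  [cat : Category.{v} C]
  /-- inverse image from `T'` -/
  pull : T' ⥤ C
  /-- direct image to `T'` -/
  push : C ⥤ T'
  /-- the two functors are adjoint -/
  adj : pull ⊣ push
  /-- the restriction to `T` -/
  toT : C ⥤ T
  preservesZero : (pull ⋙ toT).PreservesZeroMorphisms
  /-- the unit object is mapped to the unit object -/
  unitIso : toT.obj (pull.obj (𝟙_ T')) ≅ 𝟙_ T

end

variable {T : Type u} [Category.{v} T] [Preadditive T] [HasZeroObject T]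
  [HasShift T ℤ] [∀ n : ℤ, (shiftFunctor T n).Additive] [Pretriangulated T]
  [MonoidalCategory T] [BraidedCategory T]
  {T' : Type u} [Category.{v} T'] [Preadditive T'] [HasZeroObject T'] [HasShift T' ℤ]
  [∀ n : ℤ, (shiftFunctor T' n).Additive] [Pretriangulated T'] [MonoidalCategory T']
  [BraidedCategory T'] {F : Type w} [Field F]

/-- A base change functor from `T'` with realisation `R'` to `T` with realisation `R`: a faithful
functor commuting with the shifts, preserving zero morphisms and the unit object, such that
`R'` is isomorphic to the restriction of `R`. -/
structure BaseChange (R' : Realization T' F) (R : Realization T F) where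
  /-- the functor -/
  fn : T' ⥤ T
  [comm : fn.CommShift ℤ]
  preservesZero : fn.PreservesZeroMorphisms
  faithful : fn.Faithful
  /-- the unit object is mapped to the unit object -/
  unitIso : fn.obj (𝟙_ T') ≅ 𝟙_ T
  /-- the realisations are compatible -/
  iso : fn ⋙ R.H0 ≅ R'.H0

/-- The object `M` of the model `b` is lisse with respect to the realisations `R` of `T` and
`R'` of `T'`: if the cohomology of `toT M` vanishes in negative degrees, then the cohomology of
`push M` vanishes in negative degrees, and a morphism `f : pull 𝟙 ⟶ M` which induces zero on
`H^0` in `T` has an adjoint morphism `𝟙 ⟶ push M` which induces zero on `H^0` in `T'`. In the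
example this holds as soon as the cohomology sheaves of the `ℓ`-adic realisation of `M` are
lisse on `U`: then the cohomology sheaves in negative degrees are zero, and
`H^0(U, R(M)) = H^0(U, H^0(R(M)))`, where a section defined over `k` which vanishes at the
geometric generic point is zero. -/
def Model.Lisse (b : Model T T') (R : Realization T F) (R' : Realization T' F)
    (M : b.C) : Prop :=
  letI := b.cat
  (∀ i : ℤ, i < 0 → R.Van i (b.toT.obj M)) →
    (∀ i : ℤ, i < 0 → R'.Van i (b.push.obj M)) ∧
      ∀ f : b.pull.obj (𝟙_ T') ⟶ M, R.H0.map (b.toT.map f) = 0 →
        R'.H0.map (b.adj.homEquiv (𝟙_ T') M f) = 0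

/-- Every morphism from the unit object of `T` comes from a morphism `pull 𝟙 ⟶ M` to a lisse
object `M` of some model. -/
def SpreadsOut (R : Realization T F) (R' : Realization T' F) : Prop :=
  ∀ (X : T) (f : 𝟙_ T ⟶ X), ∃ b : Model T T', letI := b.cat
    ∃ (M : b.C) (f₀ : b.pull.obj (𝟙_ T') ⟶ M) (e : b.toT.obj M ≅ X),
      b.toT.map f₀ ≫ e.hom = b.unitIso.hom ≫ f ∧ b.Lisse R R' M

end Pool.Agent.Lib.MotT
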