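import Pool.Agent.Lib.MP_6d0ce9_ag.Desc
import Pool.Agent.Lib.MP_6d0ce9_ag.Inj
import Pool.Agent.Lib.MP_6d0ce9_ag.SpreadDefs

/-!
# The t-structure over an extension field
-/

set_option linter.unusedSectionVars false

universe w w' v u

open CategoryTheory Category Limits MonoidalCategory Pretriangulated Triangulated
  ObjectProperty

namespace Pool.Agent.Lib.MotT

namespace Realization

section

variable {T : Type u} [Category.{v} T] [Preadditive T] [HasZeroObject T] [HasShift T ℤ]
  [∀ n : ℤ, (shiftFunctor T n).Additive] [Pretriangulated T] [MonoidalCategory T]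
  [SymmetricCategory T] {F : Type w} [Field F] {R : Realization T F}
  [∀ X : T, (tensorLeft X).CommShift ℤ] [∀ X : T, (tensorLeft X).IsTriangulated]
  [IsTriangulated T]

/-- The injectivity for all coconnective objects holds if there is an exact realisation. -/
lemma injectiveOnCoconnective_of_exact {t : TStructure T} (hnd : Nondegenerate t)
    (ht : TensorCompatible t) (hrig : IsRigid T) (hconn : ConnectedUnit T)
    (hR : R.TExact t) : R.InjectiveOnCoconnective := by
  intro M hM f hf
  have hcons := conservative_of_exact hnd ht hrig hconn hR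
  have hM1 : t.IsGE M 0 := isGE_of_van hR hcons hM
  obtain ⟨A, B, a, b, c, hT, hA, hB⟩ := exists_trunc t M 0 1 (by lia)
  have hA1 : t.IsGE A 0 := isGE₁ t hT 0 hM1 (t.isGE_of_ge B (0 - 1) 1 (by lia))
  have hu := heart_of_conc hR hcons R.unit_conc
  have hu1 := (heart_iff t _).1 hu
  have h1 : f ≫ b = 0 := t.zero_of_isLE_of_isGE _ 0 1 (by lia) hu1.1 hB
  obtain ⟨g, hg'⟩ : ∃ g : 𝟙_ T ⟶ A, f = g ≫ a := Triangle.coyoneda_exact₂ _ hT f h1
  have h2 : R.mp 0 g = 0 := by
    ext x
    have h3 : R.mp 0 a (R.mp 0 g x) = 0 := by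
      rw [← mp_comp_apply, ← hg', mp_eq_zero_of_map f hf]
      rfl
    exact R.inj_fst hT (van_of_ge hR hB (by lia)) h3
  rw [hg', eq_zero_of_heart hnd ht hrig hconn hR hu ((heart_iff t _).2 ⟨hA, hA1⟩) g h2,
    zero_comp]

lemma injectiveOnPure_of_coconnective (h : R.InjectiveOnCoconnective) :
    R.InjectiveOnPure := by
  intro j M hj hM f hf
  exact h M (fun i hi => hM i (by lia)) f hf

end

section

variable {T : Type u} [Category.{v} T] [Preadditive T] [HasZeroObject T] [HasShift T ℤ]
  [∀ n : ℤ, (shiftFunctor T n).Additive] [Pretriangulated T] [MonoidalCategory T]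
  [SymmetricCategory T] {F : Type w} [Field F] {R : Realization T F}
  {T' : Type u} [Category.{v} T'] [Preadditive T'] [HasZeroObject T'] [HasShift T' ℤ]
  [∀ n : ℤ, (shiftFunctor T' n).Additive] [Pretriangulated T'] [MonoidalCategory T']
  [SymmetricCategory T'] {R' : Realization T' F}

/-- Injectivity passes from `T'` to `T` if morphisms from the unit spread out. -/
lemma injectiveOnCoconnective_of_spreadsOut (hs : SpreadsOut R R')
    (h' : R'.InjectiveOnCoconnective) : R.InjectiveOnCoconnective := by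
  intro X hX f hf
  obtain ⟨b, M, f₀, e, hcomm, hl⟩ := hs X f
  let _ := b.cat
  have := b.preservesZero
  obtain ⟨h1, h2⟩ := hl fun i hi => R.van_of_iso e.symm (hX i hi)
  have h3 : R.H0.map (b.toT.map f₀) = 0 := by
    have h4 : b.toT.map f₀ = b.unitIso.hom ≫ f ≫ e.inv := by
      rw [← assoc, ← hcomm, assoc, Iso.hom_inv_id, comp_id]
    rw [h4, Functor.map_comp, Functor.map_comp, hf, zero_comp, comp_zero]
  have h5 : b.adj.homEquiv (𝟙_ T') M f₀ = 0 := h' _ h1 _ (h2 f₀ h3)
  have h6 : b.toT.map f₀ = 0 := by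
    have h7 : f₀ = b.pull.map (b.adj.homEquiv (𝟙_ T') M f₀) ≫ b.adj.counit.app M :=
      (Equiv.symm_apply_apply (b.adj.homEquiv (𝟙_ T') M) f₀).symm.trans
        (b.adj.homEquiv_counit (𝟙_ T') M _)
    rw [h7, h5, Functor.map_comp]
    have h8 : b.toT.map (b.pull.map (0 : 𝟙_ T' ⟶ b.push.obj M)) = 0 :=
      (b.pull ⋙ b.toT).map_zero _ _
    rw [h8, zero_comp]
  have h9 : f = b.unitIso.inv ≫ b.toT.map f₀ ≫ e.hom := by
    rw [hcomm, Iso.inv_hom_id_assoc]
  rw [h9, h6, zero_comp, comp_zero]

end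

section

variable {T : Type u} [Category.{v} T] [Preadditive T] [HasZeroObject T] [HasShift T ℤ]
  [∀ n : ℤ, (shiftFunctor T n).Additive] [Pretriangulated T] [MonoidalCategory T]
  [SymmetricCategory T] {F : Type w} [Field F] {R : Realization T F}
  [∀ X : T, (tensorLeft X).CommShift ℤ] [∀ X : T, (tensorLeft X).IsTriangulated]

lemma negVanishing_of_inj (hrig : IsRigid T) (hinj : R.InjectiveOnPure)
    {P : ObjectProperty T} (hP0 : ∀ A : T, P A → R.ConcentratedIn 0 A) : NegVanishing P := by
  intro A B hA hB n hn f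
  have hB' := (hP0 B hB).shift n
  refine eq_zero_of_pure hrig hinj (a := 0) (b := 0 - n) (by lia) (hP0 A hA) hB' f ?_
  ext x
  exact (hB' 0 (by lia)).elim _ _

lemma faithfulOn_of_inj (hrig : IsRigid T) (hinj : R.InjectiveOnPure)
    {P : ObjectProperty T} (hP0 : ∀ A : T, P A → R.ConcentratedIn 0 A) : R.FaithfulOn P := by
  intro A B hA hB f hf
  exact eq_zero_of_pure hrig hinj le_rfl (hP0 A hA) (hP0 B hB) f (mp_eq_zero_of_map f hf)

/-- The generation condition for one realisation. -/
lemma commonGen_self {P : ObjectProperty T} (hP0 : ∀ A : T, P A → R.ConcentratedIn 0 A)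
    (hgen : ObjectProperty.IsClassicalTriangulatedGenerator fun G : T =>
      ∃ A B B' : T, P A ∧ P B ∧ Nonempty (ExactPairing B B') ∧ Nonempty (G ≅ A ⊗ B')) :
    R.CommonGen R := by
  rw [CommonGen]
  rw [isClassicalTriangulatedGenerator_iff, eq_top_iff] at hgen ⊢
  refine hgen.trans (monotone_triangEnvelope ?_)
  rintro G ⟨A, B, B', hA, hB, ⟨hBB⟩, ⟨i⟩⟩
  have h1 : R.ConcentratedIn 0 B' := by simpa using R.conc_dual (hP0 B hB)
  have h2 : R.ConcentratedIn 0 (A ⊗ B') := R.conc_tensor (by ring) (hP0 A hA) h1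
  have h3 := ConcentratedIn.of_iso h2 i.symm
  exact ⟨0, h3, h3⟩

end

end Realization

/-- The generation condition in terms of the class of all objects concentrated in degree
`0`. -/
lemma gen_of_commonGen {T : Type u} [Category.{v} T] [Preadditive T] [HasZeroObject T]
    [HasShift T ℤ] [∀ n : ℤ, (shiftFunctor T n).Additive] [Pretriangulated T]
    [IsTriangulated T] [MonoidalCategory T] [SymmetricCategory T] {F : Type w} [Field F]
    {R : Realization T F} (h : R.CommonGen R) :
    ObjectProperty.IsClassicalTriangulatedGenerator fun G : T =>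
      ∃ A B B' : T, R.ConcentratedIn 0 A ∧ R.ConcentratedIn 0 B ∧
        Nonempty (ExactPairing B B') ∧ Nonempty (G ≅ A ⊗ B') := by
  obtain ⟨Q, hQ⟩ : ∃ Q : ObjectProperty T, Q = fun G : T =>
      ∃ A B B' : T, R.ConcentratedIn 0 A ∧ R.ConcentratedIn 0 B ∧
        Nonempty (ExactPairing B B') ∧ Nonempty (G ≅ A ⊗ B') := ⟨_, rfl⟩
  rw [← hQ]
  have hu : ∀ G, R.ConcentratedIn 0 G → Q G := by
    intro G hG
    rw [hQ]
    exact ⟨G, 𝟙_ T, 𝟙_ T, hG, R.unit_conc, ⟨exactPairingUnit⟩, ⟨(ρ_ _).symm⟩⟩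
  have hne : Q.Nonempty := ⟨𝟙_ T, hu _ R.unit_conc⟩
  rw [Realization.CommonGen] at h
  rw [isClassicalTriangulatedGenerator_iff, eq_top_iff] at h ⊢
  refine h.trans ((triangEnvelope_le_iff _).2 ?_)
  rintro G ⟨n, hn, -⟩
  have h1 : R.ConcentratedIn 0 (G⟦n⟧) := by simpa using hn.shift n
  have h3 := Q.triangEnvelope.le_shift (-n) _ (Q.le_triangEnvelope _ (hu _ h1))
  exact Q.triangEnvelope.prop_of_iso (shiftShiftNeg G n) h3

/-- Existence of the t-structure from injectivity. -/
theorem exists_t_of_inj {T : Type u} [Category.{v} T] [Preadditive T] [HasZeroObject T]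
    [HasShift T ℤ] [∀ n : ℤ, (shiftFunctor T n).Additive] [Pretriangulated T]
    [IsTriangulated T] [MonoidalCategory T] [SymmetricCategory T]
    [∀ X : T, (tensorLeft X).CommShift ℤ] [∀ X : T, (tensorLeft X).IsTriangulated]
    [IsIdempotentComplete T] (hrig : IsRigid T) (hconn : ConnectedUnit T)
    {I : Type w'} {F : I → Type w} [∀ i, Field (F i)] [∀ i, CharZero (F i)]
    (R : ∀ i, Realization T (F i)) (o : I)
    (hcom : ∀ i, (R o).CommonGen (R i)) (hinj : (R o).InjectiveOnPure) :
    ∃ t : TStructure T, Nondegenerate t ∧ TensorCompatible t ∧ ∀ i, (R i).TExact t := by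
  have hP0 : ∀ A : T, (R o).ConcentratedIn 0 A → (R o).ConcentratedIn 0 A := fun _ h => h
  have h := (criterion hrig hconn R o (fun A => (R o).ConcentratedIn 0 A) (R o).unit_conc
    (fun A B hA hB => (R o).conc_tensor (by ring) hA hB) hP0
    (gen_of_commonGen (hcom o))).out 1 0
  exact h.1 ⟨Realization.conservative_of_inj hrig hinj,
    Realization.negVanishing_of_inj hrig hinj hP0,
    Realization.faithfulOn_of_inj hrig hinj hP0, hcom⟩

section BaseChange

variable {T : Type u} [Category.{v} T] [Preadditive T] [HasZeroObject T] [HasShift T ℤ]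
  [∀ n : ℤ, (shiftFunctor T n).Additive] [Pretriangulated T] [MonoidalCategory T]
  [SymmetricCategory T]
  {T₀ : Type u} [Category.{v} T₀] [Preadditive T₀] [HasZeroObject T₀] [HasShift T₀ ℤ]
  [∀ n : ℤ, (shiftFunctor T₀ n).Additive] [Pretriangulated T₀] [MonoidalCategory T₀]
  [SymmetricCategory T₀] {F : Type w} [Field F] {R : Realization T F}
  {R₀ : Realization T₀ F}

/-- A faithful base change functor gives a bridge. -/
lemma covered_of_baseChange (bc : T₀ ⥤ T) [bc.CommShift ℤ] [bc.PreservesZeroMorphisms]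
    [bc.Faithful] (e : bc ⋙ R.H0 ≅ R₀.H0) : Covered R₀ R := by
  intro X Y f
  exact ⟨{ C := T₀
           toT := 𝟭 T₀
           toT' := bc
           preservesZero := inferInstance
           preservesZero' := inferInstance
           faithful := inferInstance
           iso := R₀.H0.leftUnitor ≪≫ e.symm }, X, Y, f, Iso.refl X, Iso.refl Y, by
    change f ≫ 𝟙 Y = 𝟙 X ≫ f
    rw [comp_id, id_comp]⟩

/-- A faithful base change functor transports injectivity backwards. -/
lemma injectiveOnCoconnective_of_baseChange (bc : T₀ ⥤ T) [bc.CommShift ℤ]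
    [bc.PreservesZeroMorphisms] [bc.Faithful] (e : bc ⋙ R.H0 ≅ R₀.H0)
    (u : bc.obj (𝟙_ T₀) ≅ 𝟙_ T) (h : R.InjectiveOnCoconnective) :
    R₀.InjectiveOnCoconnective := by
  intro M hM f hf
  have h1 : ∀ i : ℤ, i < 0 → R.Van i (bc.obj M) := by
    intro i hi
    have h2 := hM i hi
    rw [Realization.van_iff_isZero] at h2 ⊢
    exact h2.of_iso (R.H0.mapIso ((bc.commShiftIso i).app M).symm ≪≫ e.app (M⟦i⟧))
  have h2 : R.H0.map (bc.map f) = 0 := by
    have h3 : R.H0.map (bc.map f) ≫ e.hom.app M = e.hom.app (𝟙_ T₀) ≫ R₀.H0.map f :=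
      e.hom.naturality f
    rw [hf, comp_zero] at h3
    rw [← cancel_mono (e.hom.app M), h3, zero_comp]
  have h3 : u.inv ≫ bc.map f = 0 := by
    apply h _ h1
    rw [Functor.map_comp, h2, comp_zero]
  have h4 : bc.map f = 0 := by
    rw [← cancel_epi u.inv, h3, comp_zero]
  exact bc.map_injective (by rw [h4, Functor.map_zero])

end BaseChange

end Pool.Agent.Lib.MotT
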