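import Pool.Agent.Lib.MP_6d0ce9_ag.Num
import Pool.Agent.Lib.MP_6d0ce9_ag.SplitNil
import Pool.Agent.Lib.MP_6d0ce9_ag.Weights
import Pool.Agent.Lib.MP_6d0ce9_ag.Spread

/-!
# Injectivity implies vanishing and nondegeneracy
-/

set_option linter.unusedSectionVars false

universe w v u

open CategoryTheory Category Limits MonoidalCategory Pretriangulated Triangulated
  ObjectProperty

namespace Pool.Agent.Lib.MotT

section Mate

variable {T : Type u} [Category.{v} T] [MonoidalCategory T]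

/-- The morphism `A' ⟶ 𝟙` attached to `f : 𝟙 ⟶ A`. -/
def ud {A A' : T} [ExactPairing A A'] (f : 𝟙_ T ⟶ A) : A' ⟶ 𝟙_ T :=
  (ρ_ A').inv ≫ (A' ◁ f) ≫ ε_ A A'

/-- The morphism `A ⟶ 𝟙` attached to `a : 𝟙 ⟶ A'`. -/
def ud' {A A' : T} [ExactPairing A A'] (a : 𝟙_ T ⟶ A') : A ⟶ 𝟙_ T :=
  (λ_ A).inv ≫ (a ▷ A) ≫ ε_ A A'

lemma ud_comp {A A' : T} [ExactPairing A A'] (f : 𝟙_ T ⟶ A) (a : 𝟙_ T ⟶ A') :
    f ≫ ud' a = a ≫ ud f := by
  rw [ud, ud', leftUnitor_inv_naturality_assoc, rightUnitor_inv_naturality_assoc,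
    whisker_exchange_assoc, unitors_inv_equal]

lemma ud_injective [Preadditive T] [MonoidalPreadditive T] {A A' : T} [ExactPairing A A']
    (f : 𝟙_ T ⟶ A) (h : (ud f : A' ⟶ 𝟙_ T) = 0) : f = 0 := by
  have h1 : (tensorLeftHomEquiv (𝟙_ T) A A' (𝟙_ T)).symm (f ≫ (ρ_ A).inv) = 0 := by
    have h2 : (tensorLeftHomEquiv (𝟙_ T) A A' (𝟙_ T)).symm (f ≫ (ρ_ A).inv) =
        (ρ_ A').hom ≫ ud f := by
      simp [tensorLeftHomEquiv, ud, unitors_equal]
    rw [h2, h, comp_zero]
  have h2 : f ≫ (ρ_ A).inv = 0 := by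
    rw [← (tensorLeftHomEquiv (𝟙_ T) A A' (𝟙_ T)).apply_symm_apply (f ≫ (ρ_ A).inv), h1]
    simp [tensorLeftHomEquiv]
  rw [← cancel_mono (ρ_ A).inv, h2, zero_comp]

/-- The dual of a retract. -/
lemma retract_dual {A A' B B' : T} [ExactPairing A A'] [ExactPairing B B'] (r : Retract B A) :
    Nonempty (Retract B' A') := by
  let _ : HasRightDual A := ⟨A'⟩
  let _ : HasRightDual B := ⟨B'⟩
  refine ⟨⟨rightAdjointMate r.r, rightAdjointMate r.i, ?_⟩⟩
  have h1 := comp_rightAdjointMate (f := r.i) (g := r.r)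
  rw [r.retract, rightAdjointMate_id] at h1
  exact h1.symm

lemma retract_tensor {A A' B B' : T} (r : Retract A A') (s : Retract B B') :
    Nonempty (Retract (A ⊗ B) (A' ⊗ B')) :=
  ⟨(r.map (tensorRight B)).trans (s.map (tensorLeft A'))⟩

end Mate

section

variable {T : Type u} [Category.{v} T] [Preadditive T] [HasZeroObject T] [HasShift T ℤ]
  [∀ n : ℤ, (shiftFunctor T n).Additive] [Pretriangulated T] [MonoidalCategory T]
  [SymmetricCategory T] {F : Type w} [Field F] {R : Realization T F}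
  [∀ X : T, (tensorLeft X).CommShift ℤ] [∀ X : T, (tensorLeft X).IsTriangulated]
  [IsTriangulated T]

lemma PosVan.of_retract {X Y : T} (r : Retract X Y) (h : PosVan Y) : PosVan X := by
  intro j hj f
  have h1 := h j hj (f ≫ r.i⟦j⟧')
  have h2 : f = (f ≫ r.i⟦j⟧') ≫ r.r⟦j⟧' := by
    rw [assoc, ← Functor.map_comp, r.retract, CategoryTheory.Functor.map_id, comp_id]
  rw [h2, h1, zero_comp]

/-- Injectivity and nilpotence imply the vanishing of negative extensions and
nondegeneracy. -/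
theorem parshin_ratEqNum [IsIdempotentComplete T] [CharZero F] {S : ObjectProperty T}
    (hrig : IsRigid T) (hcons : R.Conservative) (hinj : R.InjectiveOnPure)
    (hnil : ∀ (X : T) (g : End X), (∀ i, R.mp i g = 0) → ∃ N : ℕ, g ^ N = 0)
    (Fr : Frobenius R S) (hS : IsChowClass S) :
    Parshin S ∧ RatEqNum S := by
  have hw := fun A (hA : S A) => Realization.exists_weight_zero hcons hinj hnil Fr hS.unit hA
  have h1 : (𝟙 (𝟙_ T) : 𝟙_ T ⟶ 𝟙_ T) ≠ 0 := by
    intro h
    obtain ⟨c₀, hc₀⟩ := R.nontrivial_unit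
    apply hc₀
    have h2 : R.mp 0 (𝟙 (𝟙_ T)) c₀ = 0 := by rw [h, R.mp_zero, LinearMap.zero_apply]
    rwa [R.mp_id] at h2
  constructor
  · intro A hA n hn f
    obtain ⟨H, i, p, hip, hH, hf⟩ := hw A hA
    have hH' := hH.shift n
    have h2 : f ≫ p⟦n⟧' = 0 := by
      apply hinj (0 - n) _ (by lia) hH'
      apply Realization.map_eq_zero_of_mp
      ext x
      exact (hH' 0 (by lia)).elim _ _
    rw [← hf n f, ← assoc, h2, zero_comp]
  · intro A hA f hf0
    obtain ⟨H, i, p, hip, hH, hf⟩ := hw A hA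
    have h2 : f ≫ p ≫ i = f := by
      have h3 := hf 0 (f ≫ ((shiftFunctorZero T ℤ).app A).inv)
      have h4 : ∀ (X Y : T) (g : X ⟶ Y), ((shiftFunctorZero T ℤ).app X).inv ≫ g⟦(0 : ℤ)⟧' =
          g ≫ ((shiftFunctorZero T ℤ).app Y).inv := by
        intro X Y g
        exact ((shiftFunctorZero T ℤ).inv.naturality g).symm
      rw [assoc, ← assoc _ (p⟦(0 : ℤ)⟧'), h4, assoc p, h4, ← assoc, ← assoc, cancel_mono] at h3
      rwa [assoc] at h3
    have h3 : f ≫ p ≠ 0 := by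
      intro h
      apply hf0
      rw [← h2, ← assoc, h, zero_comp]
    obtain ⟨H', ⟨hHH⟩⟩ := hrig H
    obtain ⟨A', hA', ⟨hAA⟩⟩ := hS.dual A hA
    obtain ⟨rH⟩ : Nonempty (Retract H' A') := retract_dual ⟨i, p, hip⟩
    have hH' : R.ConcentratedIn 0 H' := by simpa using R.conc_dual hH
    let s : H' ⟶ 𝟙_ T := ud (f ≫ p)
    have hs : R.mp 0 s ≠ 0 := by
      intro h
      apply h3
      apply ud_injective (A' := H')
      exact Realization.eq_zero_of_pure hrig hinj le_rfl hH' R.unit_conc s h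
    obtain ⟨N, δ, ω, hN⟩ := distinguished_cocone_triangle s
    have hδ := Realization.tensorNilpotent_of_odd hcons
      (Realization.conc_cone_unit hH' hs hN) δ
    obtain ⟨a, ha⟩ := exists_section (Q := fun B => ∃ C, S C ∧ Nonempty (Retract B C)) hN
      (fun B hB => by
        obtain ⟨C, hC, ⟨r⟩⟩ := hB
        exact PosVan.of_retract r (hS.pos C hC))
      (fun B hB => by
        obtain ⟨C, hC, ⟨r⟩⟩ := hB
        exact ⟨A' ⊗ C, hS.tensor A' C hA' hC, retract_tensor rH r⟩)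
      ⟨A', hA', ⟨rH⟩⟩ h1 hδ
    refine ⟨p ≫ ud' a, ?_⟩
    rw [← assoc, ud_comp]
    exact ha

end

section BaseChange

variable {T : Type u} [Category.{v} T] [Preadditive T] [HasZeroObject T] [HasShift T ℤ]
  [∀ n : ℤ, (shiftFunctor T n).Additive] [Pretriangulated T] [MonoidalCategory T]
  [SymmetricCategory T] [∀ X : T, (tensorLeft X).CommShift ℤ]
  [∀ X : T, (tensorLeft X).IsTriangulated] [IsTriangulated T]
  {T₀ : Type u} [Category.{v} T₀] [Preadditive T₀] [HasZeroObject T₀] [HasShift T₀ ℤ]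
  [∀ n : ℤ, (shiftFunctor T₀ n).Additive] [Pretriangulated T₀] [MonoidalCategory T₀]
  [SymmetricCategory T₀] [∀ X : T₀, (tensorLeft X).CommShift ℤ]
  [∀ X : T₀, (tensorLeft X).IsTriangulated] [IsTriangulated T₀]
  {F : Type w} [Field F] {R : Realization T F}
  {R₀ : Realization T₀ F} {t : TStructure T}

/-- Injectivity for `T₀` from an exact realisation of `T`. -/
lemma injectiveOnPure_of_baseChange (hnd : Nondegenerate t) (ht : TensorCompatible t)
    (hrig : IsRigid T) (hconn : ConnectedUnit T) (hR : R.TExact t)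
    (bc : T₀ ⥤ T) [bc.CommShift ℤ] [bc.PreservesZeroMorphisms]
    [bc.Faithful] (e : bc ⋙ R.H0 ≅ R₀.H0) : R₀.InjectiveOnPure := by
  intro j M hj hM f hf
  have hcov := covered_of_baseChange bc e
  have h := injectiveOn_of_covered hcov hnd ht hrig hconn hR
    (P := fun X : T₀ => R₀.ConcentratedIn 0 X) (fun _ h => h) (𝟙_ T₀) (M⟦j⟧)
    R₀.unit_conc (by simpa using hM.shift j) (-j) (by lia)
    (f ≫ (shiftShiftNeg M j).inv) (by rw [Functor.map_comp, hf, zero_comp])
  rw [← cancel_mono (shiftShiftNeg M j).inv, h, zero_comp]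

/-- Nilpotence for `T₀` from an exact realisation of `T`. -/
lemma nilpotent_of_baseChange (hnd : Nondegenerate t) (ht : TensorCompatible t)
    (hrig : IsRigid T) (hconn : ConnectedUnit T) (hR : R.TExact t)
    (bc : T₀ ⥤ T) [bc.CommShift ℤ] [bc.PreservesZeroMorphisms]
    [bc.Faithful] (e : bc ⋙ R.H0 ≅ R₀.H0) (X : T₀) (g : End X)
    (hg : ∀ i, R₀.mp i g = 0) : ∃ N : ℕ, g ^ N = 0 := by
  have h1 : ∀ i, R.mp i (bc.map g) = 0 := by
    intro i
    have h2 : R₀.H0.map ((show X ⟶ X from g)⟦i⟧') = 0 := by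
      ext x
      exact congrArg (fun l => l x) (hg i)
    have h3 : R.H0.map (bc.map ((show X ⟶ X from g)⟦i⟧')) = 0 := by
      have h4 : R.H0.map (bc.map ((show X ⟶ X from g)⟦i⟧')) ≫ e.hom.app (X⟦i⟧) =
          e.hom.app (X⟦i⟧) ≫ R₀.H0.map ((show X ⟶ X from g)⟦i⟧') := e.hom.naturality _
      rw [h2, comp_zero] at h4
      rw [← cancel_mono (e.hom.app (X⟦i⟧)), h4, zero_comp]
    have h5 : (bc.map (show X ⟶ X from g))⟦i⟧' = (bc.commShiftIso i).inv.app X ≫
        bc.map ((show X ⟶ X from g)⟦i⟧') ≫ (bc.commShiftIso i).hom.app X := by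
      have h6 : bc.map ((show X ⟶ X from g)⟦i⟧') ≫ (bc.commShiftIso i).hom.app X =
          (bc.commShiftIso i).hom.app X ≫ (bc.map (show X ⟶ X from g))⟦i⟧' :=
        (bc.commShiftIso i).hom.naturality (show X ⟶ X from g)
      rw [h6, Iso.inv_hom_id_app_assoc]
    have h7 : R.H0.map ((bc.map (show X ⟶ X from g))⟦i⟧') = 0 := by
      rw [h5, Functor.map_comp, Functor.map_comp, h3, zero_comp, comp_zero]
    rw [Realization.mp]
    change (R.H0.map ((bc.map (show X ⟶ X from g))⟦i⟧')).hom = 0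
    rw [h7]
    rfl
  obtain ⟨N, hN⟩ := Realization.nilpotent_of_exact hnd ht hrig hconn hR (bc.obj X)
    (bc.map g) h1
  refine ⟨N, ?_⟩
  have h2 : bc.map (show X ⟶ X from (g ^ N : End X)) = 0 := by
    have h3 : bc.mapEnd X (g ^ N) = (bc.mapEnd X g) ^ N := map_pow _ _ _
    exact h3.trans hN
  exact bc.map_injective (by rw [Functor.map_zero]; exact h2)

end BaseChange

end Pool.Agent.Lib.MotT
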