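import Pool.Agent.Lib.MP_6d0ce9_ag.LefDec
import Pool.Agent.Lib.MP_6d0ce9_ag.NumConv

/-!
# From a t-structure to the conjectures of Murre and Beilinson
-/

set_option linter.unusedSectionVars false

universe w v u

open CategoryTheory Category Limits MonoidalCategory Pretriangulated Triangulated
  ObjectProperty

namespace Pool.Agent.Lib.MotT

/-- the dual of an invertible object is its inverse -/
lemma dual_of_invertible {T : Type u} [Category.{v} T] [MonoidalCategory T]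
    [SymmetricCategory T] {L L' M : T} [ExactPairing L L'] (e : L ⊗ M ≅ 𝟙_ T) :
    Nonempty (L' ≅ M) := by
  let e' : M ⊗ L ≅ 𝟙_ T := β_ M L ≪≫ e
  let E : T ≌ T := CategoryTheory.Equivalence.mk (tensorLeft M) (tensorLeft L)
    (NatIso.ofComponents (fun X => (λ_ X).symm ≪≫ whiskerRightIso e.symm X ≪≫ α_ L M X) (by
      intro X Y f
      change f ≫ (λ_ Y).inv ≫ (e.inv ▷ Y) ≫ (α_ L M Y).hom =
        ((λ_ X).inv ≫ (e.inv ▷ X) ≫ (α_ L M X).hom) ≫ (L ◁ M ◁ f)
      rw [leftUnitor_inv_naturality_assoc, whisker_exchange_assoc, assoc, assoc,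
        associator_naturality_right]))
    (NatIso.ofComponents (fun X => (α_ M L X).symm ≪≫ whiskerRightIso e' X ≪≫ λ_ X) (by
      intro X Y f
      change (M ◁ L ◁ f) ≫ (α_ M L Y).inv ≫ (e'.hom ▷ Y) ≫ (λ_ Y).hom =
        ((α_ M L X).inv ≫ (e'.hom ▷ X) ≫ (λ_ X).hom) ≫ f
      rw [associator_inv_naturality_right_assoc, whisker_exchange_assoc, leftUnitor_naturality,
        assoc, assoc]))
  have h := (tensorLeftAdjunction L L').leftAdjointUniq E.toAdjunction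
  exact ⟨(ρ_ L').symm ≪≫ h.app (𝟙_ T) ≪≫ ρ_ M⟩

variable {T : Type u} [Category.{v} T] [Preadditive T] [HasZeroObject T] [HasShift T ℤ]
  [∀ n : ℤ, (shiftFunctor T n).Additive] [Pretriangulated T] [MonoidalCategory T]
  [SymmetricCategory T] {F : Type w} [Field F] {R : Realization T F}
  [∀ X : T, (tensorLeft X).CommShift ℤ] [∀ X : T, (tensorLeft X).IsTriangulated]

/-- `H0` of an object is zero if it is concentrated in a nonzero degree. -/
lemma map_eq_zero_of_conc {j : ℤ} (hj : j ≠ 0) {X Y : T} (hY : R.ConcentratedIn j Y)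
    (f : X ⟶ Y) : R.H0.map f = 0 := by
  apply Realization.map_eq_zero_of_mp
  ext x
  exact (hY 0 (Ne.symm hj)).elim _ _

variable [IsTriangulated T]

/-- Chow-Künneth decompositions from a t-structure. -/
theorem chowKunneth_of_exact [IsIdempotentComplete T] [CharZero F] {t : TStructure T}
    (hrig : IsRigid T) (hinj : R.InjectiveOnPure) (hR : R.TExact t) {S : ObjectProperty T}
    [S.IsStableUnderRetracts] (hL : LefschetzGenerated R S) : ChowKunneth R S := by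
  intro A hA
  obtain ⟨B, hB, ⟨r⟩, d, hd⟩ := hL A hA
  have hcons := Realization.conservative_of_inj hrig hinj
  obtain ⟨b, hb⟩ := R.bounded B
  obtain ⟨m, hm⟩ : ∃ m : ℕ, b + |d| ≤ (m : ℤ) :=
    ⟨(b + |d|).toNat, Int.self_le_toNat _⟩
  have hKP : ∀ n, R.KP n B := by
    refine Realization.kp_of_lef hR hcons d m B (fun i hi => hb i ?_) (fun i _ => hd i)
    have h1 : |i - d| ≤ |i| + |d| := abs_sub i d
    lia
  obtain ⟨n, C, hC, hiso⟩ := Realization.dec_of_kp hrig hinj A (-(b.toNat : ℤ))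
    (2 * b.toNat + 1) A ⟨Retract.refl A⟩ (fun n => Realization.KP.of_retract r (hKP n))
    (fun i hi => R.van_of_retract r (hb i (by
      have h1 := Int.self_le_toNat b
      rcases hi with hi | hi
      · rw [abs_of_neg (by lia)]
        lia
      · push_cast at hi
        rw [abs_of_pos (by lia)]
        lia)))
  refine ⟨n, C, fun j => ?_, hiso⟩
  obtain ⟨⟨r'⟩, h2⟩ := hC j
  exact ⟨prop_of_retract _ r' hA, h2⟩

lemma PosVan.shift {X : T} (h : PosVan X) {k : ℤ} (hk : 0 ≤ k) : PosVan (X⟦k⟧) := by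
  intro j hj f
  have h1 := h (k + j) (by lia) (f ≫ (shiftFunctorAdd T k j).inv.app X)
  rw [← cancel_mono ((shiftFunctorAdd T k j).inv.app X), h1, zero_comp]

/-- the dual of a shift -/
lemma dual_shift (hrig : IsRigid T) {A A' H' : T} (n : ℤ) [ExactPairing A A']
    [ExactPairing (A⟦n⟧) H'] : Nonempty (H' ≅ A'⟦-n⟧) := by
  obtain ⟨L', ⟨hL⟩⟩ := hrig ((𝟙_ T)⟦n⟧)
  obtain ⟨e⟩ := dual_of_invertible (L := (𝟙_ T)⟦n⟧) (L' := L') (M := (𝟙_ T)⟦-n⟧)
    (shiftRight _ _ (-n) ≪≫ (shiftFunctor T (-n)).mapIso (ρ_ _) ≪≫ shiftShiftNeg (𝟙_ T) n)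
  let e₁ : A⟦n⟧ ≅ A ⊗ (𝟙_ T)⟦n⟧ :=
    (shiftFunctor T n).mapIso (ρ_ A).symm ≪≫ (shiftRight A (𝟙_ T) n).symm
  let _ : ExactPairing (A ⊗ (𝟙_ T)⟦n⟧) (L' ⊗ A') := ExactPairing.tensor
  let p : ExactPairing (A⟦n⟧) (L' ⊗ A') := exactPairingCongrLeft e₁
  exact ⟨rightDualIso inferInstance p ≪≫ whiskerRightIso e A' ≪≫ shiftLeft (𝟙_ T) A' (-n) ≪≫
    (shiftFunctor T (-n)).mapIso (λ_ A')⟩

/-- Nondegeneracy from injectivity. -/
theorem ratEqNumUpTo_of_inj [IsIdempotentComplete T] [CharZero F] {S : ObjectProperty T}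
    (hrig : IsRigid T) (hinj : R.InjectiveOnPure) (hS : IsChowClass S) : RatEqNumUpTo R S := by
  intro A hA j n hj hnj f hf0
  have hcons := Realization.conservative_of_inj hrig hinj
  have h1 : (𝟙 (𝟙_ T) : 𝟙_ T ⟶ 𝟙_ T) ≠ 0 := by
    intro h
    obtain ⟨c₀, hc₀⟩ := R.nontrivial_unit
    apply hc₀
    have h2 : R.mp 0 (𝟙 (𝟙_ T)) c₀ = 0 := by rw [h, R.mp_zero, LinearMap.zero_apply]
    rwa [R.mp_id] at h2
  have hn : n ≤ 0 := by
    by_contra hn
    exact hf0 (hS.pos A hA n (by lia) f)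
  have hH : R.ConcentratedIn 0 (A⟦n⟧) := by
    by_cases hjn : j = n
    · subst hjn
      simpa using hj.shift j
    · exact absurd (hinj (j - n) _ (by lia) (hj.shift n) f
        (map_eq_zero_of_conc (by lia) (hj.shift n) f)) hf0
  obtain ⟨H', ⟨hHH⟩⟩ := hrig (A⟦n⟧)
  obtain ⟨A', hA', ⟨hAA⟩⟩ := hS.dual A hA
  have hH' : R.ConcentratedIn 0 H' := by simpa using R.conc_dual hH
  let s : H' ⟶ 𝟙_ T := ud f
  have hs : R.mp 0 s ≠ 0 := by
    intro h
    apply hf0
    apply ud_injective (A' := H')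
    exact Realization.eq_zero_of_pure hrig hinj le_rfl hH' R.unit_conc s h
  obtain ⟨eH⟩ : Nonempty (H' ≅ A'⟦-n⟧) := dual_shift hrig (A := A) n
  obtain ⟨N, δ, ω, hN⟩ := distinguished_cocone_triangle s
  have hδ := Realization.tensorNilpotent_of_odd hcons
    (Realization.conc_cone_unit hH' hs hN) δ
  obtain ⟨a, ha⟩ := exists_section
    (Q := fun B => ∃ (C : T) (k : ℤ), S C ∧ 0 ≤ k ∧ Nonempty (Retract B (C⟦k⟧))) hN
    (fun B hB => by
      obtain ⟨C, k, hC, hk, ⟨r⟩⟩ := hB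
      exact PosVan.of_retract r (PosVan.shift (hS.pos C hC) hk))
    (fun B hB => by
      obtain ⟨C, k, hC, hk, ⟨r⟩⟩ := hB
      obtain ⟨r'⟩ := retract_tensor eH.retract r
      exact ⟨A' ⊗ C, k - n, hS.tensor A' C hA' hC, by lia, ⟨r'.trans (Iso.retract
        (shiftRight _ _ k ≪≫ (shiftFunctor T k).mapIso (shiftLeft A' C (-n)) ≪≫
          ((shiftFunctorAdd' T (-n) k (k - n) (by lia)).app _).symm))⟩⟩)
    ⟨A', -n, hA', by lia, ⟨eH.retract⟩⟩ h1 hδ
  refine ⟨ud' a, ?_⟩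
  rw [ud_comp]
  exact ha

end Pool.Agent.Lib.MotT
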