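import Pool.Agent.Lib.MP_6d0ce9_ag.LefKP

/-!
# Decompositions from Künneth projectors
-/

set_option linter.unusedSectionVars false

universe w v u

open CategoryTheory Category Limits MonoidalCategory Pretriangulated Triangulated
  ObjectProperty

namespace Pool.Agent.Lib.MotT

section Biproduct

variable {T : Type u} [Category.{v} T] [Preadditive T] [HasFiniteBiproducts T]

/-- adding a summand to a finite direct sum -/
lemma iso_cons {A D A₁ : T} {n : ℕ} {B : Fin n → T} (f : D ⟶ A) (r : A ⟶ D) (q : A₁ ⟶ A)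
    (p : A ⟶ A₁) (hfr : f ≫ r = 𝟙 D) (hqp : q ≫ p = 𝟙 A₁) (hsum : r ≫ f + p ≫ q = 𝟙 A)
    (e : A₁ ≅ ⨁ B) : Nonempty (A ≅ ⨁ (Fin.cons D B : Fin (n + 1) → T)) := by
  have hfp : f ≫ p = 0 := by
    have h1 : f ≫ p ≫ q = 0 := by
      have h2 : f ≫ (r ≫ f + p ≫ q) = f := by rw [hsum, comp_id]
      rw [Preadditive.comp_add, ← assoc, hfr, id_comp] at h2
      simpa using h2
    have h2 : f ≫ p = (f ≫ p ≫ q) ≫ p := by rw [assoc, assoc, hqp, comp_id]
    rw [h2, h1, zero_comp]
  have hqr : q ≫ r = 0 := by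
    have h1 : p ≫ q ≫ r = 0 := by
      have h2 : (r ≫ f + p ≫ q) ≫ r = r := by rw [hsum, id_comp]
      rw [Preadditive.add_comp, assoc, hfr, comp_id, assoc] at h2
      simpa using h2
    have h2 : q ≫ r = q ≫ p ≫ q ≫ r := by rw [← assoc, hqp, id_comp]
    rw [h2, h1, comp_zero]
  let B' : Fin (n + 1) → T := Fin.cons D B
  let φ : ∀ j, A ⟶ B' j := Fin.cases r (fun j => p ≫ e.hom ≫ biproduct.π B j)
  let ψ : ∀ j, B' j ⟶ A := Fin.cases f (fun j => biproduct.ι B j ≫ e.inv ≫ q)
  refine ⟨⟨biproduct.lift φ, biproduct.desc ψ, ?_, ?_⟩⟩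
  · rw [biproduct.lift_desc, Fin.sum_univ_succ]
    change r ≫ f + ∑ j : Fin n, (p ≫ e.hom ≫ biproduct.π B j) ≫
      (biproduct.ι B j ≫ e.inv ≫ q) = 𝟙 A
    have h1 : ∑ j : Fin n, (p ≫ e.hom ≫ biproduct.π B j) ≫ (biproduct.ι B j ≫ e.inv ≫ q) =
        p ≫ q := by
      have h2 : ∑ j : Fin n, (p ≫ e.hom ≫ biproduct.π B j) ≫ (biproduct.ι B j ≫ e.inv ≫ q) =
          (p ≫ e.hom) ≫ (∑ j : Fin n, biproduct.π B j ≫ biproduct.ι B j) ≫ (e.inv ≫ q) := by
        rw [Preadditive.sum_comp, Preadditive.comp_sum]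
        refine Finset.sum_congr rfl fun j _ => ?_
        simp only [assoc]
      rw [h2, biproduct.total, id_comp, assoc, Iso.hom_inv_id_assoc]
    rw [h1, hsum]
  · refine biproduct.hom_ext' _ _ fun j => ?_
    refine biproduct.hom_ext _ _ fun k => ?_
    rw [biproduct.ι_desc_assoc, assoc, biproduct.lift_π, comp_id]
    induction j using Fin.cases with
    | zero =>
      induction k using Fin.cases with
      | zero =>
        change f ≫ r = _
        rw [biproduct.ι_π_self]
        exact hfr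
      | succ k =>
        change f ≫ (p ≫ e.hom ≫ biproduct.π B k) = _
        rw [← assoc, hfp, zero_comp]
        exact (biproduct.ι_π_ne B' (Fin.succ_ne_zero k).symm).symm
    | succ j =>
      induction k using Fin.cases with
      | zero =>
        change (biproduct.ι B j ≫ e.inv ≫ q) ≫ r = _
        rw [assoc, assoc, hqr, comp_zero, comp_zero]
        exact (biproduct.ι_π_ne B' (Fin.succ_ne_zero j)).symm
      | succ k =>
        change (biproduct.ι B j ≫ e.inv ≫ q) ≫ (p ≫ e.hom ≫ biproduct.π B k) = _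
        have h1 : (biproduct.ι B j ≫ e.inv ≫ q) ≫ (p ≫ e.hom ≫ biproduct.π B k) =
            biproduct.ι B j ≫ biproduct.π B k := by
          simp only [assoc]
          rw [reassoc_of% hqp, Iso.inv_hom_id_assoc]
        rw [h1]
        by_cases hjk : j = k
        · subst hjk
          rw [biproduct.ι_π_self, biproduct.ι_π_self]
          rfl
        · rw [biproduct.ι_π_ne _ hjk]
          exact (biproduct.ι_π_ne B' fun h => hjk (Fin.succ_injective _ h)).symm

/-- a zero object is an empty direct sum -/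
lemma iso_zero {A : T} (h : IsZero A) (B : Fin 0 → T) : Nonempty (A ≅ ⨁ B) := by
  refine ⟨h.iso ?_⟩
  rw [IsZero.iff_id_eq_zero]
  exact biproduct.hom_ext' _ _ fun j => j.elim0

end Biproduct

namespace Realization

variable {T : Type u} [Category.{v} T] [Preadditive T] [HasZeroObject T] [HasShift T ℤ]
  [∀ n : ℤ, (shiftFunctor T n).Additive] [Pretriangulated T] [MonoidalCategory T]
  [SymmetricCategory T] {F : Type w} [Field F] {R : Realization T F}
  [∀ X : T, (tensorLeft X).CommShift ℤ] [∀ X : T, (tensorLeft X).IsTriangulated]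

/-- A Künneth projector gives a direct summand concentrated in one degree. -/
lemma exists_summand [IsIdempotentComplete T] (hrig : IsRigid T) (hinj : R.InjectiveOnPure)
    {n : ℤ} {A : T} (h : R.KP n A) : ∃ (D : T) (f : D ⟶ A) (r : A ⟶ D),
      R.ConcentratedIn n D ∧ f ≫ r = 𝟙 D ∧ R.IdOn n (r ≫ f) := by
  obtain ⟨W, u, v, hW, huv⟩ := h
  unfold IdOn at huv
  have h1 : (v ≫ u) ≫ (v ≫ u) - v ≫ u = 0 := by
    apply eq_zero_of_pure hrig hinj le_rfl hW hW
    have h2 : (v ≫ u) ≫ (v ≫ u) = v ≫ (u ≫ v) ≫ u := by simp only [assoc]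
    rw [sub_eq_add_neg, mp_add, mp_neg, h2]
    ext x
    rw [LinearMap.add_apply, LinearMap.neg_apply, mp_comp_apply, mp_comp_apply, huv,
      LinearMap.id_apply, mp_comp_apply, add_neg_cancel, LinearMap.zero_apply]
  obtain ⟨D, i, e, hie, hei⟩ := IsIdempotentComplete.idempotents_split W _ (sub_eq_zero.1 h1)
  refine ⟨D, i ≫ v, u ≫ e, fun j hj => R.van_of_retract ⟨i, e, hie⟩ (hW j hj), ?_, ?_⟩
  · have h2 : (i ≫ v) ≫ u ≫ e = i ≫ (v ≫ u) ≫ e := by simp only [assoc]
    rw [h2, ← hei, assoc, hie, comp_id, hie]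
  · unfold IdOn
    have h2 : (u ≫ e) ≫ i ≫ v = (u ≫ v) ≫ (u ≫ v) := by
      rw [assoc, ← assoc e, hei]
      simp only [assoc]
    rw [h2, mp_comp, huv, LinearMap.id_comp]

/-- Direct sum decompositions from Künneth projectors. -/
theorem dec_of_kp [IsIdempotentComplete T] (hrig : IsRigid T) (hinj : R.InjectiveOnPure)
    (A₀ : T) (a : ℤ) (N : ℕ) : ∀ A : T, Nonempty (Retract A A₀) → (∀ n, R.KP n A) →
      (∀ i : ℤ, i < a ∨ a + N ≤ i → R.Van i A) →
      ∃ (n : ℕ) (B : Fin n → T), (∀ j, Nonempty (Retract (B j) A₀) ∧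
        ∃ d : ℤ, R.ConcentratedIn d (B j)) ∧ Nonempty (A ≅ ⨁ B) := by
  have hcons := conservative_of_inj hrig hinj
  induction N with
  | zero =>
    intro A _ _ hA
    refine ⟨0, Fin.elim0, fun j => j.elim0, iso_zero (hcons A fun i => hA i ?_) _⟩
    rcases lt_or_ge i a with h | h
    · exact Or.inl h
    · exact Or.inr (by simpa using h)
  | succ N ih =>
    intro A hret hKP hA
    obtain ⟨r₀⟩ := hret
    obtain ⟨D, f, r, hD, hfr, hid⟩ := exists_summand hrig hinj (hKP (a + N))
    obtain ⟨A₁, q, p, hqp, hsum⟩ := exists_compl f r hfr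
    have r₁ : Retract A₁ A := ⟨q, p, hqp⟩
    have rD : Retract D A := ⟨f, r, hfr⟩
    obtain ⟨n, B, hB, ⟨e⟩⟩ := ih A₁ ⟨r₁.trans r₀⟩ (fun n => KP.of_retract r₁ (hKP n)) (by
      intro i hi
      by_cases h1 : i = a + N
      · subst h1
        have h0 : ∀ x : R.Hm (a + N) A₁, x = 0 := by
          intro x
          unfold IdOn at hid
          have h5 : R.mp (a + N) (p ≫ q) = 0 := by
            have h6 : p ≫ q = 𝟙 A - r ≫ f := by rw [← hsum]; abel
            rw [h6, sub_eq_add_neg, mp_add, mp_neg, hid, mp_id, add_neg_cancel]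
          have h6 : R.mp (a + N) q x = 0 := by
            have h7 : q = q ≫ (p ≫ q) := by rw [← assoc, hqp, id_comp]
            rw [h7, mp_comp_apply, h5, LinearMap.zero_apply]
          have h7 := congrArg (R.mp (a + N) p) h6
          rwa [map_zero, ← mp_comp_apply, hqp, mp_id, LinearMap.id_apply] at h7
        exact ⟨fun x y => (h0 x).trans (h0 y).symm⟩
      · refine R.van_of_retract r₁ (hA i ?_)
        rcases hi with hi | hi
        · exact Or.inl hi
        · right
          push_cast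
          lia)
    refine ⟨n + 1, Fin.cons D B, ?_, iso_cons f r q p hfr hqp hsum e⟩
    intro j
    induction j using Fin.cases with
    | zero => exact ⟨⟨rD.trans r₀⟩, _, hD⟩
    | succ j => exact hB j

end Realization

end Pool.Agent.Lib.MotT
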