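import Pool.Agent.Lib.MP_6d0ce9_ag.FrobDefs

/-!
# The hard Lefschetz theorem and the conjectures of Murre and Beilinson: definitions

Example to keep in mind: `T` is the category of constructible motives with rational coefficients
over a field `k`, for instance a prime field, and `S` is the class of Chow motives, that is, the
class of the retracts of the motives `h(X)(n)[2n]` for `X` smooth and projective of pure
dimension and `n` an integer (`h(X)` is the dual of `M(X)`). We have
`Hom(𝟙, h(X)(n)[2n + m]) = CH^n(X, -m)` (Voevodsky), with rational coefficients.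
-/

universe w v u

open CategoryTheory Category Limits MonoidalCategory Pretriangulated Triangulated

namespace Pool.Agent.Lib.MotT

section

variable {T : Type u} [Category.{v} T] [Preadditive T] [HasZeroObject T] [HasShift T ℤ]
  [∀ n : ℤ, (shiftFunctor T n).Additive] [Pretriangulated T] [MonoidalCategory T]
  [BraidedCategory T] {F : Type w} [Field F]

/-- The hard Lefschetz property: there is an integer `d` such that for every `i ≥ 0` there are an
invertible object `Λ` concentrated in degree `-2i` and a morphism `L : B ⟶ B ⊗ Λ` which
is bijective on `H^{d-i}`. In the example `B = h(X)(n)[2n]`, `d = dim X - 2n`, `Λ = 𝟙(i)[2i]`,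
and `L` is the product with the `i`-th power of the class of an ample divisor (Deligne,
Weil II, in every characteristic). -/
def HardLefschetz (R : Realization T F) (B : T) : Prop :=
  ∃ d : ℤ, ∀ i : ℕ, ∃ (Λ Λ' : T) (L : B ⟶ B ⊗ Λ), Nonempty (Λ ⊗ Λ' ≅ 𝟙_ T) ∧
    R.ConcentratedIn (-2 * (i : ℤ)) Λ ∧
      Function.Bijective (R.H0.map (L⟦d - (i : ℤ)⟧')).hom

/-- Every object of `S` is a retract of an object of `S` with the hard Lefschetz property. -/
def LefschetzGenerated (R : Realization T F) (S : ObjectProperty T) : Prop :=
  ∀ A : T, S A → ∃ B : T, S B ∧ Nonempty (Retract A B) ∧ HardLefschetz R B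

/-- Every object of `S` is a finite direct sum of objects of `S` which are concentrated in one
degree. In the example this is the existence of Chow-Künneth decompositions, conjecture (A) of
Murre. -/
def ChowKunneth (R : Realization T F) (S : ObjectProperty T) : Prop :=
  ∀ A : T, S A → ∃ (n : ℕ) (B : Fin n → T),
    (∀ j, S (B j) ∧ ∃ d : ℤ, R.ConcentratedIn d (B j)) ∧ Nonempty (A ≅ ⨁ B)

/-- If `A` in `S` is concentrated in degree `j` and `n ≤ j`, then for every nonzero
`f : 𝟙 ⟶ A[n]` there is `g : A[n] ⟶ 𝟙` with `f ≫ g ≠ 0`. As the unit object is concentrated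
in degree `0`, for `n < j` this means that there are no nonzero morphisms `𝟙 ⟶ A[n]`. In the
example: if `A` is the part `h^{2n}(X)(n)[2n]` of degree `0` of `h(X)(n)[2n]` and `n = j = 0` this
says that rational and numerical equivalence agree on the image of the Künneth projector, as
expected by conjecture (D) of Murre and the standard conjectures, and the other cases are the half
`i > 2p` of the vanishing in conjecture (B) of Murre and the conjecture of Beilinson and Soulé. -/
def RatEqNumUpTo (R : Realization T F) (S : ObjectProperty T) : Prop :=
  ∀ A : T, S A → ∀ j n : ℤ, R.ConcentratedIn j A → n ≤ j →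
    ∀ f : 𝟙_ T ⟶ A⟦n⟧, f ≠ 0 → ∃ g : A⟦n⟧ ⟶ 𝟙_ T, f ≫ g ≠ 0

end

end Pool.Agent.Lib.MotT
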