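import Pool.Agent.Lib.MP_6d0ce9_ag.Lef

/-!
# Künneth projectors from the hard Lefschetz property: the induction
-/

set_option linter.unusedSectionVars false

universe w v u

open CategoryTheory Category Limits MonoidalCategory Pretriangulated Triangulated
  ObjectProperty

namespace Pool.Agent.Lib.MotT

namespace Realization

variable {T : Type u} [Category.{v} T] [Preadditive T] [HasZeroObject T] [HasShift T ℤ]
  [∀ n : ℤ, (shiftFunctor T n).Additive] [Pretriangulated T] [MonoidalCategory T]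
  [SymmetricCategory T] {F : Type w} [Field F] {R : Realization T F} {t : TStructure T}
  [∀ X : T, (tensorLeft X).CommShift ℤ]
  [∀ X : T, (tensorLeft X).IsTriangulated] [IsTriangulated T]

/-- The lowest cohomology object as a subobject. -/
lemma exists_bot (hR : R.TExact t) {B : T} {a : ℤ} (hB : ∀ i, i < a → R.Van i B) :
    ∃ (D : T) (f : D ⟶ B), R.ConcentratedIn a D ∧ Function.Bijective (R.mp a f) := by
  obtain ⟨D, B', f, g, δ, hT, hD, hB'⟩ := exists_trunc t B a (a + 1) rfl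
  refine ⟨D, f, ?_, ?_, ?_⟩
  · intro i hi
    rcases lt_or_gt_of_ne hi with h | h
    · exact (van_trunc hR hT rfl hD hB' i (hB i h)).1
    · exact van_of_le hR hD h
  · rw [injective_iff_map_eq_zero]
    intro x hx
    exact R.inj_fst hT (van_of_ge hR hB' (by lia)) hx
  · intro x
    exact R.surj_fst hT (van_of_ge hR hB' (by lia)) x

/-- The highest cohomology object as a quotient. -/
lemma exists_top (hR : R.TExact t) {C : T} {a : ℤ} (hC : ∀ i, a < i → R.Van i C) :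
    ∃ (E : T) (g : C ⟶ E), R.ConcentratedIn a E ∧ Function.Bijective (R.mp a g) := by
  obtain ⟨A, E, f, g, δ, hT, hA, hE⟩ := exists_trunc t C (a - 1) a (by lia)
  refine ⟨E, g, ?_, ?_, ?_⟩
  · intro i hi
    rcases lt_or_gt_of_ne hi with h | h
    · exact van_of_ge hR hE h
    · exact (van_trunc hR hT (by lia) hA hE i (hC i h)).2
  · rw [injective_iff_map_eq_zero]
    intro x hx
    exact R.inj_snd hT (van_of_le hR hA (by lia)) hx
  · intro x
    exact R.surj_snd hT (van_of_le hR hA (by lia)) x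

/-- A morphism between objects concentrated in degree `a`, bijective on `H^a`, is an
isomorphism. -/
lemma isIso_of_conc (hcons : R.Conservative) {X Y : T} {a : ℤ} (hX : R.ConcentratedIn a X)
    (hY : R.ConcentratedIn a Y) (f : X ⟶ Y) (hf : Function.Bijective (R.mp a f)) : IsIso f := by
  apply isIso_of_bij hcons
  · intro i y
    by_cases hi : i = a
    · subst hi
      exact hf.2 y
    · exact ⟨0, (hY i hi).elim _ _⟩
  · intro i x hx
    by_cases hi : i = a
    · subst hi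
      exact hf.1 (by rw [hx, map_zero])
    · exact (hX i hi).elim _ _

/-- The Lefschetz morphism splits off the lowest and the highest cohomology object. -/
lemma split_ends (hR : R.TExact t) (hcons : R.Conservative) {B : T} {d : ℤ} {M : ℕ}
    (hB : ∀ i : ℤ, (M : ℤ) < |i - d| → R.Van i B) (hL : R.LefAt d M B) :
    ∃ (D X : T) (f : D ⟶ B) (r : B ⟶ D) (f₂ : X ⟶ B) (r₂ : B ⟶ X),
      R.ConcentratedIn (d - M) D ∧ R.ConcentratedIn (d + M) X ∧ f ≫ r = 𝟙 D ∧ f₂ ≫ r₂ = 𝟙 X ∧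
      R.IdOn (d - M) (r ≫ f) ∧ R.IdOn (d + M) (r₂ ≫ f₂) := by
  obtain ⟨Λ, Λ', L, ⟨e⟩, hΛ, hL⟩ := hL
  have hC : ∀ i, d - M < i → R.Van i (B ⊗ Λ) := by
    intro i hi
    refine R.van_tensor i B Λ fun k => ?_
    by_cases hk : i - k = -2 * (M : ℤ)
    · left
      apply hB
      rw [lt_abs]
      left
      lia
    · right
      exact hΛ _ hk
  obtain ⟨D, f, hD, hf⟩ := exists_bot hR (B := B) (a := d - M) (fun i hi => hB i (by
    rw [lt_abs]; right; lia))
  obtain ⟨E, g, hE, hg⟩ := exists_top hR (C := B ⊗ Λ) (a := d - M) hC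
  have hw : IsIso (f ≫ L ≫ g) := by
    apply isIso_of_conc hcons hD hE
    rw [mp_comp, mp_comp]
    exact (hg.comp hL).comp hf
  have hfr : f ≫ (L ≫ g ≫ inv (f ≫ L ≫ g)) = 𝟙 D := by
    have := IsIso.hom_inv_id (f ≫ L ≫ g)
    simpa only [assoc] using this
  have hsg : (inv (f ≫ L ≫ g) ≫ f ≫ L) ≫ g = 𝟙 E := by
    have := IsIso.inv_hom_id (f ≫ L ≫ g)
    simpa only [assoc] using this
  have e' : (B ⊗ Λ) ⊗ Λ' ≅ B := α_ B Λ Λ' ≪≫ whiskerLeftIso B e ≪≫ ρ_ B
  have hΛ' : R.ConcentratedIn (2 * (M : ℤ)) Λ' := by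
    have := conc_inverse e hΛ
    rwa [show -(-2 * (M : ℤ)) = 2 * M by ring] at this
  refine ⟨D, E ⊗ Λ', f, L ≫ g ≫ inv (f ≫ L ≫ g),
    ((inv (f ≫ L ≫ g) ≫ f ≫ L) ▷ Λ') ≫ e'.hom, e'.inv ≫ (g ▷ Λ'), hD,
    R.conc_tensor (by ring) hE hΛ', hfr, ?_, ?_, ?_⟩
  · rw [assoc, Iso.hom_inv_id_assoc, ← comp_whiskerRight, hsg, id_whiskerRight]
  · unfold IdOn
    ext x
    obtain ⟨y, rfl⟩ := hf.2 x
    rw [← mp_comp_apply, ← assoc, hfr, id_comp, LinearMap.id_apply]
  · have h1 : R.IdOn (d - M) (g ≫ inv (f ≫ L ≫ g) ≫ f ≫ L) := by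
      unfold IdOn
      ext x
      apply hg.1
      rw [← mp_comp_apply, LinearMap.id_apply]
      have h2 : (g ≫ inv (f ≫ L ≫ g) ≫ f ≫ L) ≫ g = g := by
        rw [assoc, hsg, comp_id]
      rw [h2]
    have h2 : R.IdOn (d + M) ((g ≫ inv (f ≫ L ≫ g) ≫ f ≫ L) ▷ Λ') :=
      h1.whiskerRight (by ring) hΛ'
    unfold IdOn at h2 ⊢
    have h3 : (e'.inv ≫ (g ▷ Λ')) ≫ ((inv (f ≫ L ≫ g) ≫ f ≫ L) ▷ Λ') ≫ e'.hom =
        e'.inv ≫ ((g ≫ inv (f ≫ L ≫ g) ≫ f ≫ L) ▷ Λ') ≫ e'.hom := by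
      rw [assoc, ← comp_whiskerRight_assoc]
    ext x
    rw [h3, mp_comp_apply, mp_comp_apply, h2, LinearMap.id_apply, ← mp_comp_apply,
      Iso.inv_hom_id, mp_id]

/-- Künneth projectors from the hard Lefschetz property. -/
theorem kp_of_lef [IsIdempotentComplete T] (hR : R.TExact t) (hcons : R.Conservative)
    (d : ℤ) (m : ℕ) : ∀ B : T, (∀ i : ℤ, (m : ℤ) < |i - d| → R.Van i B) →
      (∀ i : ℕ, i ≤ m → R.LefAt d i B) → ∀ n, R.KP n B := by
  induction m with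
  | zero =>
    intro B hB _ n
    by_cases hn : n = d
    · subst hn
      refine ⟨B, 𝟙 B, 𝟙 B, fun i hi => hB i ?_, ?_⟩
      · simpa [sub_eq_zero] using hi
      · unfold IdOn
        rw [comp_id, mp_id]
    · apply KP.of_van
      apply hB
      simpa [sub_eq_zero] using hn
  | succ m ih =>
    intro B hB hL n
    obtain ⟨D, X, f, r, f₂, r₂, hD, hX, hfr, hfr₂, hid, hid₂⟩ := split_ends hR hcons hB
      (hL _ le_rfl)
    obtain ⟨B₁, q, p, hqp, hsum⟩ := exists_compl f r hfr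
    -- `X` is a retract of `B₁`
    have hne : (d + ((m + 1 : ℕ) : ℤ)) ≠ d - ((m + 1 : ℕ) : ℤ) := by push_cast; lia
    have hiso : IsIso ((f₂ ≫ p) ≫ (q ≫ r₂)) := by
      apply isIso_of_conc hcons hX hX
      have h1 : (f₂ ≫ p) ≫ (q ≫ r₂) = 𝟙 X - (f₂ ≫ r) ≫ f ≫ r₂ := by
        have h2 : p ≫ q = 𝟙 B - r ≫ f := by rw [← hsum]; abel
        rw [assoc, ← assoc p q, h2, Preadditive.sub_comp, Preadditive.comp_sub, id_comp, hfr₂]
        simp only [assoc]
      have h2 : R.mp (d + ((m + 1 : ℕ) : ℤ)) ((f₂ ≫ p) ≫ (q ≫ r₂)) = LinearMap.id := by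
        rw [h1, sub_eq_add_neg, mp_add, mp_neg, mp_comp_zero (f₂ ≫ r) (f ≫ r₂) ?_, mp_id,
          neg_zero, add_zero]
        exact hD _ hne
      rw [h2]
      exact Function.bijective_id
    have hret : (f₂ ≫ p) ≫ ((q ≫ r₂) ≫ inv ((f₂ ≫ p) ≫ (q ≫ r₂))) = 𝟙 X := by
      rw [← assoc, IsIso.hom_inv_id]
    obtain ⟨B₂, q₂, p₂, hqp₂, hsum₂⟩ := exists_compl (f₂ ≫ p)
      ((q ≫ r₂) ≫ inv ((f₂ ≫ p) ≫ (q ≫ r₂))) hret
    have hqp' : (q₂ ≫ q) ≫ (p ≫ p₂) = 𝟙 B₂ := by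
      rw [assoc, ← assoc q, hqp, id_comp, hqp₂]
    have hid' : ∀ j : ℤ, j ≠ d - ((m + 1 : ℕ) : ℤ) → j ≠ d + ((m + 1 : ℕ) : ℤ) →
        R.IdOn j ((p ≫ p₂) ≫ (q₂ ≫ q)) := by
      intro j hj1 hj2
      have h2 : p₂ ≫ q₂ = 𝟙 B₁ - ((q ≫ r₂) ≫ inv ((f₂ ≫ p) ≫ (q ≫ r₂))) ≫ f₂ ≫ p := by
        rw [← hsum₂]; abel
      have h3 : p ≫ q = 𝟙 B - r ≫ f := by rw [← hsum]; abel
      have h4 : (p ≫ p₂) ≫ (q₂ ≫ q) = 𝟙 B - r ≫ f -
          (p ≫ (q ≫ r₂) ≫ inv ((f₂ ≫ p) ≫ (q ≫ r₂))) ≫ (f₂ ≫ p) ≫ q := by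
        rw [assoc, ← assoc p₂ q₂, h2, Preadditive.sub_comp, Preadditive.comp_sub, id_comp, h3]
        simp only [assoc]
      unfold IdOn
      rw [h4, sub_eq_add_neg, sub_eq_add_neg, mp_add, mp_add, mp_neg, mp_neg,
        mp_comp_zero r f (hD j hj1), mp_comp_zero _ _ (hX j hj2), mp_id, neg_zero, add_zero,
        add_zero]
    have hvan : ∀ i : ℤ, (m : ℤ) < |i - d| → R.Van i B₂ := by
      intro i hi
      have hret' : Retract B₂ B := ⟨q₂ ≫ q, p ≫ p₂, hqp'⟩
      by_cases h1 : ((m + 1 : ℕ) : ℤ) < |i - d|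
      · exact R.van_of_retract hret' (hB i h1)
      · have h2 : |i - d| = ((m + 1 : ℕ) : ℤ) := by push_cast at h1 ⊢; lia
        rcases abs_eq (by positivity) |>.1 h2 with h3 | h3
        · -- `i = d + M`: the complement of `X` in `B₁`
          have hi' : i = d + ((m + 1 : ℕ) : ℤ) := by lia
          subst hi'
          have h0 : ∀ x : R.Hm (d + ((m + 1 : ℕ) : ℤ)) B₂, x = 0 := by
            intro x
            have h4 : R.IdOn (d + ((m + 1 : ℕ) : ℤ))
                (((q ≫ r₂) ≫ inv ((f₂ ≫ p) ≫ (q ≫ r₂))) ≫ f₂ ≫ p) := by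
              unfold IdOn
              ext y
              -- `y = p x`
              have h5 : R.mp (d + ((m + 1 : ℕ) : ℤ)) p (R.mp _ q y) = y := by
                rw [← mp_comp_apply, hqp, mp_id, LinearMap.id_apply]
              have h6 : R.mp (d + ((m + 1 : ℕ) : ℤ)) f₂ (R.mp _ r₂ (R.mp _ q y)) =
                  R.mp _ q y := by
                unfold IdOn at hid₂
                rw [← mp_comp_apply, hid₂, LinearMap.id_apply]
              have h7 : R.mp (d + ((m + 1 : ℕ) : ℤ)) (f₂ ≫ p) (R.mp _ r₂ (R.mp _ q y)) = y := by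
                rw [mp_comp_apply, h6, h5]
              rw [LinearMap.id_apply]
              conv_lhs => rw [← h7]
              rw [← mp_comp_apply, ← assoc, hret, id_comp, h7]
            unfold IdOn at h4
            have h5 : R.mp (d + ((m + 1 : ℕ) : ℤ)) (p₂ ≫ q₂) = 0 := by
              have h6 : p₂ ≫ q₂ = 𝟙 B₁ -
                  ((q ≫ r₂) ≫ inv ((f₂ ≫ p) ≫ (q ≫ r₂))) ≫ f₂ ≫ p := by
                rw [← hsum₂]; abel
              rw [h6, sub_eq_add_neg, mp_add, mp_neg, h4, mp_id, add_neg_cancel]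
            have h6 : R.mp (d + ((m + 1 : ℕ) : ℤ)) q₂ x = 0 := by
              have h7 : q₂ = q₂ ≫ (p₂ ≫ q₂) := by rw [← assoc, hqp₂, id_comp]
              rw [h7, mp_comp_apply, h5, LinearMap.zero_apply]
            have h7 := congrArg (R.mp (d + ((m + 1 : ℕ) : ℤ)) p₂) h6
            rwa [map_zero, ← mp_comp_apply, hqp₂, mp_id, LinearMap.id_apply] at h7
          exact ⟨fun x y => (h0 x).trans (h0 y).symm⟩
        · -- `i = d - M`: the complement of `D` in `B`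
          have hi' : i = d - ((m + 1 : ℕ) : ℤ) := by lia
          subst hi'
          refine R.van_of_retract (Retract.mk q₂ p₂ hqp₂) ?_
          have h0 : ∀ x : R.Hm (d - ((m + 1 : ℕ) : ℤ)) B₁, x = 0 := by
            intro x
            unfold IdOn at hid
            have h5 : R.mp (d - ((m + 1 : ℕ) : ℤ)) (p ≫ q) = 0 := by
              have h6 : p ≫ q = 𝟙 B - r ≫ f := by rw [← hsum]; abel
              rw [h6, sub_eq_add_neg (𝟙 B), mp_add, mp_neg, hid, mp_id, add_neg_cancel]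
            have h6 : R.mp (d - ((m + 1 : ℕ) : ℤ)) q x = 0 := by
              have h7 : q = q ≫ (p ≫ q) := by rw [← assoc, hqp, id_comp]
              rw [h7, mp_comp_apply, h5, LinearMap.zero_apply]
            have h7 := congrArg (R.mp (d - ((m + 1 : ℕ) : ℤ)) p) h6
            rwa [map_zero, ← mp_comp_apply, hqp, mp_id, LinearMap.id_apply] at h7
          exact ⟨fun x y => (h0 x).trans (h0 y).symm⟩
    have hlef : ∀ i : ℕ, i ≤ m → R.LefAt d i B₂ := fun i hi =>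
      (hL i (by lia)).of_summand (q₂ ≫ q) (p ≫ p₂) hqp'
        (hid' _ (by push_cast; lia) (by push_cast; lia))
        (hid' _ (by push_cast; lia) (by push_cast; lia))
    by_cases h1 : n = d - ((m + 1 : ℕ) : ℤ)
    · subst h1
      exact ⟨D, r, f, hD, hid⟩
    by_cases h2 : n = d + ((m + 1 : ℕ) : ℤ)
    · subst h2
      exact ⟨X, r₂, f₂, hX, hid₂⟩
    exact KP.of_idOn (p ≫ p₂) (q₂ ≫ q) (hid' n h1 h2) (ih B₂ hvan hlef n)

end Realization

end Pool.Agent.Lib.MotT
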