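import Pool.Agent.Lib.MP_6d0ce9_ag.Sub

/-!
# Exactness of a realisation from a generating class
-/

set_option linter.unusedSectionVars false

universe w v u

open CategoryTheory Category Limits MonoidalCategory Pretriangulated Triangulated
  ObjectProperty

namespace Pool.Agent.Lib.MotT

section

variable {T : Type u} [Category.{v} T] [MonoidalCategory T]

lemma tpowMap_comp {X Y Z : T} (f : X ⟶ Y) (g : Y ⟶ Z) (n : ℕ) :
    tpowMap (f ≫ g) n = tpowMap f n ≫ tpowMap g n := by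
  induction n with
  | zero => rfl
  | succ n ih =>
    change tpowMap (f ≫ g) n ⊗ₘ (f ≫ g) = (tpowMap f n ⊗ₘ f) ≫ (tpowMap g n ⊗ₘ g)
    rw [ih, tensorHom_comp_tensorHom]

lemma tpowMap_id (X : T) (n : ℕ) : tpowMap (𝟙 X) n = 𝟙 (tpow X n) := by
  induction n with
  | zero => rfl
  | succ n ih =>
    change tpowMap (𝟙 X) n ⊗ₘ 𝟙 X = 𝟙 (tpow X n ⊗ X)
    rw [ih, id_tensorHom_id]

lemma ExtPowerVanishes.of_iso [BraidedCategory T] [Preadditive T] {X Y : T} {n : ℕ}
    (h : ExtPowerVanishes X n) (e : X ≅ Y) : ExtPowerVanishes Y n := by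
  intro W hW
  have h1 := antisym_natural e.hom n W
  rw [h W hW, zero_comp] at h1
  have h2 : tpowMap e.inv n ≫ tpowMap e.hom n = 𝟙 _ := by
    rw [← tpowMap_comp, e.inv_hom_id, tpowMap_id]
  rw [← id_comp (antisym Y n W), ← h2, assoc, h1, comp_zero]

end

namespace Realization

variable {T : Type u} [Category.{v} T] [Preadditive T] [HasZeroObject T] [HasShift T ℤ]
  [∀ n : ℤ, (shiftFunctor T n).Additive] [Pretriangulated T] [MonoidalCategory T]
  [SymmetricCategory T] {F : Type w} [Field F] (R : Realization T F) (t : TStructure T)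

/-- Objects in degree `n` for the t-structure and for the realisation, having a vanishing
exterior power after shifting them to the heart. -/
def DD (n : ℤ) : ObjectProperty T := fun X =>
  t.IsLE X n ∧ t.IsGE X n ∧ R.ConcentratedIn n X ∧ ∃ m, ExtPowerVanishes (X⟦n⟧) m

variable {R} in
lemma ConcentratedIn.of_iso {n : ℤ} {X Y : T} (h : R.ConcentratedIn n X) (e : X ≅ Y) :
    R.ConcentratedIn n Y := fun i hi => R.van_of_iso e (h i hi)

variable {R} in
lemma ConcentratedIn.shift {n : ℤ} {X : T} (h : R.ConcentratedIn n X) (a : ℤ) :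
    R.ConcentratedIn (n - a) (X⟦a⟧) := fun i hi => by
  rw [van_shift]
  exact h _ (by lia)

instance (n : ℤ) : (R.DD t n).IsClosedUnderIsomorphisms where
  of_iso e h := by
    obtain ⟨h1, h2, h3, m, h4⟩ := h
    exact ⟨t.isLE_of_iso e n, t.isGE_of_iso e n, h3.of_iso e, m,
      h4.of_iso ((shiftFunctor T n).mapIso e)⟩

lemma DD_shift (n a : ℤ) (X : T) (h : R.DD t n X) : R.DD t (n - a) (X⟦a⟧) := by
  obtain ⟨h1, h2, h3, m, h4⟩ := h
  refine ⟨t.isLE_shift X n a (n - a) (by lia), t.isGE_shift X n a (n - a) (by lia),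
    h3.shift a, m, h4.of_iso ?_⟩
  exact (shiftFunctorAdd' T a (n - a) n (by lia)).app X

lemma ext_of_shift (n m s : ℤ) (X : T)
    (h : extensionProduct (R.DD t (n - s)) (R.DD t (m - s)) (X⟦s⟧)) :
    extensionProduct (R.DD t n) (R.DD t m) X := by
  obtain ⟨A, B, f, g, δ, hT, hA, hB⟩ := h
  have e : X⟦s⟧⟦-s⟧ ≅ X := shiftShiftNeg X s
  refine (extensionProduct (R.DD t n) (R.DD t m)).prop_of_iso e
    ⟨_, _, _, _, _, Triangle.shift_distinguished _ hT (-s), ?_, ?_⟩
  · have := R.DD_shift t (n - s) (-s) A hA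
    rwa [show n - s - -s = n by ring] at this
  · have := R.DD_shift t (m - s) (-s) B hB
    rwa [show m - s - -s = m by ring] at this

lemma DD_zero_iff (X : T) : R.DD t 0 X ↔
    t.heart X ∧ R.ConcentratedIn 0 X ∧ ∃ m, ExtPowerVanishes X m := by
  constructor
  · rintro ⟨h1, h2, h3, m, h4⟩
    exact ⟨(heart_iff t X).2 ⟨h1, h2⟩, h3, m, h4.of_iso ((shiftFunctorZero T ℤ).app X)⟩
  · rintro ⟨h1, h3, m, h4⟩
    exact ⟨((heart_iff t X).1 h1).1, ((heart_iff t X).1 h1).2, h3, m,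
      h4.of_iso ((shiftFunctorZero T ℤ).app X).symm⟩

variable [∀ X : T, (tensorLeft X).CommShift ℤ]
  [∀ X : T, (tensorLeft X).IsTriangulated] [IsTriangulated T]

variable {t} in
/-- For a morphism between objects of degree `0`, the cone is an extension of objects of
degrees `-1` and `0`. -/
lemma cone_mem [CharZero F] (ht : TensorCompatible t) {B A Z : T} (hB : R.DD t 0 B)
    (hA : R.DD t 0 A) (f : B ⟶ A) (v : A ⟶ Z) (w : Z ⟶ B⟦(1 : ℤ)⟧)
    (hZ : Triangle.mk f v w ∈ distTriang T) :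
    extensionProduct (R.DD t (-1)) (R.DD t 0) Z := by
  obtain ⟨hB1, hB2, mB, hB3⟩ := (R.DD_zero_iff t B).1 hB
  obtain ⟨hA1, hA2, mA, hA3⟩ := (R.DD_zero_iff t A).1 hA
  obtain ⟨K, I, C, k, p, a, i, q, b, hK, hI, hC, hT₁, hT₂, hpi, Z', v', w', hZ', κ, c, δ,
    hT₃, hvc⟩ := heart_factor t f hB1 hA1
  have hKm : MonoCone t k := ⟨_, _, _, hT₁, ((heart_iff t I).1 hI).2⟩
  have hK' := ((heart_iff t K).1 hK).1
  have hI' := ((heart_iff t I).1 hI).1
  have hIe : EpiCone t p := ⟨_, _, _, rot_of_distTriang _ hT₁,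
    t.isLE_shift K 0 1 (-1) (by lia)⟩
  have hCe : EpiCone t q := ⟨_, _, _, rot_of_distTriang _ hT₂,
    t.isLE_shift I 0 1 (-1) (by lia)⟩
  have hK3 : ExtPowerVanishes K mB := extPower_of_mono ht hK hB1 hKm hB3
  have hI3 : ExtPowerVanishes I mB := extPower_of_epi ht hB1 hI hIe hB3
  have hC3 : ExtPowerVanishes C mA := extPower_of_epi ht hA1 hC hCe hA3
  have hK4 : R.ConcentratedIn 0 K := by
    intro j hj
    rcases Int.even_or_odd j with h | h
    · exact R.van₁' hT₁ (hB2 j hj) (R.van_odd hI3 (h.sub_odd odd_one))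
    · exact R.van_odd hK3 h
  have hI4 : R.ConcentratedIn 0 I := by
    intro j hj
    rcases Int.even_or_odd j with h | h
    · exact R.van₃' hT₁ (R.van_odd hK3 (h.add_odd odd_one)) (hB2 j hj)
    · exact R.van_odd hI3 h
  have hC4 : R.ConcentratedIn 0 C := by
    intro j hj
    rcases Int.even_or_odd j with h | h
    · exact R.van₃' hT₂ (R.van_odd hI3 (h.add_odd odd_one)) (hA2 j hj)
    · exact R.van_odd hC3 h
  have hKD : R.DD t (0 - 1) (K⟦(1 : ℤ)⟧) :=
    R.DD_shift t 0 1 K ((R.DD_zero_iff t K).2 ⟨hK, hK4, mB, hK3⟩)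
  have hCD : R.DD t 0 C := (R.DD_zero_iff t C).2 ⟨hC, hC4, mA, hC3⟩
  have e : Z' ≅ Z := Triangle.π₃.mapIso (isoTriangleOfIso₁₂ _ _ hZ' hZ (Iso.refl _)
    (Iso.refl _) ((comp_id f).trans (id_comp f).symm))
  exact (extensionProduct (R.DD t (-1)) (R.DD t 0)).prop_of_iso e
    ⟨_, _, _, _, _, hT₃, hKD, hCD⟩

variable {t} in
lemma DD_swap [CharZero F] (ht : TensorCompatible t) (a b : ℤ) (h : b < a) :
    extensionProduct (R.DD t a) (R.DD t b) ≤ extensionProduct (R.DD t b) (R.DD t a) := by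
  rintro X ⟨A, B, f, g, δ, hT, hA, hB⟩
  by_cases hab : a = b + 1
  · subst hab
    apply R.ext_of_shift t b (b + 1) (b + 1)
    have h1 := Triangle.shift_distinguished _ (rot_of_distTriang _ (rot_of_distTriang _ hT)) b
    have hB' : R.DD t 0 (B⟦b⟧) := by simpa using R.DD_shift t b b B hB
    have hA' : R.DD t 0 (A⟦(1 : ℤ)⟧⟦b⟧) := by
      have := R.DD_shift t (b + 1 - 1) b _ (R.DD_shift t (b + 1) 1 A hA)
      rwa [show b + 1 - 1 - b = 0 by ring] at this
    have h2 := R.cone_mem ht hB' hA' _ _ _ h1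
    rw [show b - (b + 1) = -1 by ring, show b + 1 - (b + 1) = 0 by ring]
    refine (extensionProduct (R.DD t (-1)) (R.DD t 0)).prop_of_iso ?_ h2
    exact ((shiftFunctorAdd' T 1 b (b + 1) (by lia)).app X).symm
  · have hδ : δ = 0 := by
      have h1 := hB.1
      have h2 := hA.2.1
      have h3 := t.isGE_shift A a 1 (a - 1) (by lia)
      exact t.zero_of_isLE_of_isGE δ b (a - 1) (by lia) h1 h3
    obtain ⟨e, -⟩ := exists_iso_binaryBiproduct_of_distTriang _ hT hδ
    have h3 := binaryBiproductTriangle_distinguished B A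
    refine (extensionProduct (R.DD t b) (R.DD t a)).prop_of_iso
      (?_ : B ⊞ A ≅ X) ⟨_, _, _, _, _, h3, hB, hA⟩
    exact (biprod.braiding B A) ≪≫ e.symm

/-- degree `≤ n` for both the t-structure and the realisation -/
def LL (n : ℤ) : ObjectProperty T := fun X => t.IsLE X n ∧ ∀ i, n < i → R.Van i X

/-- degree `> n` for both the t-structure and the realisation -/
def GG (n : ℤ) : ObjectProperty T := fun X => t.IsGE X (n + 1) ∧ ∀ i, i ≤ n → R.Van i X

instance (n : ℤ) : (R.LL t n).IsClosedUnderIsomorphisms where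
  of_iso e h := by
    obtain ⟨h1, h2⟩ := h
    exact ⟨t.isLE_of_iso e n, fun i hi => R.van_of_iso e (h2 i hi)⟩

instance (n : ℤ) : (R.GG t n).IsClosedUnderIsomorphisms where
  of_iso e h := by
    obtain ⟨h1, h2⟩ := h
    exact ⟨t.isGE_of_iso e (n + 1), fun i hi => R.van_of_iso e (h2 i hi)⟩

instance (n : ℤ) : (R.LL t n).ContainsZero where
  exists_zero := ⟨_, isZero_zero T, t.isLE_of_isZero (isZero_zero T) n,
    fun i _ => R.van_of_isZero (isZero_zero T) i⟩

instance (n : ℤ) : (R.GG t n).ContainsZero where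
  exists_zero := ⟨_, isZero_zero T, t.isGE_of_isZero (isZero_zero T) _,
    fun i _ => R.van_of_isZero (isZero_zero T) i⟩

lemma LL_ext (n : ℤ) : Sorting.ExtClosed (R.LL t n) := by
  rintro X ⟨A, B, f, g, δ, hT, hA, hB⟩
  exact ⟨isLE_ext t hT n hA.1 hB.1, fun i hi => R.van₂' hT (hA.2 i hi) (hB.2 i hi)⟩

lemma GG_ext (n : ℤ) : Sorting.ExtClosed (R.GG t n) := by
  rintro X ⟨A, B, f, g, δ, hT, hA, hB⟩
  exact ⟨isGE_ext t hT _ hA.1 hB.1, fun i hi => R.van₂' hT (hA.2 i hi) (hB.2 i hi)⟩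

variable {t} in
/-- If the objects of pure degree (in the sense of `DD`) generate, the realisation is
exact. -/
theorem texact_of_gen [CharZero F] (ht : TensorCompatible t)
    (hgen : (Sorting.anyOf (R.DD t)).IsClassicalTriangulatedGenerator) : R.TExact t := by
  have key : ∀ X : T, ∃ (Y : T) (_ : Retract X Y), ∀ n : ℤ,
      extensionProduct (R.LL t n) (R.GG t n) Y := by
    intro X
    have hX : (Sorting.anyOf (R.DD t)).triangEnvelope X := by
      rw [isClassicalTriangulatedGenerator_iff] at hgen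
      rw [hgen]
      trivial
    obtain ⟨Y, r, hY⟩ := Sorting.exists_retract (R.DD_shift t) (R.DD_swap ht) hX
    refine ⟨Y, r, fun n => ?_⟩
    refine hY (R.LL t n) (R.GG t n) (R.LL_ext t n) (R.GG_ext t n) n ?_ ?_
    · rintro a ha Z ⟨h1, h2, h3, -⟩
      exact ⟨t.isLE_of_le Z a n ha, fun i hi => h3 i (by lia)⟩
    · rintro a ha Z ⟨h1, h2, h3, -⟩
      exact ⟨t.isGE_of_ge Z (n + 1) a (by lia), fun i hi => h3 i (by lia)⟩
  constructor
  · intro X hX i hi
    have hX' : t.IsLE X 0 := ⟨hX⟩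
    obtain ⟨Y, r, hY⟩ := key X
    obtain ⟨P, Q, f, g, δ, hT, hP, hQ⟩ := hY 0
    have h1 : r.i ≫ g = 0 := by
      have := hQ.1
      exact t.zero_of_isLE_of_isGE _ 0 (0 + 1) (by lia) hX' this
    obtain ⟨s, hs⟩ : ∃ s : X ⟶ P, r.i = s ≫ f := Triangle.coyoneda_exact₂ _ hT r.i h1
    refine R.van_of_retract (Y := P) ⟨s, f ≫ r.r, ?_⟩ (hP.2 i hi)
    rw [← assoc, ← hs, r.retract]
  · intro X hX i hi
    have hX' : t.IsGE X 0 := ⟨hX⟩
    obtain ⟨Y, r, hY⟩ := key X
    obtain ⟨P, Q, f, g, δ, hT, hP, hQ⟩ := hY (-1)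
    have h1 : f ≫ r.r = 0 := by
      have := hP.1
      exact t.zero_of_isLE_of_isGE _ (-1) 0 (by lia) this hX'
    obtain ⟨s, hs⟩ : ∃ s : Q ⟶ X, r.r = g ≫ s := Triangle.yoneda_exact₂ _ hT r.r h1
    refine R.van_of_retract (Y := Q) ⟨r.i ≫ g, s, ?_⟩ (hQ.2 i (by lia))
    rw [assoc, ← hs, r.retract]

end Realization

end Pool.Agent.Lib.MotT
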