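import Pool.Agent.Lib.MP_6d0ce9_ag.Approx

/-!
# Nilpotence of morphisms from the unit to an object concentrated in degree `-1`
-/

set_option linter.unusedSectionVars false

universe w v u

open CategoryTheory Category Limits MonoidalCategory Pretriangulated Triangulated
  ObjectProperty

namespace Pool.Agent.Lib.MotT

section

variable {T : Type u} [Category.{v} T] [MonoidalCategory T] [BraidedCategory T]

lemma braid_unit : (β_ (𝟙_ T) (𝟙_ T)).hom = 𝟙 (𝟙_ T ⊗ 𝟙_ T) := by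
  have h1 := braiding_leftUnitor (𝟙_ T)
  rw [unitors_equal] at h1
  have h2 : (β_ (𝟙_ T) (𝟙_ T)).hom ≫ (ρ_ (𝟙_ T)).hom = 𝟙 _ ≫ (ρ_ (𝟙_ T)).hom := by
    rw [h1, id_comp]
  exact (cancel_mono _).1 h2

/-- tensor powers of `δ : 𝟙 ⟶ N` with values in `tpow N n` -/
def dt {N : T} (δ : 𝟙_ T ⟶ N) : (n : ℕ) → (𝟙_ T ⟶ tpow N n)
  | 0 => δ
  | n + 1 => (λ_ (𝟙_ T)).inv ≫ (dt δ n ⊗ₘ δ)

lemma dt_swap {N : T} (δ : 𝟙_ T ⟶ N) (n j : ℕ) : dt δ n ≫ swapAt N n j = dt δ n := by
  induction n with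
  | zero => exact comp_id _
  | succ n ih =>
    cases n with
    | zero =>
      change ((λ_ (𝟙_ T)).inv ≫ (δ ⊗ₘ δ)) ≫ (β_ N N).hom = (λ_ (𝟙_ T)).inv ≫ (δ ⊗ₘ δ)
      rw [assoc, BraidedCategory.braiding_naturality, braid_unit, id_comp]
    | succ n =>
      by_cases hj : j = n + 1
      · subst hj
        have h1 : swapAt N (n + 2) (n + 1) =
            (α_ (tpow N n) N N).hom ≫ (tpow N n ◁ (β_ N N).hom) ≫ (α_ (tpow N n) N N).inv :=
          if_pos rfl
        have h3 : dt δ (n + 2) = ((λ_ (𝟙_ T)).inv ≫ ((λ_ (𝟙_ T)).inv ▷ 𝟙_ T)) ≫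
            ((dt δ n ⊗ₘ δ) ⊗ₘ δ) := by
          change (λ_ (𝟙_ T)).inv ≫ (((λ_ (𝟙_ T)).inv ≫ (dt δ n ⊗ₘ δ)) ⊗ₘ δ) = _
          rw [assoc, ← tensorHom_id, tensorHom_comp_tensorHom, id_comp]
        refine (congrArg (fun g => dt δ (n + 2) ≫ g) h1).trans ?_
        rw [h3]
        have h4 := last_swap_natural (dt δ n) δ
        rw [braid_unit, MonoidalCategory.whiskerLeft_id, id_comp, Iso.hom_inv_id,
          id_comp] at h4
        exact (assoc _ _ _).trans
          (congrArg (fun g => ((λ_ (𝟙_ T)).inv ≫ ((λ_ (𝟙_ T)).inv ▷ 𝟙_ T)) ≫ g) h4)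
      · have h1 : swapAt N (n + 2) j = swapAt N (n + 1) j ▷ N := if_neg hj
        refine (congrArg (fun g => dt δ (n + 2) ≫ g) h1).trans ?_
        change ((λ_ (𝟙_ T)).inv ≫ (dt δ (n + 1) ⊗ₘ δ)) ≫ (swapAt N (n + 1) j ▷ N) =
          (λ_ (𝟙_ T)).inv ≫ (dt δ (n + 1) ⊗ₘ δ)
        rw [assoc, ← tensorHom_id, tensorHom_comp_tensorHom, ih, comp_id]

lemma dt_word {N : T} (δ : 𝟙_ T ⟶ N) (n : ℕ) (w : List (Fin n)) :
    dt δ n ≫ wordAct N n w = dt δ n := by
  induction w with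
  | nil => exact comp_id _
  | cons j w ih =>
    change dt δ n ≫ (swapAt N n j ≫ wordAct N n w) = dt δ n
    rw [← assoc, dt_swap, ih]

end

section

variable {T : Type u} [Category.{v} T] [Preadditive T] [HasZeroObject T] [HasShift T ℤ]
  [∀ n : ℤ, (shiftFunctor T n).Additive] [Pretriangulated T] [MonoidalCategory T]
  [SymmetricCategory T] [∀ X : T, (tensorLeft X).CommShift ℤ]
  [∀ X : T, (tensorLeft X).IsTriangulated] [IsTriangulated T]

/-- comparison of the two versions of the tensor powers of `δ` -/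
lemma homPow_eq {N : T} (δ : 𝟙_ T ⟶ N) (n : ℕ) :
    ∃ e : tpow N n ⟶ unitPow N (n + 1), homPow δ (n + 1) = dt δ n ≫ e := by
  induction n with
  | zero =>
    refine ⟨(λ_ N).inv, ?_⟩
    change 𝟙 _ ≫ (ρ_ (𝟙_ T)).inv ≫ (𝟙_ T ◁ δ) = δ ≫ (λ_ N).inv
    rw [id_comp, leftUnitor_inv_naturality, unitors_inv_equal]
  | succ n ih =>
    obtain ⟨e, he⟩ := ih
    refine ⟨e ▷ N, ?_⟩
    change homPow δ (n + 1) ≫ (ρ_ (unitPow N (n + 1))).inv ≫ (unitPow N (n + 1) ◁ δ) =
      ((λ_ (𝟙_ T)).inv ≫ (dt δ n ⊗ₘ δ)) ≫ (e ▷ N)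
    rw [he, assoc (λ_ (𝟙_ T)).inv, ← tensorHom_id, tensorHom_comp_tensorHom, comp_id, ← he,
      MonoidalCategory.tensorHom_def, unitors_inv_equal, rightUnitor_inv_naturality_assoc]

end

namespace Realization

variable {T : Type u} [Category.{v} T] [Preadditive T] [HasZeroObject T] [HasShift T ℤ]
  [∀ n : ℤ, (shiftFunctor T n).Additive] [Pretriangulated T] [MonoidalCategory T]
  [SymmetricCategory T] {F : Type w} [Field F] {R : Realization T F}

/-- In odd degree the symmetriser acts as an antisymmetriser on cohomology. -/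
lemma mp_sym_eq_zero {N : T} {i : ℤ} (hi : Odd i) (hN : R.ConcentratedIn i N) (n : ℕ)
    (hn : Module.finrank F (R.Hm i N) ≤ n)
    (W : Equiv.Perm (Fin (n + 1)) → List (Fin n)) (hW : ∀ σ, wordPerm (W σ) = σ) :
    R.mp (dg i n) (∑ σ, wordAct N n (W σ)) = 0 := by
  have hfin : Module.Finite F (R.Hm i N) := R.finite i N
  refine LinearMap.ext_on_range (R.span_pw hN n) fun v => ?_
  rw [mp_sum, LinearMap.sum_apply, LinearMap.zero_apply]
  have h1 : ∀ σ : Equiv.Perm (Fin (n + 1)), R.mp (dg i n) (wordAct N n (W σ)) (R.pw i N n v) =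
      (Equiv.Perm.sign σ : ℤ) • R.pw i N n (v ∘ σ) := by
    intro σ
    rw [wordAct_pw, hW]
    have h3 : ((i * i).negOnePow : ℤ) = -1 := by
      rw [Int.negOnePow_odd _ (hi.mul hi)]; rfl
    have h4 : (Equiv.Perm.sign σ : ℤ) = (-1) ^ (W σ).length := by
      conv_lhs => rw [← hW σ, sign_wordPerm]
      push_cast
      rfl
    rw [h3, h4]
  simp only [h1]
  have h2 : (MultilinearMap.alternatization (R.pw i N n)) v = 0 := by
    apply AlternatingMap.map_linearDependent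
    intro hli
    have := hli.fintype_card_le_finrank
    simp at this
    omega
  rw [MultilinearMap.alternatization_apply] at h2
  rw [← h2]
  refine Finset.sum_congr rfl fun σ _ => ?_
  rfl

variable [∀ X : T, (tensorLeft X).CommShift ℤ] [∀ X : T, (tensorLeft X).IsTriangulated]
  [IsTriangulated T]

/-- Nilpotence. -/
theorem tensorNilpotent_of_odd [CharZero F] (hcons : R.Conservative) {N : T}
    (hN : R.ConcentratedIn (-1) N) (δ : 𝟙_ T ⟶ N) : TensorNilpotent δ := by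
  let n := Module.finrank F (R.Hm (-1) N)
  choose W hW using fun σ : Equiv.Perm (Fin (n + 1)) => exists_word σ
  let S : tpow N n ⟶ tpow N n := ∑ σ, wordAct N n (W σ)
  let m : ℤ := (Fintype.card (Equiv.Perm (Fin (n + 1))) : ℕ)
  have hm : m ≠ 0 := by
    have : Fintype.card (Equiv.Perm (Fin (n + 1))) ≠ 0 := Fintype.card_ne_zero
    exact Int.natCast_ne_zero.2 this
  have hmF : (m : F) ≠ 0 := by exact_mod_cast hm
  have hS : R.mp (dg (-1) n) S = 0 := mp_sym_eq_zero (by decide) hN n le_rfl W hW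
  have hconc := R.conc_tpow hN n
  have hiso : IsIso (S + -(m • 𝟙 (tpow N n))) := by
    have h1 : ∀ x : R.Hm (dg (-1) n) (tpow N n),
        R.mp (dg (-1) n) (S + -(m • 𝟙 (tpow N n))) x = -((m : F) • x) := by
      intro x
      rw [mp_add, mp_neg, mp_zsmul, mp_id, hS, zero_add, LinearMap.neg_apply,
        LinearMap.smul_apply, LinearMap.id_apply, Int.cast_smul_eq_zsmul]
    refine isIso_of_bij hcons _ ?_ ?_
    · intro i y
      by_cases hi : i = dg (-1) n
      · subst hi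
        refine ⟨-((m : F)⁻¹ • y), ?_⟩
        rw [h1, smul_neg, neg_neg, smul_smul, mul_inv_cancel₀ hmF, one_smul]
      · exact ⟨0, (hconc i hi).elim _ _⟩
    · intro i x hx
      by_cases hi : i = dg (-1) n
      · subst hi
        rw [h1, neg_eq_zero, smul_eq_zero] at hx
        exact hx.resolve_left hmF
      · exact (hconc i hi).elim _ _
  have h2 : dt δ n ≫ (S + -(m • 𝟙 (tpow N n))) = 0 := by
    have h3 : dt δ n ≫ S = m • dt δ n := by
      change dt δ n ≫ (∑ σ, wordAct N n (W σ)) = m • dt δ n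
      rw [Preadditive.comp_sum]
      simp only [dt_word]
      rw [Finset.sum_const, Finset.card_univ]
      change _ = ((Fintype.card (Equiv.Perm (Fin (n + 1))) : ℕ) : ℤ) • dt δ n
      rw [natCast_zsmul]
    rw [Preadditive.comp_add, h3, Preadditive.comp_neg, Preadditive.comp_zsmul, comp_id,
      add_neg_cancel]
  have h3 : dt δ n = 0 := by
    rw [← cancel_mono (S + -(m • 𝟙 (tpow N n))), h2, zero_comp]
  obtain ⟨e, he⟩ := homPow_eq δ n
  exact ⟨n + 1, by rw [he, h3, zero_comp]⟩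

end Realization

end Pool.Agent.Lib.MotT
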