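import Pool.Agent.Lib.MP_6d0ce9_ag.Perf
import Pool.Agent.Lib.MP_6d0ce9_ag.FrobDefs
import Pool.Agent.Lib.MP_6d0ce9_ag.Inj

/-!
# Vanishing and nondegeneracy imply injectivity
-/

set_option linter.unusedSectionVars false

universe w v u

open CategoryTheory Category Limits MonoidalCategory Pretriangulated Triangulated
  ObjectProperty

namespace Pool.Agent.Lib.MotT

section Mon

variable {T : Type u} [Category.{v} T] [MonoidalCategory T]

/-- the transpose of a morphism -/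
def tr {A A' Z : T} [ExactPairing A A'] (g : A ⟶ Z) : 𝟙_ T ⟶ Z ⊗ A' :=
  η_ A A' ≫ (g ▷ A')

/-- the transpose of a morphism from the dual object -/
def tr' {A A' : T} [ExactPairing A A'] (h : A' ⟶ 𝟙_ T) : 𝟙_ T ⟶ A :=
  η_ A A' ≫ (A ◁ h) ≫ (ρ_ A).hom

lemma tr_comp {A A' : T} [ExactPairing A A'] (g : A ⟶ 𝟙_ T) (h : A' ⟶ 𝟙_ T) :
    (tr g : 𝟙_ T ⟶ 𝟙_ T ⊗ A') ≫ (λ_ A').hom ≫ h = tr' h ≫ g := by
  rw [tr, tr', assoc, assoc, assoc, ← leftUnitor_naturality h, ← rightUnitor_naturality g,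
    ← whisker_exchange_assoc, unitors_equal]

lemma tr_injective [Preadditive T] [MonoidalPreadditive T] {A A' Z : T} [ExactPairing A A']
    (g : A ⟶ Z) (h : (tr g : 𝟙_ T ⟶ Z ⊗ A') = 0) : g = 0 := by
  have h1 : tensorRightHomEquiv (𝟙_ T) A A' Z ((λ_ A).hom ≫ g) = 0 := by
    have h2 : tensorRightHomEquiv (𝟙_ T) A A' Z ((λ_ A).hom ≫ g) = tr g := by
      simp [tensorRightHomEquiv, tr, unitors_equal]
    rw [h2, h]
  have h2 : (λ_ A).hom ≫ g = 0 := by
    rw [← (tensorRightHomEquiv (𝟙_ T) A A' Z).symm_apply_apply ((λ_ A).hom ≫ g), h1]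
    simp [tensorRightHomEquiv]
  rw [← cancel_epi (λ_ A).hom, h2, comp_zero]

end Mon

section

variable {T : Type u} [Category.{v} T] [Preadditive T] [HasZeroObject T] [HasShift T ℤ]
  [∀ n : ℤ, (shiftFunctor T n).Additive] [Pretriangulated T] [MonoidalCategory T]
  [SymmetricCategory T] [∀ X : T, (tensorLeft X).CommShift ℤ]
  [∀ X : T, (tensorLeft X).IsTriangulated] {S : ObjectProperty T}

/-- vanishing of all morphisms `𝟙 ⟶ A[n]` implies that of the morphisms `A[n] ⟶ 𝟙` -/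
lemma eq_zero_of_dual {A A' : T} [ExactPairing A A'] (n : ℤ)
    (h : ∀ f : 𝟙_ T ⟶ A'⟦-n⟧, f = 0) (g : A⟦n⟧ ⟶ 𝟙_ T) : g = 0 := by
  have h1 : (shiftShiftNeg A n).inv ≫ g⟦-n⟧' = 0 := by
    apply tr_injective (A' := A')
    rw [← cancel_mono (shiftLeft (𝟙_ T) A' (-n)).hom, zero_comp,
      ← cancel_mono ((shiftFunctor T (-n)).map (λ_ A').hom), zero_comp]
    exact h _
  have h2 : g⟦-n⟧' = 0 := by
    rw [← cancel_epi (shiftShiftNeg A n).inv, h1, comp_zero]
  exact (shiftFunctor T (-n)).map_injective (by rw [h2, Functor.map_zero])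

variable {F : Type w} [Field F] {R : Realization T F}

/-- Vanishing and nondegeneracy imply that the realisation is injective on all morphisms from
the unit object. -/
theorem injective_of_ratEqNum (hS : IsChowClass S)
    (hp : Parshin S) (hn : RatEqNum S) {M : T} (f : 𝟙_ T ⟶ M) (hf : R.H0.map f = 0) :
    f = 0 := by
  have hD := hS.field
  obtain ⟨c₀, hc₀⟩ := R.nontrivial_unit
  have h1 : (𝟙 (𝟙_ T) : 𝟙_ T ⟶ 𝟙_ T) ≠ 0 := by
    intro h
    apply hc₀
    have h2 : R.mp 0 (𝟙 (𝟙_ T)) c₀ = 0 := by rw [h, R.mp_zero, LinearMap.zero_apply]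
    rwa [R.mp_id] at h2
  have hnt : Nontrivial (End (𝟙_ T))ᵐᵒᵖ :=
    ⟨⟨1, 0, fun h => h1 (congrArg MulOpposite.unop h)⟩⟩
  have hD' : ∀ a : (End (𝟙_ T))ᵐᵒᵖ, IsUnit a ∨ a = 0 := by
    intro a
    by_cases ha : a = 0
    · exact Or.inr ha
    · left
      have h2 : IsIso (a.unop : 𝟙_ T ⟶ 𝟙_ T) := hD _ fun h => ha (MulOpposite.unop_injective h)
      rw [← isUnit_unop]
      exact (isUnit_iff_isIso _).2 h2
  have hfin : ∀ A, S A → ∀ s : Finset (𝟙_ T ⟶ A),
      (LinearIndepOn (End (𝟙_ T))ᵐᵒᵖ id (s : Set (𝟙_ T ⟶ A))) →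
        s.card ≤ Module.finrank F (R.Hm 0 A) := by
    classical
    intro A hA s hs
    obtain ⟨c, hc⟩ := Perf.exists_dual hD (hn A hA) s hs
    have hfi : Module.Finite F (R.Hm 0 A) := R.finite 0 A
    have h2 : LinearIndependent F (fun x : s => R.mp 0 (x : 𝟙_ T ⟶ A) c₀) := by
      rw [Fintype.linearIndependent_iff]
      intro a ha y
      have h3 := congrArg (R.mp 0 (c y)) ha
      rw [map_zero, map_sum, Finset.sum_eq_single y] at h3
      · rw [map_smul, ← R.mp_comp_apply, hc y y.2 y y.2, if_pos rfl, R.mp_id,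
          LinearMap.id_apply, smul_eq_zero] at h3
        exact h3.resolve_right hc₀
      · intro x _ hxy
        rw [map_smul, ← R.mp_comp_apply, hc x x.2 y y.2,
          if_neg (fun h => hxy (Subtype.ext h)), R.mp_zero, LinearMap.zero_apply, smul_zero]
      · intro h
        exact absurd (Finset.mem_univ y) h
    have h4 := h2.fintype_card_le_finrank
    rwa [Fintype.card_coe] at h4
  have hall : S ≤ Perf.All (𝟙_ T) := by
    intro A hA n
    obtain ⟨A', hA', ⟨hAA⟩⟩ := hS.dual A hA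
    rcases eq_or_ne n 0 with rfl | hn0
    · have e : Retract (A⟦(0 : ℤ)⟧) A := ((shiftFunctorZero T ℤ).app A).retract
      refine ⟨Perf.Inj.of_retract e ?_, Perf.Surj.of_retract e ?_⟩
      · intro g hg
        by_contra hne
        have h2 : (tr g : 𝟙_ T ⟶ 𝟙_ T ⊗ A') ≫ (λ_ A').hom ≠ 0 := by
          intro h0
          apply hne
          apply tr_injective (A' := A')
          rw [← cancel_mono (λ_ A').hom, h0, zero_comp]
        obtain ⟨h, hh⟩ := hn A' hA' _ h2
        apply hh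
        rw [assoc, tr_comp, hg]
      · exact Perf.surj_of_nondeg hD hD' (hn A hA) _ (hfin A hA)
    · have hv : ∀ B, S B → ∀ m : ℤ, m ≠ 0 → ∀ f : 𝟙_ T ⟶ B⟦m⟧, f = 0 := by
        intro B hB m hm
        rcases lt_or_gt_of_ne hm with h | h
        · exact hp B hB m h
        · exact hS.pos B hB m h
      refine ⟨fun g _ => eq_zero_of_dual n (hv A' hA' (-n) (by lia)) g, fun l => ⟨0, fun f => ?_⟩⟩
      rw [hv A hA n hn0 f, map_zero, zero_comp]
  have hM := Perf.all_of_generator hD' hS.generates hall M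
  have hM1 : Perf.Surj (𝟙_ T) M :=
    (hM 0).2.of_retract ((shiftFunctorZero T ℤ).app M).symm.retract
  by_contra hne
  obtain ⟨k, hk⟩ := Perf.exists_form hD' hne h1
  obtain ⟨g, hg⟩ := hM1 k
  rw [hg] at hk
  have hiso := hD _ hk
  have h2 : R.mp 0 (f ≫ g) c₀ = 0 := by
    rw [R.mp_comp_apply, Realization.mp_eq_zero_of_map f hf, LinearMap.zero_apply, map_zero]
  apply hc₀
  have h3 : R.mp 0 ((f ≫ g) ≫ inv (f ≫ g)) c₀ = c₀ := by
    rw [IsIso.hom_inv_id, R.mp_id, LinearMap.id_apply]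
  rw [← h3, R.mp_comp_apply, h2, map_zero]

end

end Pool.Agent.Lib.MotT
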