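import Pool.Agent.Lib.MP_6d0ce9_ag.Defs

/-!
# Rigid tensor triangulated categories
-/

universe v u

open CategoryTheory Category Limits MonoidalCategory Pretriangulated Triangulated

namespace Pool.Agent.Lib.MotT

/-- A pretriangulated symmetric monoidal category is called a rigid tensor triangulated category
if it satisfies the octahedron axiom, its tensor product is exact in each variable
(it is enough to say this for the functors `X ⊗ -`), its idempotents split, its objects have
duals, and the only idempotent endomorphisms of the unit object are `0` and the identity. -/
class RigidTT (T : Type u) [Category.{v} T] [Preadditive T] [HasZeroObject T]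
    [HasShift T ℤ] [∀ n : ℤ, (shiftFunctor T n).Additive] [Pretriangulated T]
    [MonoidalCategory T] [SymmetricCategory T] where
  octahedron : IsTriangulated T
  [commShift : ∀ X : T, (tensorLeft X).CommShift ℤ]
  exact_left : ∀ X : T, (tensorLeft X).IsTriangulated
  split : IsIdempotentComplete T
  rigid : IsRigid T
  connected : ConnectedUnit T

end Pool.Agent.Lib.MotT
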