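import Mathlib

/-!
# Perfect pairings between morphisms from and to an object

Let `U` be an object of a triangulated category whose endomorphism ring `D` is a division ring.
For every object `M` composition gives a map from `Hom(M, U)` to the `D`-linear maps
`Hom(U, M) → Hom(U, U)`. The objects `M` all of whose shifts have the property that this map is
bijective form a thick triangulated subcategory.
-/

set_option linter.unusedSectionVars false

universe v u

open CategoryTheory Category Limits Pretriangulated Triangulated ObjectProperty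
open scoped ZeroObject

namespace Pool.Agent.Lib.MotT

namespace Perf

section Alg

variable {K : Type*} [Ring K] [Nontrivial K] {V W X : Type*} [AddCommGroup V] [Module K V]
  [AddCommGroup W] [Module K W] [AddCommGroup X] [Module K X]

/-- Over a division ring a linear map `g` factors through `f` if `ker f ≤ ker g`. -/
lemma exists_factor (hK : ∀ a : K, IsUnit a ∨ a = 0) (f : V →ₗ[K] W) (g : V →ₗ[K] X)
    (h : ∀ v, f v = 0 → g v = 0) : ∃ k : W →ₗ[K] X, ∀ v, k (f v) = g v := by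
  let _ := DivisionRing.ofIsUnitOrEqZero hK
  have h1 : LinearMap.ker f ≤ LinearMap.ker g := fun v hv => h v hv
  obtain ⟨l, hl⟩ := LinearMap.exists_leftInverse_of_injective
    ((LinearMap.ker f).liftQ f le_rfl) (by
      rw [Submodule.ker_liftQ_eq_bot]
      exact le_rfl)
  refine ⟨((LinearMap.ker f).liftQ g h1).comp l, fun v => ?_⟩
  have h2 := congrArg (fun k => k (Submodule.Quotient.mk v)) hl
  simp only [LinearMap.comp_apply, Submodule.liftQ_apply, LinearMap.id_apply] at h2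
  rw [LinearMap.comp_apply, h2, Submodule.liftQ_apply]

/-- Over a division ring there is a linear form which is nonzero on a given nonzero vector. -/
lemma exists_form (hK : ∀ a : K, IsUnit a ∨ a = 0) {v : V} (hv : v ≠ 0) {x : X} (hx : x ≠ 0) :
    ∃ k : V →ₗ[K] X, k v ≠ 0 := by
  let _ := DivisionRing.ofIsUnitOrEqZero hK
  obtain ⟨k, hk⟩ := exists_factor hK (LinearMap.toSpanSingleton K V v)
    (LinearMap.toSpanSingleton K X x) (fun a ha => by
      rw [LinearMap.toSpanSingleton_apply] at ha ⊢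
      rcases hK a with h | h
      · exact absurd ((IsUnit.smul_eq_zero h).1 ha) hv
      · rw [h, zero_smul])
  refine ⟨k, ?_⟩
  have h1 := hk 1
  rw [LinearMap.toSpanSingleton_apply, LinearMap.toSpanSingleton_apply, one_smul,
    one_smul] at h1
  rwa [h1]

end Alg

section Cat

variable {T : Type u} [Category.{v} T] [Preadditive T] (U : T)

/-- The map from `Hom(M, U)` to the linear maps from `Hom(U, M)` to `Hom(U, U)`. -/
def ev (M : T) (g : M ⟶ U) : (U ⟶ M) →ₗ[(End U)ᵐᵒᵖ] (U ⟶ U) where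
  toFun f := f ≫ g
  map_add' f f' := Preadditive.add_comp _ _ _ _ _ _
  map_smul' a f := by
    change (a.unop ≫ f) ≫ g = a.unop ≫ f ≫ g
    rw [assoc]

@[simp] lemma ev_apply {M : T} (g : M ⟶ U) (f : U ⟶ M) : ev U M g f = f ≫ g := rfl

/-- Injectivity of the pairing. -/
def Inj (M : T) : Prop := ∀ g : M ⟶ U, (∀ f : U ⟶ M, f ≫ g = 0) → g = 0

/-- Surjectivity of the pairing. -/
def Surj (M : T) : Prop := ∀ l : (U ⟶ M) →ₗ[(End U)ᵐᵒᵖ] (U ⟶ U), ∃ g : M ⟶ U, ∀ f, l f = f ≫ g

/-- Composition with a morphism on the right as a linear map. -/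
def post {M N : T} (a : M ⟶ N) : (U ⟶ M) →ₗ[(End U)ᵐᵒᵖ] (U ⟶ N) where
  toFun f := f ≫ a
  map_add' f f' := Preadditive.add_comp _ _ _ _ _ _
  map_smul' c f := by
    change (c.unop ≫ f) ≫ a = c.unop ≫ f ≫ a
    rw [assoc]

@[simp] lemma post_apply {M N : T} (a : M ⟶ N) (f : U ⟶ M) : post U a f = f ≫ a := rfl

variable {U}

lemma Inj.of_retract {M N : T} (r : Retract M N) (h : Inj U N) : Inj U M := by
  intro g hg
  have h1 : r.r ≫ g = 0 := h _ fun f => by rw [← assoc, hg]
  rw [← id_comp g, ← r.retract, assoc, h1, comp_zero]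

lemma Surj.of_retract {M N : T} (r : Retract M N) (h : Surj U N) : Surj U M := by
  intro l
  obtain ⟨g, hg⟩ := h (l.comp (post U r.r))
  refine ⟨r.i ≫ g, fun f => ?_⟩
  have h1 := hg (f ≫ r.i)
  simp only [LinearMap.comp_apply, post_apply, assoc, r.retract, comp_id] at h1
  exact h1

end Cat

section Tri

variable {T : Type u} [Category.{v} T] [Preadditive T] [HasZeroObject T] [HasShift T ℤ]
  [∀ n : ℤ, (shiftFunctor T n).Additive] [Pretriangulated T] {U : T}

lemma five {Tr : Triangle T} (hT : Tr ∈ distTriang T)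
    (hD : ∀ a : (End U)ᵐᵒᵖ, IsUnit a ∨ a = 0) [Nontrivial (End U)ᵐᵒᵖ]
    (h1 : Inj U (Tr.obj₃⟦(-1 : ℤ)⟧)) (h2 : Inj U Tr.obj₁) (h2' : Surj U Tr.obj₁)
    (h3 : Inj U Tr.obj₃) (h3' : Surj U Tr.obj₃) (h4 : Surj U (Tr.obj₁⟦(1 : ℤ)⟧)) :
    Inj U Tr.obj₂ ∧ Surj U Tr.obj₂ := by
  constructor
  · intro g hg
    have e1 : Tr.mor₁ ≫ g = 0 := h2 _ fun f => by rw [← assoc, hg]
    obtain ⟨b, hb⟩ := Triangle.yoneda_exact₂ _ hT g e1
    obtain ⟨k, hk⟩ := exists_factor hD (post U Tr.mor₃) (ev U _ b) (fun f hf => by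
      obtain ⟨f', hf'⟩ := Triangle.coyoneda_exact₃ _ hT f hf
      rw [ev_apply, hf', assoc, ← hb, hg])
    obtain ⟨g'', hg''⟩ := h4 k
    have e2 : b - Tr.mor₃ ≫ g'' = 0 := by
      apply h3
      intro f
      have h5 := hk f
      rw [post_apply, hg'', ev_apply] at h5
      rw [Preadditive.comp_sub, ← h5, assoc, sub_self]
    rw [hb, sub_eq_zero.1 e2, comp_distTriang_mor_zero₂₃_assoc _ hT, zero_comp]
  · intro l
    obtain ⟨a, ha⟩ := h2' (l.comp (post U Tr.mor₁))
    obtain ⟨w', hw1, hw2⟩ : ∃ w' : Tr.obj₃⟦(-1 : ℤ)⟧ ⟶ Tr.obj₁, w' ≫ Tr.mor₁ = 0 ∧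
        ∀ a : Tr.obj₁ ⟶ U, w' ≫ a = 0 → ∃ g' : Tr.obj₂ ⟶ U, a = Tr.mor₁ ≫ g' :=
      ⟨Tr.invRotate.mor₁, comp_distTriang_mor_zero₁₂ _ (inv_rot_of_distTriang _ hT),
        fun a ha => Triangle.yoneda_exact₂ _ (inv_rot_of_distTriang _ hT) a ha⟩
    have e1 : w' ≫ a = 0 := by
      apply h1
      intro f
      have h5 := ha (f ≫ w')
      rw [LinearMap.comp_apply, post_apply, assoc, hw1, comp_zero, map_zero, assoc] at h5
      exact h5.symm
    obtain ⟨g', hg'⟩ := hw2 a e1
    obtain ⟨k, hk⟩ := exists_factor hD (post U Tr.mor₂) (l - ev U _ g') (fun f hf => by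
      obtain ⟨f', hf'⟩ := Triangle.coyoneda_exact₂ _ hT f hf
      have h5 := ha f'
      rw [LinearMap.comp_apply, post_apply, hg'] at h5
      rw [LinearMap.sub_apply, ev_apply, hf', h5, assoc, sub_self])
    obtain ⟨b, hb⟩ := h3' k
    refine ⟨g' + Tr.mor₂ ≫ b, fun f => ?_⟩
    have h5 := hk f
    rw [hb, post_apply, LinearMap.sub_apply, ev_apply] at h5
    rw [Preadditive.comp_add, ← assoc, h5]
    abel

/-- The property that the pairing is perfect for all shifts. -/
def All (U : T) : ObjectProperty T := fun M => ∀ n : ℤ, Inj U (M⟦n⟧) ∧ Surj U (M⟦n⟧)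

variable (U) in
lemma all_retracts : (All U).IsStableUnderRetracts where
  of_retract r h := fun n =>
    ⟨(h n).1.of_retract (r.map (shiftFunctor T n)),
      (h n).2.of_retract (r.map (shiftFunctor T n))⟩

lemma all_iso {M N : T} (e : M ≅ N) (h : All U M) : All U N := by
  have := all_retracts U
  exact ObjectProperty.prop_of_retract _ e.symm.retract h

lemma all_shift {M : T} (h : All U M) (a : ℤ) : All U (M⟦a⟧) := by
  intro n
  have e : Retract (M⟦a⟧⟦n⟧) (M⟦a + n⟧) := ((shiftFunctorAdd T a n).app M).symm.retract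
  exact ⟨(h (a + n)).1.of_retract e, (h (a + n)).2.of_retract e⟩

variable (U) in
/-- The objects with perfect pairings form a triangulated subcategory. -/
lemma all_triangulated (hD : ∀ a : (End U)ᵐᵒᵖ, IsUnit a ∨ a = 0) [Nontrivial (End U)ᵐᵒᵖ] :
    (All U).IsTriangulated where
  exists_zero := ⟨0, isZero_zero T, fun n => by
    have h0 : IsZero ((0 : T)⟦n⟧) := (shiftFunctor T n).map_isZero (isZero_zero T)
    exact ⟨fun g _ => h0.eq_of_src _ _, fun l => ⟨0, fun f => by
      rw [h0.eq_of_tgt f 0, map_zero, comp_zero]⟩⟩⟩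
  isStableUnderShiftBy a := ⟨fun X hX => all_shift hX a⟩
  ext₂' Tr hT h₁ h₃ := by
    apply le_isoClosure
    intro n
    have hT' := Triangle.shift_distinguished Tr hT n
    have h1 : Inj U (((Triangle.shiftFunctor T n).obj Tr).obj₃⟦(-1 : ℤ)⟧) :=
      (all_shift h₃ n (-1)).1
    have h4 : Surj U (((Triangle.shiftFunctor T n).obj Tr).obj₁⟦(1 : ℤ)⟧) :=
      (all_shift h₁ n 1).2
    exact five hT' hD h1 (h₁ n).1 (h₁ n).2 (h₃ n).1 (h₃ n).2 h4

/-- If the pairings are perfect for a class of generators then they are perfect for all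
objects. -/
lemma all_of_generator (hD : ∀ a : (End U)ᵐᵒᵖ, IsUnit a ∨ a = 0) [Nontrivial (End U)ᵐᵒᵖ]
    {S : ObjectProperty T} (hS : S.IsClassicalTriangulatedGenerator) (h : S ≤ All U)
    (M : T) : All U M := by
  have h1 := all_retracts U
  have h2 := all_triangulated U hD
  rw [isClassicalTriangulatedGenerator_iff] at hS
  have h3 : S.triangEnvelope ≤ All U := by
    rw [triangEnvelope_le_iff]
    exact h
  exact h3 M (by rw [hS]; trivial)

end Tri

section Fin

variable {T : Type u} [Category.{v} T] [Preadditive T] {U : T}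

/-- Nondegeneracy of the pairing on the side of `Hom(U, M)`. -/
def Nondeg (U M : T) : Prop := ∀ f : U ⟶ M, f ≠ 0 → ∃ g : M ⟶ U, f ≫ g ≠ 0

open Classical in
/-- Dual families. -/
lemma exists_dual (hD : ∀ a : U ⟶ U, a ≠ 0 → IsIso a) [Nontrivial (End U)ᵐᵒᵖ] {M : T}
    (hM : Nondeg U M)
    (s : Finset (U ⟶ M)) (hs : LinearIndepOn (End U)ᵐᵒᵖ id (s : Set (U ⟶ M))) :
    ∃ c : (U ⟶ M) → (M ⟶ U), ∀ x ∈ s, ∀ y ∈ s, x ≫ c y = if x = y then 𝟙 U else 0 := by
  induction s using Finset.induction_on with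
  | empty => exact ⟨fun _ => 0, by simp⟩
  | insert x₀ s hx ih =>
    rw [Finset.coe_insert] at hs
    obtain ⟨c, hc⟩ := ih (hs.mono (Set.subset_insert _ _))
    have hne : x₀ - ∑ y ∈ s, (x₀ ≫ c y) ≫ y ≠ 0 := by
      intro h0
      have h1 : x₀ ∈ Submodule.span (End U)ᵐᵒᵖ (s : Set (U ⟶ M)) := by
        rw [sub_eq_zero.1 h0]
        refine Submodule.sum_mem _ fun y hy => ?_
        exact Submodule.smul_mem _ (@MulOpposite.op (End U) (x₀ ≫ c y))
          (Submodule.subset_span hy)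
      have h2 := hs.notMem_span_of_insert (by simpa using hx)
      rw [Set.image_id] at h2
      exact h2 h1
    obtain ⟨g₁, hg₁⟩ := hM _ hne
    have hiso := hD _ hg₁
    obtain ⟨g, hg⟩ : ∃ g : M ⟶ U, (x₀ - ∑ y ∈ s, (x₀ ≫ c y) ≫ y) ≫ g = 𝟙 U :=
      ⟨g₁ ≫ inv ((x₀ - ∑ y ∈ s, (x₀ ≫ c y) ≫ y) ≫ g₁), by
        rw [← assoc, IsIso.hom_inv_id]⟩
    obtain ⟨g', hs1, hs2⟩ : ∃ g' : M ⟶ U, (∀ x ∈ s, x ≫ g' = 0) ∧ x₀ ≫ g' = 𝟙 U := by
      refine ⟨g - ∑ y ∈ s, c y ≫ y ≫ g, fun x hx => ?_, ?_⟩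
      · rw [Preadditive.comp_sub, Preadditive.comp_sum, Finset.sum_eq_single x]
        · rw [← assoc, hc x hx x hx, if_pos rfl, id_comp, sub_self]
        · intro y hy hyx
          rw [← assoc, hc x hx y hy, if_neg (Ne.symm hyx), zero_comp]
        · intro h
          exact absurd hx h
      · rw [← hg, Preadditive.comp_sub, Preadditive.comp_sum, Preadditive.sub_comp,
          Preadditive.sum_comp]
        simp only [assoc]
    refine ⟨fun y => if y = x₀ then g' else c y - g' ≫ (x₀ ≫ c y), ?_⟩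
    have hxs : ∀ x ∈ s, x ≠ x₀ := by
      rintro x h rfl
      exact hx h
    intro x hx' y hy'
    beta_reduce
    rw [Finset.mem_insert] at hx' hy'
    rcases hy' with hy' | hy' <;> rcases hx' with hx' | hx'
    · rw [if_pos hy', if_pos (hx'.trans hy'.symm), hx', hs2]
    · rw [if_pos hy', if_neg (hy' ▸ hxs x hx'), hs1 x hx']
    · rw [if_neg (hxs y hy'), if_neg (hx' ▸ (hxs y hy').symm), Preadditive.comp_sub, hx',
        ← assoc _ _ (x₀ ≫ c y), hs2, id_comp, sub_self]
    · rw [if_neg (hxs y hy'), Preadditive.comp_sub, ← assoc _ _ (x₀ ≫ c y), hs1 x hx',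
        zero_comp, sub_zero]
      exact hc x hx' y hy'

open Classical in
/-- Surjectivity of the pairing in the finite dimensional case. -/
lemma surj_of_nondeg (hD : ∀ a : U ⟶ U, a ≠ 0 → IsIso a)
    (hD' : ∀ a : (End U)ᵐᵒᵖ, IsUnit a ∨ a = 0) [Nontrivial (End U)ᵐᵒᵖ] {M : T}
    (hM : Nondeg U M) (n : ℕ)
    (hn : ∀ s : Finset (U ⟶ M), (LinearIndepOn (End U)ᵐᵒᵖ id (s : Set (U ⟶ M))) →
      s.card ≤ n) : Surj U M := by
  intro l
  let _ := DivisionRing.ofIsUnitOrEqZero hD'
  have h1 : Module.rank (End U)ᵐᵒᵖ (U ⟶ M) ≤ n := rank_le hn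
  have h2 : Module.Finite (End U)ᵐᵒᵖ (U ⟶ M) := by
    rw [← Module.rank_lt_aleph0_iff]
    exact h1.trans_lt (Cardinal.natCast_lt_aleph0)
  obtain ⟨s, hs1, hs2⟩ : ∃ s : Finset (U ⟶ M),
      LinearIndepOn (End U)ᵐᵒᵖ id (s : Set (U ⟶ M)) ∧
        Submodule.span (End U)ᵐᵒᵖ (s : Set (U ⟶ M)) = ⊤ := by
    let b := Module.finBasis (End U)ᵐᵒᵖ (U ⟶ M)
    refine ⟨Finset.univ.image b, ?_, ?_⟩
    · rw [Finset.coe_image, Finset.coe_univ, Set.image_univ]
      exact b.linearIndependent.linearIndepOn_id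
    · rw [Finset.coe_image, Finset.coe_univ, Set.image_univ]
      exact b.span_eq
  obtain ⟨c, hc⟩ := exists_dual hD hM s hs1
  refine ⟨∑ y ∈ s, c y ≫ l y, fun f => ?_⟩
  have hf : f ∈ Submodule.span (End U)ᵐᵒᵖ (s : Set (U ⟶ M)) := by
    rw [hs2]
    trivial
  have key : l f = ev U M (∑ y ∈ s, c y ≫ l y) f := by
    induction hf using Submodule.span_induction with
    | mem x hx =>
      rw [ev_apply, Preadditive.comp_sum, Finset.sum_eq_single x]
      · rw [← assoc, hc x hx x hx, if_pos rfl, id_comp]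
      · intro y hy hyx
        rw [← assoc, hc x hx y hy, if_neg (Ne.symm hyx), zero_comp]
      · intro h
        exact absurd hx h
    | zero => rw [map_zero, map_zero]
    | add a b _ _ ha hb => rw [map_add, map_add, ha, hb]
    | smul c a _ ha => rw [map_smul, map_smul, ha]
  exact key

end Fin

end Perf

end Pool.Agent.Lib.MotT
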