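import Pool.Agent.Lib.MP_6d0ce9_ag.Dual

/-!
# Basic properties of realisations
-/

set_option linter.unusedSectionVars false

universe w v u

open CategoryTheory Category Limits MonoidalCategory Pretriangulated Triangulated

namespace Pool.Agent.Lib.MotT

section TensorAux

variable {F : Type*} [Field F] {V W : Type*} [AddCommGroup V] [Module F V] [AddCommGroup W]
  [Module F W]

lemma tmul_ne_zero_aux {x : V} {y : W} (hx : x ≠ 0) (hy : y ≠ 0) : (x ⊗ₜ[F] y) ≠ 0 := by
  intro h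
  obtain ⟨f, hf⟩ : ∃ f : Module.Dual F V, f x ≠ 0 := by
    by_contra hcon
    push Not at hcon
    exact hx ((Module.forall_dual_apply_eq_zero_iff F x).1 hcon)
  obtain ⟨g, hg⟩ : ∃ g : Module.Dual F W, g y ≠ 0 := by
    by_contra hcon
    push Not at hcon
    exact hy ((Module.forall_dual_apply_eq_zero_iff F y).1 hcon)
  have h1 := congrArg (fun z => TensorProduct.lid F F (TensorProduct.map f g z)) h
  simp only [TensorProduct.map_tmul, TensorProduct.lid_tmul, map_zero, smul_eq_mul,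
    mul_eq_zero] at h1
  exact h1.elim hf hg

lemma subsingleton_tensor_left (h : Subsingleton V) : Subsingleton (TensorProduct F V W) := by
  have h0 : ∀ a : TensorProduct F V W, a = 0 := fun a => by
    induction a using TensorProduct.induction_on with
    | zero => rfl
    | add a b ha hb => rw [ha, hb, add_zero]
    | tmul x y => rw [show x = 0 from h.elim _ _, TensorProduct.zero_tmul]
  exact ⟨fun a b => (h0 a).trans (h0 b).symm⟩

lemma subsingleton_tensor_right (h : Subsingleton W) : Subsingleton (TensorProduct F V W) := by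
  have h0 : ∀ a : TensorProduct F V W, a = 0 := fun a => by
    induction a using TensorProduct.induction_on with
    | zero => rfl
    | add a b ha hb => rw [ha, hb, add_zero]
    | tmul x y => rw [show y = 0 from h.elim _ _, TensorProduct.tmul_zero]
  exact ⟨fun a b => (h0 a).trans (h0 b).symm⟩

end TensorAux

namespace Realization

variable {T : Type u} [Category.{v} T] [Preadditive T] [HasZeroObject T] [HasShift T ℤ]
  [∀ n : ℤ, (shiftFunctor T n).Additive] [Pretriangulated T] [MonoidalCategory T]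
  [SymmetricCategory T] {F : Type w} [Field F] (R : Realization T F)

/-- The cohomology group `H^i(X)` as a type. -/
abbrev Hm (i : ℤ) (X : T) : Type w := R.H0.obj (X⟦i⟧)

/-- The map induced on `H^i`. -/
noncomputable def mp (i : ℤ) {X Y : T} (f : X ⟶ Y) : R.Hm i X →ₗ[F] R.Hm i Y :=
  (R.H0.map (f⟦i⟧')).hom

@[simp] lemma mp_id (i : ℤ) (X : T) : R.mp i (𝟙 X) = LinearMap.id := by
  simp [mp]

lemma mp_comp (i : ℤ) {X Y Z : T} (f : X ⟶ Y) (g : Y ⟶ Z) :
    R.mp i (f ≫ g) = (R.mp i g).comp (R.mp i f) := by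
  simp [mp]

lemma mp_comp_apply (i : ℤ) {X Y Z : T} (f : X ⟶ Y) (g : Y ⟶ Z) (x : R.Hm i X) :
    R.mp i (f ≫ g) x = R.mp i g (R.mp i f x) := by
  rw [mp_comp]; rfl

lemma additive : R.H0.Additive := by
  have := R.homological
  infer_instance

lemma mp_zero (i : ℤ) (X Y : T) : R.mp i (0 : X ⟶ Y) = 0 := by
  have := R.additive
  simp [mp]

lemma mp_add (i : ℤ) {X Y : T} (f g : X ⟶ Y) : R.mp i (f + g) = R.mp i f + R.mp i g := by
  have := R.additive
  simp [mp, Functor.map_add]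

lemma mp_neg (i : ℤ) {X Y : T} (f : X ⟶ Y) : R.mp i (-f) = - R.mp i f := by
  have := R.additive
  simp [mp, Functor.map_neg]

lemma mp_zsmul (i : ℤ) {X Y : T} (n : ℤ) (f : X ⟶ Y) : R.mp i (n • f) = n • R.mp i f := by
  have := R.additive
  simp [mp]

lemma mp_sum (i : ℤ) {X Y : T} {ι : Type*} (s : Finset ι) (f : ι → (X ⟶ Y)) :
    R.mp i (∑ j ∈ s, f j) = ∑ j ∈ s, R.mp i (f j) := by
  classical
  induction s using Finset.induction_on with
  | empty => simp [mp_zero]
  | insert a s ha ih => rw [Finset.sum_insert ha, Finset.sum_insert ha, mp_add, ih]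

lemma van_iff_isZero (i : ℤ) (X : T) : R.Van i X ↔ IsZero (R.H0.obj (X⟦i⟧)) :=
  ModuleCat.isZero_iff_subsingleton.symm

lemma van_of_iso {i : ℤ} {X Y : T} (e : X ≅ Y) (h : R.Van i X) : R.Van i Y := by
  rw [van_iff_isZero] at h ⊢
  exact h.of_iso (R.H0.mapIso ((shiftFunctor T i).mapIso e.symm))

lemma van_of_retract {i : ℤ} {X Y : T} (r : Retract X Y) (h : R.Van i Y) : R.Van i X := by
  have h1 : ∀ x : R.Hm i X, x = 0 := fun x => by
    have h2 : R.mp i r.i x = 0 := h.elim _ _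
    have h3 : R.mp i (r.i ≫ r.r) x = 0 := by rw [mp_comp_apply, h2, map_zero]
    rwa [r.retract, mp_id] at h3
  exact ⟨fun x y => (h1 x).trans (h1 y).symm⟩

lemma van_of_isZero {X : T} (h : IsZero X) (i : ℤ) : R.Van i X := by
  have := R.additive
  rw [van_iff_isZero]
  exact R.H0.map_isZero ((shiftFunctor T i).map_isZero h)

lemma van_shift (i a : ℤ) (X : T) : R.Van i (X⟦a⟧) ↔ R.Van (a + i) X := by
  rw [van_iff_isZero, van_iff_isZero]
  exact (R.H0.mapIso ((shiftFunctorAdd T a i).app X)).symm.isZero_iff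

/-- exactness of the cohomology of a distinguished triangle in the middle. -/
lemma exact₂ {Tr : Triangle T} (hT : Tr ∈ distTriang T) (i : ℤ) (x : R.Hm i Tr.obj₂)
    (hx : R.mp i Tr.mor₂ x = 0) : ∃ y : R.Hm i Tr.obj₁, R.mp i Tr.mor₁ y = x := by
  have hadd := R.additive
  have := R.homological
  have h := R.H0.map_distinguished_exact _ (Triangle.shift_distinguished Tr hT i)
  rw [ShortComplex.moduleCat_exact_iff] at h
  have hx' : (R.H0.map (i.negOnePow • Tr.mor₂⟦i⟧')).hom x = 0 := by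
    have h1 : (i.negOnePow • Tr.mor₂⟦i⟧') = ((i.negOnePow : ℤ) • Tr.mor₂⟦i⟧') := rfl
    rw [h1, Functor.map_zsmul]
    change (i.negOnePow : ℤ) • (R.mp i Tr.mor₂) x = 0
    rw [hx, smul_zero]
  obtain ⟨y, hy⟩ : ∃ y : R.Hm i Tr.obj₁, (R.H0.map (i.negOnePow • Tr.mor₁⟦i⟧')).hom y = x :=
    h x hx'
  refine ⟨(i.negOnePow : ℤ) • y, ?_⟩
  have h1 : (i.negOnePow • Tr.mor₁⟦i⟧') = ((i.negOnePow : ℤ) • Tr.mor₁⟦i⟧') := rfl
  rw [h1, Functor.map_zsmul] at hy
  rw [map_zsmul]
  exact hy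

lemma exact₃ {Tr : Triangle T} (hT : Tr ∈ distTriang T) (i : ℤ) (x : R.Hm i Tr.obj₃)
    (hx : R.mp i Tr.mor₃ x = 0) : ∃ y : R.Hm i Tr.obj₂, R.mp i Tr.mor₂ y = x :=
  R.exact₂ (rot_of_distTriang _ hT) i x hx

lemma van₂ {Tr : Triangle T} (hT : Tr ∈ distTriang T) (i : ℤ) (h₁ : R.Van i Tr.obj₁)
    (h₃ : R.Van i Tr.obj₃) : R.Van i Tr.obj₂ := by
  have h : ∀ x : R.Hm i Tr.obj₂, x = 0 := fun x => by
    obtain ⟨y, rfl⟩ := R.exact₂ hT i x (h₃.elim _ _)
    rw [show y = 0 from h₁.elim _ _, map_zero]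
  exact ⟨fun x y => (h x).trans (h y).symm⟩

lemma van₃ {Tr : Triangle T} (hT : Tr ∈ distTriang T) (i : ℤ) (h₁ : R.Van (i + 1) Tr.obj₁)
    (h₂ : R.Van i Tr.obj₂) : R.Van i Tr.obj₃ := by
  refine R.van₂ (rot_of_distTriang _ hT) i h₂ ?_
  change R.Van i (Tr.obj₁⟦(1 : ℤ)⟧)
  rw [van_shift]
  rwa [add_comm]

lemma van₁ {Tr : Triangle T} (hT : Tr ∈ distTriang T) (i : ℤ) (h₂ : R.Van i Tr.obj₂)
    (h₃ : R.Van (i - 1) Tr.obj₃) : R.Van i Tr.obj₁ := by
  refine R.van₂ (inv_rot_of_distTriang _ hT) i ?_ h₂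
  change R.Van i (Tr.obj₃⟦(-1 : ℤ)⟧)
  rw [van_shift]
  rwa [show -1 + i = i - 1 by ring]

/-- `H^i(mor₂)` is injective if `H^i(obj₁) = 0`. -/
lemma inj_mor₂ {Tr : Triangle T} (hT : Tr ∈ distTriang T) (i : ℤ) (h₁ : R.Van i Tr.obj₁)
    (x : R.Hm i Tr.obj₂) (hx : R.mp i Tr.mor₂ x = 0) : x = 0 := by
  obtain ⟨y, rfl⟩ := R.exact₂ hT i x hx
  rw [show y = 0 from h₁.elim _ _, map_zero]

/-- `H^i(mor₁)` is injective if `H^{i-1}(obj₃) = 0`. -/
lemma inj_mor₁ {Tr : Triangle T} (hT : Tr ∈ distTriang T) (i : ℤ)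
    (h₃ : R.Van (i - 1) Tr.obj₃)
    (x : R.Hm i Tr.obj₁) (hx : R.mp i Tr.mor₁ x = 0) : x = 0 := by
  refine R.inj_mor₂ (inv_rot_of_distTriang _ hT) i ?_ x hx
  change R.Van i (Tr.obj₃⟦(-1 : ℤ)⟧)
  rw [van_shift]
  rwa [show -1 + i = i - 1 by ring]

/-- `H^i(mor₂)` is surjective if `H^{i+1}(obj₁) = 0`. -/
lemma surj_mor₂ {Tr : Triangle T} (hT : Tr ∈ distTriang T) (i : ℤ)
    (h₁ : R.Van (i + 1) Tr.obj₁) (x : R.Hm i Tr.obj₃) :
    ∃ y : R.Hm i Tr.obj₂, R.mp i Tr.mor₂ y = x := by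
  refine R.exact₃ hT i x ?_
  have : R.Van i (Tr.obj₁⟦(1 : ℤ)⟧) := by
    rw [van_shift]
    rwa [add_comm]
  exact this.elim _ _

/-! ### versions for triangles given by their three morphisms -/

section mk

variable {A B C : T} {f : A ⟶ B} {g : B ⟶ C} {h : C ⟶ A⟦(1 : ℤ)⟧}

lemma exact₂' (hT : Triangle.mk f g h ∈ distTriang T) (i : ℤ) (x : R.Hm i B)
    (hx : R.mp i g x = 0) : ∃ y : R.Hm i A, R.mp i f y = x := R.exact₂ hT i x hx

lemma van₂' (hT : Triangle.mk f g h ∈ distTriang T) {i : ℤ} (h₁ : R.Van i A)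
    (h₃ : R.Van i C) : R.Van i B := R.van₂ hT i h₁ h₃

lemma van₃' (hT : Triangle.mk f g h ∈ distTriang T) {i : ℤ} (h₁ : R.Van (i + 1) A)
    (h₂ : R.Van i B) : R.Van i C := R.van₃ hT i h₁ h₂

lemma van₁' (hT : Triangle.mk f g h ∈ distTriang T) {i : ℤ} (h₂ : R.Van i B)
    (h₃ : R.Van (i - 1) C) : R.Van i A := R.van₁ hT i h₂ h₃

lemma inj_snd (hT : Triangle.mk f g h ∈ distTriang T) {i : ℤ} (h₁ : R.Van i A)
    {x : R.Hm i B} (hx : R.mp i g x = 0) : x = 0 := R.inj_mor₂ hT i h₁ x hx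

lemma inj_fst (hT : Triangle.mk f g h ∈ distTriang T) {i : ℤ} (h₃ : R.Van (i - 1) C)
    {x : R.Hm i A} (hx : R.mp i f x = 0) : x = 0 := R.inj_mor₁ hT i h₃ x hx

lemma surj_snd (hT : Triangle.mk f g h ∈ distTriang T) {i : ℤ} (h₁ : R.Van (i + 1) A)
    (x : R.Hm i C) : ∃ y : R.Hm i B, R.mp i g y = x := R.surj_mor₂ hT i h₁ x

lemma surj_fst (hT : Triangle.mk f g h ∈ distTriang T) {i : ℤ} (h₃ : R.Van i C)
    (x : R.Hm i B) : ∃ y : R.Hm i A, R.mp i f y = x := R.exact₂ hT i x (h₃.elim _ _)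

end mk

/-! ### Künneth -/

lemma kunneth_of (n i j : ℤ) (h : i + j = n) (X Y : T) :
    Function.Injective (TensorProduct.lift (R.cup h X Y)) := by
  obtain rfl : j = n - i := by lia
  have h1 := (R.kunneth n X Y).1
  intro a b hab
  have h2 : DirectSum.toModule F ℤ (R.H0.obj ((X ⊗ Y)⟦n⟧))
      (fun i => TensorProduct.lift (R.cup (add_sub_cancel i n) X Y))
        (DirectSum.lof F ℤ (fun i => TensorProduct F (R.Hm i X) (R.Hm (n - i) Y)) i a) =
      DirectSum.toModule F ℤ (R.H0.obj ((X ⊗ Y)⟦n⟧))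
      (fun i => TensorProduct.lift (R.cup (add_sub_cancel i n) X Y))
        (DirectSum.lof F ℤ (fun i => TensorProduct F (R.Hm i X) (R.Hm (n - i) Y)) i b) := by
    rw [DirectSum.toModule_lof, DirectSum.toModule_lof]
    exact hab
  exact DirectSum.of_injective i (h1 h2)

lemma cup_ne_zero {n i j : ℤ} (h : i + j = n) {X Y : T} {x : R.Hm i X} {y : R.Hm j Y}
    (hx : x ≠ 0) (hy : y ≠ 0) : R.cup h X Y x y ≠ 0 := by
  intro h0
  have h1 : TensorProduct.lift (R.cup h X Y) (x ⊗ₜ[F] y) = 0 := by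
    rw [TensorProduct.lift.tmul]; exact h0
  exact tmul_ne_zero_aux hx hy (R.kunneth_of n i j h X Y (h1.trans (map_zero _).symm))

/-- If in all bidegrees `(i, n - i)` one of the factors vanishes, then `H^n(X ⊗ Y) = 0`. -/
lemma van_tensor (n : ℤ) (X Y : T) (h : ∀ i, R.Van i X ∨ R.Van (n - i) Y) :
    R.Van n (X ⊗ Y) := by
  have h1 := (R.kunneth n X Y).2
  have h2 : Subsingleton (DirectSum ℤ (fun i => TensorProduct F (R.Hm i X) (R.Hm (n - i) Y))) := by
    have h3 : ∀ i, Subsingleton (TensorProduct F (R.Hm i X) (R.Hm (n - i) Y)) := by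
      intro i
      rcases h i with h | h
      · exact subsingleton_tensor_left h
      · exact subsingleton_tensor_right h
    constructor
    intro a b
    ext i
    exact (h3 i).elim _ _
  exact h1.subsingleton

/-- Künneth when only the bidegree `(i, j)` contributes: the product is surjective on
tensors. -/
lemma cup_span {n i j : ℤ} (h : i + j = n) (X Y : T)
    (hv : ∀ k, k ≠ i → R.Van k X ∨ R.Van (n - k) Y) (z : R.Hm n (X ⊗ Y)) :
    z ∈ Submodule.span F {z | ∃ (x : R.Hm i X) (y : R.Hm j Y), z = R.cup h X Y x y} := by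
  obtain rfl : j = n - i := by lia
  obtain ⟨a, rfl⟩ := (R.kunneth n X Y).2 z
  induction a using DirectSum.induction_on with
  | zero => rw [map_zero]; exact Submodule.zero_mem _
  | add a b ha hb => rw [map_add]; exact Submodule.add_mem _ ha hb
  | of k a =>
    have h1 : DirectSum.toModule F ℤ (R.H0.obj ((X ⊗ Y)⟦n⟧))
      (fun i => TensorProduct.lift (R.cup (add_sub_cancel i n) X Y))
        (DirectSum.of (fun i => TensorProduct F (R.Hm i X) (R.Hm (n - i) Y)) k a) =
        TensorProduct.lift (R.cup (add_sub_cancel k n) X Y) a := by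
      rw [← DirectSum.lof_eq_of F, DirectSum.toModule_lof]
    rw [h1]
    by_cases hk : k = i
    · subst hk
      induction a using TensorProduct.induction_on with
      | zero => rw [map_zero]; exact Submodule.zero_mem _
      | add a b ha hb =>
        rw [map_add]
        refine Submodule.add_mem _ (ha ?_) (hb ?_)
        · rw [← DirectSum.lof_eq_of F, DirectSum.toModule_lof]
        · rw [← DirectSum.lof_eq_of F, DirectSum.toModule_lof]
      | tmul x y =>
        rw [TensorProduct.lift.tmul]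
        exact Submodule.subset_span ⟨x, y, rfl⟩
    · have h3 : Subsingleton (TensorProduct F (R.Hm k X) (R.Hm (n - k) Y)) := by
        rcases hv k hk with h | h
        · exact subsingleton_tensor_left h
        · exact subsingleton_tensor_right h
      rw [show a = 0 from h3.elim _ _, map_zero]
      exact Submodule.zero_mem _

end Realization

end Pool.Agent.Lib.MotT
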