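import Pool.Agent.Lib.MP_6d0ce9_ag.Cramer
import Pool.Agent.Lib.MP_6d0ce9_ag.Adm

/-!
# Weak regularity of morphisms between objects concentrated in degree `0`
-/

set_option linter.unusedSectionVars false

universe w v u

open CategoryTheory Category Limits MonoidalCategory Pretriangulated Triangulated
  ObjectProperty

namespace Pool.Agent.Lib.MotT

section

variable {T : Type u} [Category.{v} T] [MonoidalCategory T] [BraidedCategory T]

/-- The exchange of a factor with the last one. -/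
def TT (A : T) (n : ℕ) (ρ : List (Fin n)) : tpow A n ⊗ A ⟶ tpow A n ⊗ A :=
  (wordAct A n ρ ▷ A) ≫ swapAt A (n + 1) n ≫ (wordAct A n ρ ▷ A)

lemma TT_factor [Preadditive T] {A B : T} (f : A ⟶ B) (n : ℕ) (ρ : List (Fin n))
    (W : Equiv.Perm (Fin (n + 1)) → List (Fin n)) :
    ∃ g : tpow A n ⊗ B ⟶ tpow B n ⊗ A,
      TT A n ρ ≫ ((antisym A n W ≫ tpowMap f n) ▷ A) = (tpow A n ◁ f) ≫ g := by
  obtain ⟨τ, hτ⟩ := swap_last_factor f n
  refine ⟨(wordAct A n ρ ▷ B) ≫ τ ≫ ((wordAct B n ρ ≫ antisym B n W) ▷ A), ?_⟩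
  have h1 : wordAct A n ρ ≫ antisym A n W ≫ tpowMap f n =
      tpowMap f n ≫ wordAct B n ρ ≫ antisym B n W := by
    rw [← antisym_natural, ← assoc, ← wordAct_natural, assoc]
  have h2 : TT A n ρ ≫ ((antisym A n W ≫ tpowMap f n) ▷ A) =
      (wordAct A n ρ ▷ A) ≫ swapAt A (n + 1) n ≫
        ((wordAct A n ρ ≫ antisym A n W ≫ tpowMap f n) ▷ A) := by
    rw [comp_whiskerRight (wordAct A n ρ)]
    exact (assoc _ _ _).trans (congrArg (fun g => (wordAct A n ρ ▷ A) ≫ g) (assoc _ _ _))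
  rw [h2, h1, comp_whiskerRight (tpowMap f n)]
  have h3 : swapAt A (n + 1) n ≫ (tpowMap f n ▷ A) ≫ ((wordAct B n ρ ≫ antisym B n W) ▷ A) =
      (tpow A n ◁ f) ≫ τ ≫ ((wordAct B n ρ ≫ antisym B n W) ▷ A) := by
    rw [← assoc (tpow A n ◁ f), ← hτ]
    exact (assoc _ _ _).symm
  refine (congrArg (fun g => (wordAct A n ρ ▷ A) ≫ g) h3).trans ?_
  rw [← whisker_exchange_assoc]

end

namespace Realization

variable {T : Type u} [Category.{v} T] [Preadditive T] [HasZeroObject T] [HasShift T ℤ]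
  [∀ n : ℤ, (shiftFunctor T n).Additive] [Pretriangulated T] [MonoidalCategory T]
  [SymmetricCategory T] {F : Type w} [Field F] (R : Realization T F)

lemma dg_succ (i : ℤ) (n : ℕ) : dg i n + i = dg i (n + 1) := rfl

lemma pw_succ' (i : ℤ) (X : T) (n : ℕ) (v : Fin (n + 2) → R.Hm i X) :
    R.pw i X (n + 1) v =
      R.cup (dg_succ i n) (tpow X n) X
        (R.pw i X n (fun k => v k.castSucc)) (v (Fin.last (n + 1))) := rfl

lemma pw_snoc (i : ℤ) (X : T) (n : ℕ) (x : Fin (n + 1) → R.Hm i X) (y : R.Hm i X) :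
    R.pw i X (n + 1) (Fin.snoc (α := fun _ => R.Hm i X) x y) =
      R.cup (dg_succ i n) (tpow X n) X (R.pw i X n x) y := by
  rw [pw_succ']
  have h1 : (fun k : Fin (n + 1) => (Fin.snoc (α := fun _ => R.Hm i X) x y :
      Fin (n + 2) → R.Hm i X) k.castSucc) = x := by
    funext k
    simp only [Fin.snoc_castSucc]
  rw [h1]
  simp only [Fin.snoc_last]

lemma mp_wordAct_zero (X : T) (n : ℕ) (w : List (Fin n)) (v : Fin (n + 1) → R.Hm 0 X) :
    R.mp (dg 0 n) (wordAct X n w) (R.pw 0 X n v) = R.pw 0 X n (v ∘ wordPerm w) := by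
  rw [wordAct_pw]
  simp

lemma mp_TT (A : T) (n : ℕ) (j : Fin (n + 1)) (ρ : List (Fin n))
    (hρ : wordPerm ρ = Equiv.swap j (Fin.last n)) (x : Fin (n + 1) → R.Hm 0 A)
    (y : R.Hm 0 A) :
    R.mp (dg 0 (n + 1)) (TT A n ρ)
      (R.cup (dg_succ 0 n) (tpow A n) A (R.pw 0 A n x) y) =
    R.cup (dg_succ 0 n) (tpow A n) A
      (R.pw 0 A n (Function.update x j y)) (x j) := by
  have h1 : ∀ (x : Fin (n + 1) → R.Hm 0 A) (y : R.Hm 0 A),
      R.mp (dg 0 (n + 1)) (wordAct A n ρ ▷ A)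
        (R.cup (dg_succ 0 n) (tpow A n) A (R.pw 0 A n x) y) =
      R.cup (dg_succ 0 n) (tpow A n) A
        (R.pw 0 A n (x ∘ Equiv.swap j (Fin.last n))) y := by
    intro x y
    rw [R.cup_whiskerRight (dg_succ 0 n), mp_wordAct_zero, hρ]
  have h2 : ∀ (x : Fin (n + 1) → R.Hm 0 A) (y : R.Hm 0 A),
      R.mp (dg 0 (n + 1)) (swapAt A (n + 1) n)
        (R.cup (dg_succ 0 n) (tpow A n) A (R.pw 0 A n x) y) =
      R.cup (dg_succ 0 n) (tpow A n) A
        (R.pw 0 A n (Function.update x (Fin.last n) y)) (x (Fin.last n)) := by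
    intro x y
    rw [← pw_snoc, ← pw_snoc]
    have h3 := R.swapAt_pw 0 A (n + 1) (Fin.last n)
      (Fin.snoc (α := fun _ => R.Hm 0 A) x y)
    have h4 : (((0 : ℤ) * 0).negOnePow : ℤ) = 1 := by simp
    rw [h4, one_smul] at h3
    refine h3.trans ?_
    congr 1
    funext k
    simp only [Function.comp]
    induction k using Fin.lastCases with
    | last =>
      rw [show (Fin.last (n + 1)) = (Fin.last n).succ from rfl, Equiv.swap_apply_right]
      simp only [Fin.snoc_castSucc]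
      rw [Fin.succ_last]
      simp only [Fin.snoc_last]
    | cast k =>
      by_cases hk : k = Fin.last n
      · subst hk
        rw [Equiv.swap_apply_left, Fin.succ_last]
        simp only [Fin.snoc_last, Fin.snoc_castSucc, Function.update_self]
      · rw [Equiv.swap_apply_of_ne_of_ne]
        · simp only [Fin.snoc_castSucc, Function.update_of_ne hk]
        · intro h
          exact hk (Fin.castSucc_injective _ h)
        · intro h
          have := congrArg Fin.val h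
          simp at this
          omega
  have e1 : R.mp (dg 0 (n + 1)) (TT A n ρ)
      (R.cup (dg_succ 0 n) (tpow A n) A (R.pw 0 A n x) y) =
      R.mp (dg 0 (n + 1)) (wordAct A n ρ ▷ A) (R.mp (dg 0 (n + 1)) (swapAt A (n + 1) n)
        (R.mp (dg 0 (n + 1)) (wordAct A n ρ ▷ A)
          (R.cup (dg_succ 0 n) (tpow A n) A (R.pw 0 A n x) y))) := by
    rw [TT, mp_comp_apply]
    exact R.mp_comp_apply _ _ _ _
  rw [e1, h1, h2, h1]
  have e2 : (x ∘ ⇑(Equiv.swap j (Fin.last n))) (Fin.last n) = x j := by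
    simp only [Function.comp, Equiv.swap_apply_right]
  have e3 : Function.update (x ∘ ⇑(Equiv.swap j (Fin.last n))) (Fin.last n) y ∘
      ⇑(Equiv.swap j (Fin.last n)) = Function.update x j y := by
    funext k
    simp only [Function.comp]
    by_cases hk : k = j
    · subst hk
      simp
    · have h5 : Equiv.swap j (Fin.last n) k ≠ Fin.last n := by
        intro h
        apply hk
        have := congrArg (Equiv.swap j (Fin.last n)) h
        rw [Equiv.swap_apply_self, Equiv.swap_apply_right] at this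
        exact this
      rw [Function.update_of_ne h5, Function.update_of_ne hk]
      simp only [Function.comp, Equiv.swap_apply_self]
  rw [e2, e3]

lemma tpowMap_altPw {X Y : T} (f : X ⟶ Y) (n : ℕ) (v : Fin (n + 1) → R.Hm 0 X) :
    R.mp (dg 0 n) (tpowMap f n) (R.altPw X n v) = R.altPw Y n (fun k => R.mp 0 f (v k)) := by
  rw [altPw, altPw, MultilinearMap.alternatization_apply, MultilinearMap.alternatization_apply,
    map_sum]
  refine Finset.sum_congr rfl fun σ _ => ?_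
  have h1 : (Equiv.Perm.sign σ • (R.pw 0 X n).domDomCongr σ v) =
    (Equiv.Perm.sign σ : ℤ) • R.pw 0 X n (fun k => v (σ k)) := rfl
  have h2 : (Equiv.Perm.sign σ • (R.pw 0 Y n).domDomCongr σ (fun k => R.mp 0 f (v k))) =
    (Equiv.Perm.sign σ : ℤ) • R.pw 0 Y n (fun k => R.mp 0 f (v (σ k))) := rfl
  rw [h1, h2, map_zsmul, tpowMap_pw]

section

variable {R} [∀ X : T, (tensorLeft X).CommShift ℤ] [∀ X : T, (tensorLeft X).IsTriangulated]
  [IsTriangulated T] {D : ℤ → ObjectProperty T}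

/-- tensor powers of an object of degree `0` -/
lemma Adm.tpow (hD : Adm R D) {A : T} (hA : D 0 A) (n : ℕ) : D 0 (MotT.tpow A n) := by
  induction n with
  | zero => exact hA
  | succ n ih => exact hD.tensor (add_zero 0) ih hA

/-- The morphisms `s'` and `v` of the Cramer construction. -/
lemma exists_cramer (hD : Adm R D) {A B : T}
    (hA₀ : D 0 A) (hB₀ : D 0 B) (f : A ⟶ B) (n : ℕ)
    (hn : Module.finrank F (LinearMap.range (R.mp 0 f)) = n + 1) :
    ∃ (s' : tpow A n ⟶ tpow B n) (v : tpow A n ⊗ A ⟶ tpow B n ⊗ A)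
      (g' : tpow A n ⊗ B ⟶ tpow B n ⊗ A),
      R.mp (dg 0 n) s' ≠ 0 ∧ v ≫ (tpow B n ◁ f) = 0 ∧
      v = (s' ▷ A) - (tpow A n ◁ f) ≫ g' := by
  have hA : R.ConcentratedIn 0 A := hD.pure hA₀
  have hB : R.ConcentratedIn 0 B := hD.pure hB₀
  have hfinB : Module.Finite F (R.Hm 0 B) := R.finite 0 B
  choose W hW using fun σ : Equiv.Perm (Fin (n + 1)) => exists_word σ
  choose ρ hρ using fun j : Fin (n + 1) => exists_word (Equiv.swap j (Fin.last n))
  choose g hg using fun j : Fin (n + 1) => TT_factor f n (ρ j) W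
  let s' : tpow A n ⟶ tpow B n := antisym A n W ≫ tpowMap f n
  let v : tpow A n ⊗ A ⟶ tpow B n ⊗ A := (s' ▷ A) - ∑ j, TT A n (ρ j) ≫ (s' ▷ A)
  have hs' : ∀ x : Fin (n + 1) → R.Hm 0 A, R.mp (dg 0 n) s' (R.pw 0 A n x) =
      R.altPw B n (fun k => R.mp 0 f (x k)) := by
    intro x
    change R.mp (dg 0 n) (antisym A n W ≫ tpowMap f n) (R.pw 0 A n x) = _
    rw [mp_comp_apply, R.antisym_altPw A n W hW, tpowMap_altPw]
  refine ⟨s', v, ∑ j, g j, ?_, ?_, ?_⟩
  · -- the first morphism is nonzero on cohomology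
    intro h0
    let e := Module.finBasisOfFinrankEq F (LinearMap.range (R.mp 0 f)) hn
    choose x hx using fun k : Fin (n + 1) => LinearMap.mem_range.1 (e k).2
    have h1 : LinearIndependent F (fun k => R.mp 0 f (x k)) := by
      have h2 : (fun k => R.mp 0 f (x k)) =
          (LinearMap.range (R.mp 0 f)).subtype ∘ e := by
        funext k
        exact hx k
      rw [h2]
      exact e.linearIndependent.map' _ (Submodule.ker_subtype _)
    apply R.altPw_ne_zero B n h1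
    rw [← hs', h0, LinearMap.zero_apply]
  · -- the second one composes to zero with `f`
    have hA' := hD.tpow hA₀ (n + 1)
    have hB' := hD.tpow hB₀ (n + 1)
    refine hD.eq_zero le_rfl (X := tpow A (n + 1)) (Y := tpow B (n + 1))
      hA' hB' _ ?_
    have hz : ∀ j : ℤ, j = 0 → ∀ g : tpow A (n + 1) ⟶ tpow B (n + 1), R.mp j g = 0 →
        R.mp 0 g = 0 := by
      rintro j rfl g hg
      exact hg
    refine hz _ (dg_zero (n + 1)) _ ?_
    refine LinearMap.ext_on_range (R.span_pw hA (n + 1)) fun a => ?_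
    rw [LinearMap.zero_apply]
    have h1 : ∀ (x : Fin (n + 1) → R.Hm 0 A) (y : R.Hm 0 A),
        R.mp (dg 0 (n + 1)) (v ≫ (tpow B n ◁ f))
          (R.cup (dg_succ 0 n) (tpow A n) A (R.pw 0 A n x) y) = 0 := by
      intro x y
      have h2 : ∀ (x : Fin (n + 1) → R.Hm 0 A) (y : R.Hm 0 A),
          R.mp (dg 0 (n + 1)) ((s' ▷ A) ≫ (tpow B n ◁ f))
            (R.cup (dg_succ 0 n) (tpow A n) A (R.pw 0 A n x) y) =
          R.cup (dg_succ 0 n) (tpow B n) B (R.altPw B n (fun k => R.mp 0 f (x k)))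
            (R.mp 0 f y) := by
        intro x y
        rw [mp_comp_apply, R.cup_whiskerRight (dg_succ 0 n), hs',
          R.cup_whiskerLeft (dg_succ 0 n)]
      have h3 : v ≫ (tpow B n ◁ f) = (s' ▷ A) ≫ (tpow B n ◁ f) -
          ∑ j, TT A n (ρ j) ≫ (s' ▷ A) ≫ (tpow B n ◁ f) := by
        change ((s' ▷ A) - ∑ j, TT A n (ρ j) ≫ (s' ▷ A)) ≫ (tpow B n ◁ f) = _
        rw [Preadditive.sub_comp, Preadditive.sum_comp]
        simp only [assoc]
      have h4 : R.mp (dg 0 (n + 1)) (v ≫ (tpow B n ◁ f)) =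
          R.mp (dg 0 (n + 1)) ((s' ▷ A) ≫ (tpow B n ◁ f)) -
          ∑ j, R.mp (dg 0 (n + 1)) (TT A n (ρ j) ≫ (s' ▷ A) ≫ (tpow B n ◁ f)) := by
        rw [h3, sub_eq_add_neg, mp_add, mp_neg, mp_sum, ← sub_eq_add_neg]
      rw [h4, LinearMap.sub_apply, LinearMap.sum_apply, h2]
      have h5 : ∀ j, R.mp (dg 0 (n + 1)) (TT A n (ρ j) ≫ (s' ▷ A) ≫ (tpow B n ◁ f))
            (R.cup (dg_succ 0 n) (tpow A n) A (R.pw 0 A n x) y) =
          R.cup (dg_succ 0 n) (tpow B n) B
            (R.altPw B n (Function.update (fun k => R.mp 0 f (x k)) j (R.mp 0 f y)))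
            (R.mp 0 f (x j)) := by
        intro j
        rw [mp_comp_apply, R.mp_TT A n j (ρ j) (hρ j), h2]
        congr 2
        congr 1
        funext k
        by_cases hk : k = j
        · subst hk
          simp
        · simp [Function.update_of_ne hk]
      simp only [h5]
      rw [cramer_alt (LinearMap.range (R.mp 0 f)) hn (R.altPw B n)
        (R.cup (dg_succ 0 n) (tpow B n) B) (fun k => R.mp 0 f (x k))
        (fun k => LinearMap.mem_range_self _ _) (R.mp 0 f y) (LinearMap.mem_range_self _ _),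
        sub_self]
    exact (congrArg (R.mp (dg 0 (n + 1)) (v ≫ (tpow B n ◁ f))) (R.pw_succ' 0 A n a)).trans
      (h1 _ _)
  · change (s' ▷ A) - ∑ j, TT A n (ρ j) ≫ (s' ▷ A) = _
    rw [Preadditive.comp_sum]
    congr 1
    refine Finset.sum_congr rfl fun j _ => hg j

/-- Weak regularity of a morphism between objects concentrated in degree `0`. -/
theorem exists_regular (hD : Adm R D) {A B : T}
    (hA₀ : D 0 A) (hB₀ : D 0 B) (f : A ⟶ B) :
    ∃ (M : T) (s : M ⟶ 𝟙_ T) (u : M ⊗ A ⟶ A) (g : M ⊗ B ⟶ A),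
      D 0 M ∧ R.mp 0 s ≠ 0 ∧ u ≫ f = 0 ∧
      (s ▷ A) ≫ (λ_ A).hom - u = (M ◁ f) ≫ g := by
  have hA : R.ConcentratedIn 0 A := hD.pure hA₀
  have hB : R.ConcentratedIn 0 B := hD.pure hB₀
  have hfinB : Module.Finite F (R.Hm 0 B) := R.finite 0 B
  rcases Nat.eq_zero_or_eq_succ_pred (Module.finrank F (LinearMap.range (R.mp 0 f))) with h | h
  · -- the rank is zero
    have h1 : R.mp 0 f = 0 := by
      rw [← LinearMap.range_eq_bot]
      exact Submodule.finrank_eq_zero.1 h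
    have h2 : f = 0 := hD.eq_zero le_rfl hA₀ hB₀ f h1
    refine ⟨𝟙_ T, 𝟙 _, (λ_ A).hom, 0, hD.unit, ?_, ?_, ?_⟩
    · intro h0
      obtain ⟨c, hc⟩ := R.nontrivial_unit
      apply hc
      have h3 : R.mp 0 (𝟙 (𝟙_ T)) c = 0 := by rw [h0, LinearMap.zero_apply]
      rwa [mp_id] at h3
    · rw [h2, comp_zero]
    · rw [id_whiskerRight, id_comp, sub_self, comp_zero]
  · obtain ⟨s', v, g', hs', hv, hvg⟩ := exists_cramer hD hA₀ hB₀ f _ h
    generalize (Module.finrank F (LinearMap.range (R.mp 0 f))).pred = n at *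
    obtain ⟨Z, ⟨hQZ⟩, hZ⟩ := hD.dual (hD.tpow hB₀ n)
    have hQ := R.conc_tpow hB n
    have hM : D 0 (Z ⊗ tpow A n) := hD.tensor (add_zero 0) hZ (hD.tpow hA₀ n)
    let s : Z ⊗ tpow A n ⟶ 𝟙_ T := (Z ◁ s') ≫ ε_ (tpow B n) Z
    refine ⟨Z ⊗ tpow A n, s,
      (α_ _ _ _).hom ≫ (Z ◁ v) ≫ (α_ _ _ _).inv ≫ (ε_ (tpow B n) Z ▷ A) ≫ (λ_ A).hom,
      (α_ _ _ _).hom ≫ (Z ◁ g') ≫ (α_ _ _ _).inv ≫ (ε_ (tpow B n) Z ▷ A) ≫ (λ_ A).hom,
      hM, ?_, ?_, ?_⟩
    · intro h0
      apply hs'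
      -- recover `s'` from `s`
      have h1 : s' ≫ (ρ_ (tpow B n)).inv = (λ_ (tpow A n)).inv ≫
          (η_ (tpow B n) Z ▷ tpow A n) ≫ (α_ _ _ _).hom ≫ (tpow B n ◁ s) := by
        have h2 : (tensorLeftHomEquiv (tpow A n) (tpow B n) Z (𝟙_ T)).symm
            (s' ≫ (ρ_ (tpow B n)).inv) = s := by
          change (Z ◁ (s' ≫ (ρ_ (tpow B n)).inv)) ≫ (α_ _ _ _).inv ≫
            (ε_ (tpow B n) Z ▷ 𝟙_ T) ≫ (λ_ (𝟙_ T)).hom = (Z ◁ s') ≫ ε_ (tpow B n) Z
          rw [MonoidalCategory.whiskerLeft_comp, assoc]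
          congr 1
          rw [MonoidalCategory.whiskerLeft_rightUnitor_inv, assoc, Iso.hom_inv_id_assoc,
            unitors_equal, ← rightUnitor_inv_naturality_assoc, Iso.inv_hom_id, comp_id]
        have h3 := congrArg (tensorLeftHomEquiv (tpow A n) (tpow B n) Z (𝟙_ T)) h2
        rw [Equiv.apply_symm_apply] at h3
        exact h3
      have h4 : R.mp (dg 0 n) (tpow B n ◁ s) = 0 := by
        ext z
        rw [LinearMap.zero_apply]
        have h5 := R.cup_span (show dg 0 n + 0 = dg 0 n by ring) (tpow B n) (Z ⊗ tpow A n)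
          (fun k hk => Or.inl (hQ k hk)) z
        induction h5 using Submodule.span_induction with
        | mem z hz =>
          obtain ⟨x, y, rfl⟩ := hz
          rw [cup_whiskerLeft, h0, LinearMap.zero_apply, map_zero]
        | zero => rw [map_zero]
        | add a b _ _ ha hb => rw [map_add, ha, hb, add_zero]
        | smul c a _ ha => rw [map_smul, ha, smul_zero]
      have h6 : s' = (s' ≫ (ρ_ (tpow B n)).inv) ≫ (ρ_ (tpow B n)).hom := by simp
      rw [h6, h1, mp_comp, mp_comp, mp_comp, mp_comp, h4]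
      ext z
      simp
    · have h1 : (ε_ (tpow B n) Z ▷ A) ≫ (λ_ A).hom ≫ f =
          ((Z ⊗ tpow B n) ◁ f) ≫ (ε_ (tpow B n) Z ▷ B) ≫ (λ_ B).hom := by
        rw [← leftUnitor_naturality, whisker_exchange_assoc]
      simp only [assoc]
      rw [h1, ← associator_inv_naturality_right_assoc,
        ← MonoidalCategory.whiskerLeft_comp_assoc, hv, MonoidalPreadditive.whiskerLeft_zero,
        zero_comp, comp_zero]
    · have h1 : (s ▷ A) ≫ (λ_ A).hom = (α_ Z (tpow A n) A).hom ≫ (Z ◁ (s' ▷ A)) ≫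
          (α_ _ _ _).inv ≫ (ε_ (tpow B n) Z ▷ A) ≫ (λ_ A).hom := by
        change (((Z ◁ s') ≫ ε_ (tpow B n) Z) ▷ A) ≫ (λ_ A).hom = _
        rw [comp_whiskerRight, assoc, associator_inv_naturality_middle_assoc,
          Iso.hom_inv_id_assoc]
      have h2 : ((Z ⊗ tpow A n) ◁ f) ≫ (α_ Z (tpow A n) B).hom =
          (α_ Z (tpow A n) A).hom ≫ (Z ◁ (tpow A n ◁ f)) := by
        rw [associator_naturality_right]
      rw [h1, hvg, ← Preadditive.comp_sub, reassoc_of% h2]
      congr 1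
      rw [← Preadditive.sub_comp, ← MonoidalCategory.whiskerLeft_comp_assoc]
      congr 1
      have h3 : (Z ◁ (s' ▷ A)) - (Z ◁ ((s' ▷ A) - (tpow A n ◁ f) ≫ g')) =
          Z ◁ ((tpow A n ◁ f) ≫ g') := by
        rw [sub_eq_iff_eq_add, ← MonoidalPreadditive.whiskerLeft_add]
        congr 1
        abel
      exact h3

end

end Realization

end Pool.Agent.Lib.MotT
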