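import Pool.Agent.Lib.MP_6d0ce9_ag.Defs

/-!
# Tensor products and t-structures
-/

set_option linter.unusedSectionVars false

universe w v u

open CategoryTheory Category Limits MonoidalCategory Pretriangulated Triangulated

namespace Pool.Agent.Lib.MotT

section TS

variable {T : Type u} [Category.{v} T] [Preadditive T] [HasZeroObject T] [HasShift T ℤ]
  [∀ n : ℤ, (shiftFunctor T n).Additive] [Pretriangulated T]

variable (t : TStructure T)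

/-- truncation triangle in terms of `IsLE` and `IsGE`. -/
lemma exists_trunc (X : T) (n₀ n₁ : ℤ) (h : n₀ + 1 = n₁) :
    ∃ (A B : T) (f : A ⟶ X) (g : X ⟶ B) (δ : B ⟶ A⟦(1 : ℤ)⟧),
      Triangle.mk f g δ ∈ distTriang T ∧ t.IsLE A n₀ ∧ t.IsGE B n₁ := by
  obtain ⟨A, B, hA, hB, f, g, δ, hT⟩ := t.exists_triangle X n₀ n₁ h
  exact ⟨A, B, f, g, δ, hT, ⟨hA⟩, ⟨hB⟩⟩

/-- an object is `≤ n` iff all maps to objects `≥ n + 1` vanish; extension closure. -/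
lemma isLE_ext {Tr : Triangle T} (hT : Tr ∈ distTriang T) (n : ℤ)
    (h₁ : t.IsLE Tr.obj₁ n) (h₃ : t.IsLE Tr.obj₃ n) : t.IsLE Tr.obj₂ n := by
  obtain ⟨A, B, f, g, δ, hT', hA, hB⟩ := exists_trunc t Tr.obj₂ n (n + 1) rfl
  have hg : g = 0 := by
    have h1 : Tr.mor₁ ≫ g = 0 := t.zero_of_isLE_of_isGE _ n (n + 1) (by lia) h₁ hB
    obtain ⟨k, hk⟩ := Triangle.yoneda_exact₂ _ hT g h1
    have : k = 0 := t.zero_of_isLE_of_isGE _ n (n + 1) (by lia) h₃ hB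
    rw [hk, this, comp_zero]
  have hf : IsSplitEpi f := by
    obtain ⟨s, hs⟩ := Triangle.coyoneda_exact₂ _ hT' (𝟙 Tr.obj₂) (by
      change 𝟙 _ ≫ g = 0
      rw [hg, comp_zero])
    exact ⟨⟨s, hs.symm⟩⟩
  have hB0 : IsZero B := by
    have hδ : IsSplitMono δ := by
      obtain ⟨s, hs⟩ := Triangle.yoneda_exact₃ _ hT' (𝟙 B) (by
        change g ≫ 𝟙 _ = 0
        rw [hg, zero_comp])
      exact ⟨⟨s, hs.symm⟩⟩
    have : δ ≫ (retraction δ) = 𝟙 B := IsSplitMono.id δ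
    rw [IsZero.iff_id_eq_zero, ← this]
    have h2 : retraction δ = 0 := by
      have := t.isLE_shift A n 1 (n - 1) (by lia)
      exact t.zero_of_isLE_of_isGE _ (n - 1) (n + 1) (by lia) this hB
    rw [h2, comp_zero]
  have : IsIso f := (Triangle.isZero₃_iff_isIso₁ _ hT').1 hB0
  exact t.isLE_of_iso (asIso f) n

lemma isGE_ext {Tr : Triangle T} (hT : Tr ∈ distTriang T) (n : ℤ)
    (h₁ : t.IsGE Tr.obj₁ n) (h₃ : t.IsGE Tr.obj₃ n) : t.IsGE Tr.obj₂ n := by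
  obtain ⟨A, B, f, g, δ, hT', hA, hB⟩ := exists_trunc t Tr.obj₂ (n - 1) n (by lia)
  have hf : f = 0 := by
    have h1 : f ≫ Tr.mor₂ = 0 := t.zero_of_isLE_of_isGE _ (n - 1) n (by lia) hA h₃
    obtain ⟨k, hk⟩ := Triangle.coyoneda_exact₂ _ hT f h1
    have : k = 0 := t.zero_of_isLE_of_isGE _ (n - 1) n (by lia) hA h₁
    rw [hk, this, zero_comp]
  have hA0 : IsZero A := by
    obtain ⟨s, hs⟩ := Triangle.coyoneda_exact₂ _ (inv_rot_of_distTriang _ hT') (𝟙 A) (by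
      change 𝟙 A ≫ f = 0
      rw [hf, comp_zero])
    rw [IsZero.iff_id_eq_zero, hs]
    have h2 : s = 0 := by
      have := t.isGE_shift B n (-1) (n + 1) (by lia)
      exact t.zero_of_isLE_of_isGE s (n - 1) (n + 1) (by lia) hA this
    rw [h2, zero_comp]
    rfl
  have : IsIso g := (Triangle.isZero₁_iff_isIso₂ _ hT').1 hA0
  exact t.isGE_of_iso (asIso g).symm n

/-- if `X ⟶ Y ⟶ Z` is distinguished with `Y ≤ n` and `X ≤ n + 1` then `Z ≤ n`. -/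
lemma isLE₃ {Tr : Triangle T} (hT : Tr ∈ distTriang T) (n : ℤ)
    (h₁ : t.IsLE Tr.obj₁ (n + 1)) (h₂ : t.IsLE Tr.obj₂ n) : t.IsLE Tr.obj₃ n :=
  isLE_ext t (rot_of_distTriang _ hT) n h₂ (t.isLE_shift _ (n + 1) 1 n (by lia))

/-- if `X ⟶ Y ⟶ Z` is distinguished with `Y ≥ n` and `X ≥ n + 1` then `Z ≥ n`. -/
lemma isGE₃ {Tr : Triangle T} (hT : Tr ∈ distTriang T) (n : ℤ)
    (h₁ : t.IsGE Tr.obj₁ (n + 1)) (h₂ : t.IsGE Tr.obj₂ n) : t.IsGE Tr.obj₃ n :=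
  isGE_ext t (rot_of_distTriang _ hT) n h₂ (t.isGE_shift _ (n + 1) 1 n (by lia))

/-- if `X ⟶ Y ⟶ Z` is distinguished with `Y ≤ n` and `Z ≤ n - 1` then `X ≤ n`. -/
lemma isLE₁ {Tr : Triangle T} (hT : Tr ∈ distTriang T) (n : ℤ)
    (h₂ : t.IsLE Tr.obj₂ n) (h₃ : t.IsLE Tr.obj₃ (n - 1)) : t.IsLE Tr.obj₁ n :=
  isLE_ext t (inv_rot_of_distTriang _ hT) n (t.isLE_shift _ (n - 1) (-1) n (by lia)) h₂

/-- if `X ⟶ Y ⟶ Z` is distinguished with `Y ≥ n` and `Z ≥ n - 1` then `X ≥ n`. -/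
lemma isGE₁ {Tr : Triangle T} (hT : Tr ∈ distTriang T) (n : ℤ)
    (h₂ : t.IsGE Tr.obj₂ n) (h₃ : t.IsGE Tr.obj₃ (n - 1)) : t.IsGE Tr.obj₁ n :=
  isGE_ext t (inv_rot_of_distTriang _ hT) n (t.isGE_shift _ (n - 1) (-1) n (by lia)) h₂

lemma isLE_of_retract {X Y : T} (r : Retract X Y) (n : ℤ) (h : t.IsLE Y n) : t.IsLE X n := by
  obtain ⟨A, B, f, g, δ, hT', hA, hB⟩ := exists_trunc t X n (n + 1) rfl
  have hg : g = 0 := by
    have : r.r ≫ g = 0 := t.zero_of_isLE_of_isGE _ n (n + 1) (by lia) h hB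
    rw [← id_comp g, ← r.retract, assoc, this, comp_zero]
  have hB0 : IsZero B := by
    obtain ⟨s, hs⟩ := Triangle.yoneda_exact₃ _ hT' (𝟙 B) (by
        change g ≫ 𝟙 _ = 0
        rw [hg, zero_comp])
    rw [IsZero.iff_id_eq_zero, hs]
    have h2 : s = 0 := by
      have := t.isLE_shift A n 1 (n - 1) (by lia)
      exact t.zero_of_isLE_of_isGE _ (n - 1) (n + 1) (by lia) this hB
    rw [h2, comp_zero]
    rfl
  have : IsIso f := (Triangle.isZero₃_iff_isIso₁ _ hT').1 hB0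
  exact t.isLE_of_iso (asIso f) n

lemma isGE_of_retract {X Y : T} (r : Retract X Y) (n : ℤ) (h : t.IsGE Y n) : t.IsGE X n := by
  obtain ⟨A, B, f, g, δ, hT', hA, hB⟩ := exists_trunc t X (n - 1) n (by lia)
  have hf : f = 0 := by
    have : f ≫ r.i = 0 := t.zero_of_isLE_of_isGE _ (n - 1) n (by lia) hA h
    rw [← comp_id f, ← r.retract, ← assoc, this, zero_comp]
  have hA0 : IsZero A := by
    obtain ⟨s, hs⟩ := Triangle.coyoneda_exact₂ _ (inv_rot_of_distTriang _ hT') (𝟙 A) (by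
      change 𝟙 A ≫ f = 0
      rw [hf, comp_zero])
    rw [IsZero.iff_id_eq_zero, hs]
    have h2 : s = 0 := by
      have := t.isGE_shift B n (-1) (n + 1) (by lia)
      exact t.zero_of_isLE_of_isGE s (n - 1) (n + 1) (by lia) hA this
    rw [h2, zero_comp]
    rfl
  have : IsIso g := (Triangle.isZero₁_iff_isIso₂ _ hT').1 hA0
  exact t.isGE_of_iso (asIso g).symm n

lemma heart_iff (X : T) : t.heart X ↔ t.IsLE X 0 ∧ t.IsGE X 0 := t.mem_heart_iff X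

end TS

section Tens

variable {T : Type u} [Category.{v} T] [Preadditive T] [HasZeroObject T] [HasShift T ℤ]
  [∀ n : ℤ, (shiftFunctor T n).Additive] [Pretriangulated T] [MonoidalCategory T]
  [SymmetricCategory T] [∀ X : T, (tensorLeft X).CommShift ℤ]
  [∀ X : T, (tensorLeft X).IsTriangulated]

lemma tri_left (X : T) (Tr : Triangle T) (h : Tr ∈ distTriang T) :
    ∃ δ : X ⊗ Tr.obj₃ ⟶ (X ⊗ Tr.obj₁)⟦(1 : ℤ)⟧,
      Triangle.mk (X ◁ Tr.mor₁) (X ◁ Tr.mor₂) δ ∈ distTriang T :=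
  ⟨_, (tensorLeft X).map_distinguished Tr h⟩

/-- `X ⊗ Y[a] ≅ (X ⊗ Y)[a]`. -/
noncomputable def shiftRight (X Y : T) (a : ℤ) : X ⊗ (Y⟦a⟧) ≅ (X ⊗ Y)⟦a⟧ :=
  ((tensorLeft X).commShiftIso a).app Y

/-- `X[a] ⊗ Y ≅ (X ⊗ Y)[a]`. -/
noncomputable def shiftLeft (X Y : T) (a : ℤ) : (X⟦a⟧) ⊗ Y ≅ (X ⊗ Y)⟦a⟧ :=
  β_ _ _ ≪≫ shiftRight Y X a ≪≫ (shiftFunctor T a).mapIso (β_ Y X)

lemma isZero_tensor_left (X : T) {Y : T} (h : IsZero Y) : IsZero (X ⊗ Y) :=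
  (tensorLeft X).map_isZero h

lemma isZero_tensor_right {X : T} (Y : T) (h : IsZero X) : IsZero (X ⊗ Y) :=
  (isZero_tensor_left Y h).of_iso (β_ X Y)

lemma le_tensor {t : TStructure T} (ht : TensorCompatible t) {a b : ℤ} {X Y : T}
    (hX : t.IsLE X a) (hY : t.IsLE Y b) : t.IsLE (X ⊗ Y) (a + b) := by
  have hX' := t.isLE_shift X a a 0 (by lia)
  have hY' := t.isLE_shift Y b b 0 (by lia)
  have h : t.IsLE (X⟦a⟧ ⊗ Y⟦b⟧) 0 := ⟨ht.1 _ _ hX'.le hY'.le⟩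
  have e : X⟦a⟧ ⊗ Y⟦b⟧ ≅ ((X ⊗ Y)⟦a⟧)⟦b⟧ :=
    shiftRight _ _ b ≪≫ (shiftFunctor T b).mapIso (shiftLeft X Y a)
  have h1 := t.isLE_of_iso e 0
  have h2 := t.isLE_of_shift ((X ⊗ Y)⟦a⟧) b b 0 (by lia)
  exact t.isLE_of_shift (X ⊗ Y) (a + b) a b (by lia)

lemma ge_tensor {t : TStructure T} (ht : TensorCompatible t) {a b : ℤ} {X Y : T}
    (hX : t.IsGE X a) (hY : t.IsGE Y b) : t.IsGE (X ⊗ Y) (a + b) := by
  have hX' := t.isGE_shift X a a 0 (by lia)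
  have hY' := t.isGE_shift Y b b 0 (by lia)
  have h : t.IsGE (X⟦a⟧ ⊗ Y⟦b⟧) 0 := ⟨ht.2 _ _ hX'.ge hY'.ge⟩
  have e : X⟦a⟧ ⊗ Y⟦b⟧ ≅ ((X ⊗ Y)⟦a⟧)⟦b⟧ :=
    shiftRight _ _ b ≪≫ (shiftFunctor T b).mapIso (shiftLeft X Y a)
  have h1 := t.isGE_of_iso e 0
  have h2 := t.isGE_of_shift ((X ⊗ Y)⟦a⟧) b b 0 (by lia)
  exact t.isGE_of_shift (X ⊗ Y) (a + b) a b (by lia)

/-- If `B ≅ B ⊗ B` and `B ≥ 1` for a non-degenerate tensor compatible t-structure then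
`B = 0`. -/
lemma isZero_of_idem_ge {t : TStructure T} (hnd : Nondegenerate t) (ht : TensorCompatible t)
    {B : T} (e : B ⊗ B ≅ B) (h : t.IsGE B 1) : IsZero B := by
  apply hnd.2
  have key : ∀ k : ℕ, t.IsGE B ((k : ℤ) + 1) := by
    intro k
    induction k with
    | zero => simpa using h
    | succ k ih =>
      have h1 := ge_tensor ht ih h
      have h2 := t.isGE_of_iso e ((k : ℤ) + 1 + 1)
      exact_mod_cast h2
  intro n
  have h1 := key n.toNat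
  have h2 := t.isGE_of_ge B n (n.toNat + 1) (by
    have := Int.self_le_toNat n
    lia)
  exact h2.ge

lemma isZero_of_idem_le {t : TStructure T} (hnd : Nondegenerate t) (ht : TensorCompatible t)
    {B : T} (e : B ⊗ B ≅ B) (h : t.IsLE B (-1)) : IsZero B := by
  apply hnd.1
  have key : ∀ k : ℕ, t.IsLE B (-(k : ℤ) - 1) := by
    intro k
    induction k with
    | zero => simpa using h
    | succ k ih =>
      have h1 := le_tensor ht ih h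
      have h2 := t.isLE_of_iso e (-(k : ℤ) - 1 + -1)
      have h3 : -(k : ℤ) - 1 + -1 = -((k + 1 : ℕ) : ℤ) - 1 := by push_cast; ring
      rw [← h3]
      exact h2
  intro n
  have h1 := key (-n).toNat
  have h2 := t.isLE_of_le B (-((-n).toNat : ℤ) - 1) n (by
    have := Int.self_le_toNat (-n)
    lia)
  exact h2.le

/-- The unit object lies in the heart of any non-degenerate tensor compatible t-structure. -/
lemma unit_mem {t : TStructure T} (hnd : Nondegenerate t) (ht : TensorCompatible t) :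
    t.IsLE (𝟙_ T) 0 ∧ t.IsGE (𝟙_ T) 0 := by
  constructor
  · obtain ⟨A, B, f, g, δ, hT, hA, hB⟩ := exists_trunc t (𝟙_ T) 0 1 rfl
    obtain ⟨δA, hTA⟩ := tri_left A _ hT
    obtain ⟨δB, hTB⟩ := tri_left B _ hT
    have h1 : t.IsLE (A ⊗ B) 0 := by
      refine isLE₃ t hTA 0 ?_ ?_
      · have := le_tensor ht hA hA
        exact t.isLE_of_le (A ⊗ A) (0 + 0) (0 + 1) (by lia)
      · exact t.isLE_of_iso (ρ_ A).symm 0
    have h2 : t.IsGE (B ⊗ A) 1 := by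
      refine isGE₁ t hTB 1 ?_ ?_
      · exact t.isGE_of_iso (ρ_ B).symm 1
      · have := ge_tensor ht hB hB
        exact t.isGE_of_ge (B ⊗ B) (1 - 1) (1 + 1) (by lia)
    have h3 : t.IsGE (A ⊗ B) 1 := t.isGE_of_iso (β_ B A) 1
    have h4 : IsZero (A ⊗ B) := t.isZero (A ⊗ B) 0 1
    have h5 : IsZero (B ⊗ A) := h4.of_iso (β_ B A)
    have h6 : IsIso (B ◁ g) := (Triangle.isZero₁_iff_isIso₂ _ hTB).1 h5
    have h7 : IsZero B :=
      isZero_of_idem_ge hnd ht ((asIso (B ◁ g)).symm ≪≫ ρ_ B) hB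
    have : IsIso f := (Triangle.isZero₃_iff_isIso₁ _ hT).1 h7
    exact t.isLE_of_iso (asIso f) 0
  · obtain ⟨A, B, f, g, δ, hT, hA, hB⟩ := exists_trunc t (𝟙_ T) (-1) 0 (by lia)
    obtain ⟨δA, hTA⟩ := tri_left A _ hT
    obtain ⟨δB, hTB⟩ := tri_left B _ hT
    have h1 : t.IsLE (A ⊗ B) (-1) := by
      refine isLE₃ t hTA (-1) ?_ ?_
      · have := le_tensor ht hA hA
        exact t.isLE_of_le (A ⊗ A) (-1 + -1) (-1 + 1) (by lia)
      · exact t.isLE_of_iso (ρ_ A).symm (-1)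
    have h2 : t.IsGE (B ⊗ A) 0 := by
      refine isGE₁ t hTB 0 ?_ ?_
      · exact t.isGE_of_iso (ρ_ B).symm 0
      · have := ge_tensor ht hB hB
        exact t.isGE_of_ge (B ⊗ B) (0 - 1) (0 + 0) (by lia)
    have h3 : t.IsGE (A ⊗ B) 0 := t.isGE_of_iso (β_ B A) 0
    have h4 : IsZero (A ⊗ B) := t.isZero (A ⊗ B) (-1) 0
    have h6 : IsIso (A ◁ f) := (Triangle.isZero₃_iff_isIso₁ _ hTA).1 h4
    have h7 : IsZero A :=
      isZero_of_idem_le hnd ht (asIso (A ◁ f) ≪≫ ρ_ A) hA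
    have : IsIso g := (Triangle.isZero₁_iff_isIso₂ _ hT).1 h7
    exact t.isGE_of_iso (asIso g).symm 0

end Tens

end Pool.Agent.Lib.MotT
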