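import Pool.Agent.Lib.MP_6d0ce9_ag.Bdd

/-!
# The unit object, duals and realisations
-/

set_option linter.unusedSectionVars false

universe w v u

open CategoryTheory Category Limits MonoidalCategory Pretriangulated Triangulated
  ObjectProperty

namespace Pool.Agent.Lib.MotT

namespace Realization

variable {T : Type u} [Category.{v} T] [Preadditive T] [HasZeroObject T] [HasShift T ℤ]
  [∀ n : ℤ, (shiftFunctor T n).Additive] [Pretriangulated T] [MonoidalCategory T]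
  [SymmetricCategory T] {F : Type w} [Field F] (R : Realization T F)

/-- tensor products of concentrated objects -/
lemma conc_tensor {a b c : ℤ} (h : a + b = c) {X Y : T} (hX : R.ConcentratedIn a X)
    (hY : R.ConcentratedIn b Y) : R.ConcentratedIn c (X ⊗ Y) := by
  intro i hi
  refine R.van_tensor i X Y fun k => ?_
  by_cases hk : k = a
  · right
    apply hY
    intro h'
    apply hi
    lia
  · left
    exact hX k hk

lemma nontrivial_unit : ∃ c : R.Hm 0 (𝟙_ T), c ≠ 0 := by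
  have := R.unit
  exact exists_ne 0

/-- the realisation of the unit is concentrated in degree `0` -/
lemma unit_conc : R.ConcentratedIn 0 (𝟙_ T) := by
  obtain ⟨b, hb⟩ := R.bounded (𝟙_ T)
  have key : ∀ (x : ℤ), (∃ c : R.Hm x (𝟙_ T), c ≠ 0) → ∀ k : ℕ,
      ∃ c : R.Hm (x * (k + 1)) (𝟙_ T), c ≠ 0 := by
    rintro x ⟨c, hc⟩ k
    induction k with
    | zero =>
      have h1 : x * (((0 : ℕ) : ℤ) + 1) = x := by push_cast; ring
      rw [h1]
      exact ⟨c, hc⟩
    | succ k ih =>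
      obtain ⟨c', hc'⟩ := ih
      have h1 : x * ((k : ℤ) + 1) + x = x * (((k + 1 : ℕ) : ℤ) + 1) := by push_cast; ring
      refine ⟨R.mp _ (λ_ (𝟙_ T)).hom (R.cup h1 _ _ c' c), fun h0 => ?_⟩
      have h2 := R.cup_ne_zero h1 hc' hc
      apply h2
      have h3 := congrArg (R.mp (x * (((k + 1 : ℕ) : ℤ) + 1)) (λ_ (𝟙_ T)).inv) h0
      rwa [← mp_comp_apply, Iso.hom_inv_id, mp_id, map_zero] at h3
  intro i hi
  by_contra hcon
  have h1 : ∃ c : R.Hm i (𝟙_ T), c ≠ 0 := by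
    by_contra h2
    push Not at h2
    exact hcon ⟨fun x y => (h2 x).trans (h2 y).symm⟩
  obtain ⟨c, hc⟩ := key i h1 b.natAbs
  have h2 : b < |i * ((b.natAbs : ℤ) + 1)| := by
    rw [abs_mul]
    have h3 : 1 ≤ |i| := Int.one_le_abs hi
    have h4 : |((b.natAbs : ℤ) + 1)| = (b.natAbs : ℤ) + 1 := abs_of_nonneg (by positivity)
    rw [h4]
    have h5 : b ≤ (b.natAbs : ℤ) := Int.le_natAbs
    nlinarith
  exact hc ((hb _ h2).elim _ _)

/-- Künneth isomorphism in degree `0` when both factors are concentrated in degree `0`. -/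
lemma kunneth_bij {a b c : ℤ} (h : a + b = c) {X Y : T} (hX : R.ConcentratedIn a X) :
    Function.Bijective (TensorProduct.lift (R.cup h X Y)) := by
  refine ⟨R.kunneth_of c a b h X Y, fun z => ?_⟩
  have h1 := R.cup_span h X Y (fun k hk => Or.inl (hX k hk)) z
  have h2 : Submodule.span F {z | ∃ (x : R.Hm a X) (y : R.Hm b Y), z = R.cup h X Y x y} ≤
      LinearMap.range (TensorProduct.lift (R.cup h X Y)) := by
    rw [Submodule.span_le]
    rintro _ ⟨x, y, rfl⟩
    exact ⟨x ⊗ₜ y, by rw [TensorProduct.lift.tmul]⟩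
  exact h2 h1

lemma finrank_unit : Module.finrank F (R.Hm 0 (𝟙_ T)) = 1 := by
  have hfin : Module.Finite F (R.Hm 0 (𝟙_ T)) := R.finite 0 _
  have h1 := LinearEquiv.ofBijective _ (R.kunneth_bij (rfl : (0 : ℤ) + 0 = 0 + 0)
    (Y := 𝟙_ T) R.unit_conc)
  have h2 : R.Hm (0 + 0) (𝟙_ T ⊗ 𝟙_ T) ≃ₗ[F] R.Hm 0 (𝟙_ T) :=
    LinearEquiv.ofLinearMap (R.mp 0 (λ_ (𝟙_ T)).hom) (R.mp 0 (λ_ (𝟙_ T)).inv)
      (by rw [← mp_comp, Iso.inv_hom_id, mp_id]) (by rw [← mp_comp, Iso.hom_inv_id, mp_id])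
  have h3 := (h1.trans h2).finrank_eq
  rw [Module.finrank_tensorProduct] at h3
  have h4 : Module.finrank F (R.Hm 0 (𝟙_ T)) ≠ 0 := by
    have := R.unit
    have h5 : 0 < Module.finrank F (R.Hm 0 (𝟙_ T)) := Module.finrank_pos_iff.2 this
    lia
  have h5 := Nat.eq_of_mul_eq_mul_left (Nat.pos_of_ne_zero h4) (h3.trans (mul_one _).symm)
  exact h5

/-- Every element of `H^j(Y)` comes from a product with a fixed nonzero `c ∈ H^0(𝟙)`. -/
lemma surj_unit {c : R.Hm 0 (𝟙_ T)} (hc : c ≠ 0) {j : ℤ} (Y : T) (y : R.Hm j Y) :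
    ∃ y' : R.Hm j Y, R.mp j (λ_ Y).hom (R.cup (zero_add j) (𝟙_ T) Y c y') = y := by
  have h1 : ∀ z : R.Hm j (𝟙_ T ⊗ Y), ∃ y' : R.Hm j Y, R.cup (zero_add j) (𝟙_ T) Y c y' = z := by
    intro z
    obtain ⟨a, rfl⟩ := (R.kunneth_bij (zero_add j) (Y := Y) R.unit_conc).2 z
    induction a using TensorProduct.induction_on with
    | zero => exact ⟨0, by rw [map_zero, map_zero]⟩
    | add a b ha hb =>
      obtain ⟨y1, h1⟩ := ha
      obtain ⟨y2, h2⟩ := hb
      exact ⟨y1 + y2, by rw [map_add, map_add, h1, h2]⟩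
    | tmul x y =>
      obtain ⟨r, hr⟩ := (finrank_eq_one_iff_of_nonzero' c hc).1 R.finrank_unit x
      refine ⟨r • y, ?_⟩
      rw [TensorProduct.lift.tmul, ← hr, map_smul, map_smul, LinearMap.smul_apply]
  obtain ⟨y', hy'⟩ := h1 (R.mp j (λ_ Y).inv y)
  refine ⟨y', ?_⟩
  rw [hy', ← mp_comp_apply, Iso.inv_hom_id, mp_id]
  rfl

lemma surj_unit' {c : R.Hm 0 (𝟙_ T)} (hc : c ≠ 0) {j : ℤ} (Y : T) (y : R.Hm j Y) :
    ∃ y' : R.Hm j Y, R.mp j (ρ_ Y).hom (R.cup (add_zero j) Y (𝟙_ T) y' c) = y := by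
  obtain ⟨y', hy'⟩ := R.surj_unit hc Y y
  have h1 := R.cup_comm (zero_add j) (add_zero j) (𝟙_ T) Y c y'
  change R.mp j (β_ (𝟙_ T) Y).hom _ = _ at h1
  have h2 : R.mp j (ρ_ Y).hom (R.mp j (β_ (𝟙_ T) Y).hom
      (R.cup (zero_add j) (𝟙_ T) Y c y')) = y := by
    rw [← mp_comp_apply, braiding_rightUnitor]
    exact hy'
  refine ⟨y', ?_⟩
  rw [h1] at h2
  simpa using h2

/-- The dual of an object concentrated in degree `n` is concentrated in degree `-n`. -/
lemma conc_dual {X Y : T} [ExactPairing X Y] {n : ℤ} (hX : R.ConcentratedIn n X) :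
    R.ConcentratedIn (-n) Y := by
  intro j hj
  obtain ⟨c, hc⟩ := R.nontrivial_unit
  have h0 : ∀ y : R.Hm j Y, y = 0 := by
    intro y
    obtain ⟨y', rfl⟩ := R.surj_unit' hc Y y
    have e1 := ExactPairing.coevaluation_evaluation X Y
    have e2 : (ρ_ Y).hom = (Y ◁ η_ X Y) ≫ (α_ Y X Y).inv ≫ (ε_ X Y ▷ Y) ≫ (λ_ Y).hom := by
      have := congrArg (fun z => z ≫ (λ_ Y).hom) e1
      simp only [assoc, Iso.inv_hom_id, comp_id] at this
      exact this.symm
    have h1 : ∀ z : R.Hm 0 (X ⊗ Y), R.mp j ((α_ Y X Y).inv ≫ (ε_ X Y ▷ Y) ≫ (λ_ Y).hom)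
        (R.cup (add_zero j) Y (X ⊗ Y) y' z) = 0 := by
      intro z
      have h2 := R.cup_span (show n + -n = 0 by ring) X Y (fun k hk => Or.inl (hX k hk)) z
      induction h2 using Submodule.span_induction with
      | mem z hz =>
        obtain ⟨x, y, rfl⟩ := hz
        rw [mp_comp_apply, R.cup_assoc_inv (rfl : j + n = j + n) (show j + n + -n = j by ring)
          (show n + -n = 0 by ring) (add_zero j), mp_comp_apply, cup_whiskerRight]
        have h3 : R.mp (j + n) (ε_ X Y) (R.cup rfl Y X y' x) = 0 :=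
          (R.unit_conc (j + n) (by lia)).elim _ _
        rw [h3, map_zero, LinearMap.zero_apply, map_zero]
      | zero => rw [map_zero, map_zero]
      | add a b _ _ ha hb => rw [map_add, map_add, ha, hb, add_zero]
      | smul c a _ ha => rw [map_smul, map_smul, ha, smul_zero]
    rw [e2, mp_comp_apply, cup_whiskerLeft]
    exact h1 _
  exact ⟨fun x y => (h0 x).trans (h0 y).symm⟩

end Realization

end Pool.Agent.Lib.MotT
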